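import Pool.Agent.Bqp.Minors

set_option autoImplicit false

namespace Pool.Agent.Bqp

/-- `C` is better-quasi-ordered by the relation `r`. -/
def Bqr {α : Type*} (r : α → α → Prop) (C : α → Prop) : Prop :=
  ∀ f : Set ℕ → α, (∀ X : Set ℕ, X.Infinite → C (f X)) → LocConst f →
    ∃ X : Set ℕ, X.Infinite ∧ r (f X) (f (tl X))

theorem bqo_iff (C : FG → Prop) : BQO C ↔ Bqr Minor C := Iff.rfl

theorem image_tl {e : ℕ → ℕ} (he : StrictMono e) {X : Set ℕ} (hX : X.Infinite) :
    e '' (tl X) = tl (e '' X) := by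
  have hm : sInf (e '' X) = e (sInf X) := by
    apply le_antisymm
    · exact Nat.sInf_le ⟨_, Nat.sInf_mem hX.nonempty, rfl⟩
    · apply le_csInf (hX.image he.injective.injOn).nonempty
      rintro b ⟨j, hj, rfl⟩
      exact he.monotone (Nat.sInf_le hj)
  simp only [tl]
  rw [hm, Set.image_sdiff he.injective, Set.image_singleton]

theorem bqr_on {α : Type*} {r : α → α → Prop} {C : α → Prop} (h : Bqr r C) {f : Set ℕ → α}
    (hc : LocConst f) {Y : Set ℕ} (hY : Y.Infinite) (hf : ∀ X : Set ℕ, X ⊆ Y → X.Infinite → C (f X)) :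
    ∃ X : Set ℕ, X ⊆ Y ∧ X.Infinite ∧ r (f X) (f (tl X)) := by
  obtain ⟨e, he, hr⟩ := enum_range Y hY
  have hsub : ∀ X : Set ℕ, e '' X ⊆ Y := fun X => by rw [← hr]; exact Set.image_subset_range _ _
  have hinf : ∀ X : Set ℕ, X.Infinite → (e '' X).Infinite := fun X hX => hX.image he.injective.injOn
  obtain ⟨X, hX, hM⟩ := h (fun X => f (e '' X)) (fun X hX => hf _ (hsub X) (hinf X hX))
    (locConst_image hc he)
  refine ⟨e '' X, hsub X, hinf X hX, ?_⟩
  rw [← image_tl he hX]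
  exact hM

theorem bqr_homog {α : Type*} {r : α → α → Prop} {C : α → Prop} (h : Bqr r C) {f : Set ℕ → α}
    (hc : LocConst f) {Y : Set ℕ} (hY : Y.Infinite) (hf : ∀ X : Set ℕ, X ⊆ Y → X.Infinite → C (f X)) :
    ∃ Z : Set ℕ, Z ⊆ Y ∧ Z.Infinite ∧ ∀ X : Set ℕ, X ⊆ Z → X.Infinite → r (f X) (f (tl X)) := by
  classical
  obtain ⟨Z, hZ, hZi, v, hv⟩ := ramsey_rel
    (locConst_comp (locConst_pair hc (locConst_tl hc)) (fun p => decide (r p.1 p.2))) hY
  refine ⟨Z, hZ, hZi, ?_⟩
  cases v with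
  | true =>
    intro X hX hXi
    have := hv X hX hXi
    simpa using this
  | false =>
    obtain ⟨X, hX, hXi, hr⟩ := bqr_on h hc hZi (fun X hX => hf X (hX.trans hZ))
    have := hv X hX hXi
    simp only [decide_eq_false_iff_not] at this
    exact absurd hr this

theorem bqr_prod {α β : Type*} {r : α → α → Prop} {s : β → β → Prop} {C : α → Prop} {D : β → Prop}
    (h : Bqr r C) (h' : Bqr s D) :
    Bqr (fun p q : α × β => r p.1 q.1 ∧ s p.2 q.2) (fun p => C p.1 ∧ D p.2) := by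
  intro f hf hc
  obtain ⟨Z, _, hZi, hr⟩ := bqr_homog h (locConst_comp hc Prod.fst) Set.infinite_univ
    (fun X _ hX => (hf X hX).1)
  obtain ⟨X, hX, hXi, hs⟩ := bqr_on h' (locConst_comp hc Prod.snd) hZi
    (fun X _ hX => (hf X hX).2)
  exact ⟨X, hXi, hr X hX hXi, hs⟩

theorem bqr_nat : Bqr (fun a b : ℕ => a ≤ b) (fun _ => True) := by
  intro f _ _
  by_contra hbad
  push Not at hbad
  exact no_desc f Set.infinite_univ (fun X _ hX => hbad X hX)

/-- Smyth order on finite sets -/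
theorem bqr_smyth {α : Type*} {r : α → α → Prop} {C : α → Prop} (h : Bqr r C) :
    Bqr (fun A B : Finset α => ∀ b ∈ B, ∃ a ∈ A, r a b) (fun A => ∀ a ∈ A, C a) := by
  classical
  intro F hF hc
  by_contra hbad
  push Not at hbad
  obtain ⟨b0, _, _⟩ := hbad Set.univ Set.infinite_univ
  let ch : Finset α × Finset α → α := fun p =>
    if h : ∃ b, b ∈ p.2 ∧ ∀ a ∈ p.1, ¬ r a b then h.choose else b0
  let g : Set ℕ → α := fun X => ch (F X, F (tl X))
  have hg : ∀ X : Set ℕ, X.Infinite → g X ∈ F (tl X) ∧ ∀ a ∈ F X, ¬ r a (g X) := by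
    intro X hX
    obtain ⟨b, hb, hb'⟩ := hbad X hX
    have h1 : ∃ b, b ∈ F (tl X) ∧ ∀ a ∈ F X, ¬ r a b := ⟨b, hb, hb'⟩
    have h2 : g X = h1.choose := by
      simp only [g, ch]
      rw [dif_pos h1]
    rw [h2]
    exact h1.choose_spec
  obtain ⟨X, hX, hr⟩ := h g (fun X hX => hF _ (tl_infinite hX) _ (hg X hX).1)
    (locConst_comp (locConst_pair hc (locConst_tl hc)) ch)
  exact (hg (tl X) (tl_infinite hX)).2 _ (hg X hX).1 hr

/-- a class mapped to a bqo with finitely many exceptions for each member is a bqo -/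
theorem crit {α : Type*} {r : α → α → Prop} {D : α → Prop} (hD : Bqr r D) (ρ : FG → α)
    (C : FG → Prop) (hρ : ∀ A, C A → D (ρ A))
    (hC : ∀ A, C A → ∃ N, ∀ B, C B → N ≤ B.1 → r (ρ A) (ρ B) → Minor A B) : BQO C := by
  classical
  intro f hf hc
  by_contra hbad
  push Not at hbad
  have hb : ∀ X : Set ℕ, X.Infinite → ¬ Minor (f X) (f (tl X)) := hbad
  have hC' : ∀ A, ∃ N, C A → ∀ B, C B → N ≤ B.1 → r (ρ A) (ρ B) → Minor A B := by
    intro A
    by_cases hA : C A
    · obtain ⟨N, hN⟩ := hC A hA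
      exact ⟨N, fun _ => hN⟩
    · exact ⟨0, fun h => absurd h hA⟩
  choose N hN using hC'
  let g : ℕ → ℕ := fun a => ∑ G : SimpleGraph (Fin a), N ⟨a, G⟩
  have hrel : ∀ A B, C A → C B → g A.1 ≤ B.1 → r (ρ A) (ρ B) → Minor A B := by
    rintro ⟨a, A⟩ B hA hB hAB hr
    apply hN ⟨a, A⟩ hA B hB _ hr
    refine le_trans ?_ hAB
    exact Finset.single_le_sum (f := fun G : SimpleGraph (Fin a) => N ⟨a, G⟩)
        (fun _ _ => Nat.zero_le _) (Finset.mem_univ A)
  obtain ⟨Z, _, hZi, hr⟩ := bqr_homog hD (locConst_comp hc ρ) Set.infinite_univ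
    (fun X _ hX => hρ _ (hf X hX))
  have hstep : ∀ X : Set ℕ, X ⊆ Z → X.Infinite → (f (tl X)).1 < g (f X).1 := by
    intro X hX hXi
    by_contra hcon
    exact hb X hXi (hrel _ _ (hf X hXi) (hf _ (tl_infinite hXi)) (by omega) (hr X hX hXi))
  obtain ⟨W, hW, hWi, B, hB⟩ := bound_rel (a := fun X => (f X).1)
    (locConst_comp hc Sigma.fst) g hZi hstep
  let κ := Σ n : Fin (B + 1), SimpleGraph (Fin n)
  let toF : κ → FG := fun x => ⟨x.1, x.2⟩
  let ofF : FG → κ := fun G => if h : G.1 < B + 1 then ⟨⟨G.1, h⟩, G.2⟩ else ⟨0, ⊥⟩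
  have hof : ∀ G : FG, G.1 ≤ B → toF (ofF G) = G := by
    intro G hG
    have h : G.1 < B + 1 := by omega
    simp only [ofF]
    rw [dif_pos h]
  obtain ⟨V, hV, hVi, v, hv⟩ := ramsey_rel (locConst_comp hc ofF) hWi
  apply hb V hVi
  have h1 : f V = toF v := by rw [← hof (f V) (hB V hV hVi), hv V le_rfl hVi]
  have h2 : f (tl V) = toF v := by
    rw [← hof (f (tl V)) (hB _ ((tl_subset V).trans hV) (tl_infinite hVi)),
      hv (tl V) (tl_subset V) (tl_infinite hVi)]
  rw [h1, h2]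
  exact minor_refl _

/-- finite disjoint unions of members of a bqo class form a bqo class -/
theorem union_closure (C : FG → Prop) (hC : BQO C) : BQO (UnionOf C) := by
  classical
  intro f hf hc
  by_contra hbad
  push Not at hbad
  have hb : ∀ X : Set ℕ, X.Infinite → ¬ Minor (f X) (f (tl X)) := hbad
  have hdec : ∀ G : FG, ∃ p : Σ r : ℕ, (Fin r → FG), UnionOf C G →
      (∀ i, C (p.2 i)) ∧ Nonempty (G.2 ≃g DU p.2) := by
    intro G
    by_cases h : UnionOf C G
    · obtain ⟨r, K, h1, h2⟩ := h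
      exact ⟨⟨r, K⟩, fun _ => ⟨h1, h2⟩⟩
    · exact ⟨⟨0, fun i => Fin.elim0 i⟩, fun h' => absurd h' h⟩
  choose dec hdec using hdec
  -- number of components above `U`
  let cnt : Finset FG → FG → ℕ := fun U G =>
    (Finset.univ.filter (fun i : Fin (dec G).1 => ∃ u ∈ U, Minor u ((dec G).2 i))).card
  -- Hall
  have hall : ∀ G H : FG, ∃ U : Finset FG, UnionOf C G → UnionOf C H → ¬ Minor G H →
      (∀ u ∈ U, C u) ∧ cnt U H < cnt U G := by
    intro G H
    by_cases hcase : UnionOf C G ∧ UnionOf C H ∧ ¬ Minor G H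
    · obtain ⟨hG, hH, hGH⟩ := hcase
      obtain ⟨h1, ⟨e⟩⟩ := hdec G hG
      obtain ⟨h1', ⟨e'⟩⟩ := hdec H hH
      let t : Fin (dec G).1 → Finset (Fin (dec H).1) := fun i =>
        Finset.univ.filter (fun j => Minor ((dec G).2 i) ((dec H).2 j))
      have hno : ¬ ∃ σ : Fin (dec G).1 → Fin (dec H).1, Function.Injective σ ∧ ∀ i, σ i ∈ t i := by
        rintro ⟨σ, hσ, hσt⟩
        apply hGH
        apply union_minor e e' σ hσ
        intro i
        exact (Finset.mem_filter.1 (hσt i)).2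
      rw [← Finset.all_card_le_biUnion_card_iff_exists_injective] at hno
      push Not at hno
      obtain ⟨S, hS⟩ := hno
      refine ⟨S.image (dec G).2, fun _ _ _ => ⟨?_, ?_⟩⟩
      · intro u hu
        obtain ⟨i, _, rfl⟩ := Finset.mem_image.1 hu
        exact h1 i
      · calc cnt (S.image (dec G).2) H ≤ (S.biUnion t).card := by
              apply Finset.card_le_card
              intro j hj
              obtain ⟨_, u, hu, hm⟩ := Finset.mem_filter.1 hj
              obtain ⟨i, hi, rfl⟩ := Finset.mem_image.1 hu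
              exact Finset.mem_biUnion.2 ⟨i, hi, Finset.mem_filter.2 ⟨Finset.mem_univ _, hm⟩⟩
          _ < S.card := hS
          _ ≤ cnt (S.image (dec G).2) G := by
              apply Finset.card_le_card
              intro i hi
              exact Finset.mem_filter.2 ⟨Finset.mem_univ _, _, Finset.mem_image_of_mem _ hi,
                minor_refl _⟩
    · exact ⟨∅, fun a b c => absurd ⟨a, b, c⟩ hcase⟩
  choose U hU using hall
  let UX : Set ℕ → Finset FG := fun X => U (f X) (f (tl X))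
  have hUX : ∀ X : Set ℕ, X.Infinite → (∀ u ∈ UX X, C u) ∧ cnt (UX X) (f (tl X)) < cnt (UX X) (f X) :=
    fun X hX => hU _ _ (hf X hX) (hf _ (tl_infinite hX)) (hb X hX)
  have hUc : LocConst UX :=
    locConst_comp (locConst_pair hc (locConst_tl hc)) (fun p => U p.1 p.2)
  obtain ⟨Z, _, hZi, hZ⟩ := bqr_homog (bqr_smyth ((bqo_iff C).1 hC)) hUc Set.infinite_univ
    (fun X _ hX => (hUX X hX).1)
  apply no_desc (fun X => cnt (UX X) (f X)) hZi
  intro X hX hXi
  refine lt_of_le_of_lt ?_ (hUX X hXi).2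
  apply Finset.card_le_card
  intro j hj
  obtain ⟨_, u', hu', hm⟩ := Finset.mem_filter.1 hj
  obtain ⟨u, hu, hm'⟩ := hZ X hX hXi u' hu'
  exact Finset.mem_filter.2 ⟨Finset.mem_univ _, u, hu, minor_trans hm' hm⟩

end Pool.Agent.Bqp
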