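import Mathlib

set_option autoImplicit false

namespace Pool.Agent.Bqp

/-- `(x, y)` is the `i`-th vertex of side `s` of the `a × b` array (0 left, 1 right, 2 bottom,
3 top). -/
def OnSide (a b : ℕ) (s : Fin 4) (x y i : ℕ) : Prop :=
  (s = 0 ∧ x = 0 ∧ i = y) ∨ (s = 1 ∧ x + 1 = a ∧ i = y) ∨
  (s = 2 ∧ y = 0 ∧ i = x) ∨ (s = 3 ∧ y + 1 = b ∧ i = x)

/-- number of vertices of side `s` of the `a × b` array -/
def sideLen (a b : ℕ) (s : Fin 4) : ℕ := if s = 0 ∨ s = 1 then b else a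

/-- A pattern for `k` patches: `P.1 u s v t r`: side `s` of patch `u` is joined to side `t` of
patch `v` in the way `r` (0: in order, 1: in reverse order, 2: completely);
`P.2 u e`: patch `u` has its edges of kind `e` (0 horizontal, 1 vertical, 2 and 3 diagonal). -/
abbrev Pattern (k : ℕ) : Type :=
  (Fin k → Fin 4 → Fin k → Fin 4 → Fin 3 → Bool) × (Fin k → Fin 4 → Bool)

/-- edges inside a patch; diagonals only in patches with horizontal and vertical edges -/
def Step (D : Fin 4 → Bool) (x y x' y' : ℕ) : Prop :=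
  (D 0 = true ∧ x' = x + 1 ∧ y' = y) ∨ (D 1 = true ∧ x' = x ∧ y' = y + 1) ∨
  (D 0 = true ∧ D 1 = true ∧ D 2 = true ∧ x' = x + 1 ∧ y' = y + 1) ∨
  (D 0 = true ∧ D 1 = true ∧ D 3 = true ∧ x' = x + 1 ∧ y = y' + 1)

/-- edges between sides -/
def Join {k : ℕ} (P : Pattern k) (a b : Fin k → ℕ) (u : Fin k) (x y : ℕ) (v : Fin k)
    (x' y' : ℕ) : Prop :=
  ∃ (s t : Fin 4) (r : Fin 3) (i j : ℕ), P.1 u s v t r = true ∧
    OnSide (a u) (b u) s x y i ∧ OnSide (a v) (b v) t x' y' j ∧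
    ((r = 0 ∧ i = j) ∨ (r = 1 ∧ i + j + 1 = sideLen (a u) (b u) s) ∨ r = 2)

/-- the graph assembled from the `a u × b u` arrays according to the pattern -/
def Patched {k : ℕ} (P : Pattern k) (a b : Fin k → ℕ) :
    SimpleGraph (Σ u : Fin k, Fin (a u) × Fin (b u)) :=
  SimpleGraph.fromRel (fun p q =>
    (p.1 = q.1 ∧ Step (P.2 p.1) p.2.1 p.2.2 q.2.1 q.2.2) ∨
    Join P a b p.1 p.2.1 p.2.2 q.1 q.2.1 q.2.2)

/-- sides joined in order or in reverse order have equal length -/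
def ValidP {k : ℕ} (P : Pattern k) (a b : Fin k → ℕ) : Prop :=
  ∀ u s v t r, P.1 u s v t r = true → r ≠ 2 → sideLen (a u) (b u) s = sideLen (a v) (b v) t

end Pool.Agent.Bqp
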