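import Pool.Agent.Bqp.Main
import Pool.Agent.Bqp.PDefs

set_option autoImplicit false

namespace Pool.Agent.Bqp

/-- A finite graph with attachments to external vertices: `T.2 v l = true` says that the vertex
`v` is joined to the external vertex `l : ι`. -/
abbrev LG (ι : Type) : Type := Σ G : FG, (Fin G.1 → ι → Bool)

/-- the same, with `q` distinct marked vertices -/
abbrev MK (ι : Type) (q : ℕ) : Type := Σ T : LG ι, (Fin q ↪ Fin T.1.1)

/-- `T` is isomorphic to the graph `G` with the attachments `A`. -/
def LIso {ι : Type} (T : LG ι) {V : Type} (G : SimpleGraph V) (A : V → ι → Prop) : Prop :=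
  ∃ e : T.1.2 ≃g G, ∀ v l, T.2 v l = true ↔ A (e v) l

/-- attachments which are constant on every array (`Q u 4 l`) and on every side of every array
(`Q u s l`, `s < 4`) -/
def Uni {p : ℕ} {ι : Type} (Q : Fin p → Fin 5 → ι → Bool) (a b : Fin p → ℕ)
    (x : Σ u : Fin p, Fin (a u) × Fin (b u)) (l : ι) : Prop :=
  Q x.1 4 l = true ∨ ∃ (s : Fin 4) (j : ℕ), Q x.1 s.castSucc l = true ∧
    OnSide (a x.1) (b x.1) s x.2.1 x.2.2 j

/-- the graph obtained from `U` by making the external vertex `none` internal -/
def ApexG {ι : Type} (U : LG (Option ι)) : SimpleGraph (Option (Fin U.1.1)) :=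
  SimpleGraph.fromRel (fun x y => match x, y with
    | some u, some v => U.1.2.Adj u v
    | none, some v => U.2 v none = true
    | _, none => False)

/-- its attachments: the new vertex is joined to the external vertices `l` with `M l` -/
def ApexA {ι : Type} (U : LG (Option ι)) (M : ι → Bool) : Option (Fin U.1.1) → ι → Prop
  | some v, l => U.2 v (some l) = true
  | none, l => M l = true

open Classical in
/-- the marked vertices of `S` encoded as attachments: the mark `s` is the only vertex joined to
the external vertex `Sum.inr s` -/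
noncomputable def markAtt {ι : Type} {q : ℕ} (S : MK ι q) : LG (ι ⊕ Fin q) :=
  ⟨S.1.1, fun v l => match l with
    | Sum.inl l => S.1.2 v l
    | Sum.inr s => decide (v = S.2 s)⟩

/-- there are disjoint connected sets of vertices joining `x s` to `y s` -/
def Linked {m : ℕ} (G : FG) (x y : Fin m → Fin G.1) : Prop :=
  ∃ B : Fin m → Set (Fin G.1), (∀ s, (G.2.induce (B s)).Connected ∧ x s ∈ B s ∧ y s ∈ B s) ∧
    ∀ s s', s ≠ s' → Disjoint (B s) (B s')

/-- the vertices of `S` -/
abbrev KV {ι : Type} {q : ℕ} (S : MK ι q) : Type := Fin S.1.1.1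

/-- adjacency in `S` -/
abbrev kadj {ι : Type} {q : ℕ} (S : MK ι q) (a b : KV S) : Prop := S.1.1.2.Adj a b

/-- `a` is joined to the external vertex `l` -/
abbrev katt {ι : Type} {q : ℕ} (S : MK ι q) (a : KV S) (l : ι) : Prop := S.1.2 a l = true

/-- the marked vertex `s` -/
abbrev kmark {ι : Type} {q : ℕ} (S : MK ι q) (s : Fin q) : KV S := S.2 s

/-- The core `C` and the pieces `K j` are included in `G` by the maps `α` and `β j`; the root `s`
of `K j` is identified with the marked vertex `i j s` of `C`, and nothing else is identified. -/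
structure GlueMaps {ι : Type} {q m n : ℕ} (C : MK ι q) (K : Fin n → MK ι m)
    (i : Fin n → Fin m → Fin q) (G : MK ι m) (α : KV C → KV G) (β : ∀ j, KV (K j) → KV G) :
    Prop where
  inj : Function.Injective α
  injb : ∀ j, Function.Injective (β j)
  root : ∀ j s, β j (kmark (K j) s) = α (kmark C (i j s))
  off : ∀ j v, (∀ s, v ≠ kmark (K j) s) → ∀ a, β j v ≠ α a
  disj : ∀ j j' v v', (∀ s, v ≠ kmark (K j) s) → β j v = β j' v' → j = j'
  cover : ∀ x, (∃ a, x = α a) ∨ ∃ j v, x = β j v

/-- `G` is obtained from the core `C` by gluing the pieces `K j` (any number of them): the edges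
and attachments of `G` are those of `C` and of the `K j`. The root `s` of `G` is the marked vertex
`r s` of `C`. -/
structure IsGlue {ι : Type} {q m n : ℕ} (r : Fin m → Fin q) (C : MK ι q) (K : Fin n → MK ι m)
    (i : Fin n → Fin m → Fin q) (G : MK ι m) (α : KV C → KV G) (β : ∀ j, KV (K j) → KV G) :
    Prop where
  maps : GlueMaps C K i G α β
  groot : ∀ s, kmark G s = α (kmark C (r s))
  adj : ∀ x y, kadj G x y ↔ (∃ a b, x = α a ∧ y = α b ∧ kadj C a b) ∨
    ∃ j u v, x = β j u ∧ y = β j v ∧ kadj (K j) u v
  att : ∀ x l, katt G x l ↔ (∃ a, x = α a ∧ katt C a l) ∨ ∃ j u, x = β j u ∧ katt (K j) u l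

/-- Graphs with `m` roots glued in a tree-like fashion (any height, any degree) from cores with `q`
marked vertices. The roots are the marked vertices `r s` of the core at the root of the tree; in
every core the roots are linked to the vertices to which a piece is glued. -/
inductive TreeGlued {ι : Type} {m q : ℕ} (r : Fin m → Fin q) (Core : MK ι q → Prop) :
    MK ι m → Prop
  | glue (G : MK ι m) (C : MK ι q) (n : ℕ) (K : Fin n → MK ι m) (i : Fin n → Fin m → Fin q)
      (α : KV C → KV G) (β : ∀ j, KV (K j) → KV G) (hC : Core C)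
      (hK : ∀ j, TreeGlued r Core (K j)) (hG : IsGlue r C K i G α β)
      (hL : ∀ j, Linked C.1.1 (fun s => kmark C (r s)) (fun s => kmark C (i j s))) :
      TreeGlued r Core G

/-- assembled from at most `p` rectangular arrays, with uniform attachments -/
def PatchBase (p : ℕ) (ι : Type) (T : LG ι) : Prop :=
  ∃ (Q : Fin p → Fin 5 → ι → Bool) (P : Pattern p) (a b : Fin p → ℕ),
    ValidP P a b ∧ LIso T (Patched P a b) (Uni Q a b)

/-- a graph of the class `F` with one external vertex made internal -/
def ApexOf (F : (ι : Type) → LG ι → Prop) (ι : Type) (T : LG ι) : Prop :=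
  ∃ (U : LG (Option ι)) (M : ι → Bool), F (Option ι) U ∧ LIso T (ApexG U) (ApexA U M)

/-- glued in a tree-like fashion from cores of the class `F` with at most `p` marked vertices -/
def TreeOf (p : ℕ) (F : (ι : Type) → LG ι → Prop) (ι : Type) (T : LG ι) : Prop :=
  ∃ (m q : ℕ) (r : Fin m → Fin q) (G : MK ι m), m ≤ p ∧ q ≤ p ∧
    TreeGlued r (fun C => F (ι ⊕ Fin q) (markAtt C)) G ∧ T = G.1

/-- Depth 0: assembled from at most `p` rectangular arrays, with uniform attachments. Depth
`d + 1`: an external vertex of a graph of depth `d` is made internal, or cores of depth `d` with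
at most `p` marked vertices are glued in a tree-like fashion. -/
def PatchTree (p : ℕ) : ℕ → (ι : Type) → LG ι → Prop
  | 0 => PatchBase p
  | d + 1 => fun ι T => ApexOf (PatchTree p d) ι T ∨ TreeOf p (PatchTree p d) ι T

end Pool.Agent.Bqp
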