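import Pool.Agent.Bqp.GTools

set_option autoImplicit false

namespace Pool.Agent.Bqp

theorem markAtt_inl {ι : Type} {q : ℕ} (S : MK ι q) (v : Fin S.1.1.1) (l : ι) :
    (markAtt S).2 v (Sum.inl l) = S.1.2 v l := rfl

theorem markAtt_inr {ι : Type} {q : ℕ} (S : MK ι q) (v : Fin S.1.1.1) (s : Fin q) :
    (markAtt S).2 v (Sum.inr s) = true ↔ v = S.2 s := by
  classical
  exact decide_eq_true_iff

/-- minors respecting attachments and marked vertices -/
def KMinor {ι : Type} {q : ℕ} (S T : MK ι q) : Prop := LMinor (markAtt S) (markAtt T)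

theorem kminor_trans {ι : Type} {q : ℕ} {A B C : MK ι q} (h : KMinor A B) (h' : KMinor B C) :
    KMinor A C := lminor_trans h h'

theorem kminor_iff {ι : Type} {q : ℕ} {S T : MK ι q} : KMinor S T ↔
    ∃ φ : Fin S.1.1.1 → Set (Fin T.1.1.1),
    (∀ v, (T.1.1.2.induce (φ v)).Connected) ∧ (∀ v w, v ≠ w → Disjoint (φ v) (φ w)) ∧
    (∀ v w, S.1.1.2.Adj v w → ∃ a ∈ φ v, ∃ b ∈ φ w, T.1.1.2.Adj a b) ∧
    (∀ v l, S.1.2 v l = true → ∃ a ∈ φ v, T.1.2 a l = true) ∧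
    (∀ s, T.2 s ∈ φ (S.2 s)) := by
  constructor
  · rintro ⟨φ, a1, a2, a3, a4⟩
    refine ⟨φ, a1, a2, a3, fun v l h => ?_, fun s => ?_⟩
    · obtain ⟨a, ha, h'⟩ := a4 v (Sum.inl l) h
      exact ⟨a, ha, h'⟩
    · obtain ⟨a, ha, h'⟩ := a4 (S.2 s) (Sum.inr s) ((markAtt_inr S _ s).2 rfl)
      have h2 := (markAtt_inr T a s).1 h'
      rw [← h2]
      exact ha
  · rintro ⟨φ, a1, a2, a3, a4, a5⟩
    refine ⟨φ, a1, a2, a3, fun v l h => ?_⟩
    cases l with
    | inl l => exact a4 v l h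
    | inr s =>
      have h2 := (markAtt_inr S v s).1 h
      refine ⟨T.2 s, ?_, (markAtt_inr T _ s).2 rfl⟩
      have h3 := a5 s
      rw [← h2] at h3
      exact h3

theorem kminor_fst {ι : Type} {q : ℕ} {S T : MK ι q} (h : KMinor S T) : LMinor S.1 T.1 := by
  obtain ⟨φ, a1, a2, a3, a4, _⟩ := kminor_iff.1 h
  exact ⟨φ, a1, a2, a3, a4⟩

/-- the same data in the form used in the proofs -/
structure IsGlueX {ι : Type} {q m n : ℕ} (C : MK ι q) (K : Fin n → MK ι m)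
    (i : Fin n → Fin m → Fin q) (G : LG ι) (α : Fin C.1.1.1 → Fin G.1.1)
    (β : ∀ j, Fin (K j).1.1.1 → Fin G.1.1) : Prop where
  inj : Function.Injective α
  injb : ∀ j, Function.Injective (β j)
  root : ∀ j s, β j ((K j).2 s) = α (C.2 (i j s))
  off : ∀ j v, v ∉ Set.range (K j).2 → β j v ∉ Set.range α
  disj : ∀ j j' v v', v ∉ Set.range (K j).2 → β j v = β j' v' → j = j'
  cover : ∀ x, x ∈ Set.range α ∨ ∃ j, x ∈ Set.range (β j)
  adj : ∀ x y, G.1.2.Adj x y ↔ (∃ a b, x = α a ∧ y = α b ∧ C.1.1.2.Adj a b) ∨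
    ∃ j u v, x = β j u ∧ y = β j v ∧ (K j).1.1.2.Adj u v
  att : ∀ x l, G.2 x l = true ↔ (∃ a, x = α a ∧ C.1.2 a l = true) ∨
    ∃ j u, x = β j u ∧ (K j).1.2 u l = true

theorem isGlueX {ι : Type} {m q n : ℕ} {r : Fin m → Fin q} {C : MK ι q} {K : Fin n → MK ι m}
    {i : Fin n → Fin m → Fin q} {G : MK ι m} {α : KV C → KV G} {β : ∀ j, KV (K j) → KV G}
    (h : IsGlue r C K i G α β) : IsGlueX C K i G.1 α β := by
  have hv : ∀ j (v : KV (K j)), v ∉ Set.range (K j).2 → ∀ s, v ≠ kmark (K j) s :=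
    fun j v hv s hs => hv ⟨s, hs.symm⟩
  refine ⟨h.maps.inj, h.maps.injb, h.maps.root, fun j v hj ha => ?_, fun j j' v v' hj hjj => ?_,
    fun x => ?_, h.adj, h.att⟩
  · obtain ⟨a, ha⟩ := ha
    exact h.maps.off j v (hv j v hj) a ha.symm
  · exact h.maps.disj j j' v v' (hv j v hj) hjj
  · rcases h.maps.cover x with ⟨a, ha⟩ | ⟨j, v, hv⟩
    · exact Or.inl ⟨a, ha.symm⟩
    · exact Or.inr ⟨j, v, hv.symm⟩

/-- every glued piece is a rooted minor of the whole graph -/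
theorem piece_minor {ι : Type} {m q n : ℕ} {r : Fin m → Fin q} {C : MK ι q} {K : Fin n → MK ι m}
    {i : Fin n → Fin m → Fin q} {G : MK ι m} {α : Fin C.1.1.1 → Fin G.1.1.1}
    {β : ∀ j, Fin (K j).1.1.1 → Fin G.1.1.1} (hG : IsGlueX C K i G.1 α β)
    (hr : ∀ s, G.2 s = α (C.2 (r s))) (j : Fin n)
    (hL : Linked C.1.1 (fun s => C.2 (r s)) (fun s => C.2 (i j s))) : KMinor (K j) G := by
  classical
  obtain ⟨B, hB1, hB2⟩ := hL
  let φ : Fin (K j).1.1.1 → Set (Fin G.1.1.1) := fun v =>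
    if h : ∃ s, (K j).2 s = v then α '' B h.choose else {β j v}
  have f1 : ∀ s, φ ((K j).2 s) = α '' B s := by
    intro s
    have h : ∃ s', (K j).2 s' = (K j).2 s := ⟨s, rfl⟩
    have h1 : φ ((K j).2 s) = α '' B h.choose := dif_pos h
    rw [h1]
    have h2 : h.choose = s := (K j).2.injective h.choose_spec
    rw [h2]
  have f2 : ∀ v, v ∉ Set.range (K j).2 → φ v = {β j v} := by
    intro v hv
    exact dif_neg (fun h => hv h)
  have f3 : ∀ v, β j v ∈ φ v := by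
    intro v
    by_cases hv : v ∈ Set.range (K j).2
    · obtain ⟨s, rfl⟩ := hv
      rw [f1, hG.root]
      exact ⟨_, (hB1 s).2.2, rfl⟩
    · rw [f2 v hv]; rfl
  have hαadj : ∀ x y, C.1.1.2.Adj x y → G.1.1.2.Adj (α x) (α y) := fun x y h =>
    (hG.adj _ _).2 (Or.inl ⟨x, y, rfl, rfl, h⟩)
  rw [kminor_iff]
  refine ⟨φ, ?_, ?_, ?_, ?_, ?_⟩
  · intro v
    by_cases hv : v ∈ Set.range (K j).2
    · obtain ⟨s, rfl⟩ := hv
      rw [f1]
      exact conn_image (hB1 s).1 α hαadj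
    · rw [f2 v hv]
      exact conn_single _ _
  · intro v w hvw
    by_cases hv : v ∈ Set.range (K j).2
    · obtain ⟨s, rfl⟩ := hv
      by_cases hw : w ∈ Set.range (K j).2
      · obtain ⟨s', rfl⟩ := hw
        rw [f1, f1]
        have hss : s ≠ s' := fun h => hvw (by rw [h])
        exact (Set.disjoint_image_iff hG.inj).2 (hB2 s s' hss)
      · rw [f1, f2 w hw, Set.disjoint_singleton_right]
        rintro ⟨b, _, hb⟩
        exact hG.off j w hw ⟨b, hb⟩
    · by_cases hw : w ∈ Set.range (K j).2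
      · obtain ⟨s', rfl⟩ := hw
        rw [f1, f2 v hv, Set.disjoint_singleton_left]
        rintro ⟨b, _, hb⟩
        exact hG.off j v hv ⟨b, hb⟩
      · rw [f2 v hv, f2 w hw, Set.disjoint_singleton]
        exact fun h => hvw (hG.injb j h)
  · intro v w h
    exact ⟨_, f3 v, _, f3 w, (hG.adj _ _).2 (Or.inr ⟨j, v, w, rfl, rfl, h⟩)⟩
  · intro v l h
    exact ⟨_, f3 v, (hG.att _ _).2 (Or.inr ⟨j, v, rfl, h⟩)⟩
  · intro s
    rw [hr s, f1]
    exact ⟨_, (hB1 s).2.1, rfl⟩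

/-- gluing is monotone -/
theorem glue_mono {ι : Type} {m q n n' : ℕ} {r : Fin m → Fin q} {C C' : MK ι q}
    {K : Fin n → MK ι m} {K' : Fin n' → MK ι m} {i : Fin n → Fin m → Fin q}
    {i' : Fin n' → Fin m → Fin q} {G G' : MK ι m} {α : Fin C.1.1.1 → Fin G.1.1.1}
    {β : ∀ j, Fin (K j).1.1.1 → Fin G.1.1.1} {α' : Fin C'.1.1.1 → Fin G'.1.1.1}
    {β' : ∀ j, Fin (K' j).1.1.1 → Fin G'.1.1.1} (hG : IsGlueX C K i G.1 α β)
    (hr : ∀ s, G.2 s = α (C.2 (r s))) (hG' : IsGlueX C' K' i' G'.1 α' β')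
    (hr' : ∀ s, G'.2 s = α' (C'.2 (r s))) (hC : KMinor C C')
    (σ : Fin n → Fin n') (hσ : Function.Injective σ) (hi : ∀ j, i j = i' (σ j))
    (hK : ∀ j, KMinor (K j) (K' (σ j))) : KMinor G G' := by
  classical
  obtain ⟨φ, c1, c2, c3, c4, c5⟩ := kminor_iff.1 hC
  choose ψ d1 d2 d3 d4 d5 using fun j => kminor_iff.1 (hK j)
  let Φ : Fin G.1.1.1 → Set (Fin G'.1.1.1) := fun x =>
    {z | (∃ a, x = α a ∧ ∃ b ∈ φ a, z = α' b) ∨
      ∃ j u, x = β j u ∧ ∃ w ∈ ψ j u, z = β' (σ j) w}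
  -- roots
  have hroot : ∀ j s, β' (σ j) ((K' (σ j)).2 s) = α' (C'.2 (i j s)) := by
    intro j s
    rw [hG'.root, hi j]
  -- a point of a piece which is in the range of `α'` is a root
  have hrt : ∀ j w, β' (σ j) w ∈ Set.range α' → ∃ s, w = (K' (σ j)).2 s := by
    intro j w h
    by_contra hcon
    push Not at hcon
    exact hG'.off (σ j) w (by rintro ⟨s, hs⟩; exact hcon s hs.symm) h
  have hrt2 : ∀ j u s, (K' (σ j)).2 s ∈ ψ j u → u = (K j).2 s := by
    intro j u s h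
    by_contra hcon
    exact Set.disjoint_left.1 (d2 j _ _ hcon) h (d5 j s)
  have hdis : ∀ x y, x ≠ y → Disjoint (Φ x) (Φ y) := by
    intro x y hxy
    rw [Set.disjoint_left]
    rintro z hz hz'
    apply hxy
    rcases hz with ⟨a, rfl, b, hb, rfl⟩ | ⟨j, u, rfl, w, hw, rfl⟩
    · rcases hz' with ⟨a', rfl, b', hb', h⟩ | ⟨j', u', rfl, w', hw', h⟩
      · have h1 := hG'.inj h
        subst h1
        by_contra hcon
        exact Set.disjoint_left.1 (c2 a a' (fun h => hcon (by rw [h]))) hb hb'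
      · obtain ⟨s, rfl⟩ := hrt j' w' ⟨b, h⟩
        have h1 := hrt2 j' u' s hw'
        subst h1
        rw [hroot] at h
        have h2 := hG'.inj h
        subst h2
        rw [hG.root]
        by_contra hcon
        exact Set.disjoint_left.1 (c2 a (C.2 (i j' s)) (fun h => hcon (by rw [h]))) hb (c5 _)
    · rcases hz' with ⟨a', rfl, b', hb', h⟩ | ⟨j', u', rfl, w', hw', h⟩
      · obtain ⟨s, rfl⟩ := hrt j w ⟨b', h.symm⟩
        have h1 := hrt2 j u s hw
        subst h1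
        rw [hroot] at h
        have h2 := hG'.inj h
        subst h2
        rw [hG.root]
        by_contra hcon
        exact Set.disjoint_left.1 (c2 a' (C.2 (i j s)) (fun h => hcon (by rw [h]))) hb' (c5 _)
      · by_cases hwr : w ∈ Set.range (K' (σ j)).2
        · obtain ⟨s, rfl⟩ := hwr
          have h1 := hrt2 j u s hw
          subst h1
          obtain ⟨s', rfl⟩ := hrt j' w' ⟨C'.2 (i j s), by rw [← hroot]; exact h⟩
          have h1 := hrt2 j' u' s' hw'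
          subst h1
          rw [hroot, hroot] at h
          have h2 := hG'.inj h
          rw [hG.root, hG.root]
          by_contra hcon
          have h3 := c5 (i j' s')
          rw [← h2] at h3
          exact Set.disjoint_left.1 (c2 (C.2 (i j s)) (C.2 (i j' s')) (fun h => hcon (by rw [h])))
            (c5 _) h3
        · have h1 := hσ (hG'.disj _ _ w w' hwr h)
          subst h1
          have h2 := hG'.injb _ h
          subst h2
          by_contra hcon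
          exact Set.disjoint_left.1 (d2 j u u' (fun h => hcon (by rw [h]))) hw hw'
  have hα' : ∀ x y, C'.1.1.2.Adj x y → G'.1.1.2.Adj (α' x) (α' y) := fun x y h =>
    (hG'.adj _ _).2 (Or.inl ⟨x, y, rfl, rfl, h⟩)
  have hβ' : ∀ j x y, (K' j).1.1.2.Adj x y → G'.1.1.2.Adj (β' j x) (β' j y) := fun j x y h =>
    (hG'.adj _ _).2 (Or.inr ⟨j, x, y, rfl, rfl, h⟩)
  rw [kminor_iff]
  refine ⟨Φ, ?_, hdis, ?_, ?_, ?_⟩
  · intro x
    by_cases hx : x ∈ Set.range α
    · obtain ⟨a, rfl⟩ := hx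
      obtain ⟨⟨b0, hb0⟩⟩ := (c1 a).nonempty
      have hA : (G'.1.1.2.induce (α' '' φ a)).Connected := conn_image (c1 a) _ hα'
      apply SimpleGraph.induce_connected_of_patches (α' b0) (Or.inl ⟨a, rfl, b0, hb0, rfl⟩)
      intro z hz
      have hsub : α' '' φ a ⊆ Φ (α a) := by
        rintro _ ⟨b, hb, rfl⟩
        exact Or.inl ⟨a, rfl, b, hb, rfl⟩
      rcases hz with ⟨a', ha', b, hb, rfl⟩ | ⟨j, u, hu, w, hw, rfl⟩
      · have h1 := hG.inj ha'
        subst h1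
        exact ⟨α' '' φ a, hsub, ⟨b0, hb0, rfl⟩, ⟨b, hb, rfl⟩, hA.preconnected _ _⟩
      · have hur : ∃ s, u = (K j).2 s := by
          by_contra hcon
          push Not at hcon
          exact hG.off j u (by rintro ⟨s, hs⟩; exact hcon s hs.symm) ⟨a, hu⟩
        obtain ⟨s, rfl⟩ := hur
        rw [hG.root] at hu
        have h1 := hG.inj hu
        subst h1
        have hB : (G'.1.1.2.induce (β' (σ j) '' ψ j ((K j).2 s))).Connected :=
          conn_image (d1 j _) _ (hβ' _)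
        have hU := SimpleGraph.induce_union_connected hA.preconnected hB.preconnected
          ⟨α' (C'.2 (i j s)), ⟨_, c5 _, rfl⟩, ⟨_, d5 j s, hroot j s⟩⟩
        refine ⟨_, ?_, Or.inl ⟨b0, hb0, rfl⟩, Or.inr ⟨w, hw, rfl⟩, hU _ _⟩
        rintro _ (⟨b, hb, rfl⟩ | ⟨y, hy, rfl⟩)
        · exact Or.inl ⟨_, rfl, b, hb, rfl⟩
        · exact Or.inr ⟨j, _, (hG.root j s).symm, y, hy, rfl⟩
    · obtain ⟨j, u, rfl⟩ := (hG.cover x).resolve_left hx
      have hur : u ∉ Set.range (K j).2 := by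
        rintro ⟨s, rfl⟩
        exact hx ⟨_, (hG.root j s).symm⟩
      have hΦ : Φ (β j u) = β' (σ j) '' ψ j u := by
        ext z
        constructor
        · rintro (⟨a, ha, _⟩ | ⟨j', u', hu', w, hw, rfl⟩)
          · exact absurd ⟨a, ha.symm⟩ hx
          · have h1 := hG.disj _ _ _ _ hur hu'
            subst h1
            have h2 := hG.injb _ hu'
            subst h2
            exact ⟨w, hw, rfl⟩
        · rintro ⟨w, hw, rfl⟩
          exact Or.inr ⟨j, u, rfl, w, hw, rfl⟩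
      rw [hΦ]
      exact conn_image (d1 j u) _ (hβ' _)
  · intro x y h
    rcases (hG.adj x y).1 h with ⟨a, b, rfl, rfl, h0⟩ | ⟨j, u, v, rfl, rfl, h0⟩
    · obtain ⟨a', ha', b', hb', h'⟩ := c3 a b h0
      exact ⟨_, Or.inl ⟨a, rfl, a', ha', rfl⟩, _, Or.inl ⟨b, rfl, b', hb', rfl⟩, hα' _ _ h'⟩
    · obtain ⟨a', ha', b', hb', h'⟩ := d3 j u v h0
      exact ⟨_, Or.inr ⟨j, u, rfl, a', ha', rfl⟩, _, Or.inr ⟨j, v, rfl, b', hb', rfl⟩,
        hβ' _ _ _ h'⟩
  · intro x l h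
    rcases (hG.att x l).1 h with ⟨a, rfl, h0⟩ | ⟨j, u, rfl, h0⟩
    · obtain ⟨a', ha', h'⟩ := c4 a l h0
      exact ⟨_, Or.inl ⟨a, rfl, a', ha', rfl⟩, (hG'.att _ _).2 (Or.inl ⟨a', rfl, h'⟩)⟩
    · obtain ⟨a', ha', h'⟩ := d4 j u l h0
      exact ⟨_, Or.inr ⟨j, u, rfl, a', ha', rfl⟩, (hG'.att _ _).2 (Or.inr ⟨_, a', rfl, h'⟩)⟩
  · intro s
    rw [hr, hr']
    exact Or.inl ⟨_, rfl, _, c5 _, rfl⟩

end Pool.Agent.Bqp
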