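import Pool.Agent.Bqp.Prism
import Pool.Agent.Bqp.PDefs

set_option autoImplicit false

namespace Pool.Agent.Bqp

/-- the projection of `0, ..., n' - 1` onto `0, ..., n - 1` with the fibres in the middle -/
def pr (n n' j : ℕ) : ℕ :=
  if 2 * j < n' then min j ((n - 1) / 2) else max (j - (n' - n)) (n / 2)

/-- a symmetric section of the projection -/
def sec (n n' i : ℕ) : ℕ :=
  if 2 * i + 1 < n then i else if 2 * i + 1 = n then (n' - 1) / 2 else i + (n' - n)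

/-- `n ≤ n'`, with the same parity, and both are equal to one or none is -/
def Ext (n n' : ℕ) : Prop := n ≤ n' ∧ n % 2 = n' % 2 ∧ (n = 1 ↔ n' = 1)

theorem pr_mono {n n' j k : ℕ} (h : j ≤ k) : pr n n' j ≤ pr n n' k := by
  unfold pr
  split_ifs <;> omega

theorem pr_zero {n n' : ℕ} (h : 1 ≤ n) (hn : n ≤ n') : pr n n' 0 = 0 := by
  unfold pr
  split_ifs <;> omega

theorem pr_last {n n' : ℕ} (h : 1 ≤ n) (hn : n ≤ n') : pr n n' (n' - 1) = n - 1 := by
  unfold pr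
  split_ifs <;> omega

theorem pr_step {n n' i : ℕ} (hn : n ≤ n') (hi : i + 1 < n) :
    ∃ j, j + 1 < n' ∧ pr n n' j = i ∧ pr n n' (j + 1) = i + 1 := by
  by_cases h1 : i + 1 ≤ (n - 1) / 2
  · refine ⟨i, by omega, ?_, ?_⟩ <;> unfold pr <;> split_ifs <;> omega
  · by_cases h2 : n / 2 ≤ i
    · refine ⟨i + (n' - n), by omega, ?_, ?_⟩ <;> unfold pr <;> split_ifs <;> omega
    · refine ⟨(n' - 1) / 2, by omega, ?_, ?_⟩ <;> unfold pr <;> split_ifs <;> omega

theorem sec_lt {n n' i : ℕ} (h : Ext n n') (hi : i < n) : sec n n' i < n' := by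
  obtain ⟨h1, h2, h3⟩ := h
  unfold sec
  split_ifs <;> omega

theorem pr_sec {n n' i : ℕ} (h : Ext n n') (hi : i < n) : pr n n' (sec n n' i) = i := by
  obtain ⟨h1, h2, h3⟩ := h
  unfold sec pr
  split_ifs <;> omega

theorem sec_rev {n n' i j : ℕ} (h : Ext n n') (hij : i + j + 1 = n) :
    sec n n' i + sec n n' j + 1 = n' := by
  obtain ⟨h1, h2, h3⟩ := h
  unfold sec
  split_ifs <;> omega

theorem sec_inj {n n' i j : ℕ} (h : Ext n n') (hi : i < n) (hj : j < n)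
    (hij : sec n n' i = sec n n' j) : i = j := by
  rw [← pr_sec h hi, hij, pr_sec h hj]

theorem sec_zero {n n' : ℕ} (h : Ext n n') (hn : 1 ≤ n) : sec n n' 0 = 0 := by
  obtain ⟨h1, h2, h3⟩ := h
  unfold sec
  split_ifs <;> omega

theorem sec_last {n n' : ℕ} (h : Ext n n') (hn : 1 ≤ n) : sec n n' (n - 1) = n' - 1 := by
  obtain ⟨h1, h2, h3⟩ := h
  unfold sec
  split_ifs <;> omega

/-- `G` can be assembled from at most `k` rectangular arrays. -/
def PatchNumberLE (k : ℕ) (G : FG) : Prop :=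
  ∃ (P : Pattern k) (a b : Fin k → ℕ), ValidP P a b ∧ Nonempty (G.2 ≃g Patched P a b)

/-- `c` is in the fibre of `x` (path-like direction) or is its chosen point (otherwise) -/
def InF (D : Bool) (n n' x c : ℕ) : Prop :=
  (D = true ∧ pr n n' c = x) ∨ (D = false ∧ c = sec n n' x)

theorem inF_sec {D : Bool} {n n' x : ℕ} (h : Ext n n') (hx : x < n) : InF D n n' x (sec n n' x) := by
  cases D with
  | true => exact Or.inl ⟨rfl, pr_sec h hx⟩
  | false => exact Or.inr ⟨rfl, rfl⟩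

theorem inF_unique {D : Bool} {n n' x x' c : ℕ} (h : Ext n n') (hx : x < n) (hx' : x' < n)
    (h1 : InF D n n' x c) (h2 : InF D n n' x' c) : x = x' := by
  rcases h1 with ⟨e, h1⟩ | ⟨e, h1⟩ <;> rcases h2 with ⟨e', h2⟩ | ⟨e', h2⟩
  · rw [← h1, ← h2]
  · rw [e] at e'; exact absurd e' (by decide)
  · rw [e] at e'; exact absurd e' (by decide)
  · exact sec_inj h hx hx' (h1.symm.trans h2)

theorem side_lift {D D' : Bool} {a b a' b' : ℕ} {s : Fin 4} {x y i : ℕ} (hx : x < a) (hy : y < b)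
    (ha : Ext a a') (hb : Ext b b') (h : OnSide a b s x y i) :
    ∃ c d, c < a' ∧ d < b' ∧ OnSide a' b' s c d (sec (sideLen a b s) (sideLen a' b' s) i) ∧
      InF D a a' x c ∧ InF D' b b' y d := by
  have ha1 := ha.1
  have hb1 := hb.1
  rcases h with ⟨rfl, h1, h2⟩ | ⟨rfl, h1, h2⟩ | ⟨rfl, h1, h2⟩ | ⟨rfl, h1, h2⟩
  · simp only [sideLen, true_or, if_true]
    subst h1; subst h2
    refine ⟨0, sec b b' i, by omega, sec_lt hb hy, Or.inl ⟨rfl, rfl, rfl⟩, ?_, inF_sec hb hy⟩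
    have := inF_sec (D := D) ha hx
    rwa [sec_zero ha (by omega)] at this
  · simp only [sideLen, or_true, if_true]
    subst h2
    refine ⟨a' - 1, sec b b' i, by omega, sec_lt hb hy, Or.inr (Or.inl ⟨rfl, by omega, rfl⟩), ?_,
      inF_sec hb hy⟩
    have := inF_sec (D := D) ha hx
    have hx2 : x = a - 1 := by omega
    rw [hx2] at this ⊢
    rwa [sec_last ha (by omega)] at this
  · have h3 : ¬ ((2 : Fin 4) = 0 ∨ (2 : Fin 4) = 1) := by decide
    simp only [sideLen, h3, if_false]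
    subst h1; subst h2
    refine ⟨sec a a' i, 0, sec_lt ha hx, by omega, Or.inr (Or.inr (Or.inl ⟨rfl, rfl, rfl⟩)),
      inF_sec ha hx, ?_⟩
    have := inF_sec (D := D') hb hy
    rwa [sec_zero hb (by omega)] at this
  · have h3 : ¬ ((3 : Fin 4) = 0 ∨ (3 : Fin 4) = 1) := by decide
    simp only [sideLen, h3, if_false]
    subst h2
    refine ⟨sec a a' i, b' - 1, sec_lt ha hx, by omega,
      Or.inr (Or.inr (Or.inr ⟨rfl, by omega, rfl⟩)), inF_sec ha hx, ?_⟩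
    have := inF_sec (D := D') hb hy
    have hy2 : y = b - 1 := by omega
    rw [hy2] at this ⊢
    rwa [sec_last hb (by omega)] at this

/-- transport of a minor model along isomorphisms -/
theorem minor_of_iso {G H : FG} {V W : Type} {P : SimpleGraph V} {P' : SimpleGraph W}
    (e : G.2 ≃g P) (e' : H.2 ≃g P') (φ : V → Set W)
    (h1 : ∀ v, (P'.induce (φ v)).Connected) (h2 : ∀ v v', v ≠ v' → Disjoint (φ v) (φ v'))
    (h3 : ∀ v v', P.Adj v v' → ∃ x ∈ φ v, ∃ y ∈ φ v', P'.Adj x y) : Minor G H := by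
  have key : ∀ v : V, (H.2.induce {w | e' w ∈ φ v}).Connected := by
    intro v
    let F : (P'.induce (φ v)) →g (H.2.induce {w | e' w ∈ φ v}) :=
      { toFun := fun x => ⟨e'.symm x.1, by simp⟩
        map_rel' := by
          intro x y hxy
          rw [SimpleGraph.induce_adj] at hxy ⊢
          rw [e'.symm.map_adj_iff]
          exact hxy }
    have hF : Function.Surjective F := by
      rintro ⟨w, hw⟩
      refine ⟨⟨e' w, hw⟩, ?_⟩
      apply Subtype.ext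
      change e'.symm (e' w) = w
      simp
    exact SimpleGraph.Connected.map F hF (h1 v)
  refine ⟨fun v => {w | e' w ∈ φ (e v)}, fun v => key (e v), ?_, ?_⟩
  · intro v v' hvv'
    rw [Set.disjoint_left]
    intro w hw hw'
    exact Set.disjoint_left.1 (h2 (e v) (e v') (fun h => hvv' (e.injective h))) hw hw'
  · intro v v' hadj
    rw [← e.map_adj_iff] at hadj
    obtain ⟨x, hx, y, hy, hxy⟩ := h3 _ _ hadj
    refine ⟨e'.symm x, ?_, e'.symm y, ?_, ?_⟩
    · change e' (e'.symm x) ∈ φ (e v)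
      simpa using hx
    · change e' (e'.symm y) ∈ φ (e v')
      simpa using hy
    · rw [e'.symm.map_adj_iff]; exact hxy

section

variable {k : ℕ} {P : Pattern k} {a b a' b' : Fin k → ℕ}

/-- branch sets -/
def Br (P : Pattern k) (a b a' b' : Fin k → ℕ) (p : Σ u : Fin k, Fin (a u) × Fin (b u)) :
    Set (Σ u : Fin k, Fin (a' u) × Fin (b' u)) :=
  {q | ∃ (c : Fin (a' p.1)) (d : Fin (b' p.1)), q = ⟨p.1, (c, d)⟩ ∧
    InF (P.2 p.1 0) (a p.1) (a' p.1) p.2.1 c ∧ InF (P.2 p.1 1) (b p.1) (b' p.1) p.2.2 d}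

theorem br_disjoint (ha : ∀ u, Ext (a u) (a' u)) (hb : ∀ u, Ext (b u) (b' u))
    (p p' : Σ u : Fin k, Fin (a u) × Fin (b u)) (h : p ≠ p') :
    Disjoint (Br P a b a' b' p) (Br P a b a' b' p') := by
  rw [Set.disjoint_left]
  rintro q ⟨c, d, rfl, h1, h2⟩ ⟨c', d', h3, h4, h5⟩
  obtain ⟨u, x, y⟩ := p
  obtain ⟨u', x', y'⟩ := p'
  simp only [Sigma.mk.injEq] at h3
  obtain ⟨h6, h7⟩ := h3
  change u = u' at h6
  subst h6
  simp only [heq_eq_eq, Prod.mk.injEq] at h7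
  obtain ⟨rfl, rfl⟩ := h7
  apply h
  have h8 : x = x' := Fin.ext (inF_unique (ha u) x.2 x'.2 h1 h4)
  have h9 : y = y' := Fin.ext (inF_unique (hb u) y.2 y'.2 h2 h5)
  rw [h8, h9]

theorem br_connected (ha : ∀ u, Ext (a u) (a' u)) (hb : ∀ u, Ext (b u) (b' u))
    (p : Σ u : Fin k, Fin (a u) × Fin (b u)) :
    ((Patched P a' b').induce (Br P a b a' b' p)).Connected := by
  obtain ⟨u, x, y⟩ := p
  have hmem : ∀ (c : Fin (a' u)) (d : Fin (b' u)), InF (P.2 u 0) (a u) (a' u) x c →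
      InF (P.2 u 1) (b u) (b' u) y d →
      (⟨u, (c, d)⟩ : Σ u : Fin k, Fin (a' u) × Fin (b' u)) ∈ Br P a b a' b' ⟨u, (x, y)⟩ :=
    fun c d h1 h2 => ⟨c, d, rfl, h1, h2⟩
  have hX : ∀ (n : ℕ) (c c2 : Fin (a' u)) (d : Fin (b' u))
      (h1 : InF (P.2 u 0) (a u) (a' u) x c) (h2 : InF (P.2 u 0) (a u) (a' u) x c2)
      (h3 : InF (P.2 u 1) (b u) (b' u) y d), c2.1 = c.1 + n →
      ((Patched P a' b').induce (Br P a b a' b' ⟨u, (x, y)⟩)).Reachable
        ⟨_, hmem c d h1 h3⟩ ⟨_, hmem c2 d h2 h3⟩ := by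
    intro n
    induction n with
    | zero =>
      intro c c2 d h1 h2 h3 h
      have : c = c2 := Fin.ext (by omega)
      subst this
      exact SimpleGraph.Reachable.refl _
    | succ n ih =>
      intro c c2 d h1 h2 h3 h
      have hlt : c.1 + 1 < a' u := by have := c2.2; omega
      let c1 : Fin (a' u) := ⟨c.1 + 1, hlt⟩
      rcases h1 with ⟨e, h1⟩ | ⟨e, h1⟩ <;> rcases h2 with ⟨e', h2⟩ | ⟨e', h2⟩
      · have hc1 : InF (P.2 u 0) (a u) (a' u) x c1 := by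
          refine Or.inl ⟨e, ?_⟩
          apply le_antisymm
          · rw [← h2]; exact pr_mono (by simp only [c1]; omega)
          · rw [← h1]; exact pr_mono (by simp only [c1]; omega)
        refine SimpleGraph.Reachable.trans (SimpleGraph.Adj.reachable ?_)
          (ih c1 c2 d hc1 (Or.inl ⟨e', h2⟩) h3 (by simp only [c1]; omega))
        rw [SimpleGraph.induce_adj]
        refine ⟨?_, Or.inl (Or.inl ⟨rfl, Or.inl ⟨e, rfl, rfl⟩⟩)⟩
        intro heq
        simp only [Sigma.mk.injEq, heq_eq_eq, true_and, Prod.mk.injEq, and_true] at heq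
        have := congrArg Fin.val heq
        simp only [c1] at this
        omega
      · rw [e] at e'; exact absurd e' (by decide)
      · rw [e] at e'; exact absurd e' (by decide)
      · exfalso; omega
  have hY : ∀ (n : ℕ) (c : Fin (a' u)) (d d2 : Fin (b' u))
      (h1 : InF (P.2 u 0) (a u) (a' u) x c) (h3 : InF (P.2 u 1) (b u) (b' u) y d)
      (h4 : InF (P.2 u 1) (b u) (b' u) y d2), d2.1 = d.1 + n →
      ((Patched P a' b').induce (Br P a b a' b' ⟨u, (x, y)⟩)).Reachable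
        ⟨_, hmem c d h1 h3⟩ ⟨_, hmem c d2 h1 h4⟩ := by
    intro n
    induction n with
    | zero =>
      intro c d d2 h1 h3 h4 h
      have : d = d2 := Fin.ext (by omega)
      subst this
      exact SimpleGraph.Reachable.refl _
    | succ n ih =>
      intro c d d2 h1 h3 h4 h
      have hlt : d.1 + 1 < b' u := by have := d2.2; omega
      let d1 : Fin (b' u) := ⟨d.1 + 1, hlt⟩
      rcases h3 with ⟨e, h3⟩ | ⟨e, h3⟩ <;> rcases h4 with ⟨e', h4⟩ | ⟨e', h4⟩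
      · have hd1 : InF (P.2 u 1) (b u) (b' u) y d1 := by
          refine Or.inl ⟨e, ?_⟩
          apply le_antisymm
          · rw [← h4]; exact pr_mono (by simp only [d1]; omega)
          · rw [← h3]; exact pr_mono (by simp only [d1]; omega)
        refine SimpleGraph.Reachable.trans (SimpleGraph.Adj.reachable ?_)
          (ih c d1 d2 h1 hd1 (Or.inl ⟨e', h4⟩) (by simp only [d1]; omega))
        rw [SimpleGraph.induce_adj]
        refine ⟨?_, Or.inl (Or.inl ⟨rfl, Or.inr (Or.inl ⟨e, rfl, rfl⟩)⟩)⟩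
        intro heq
        simp only [Sigma.mk.injEq, heq_eq_eq, true_and, Prod.mk.injEq, true_and] at heq
        have := congrArg Fin.val heq
        simp only [d1] at this
        omega
      · rw [e] at e'; exact absurd e' (by decide)
      · rw [e] at e'; exact absurd e' (by decide)
      · exfalso; omega
  have : Nonempty (Br P a b a' b' ⟨u, (x, y)⟩) :=
    ⟨⟨_, hmem ⟨_, sec_lt (ha u) x.2⟩ ⟨_, sec_lt (hb u) y.2⟩ (inF_sec (ha u) x.2)
      (inF_sec (hb u) y.2)⟩⟩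
  refine SimpleGraph.Connected.mk ?_
  rintro ⟨q, c, d, rfl, h1, h2⟩ ⟨q', c', d', rfl, h3, h4⟩
  change InF (P.2 u 0) (a u) (a' u) x c at h1
  change InF (P.2 u 1) (b u) (b' u) y d at h2
  change InF (P.2 u 0) (a u) (a' u) x c' at h3
  change InF (P.2 u 1) (b u) (b' u) y d' at h4
  have e1 : ((Patched P a' b').induce (Br P a b a' b' ⟨u, (x, y)⟩)).Reachable
      ⟨_, hmem c d h1 h2⟩ ⟨_, hmem c' d h3 h2⟩ := by
    rcases le_total c.1 c'.1 with h | h
    · exact hX (c'.1 - c.1) c c' d h1 h3 h2 (by omega)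
    · exact (hX (c.1 - c'.1) c' c d h3 h1 h2 (by omega)).symm
  have e2 : ((Patched P a' b').induce (Br P a b a' b' ⟨u, (x, y)⟩)).Reachable
      ⟨_, hmem c' d h3 h2⟩ ⟨_, hmem c' d' h3 h4⟩ := by
    rcases le_total d.1 d'.1 with h | h
    · exact hY (d'.1 - d.1) c' d d' h3 h2 h4 (by omega)
    · exact (hY (d.1 - d'.1) c' d' d h3 h4 h2 (by omega)).symm
  exact e1.trans e2

theorem br_edge (ha : ∀ u, Ext (a u) (a' u)) (hb : ∀ u, Ext (b u) (b' u)) (hv : ValidP P a b)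
    (hv' : ValidP P a' b') (p q : Σ u : Fin k, Fin (a u) × Fin (b u))
    (h : (p.1 = q.1 ∧ Step (P.2 p.1) p.2.1 p.2.2 q.2.1 q.2.2) ∨
      Join P a b p.1 p.2.1 p.2.2 q.1 q.2.1 q.2.2) :
    ∃ x ∈ Br P a b a' b' p, ∃ y ∈ Br P a b a' b' q,
      (x.1 = y.1 ∧ Step (P.2 x.1) x.2.1 x.2.2 y.2.1 y.2.2) ∨
      Join P a' b' x.1 x.2.1 x.2.2 y.1 y.2.1 y.2.2 := by
  obtain ⟨u, x, y⟩ := p
  obtain ⟨v, x', y'⟩ := q
  rcases h with ⟨huv, hs⟩ | ⟨s, t, r, i, j, hP, h1, h2, h3⟩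
  · change u = v at huv
    subst huv
    change Step (P.2 u) x.1 y.1 x'.1 y'.1 at hs
    rcases hs with ⟨f0, e1, e2⟩ | ⟨f1, e1, e2⟩ | ⟨f0, f1, f2, e1, e2⟩ | ⟨f0, f1, f2, e1, e2⟩
    · obtain ⟨c, hc, hc1, hc2⟩ := pr_step (ha u).1
        (show x.1 + 1 < a u by rw [← e1]; exact x'.2)
      have hd := sec_lt (hb u) y.2
      refine ⟨⟨u, (⟨c, by omega⟩, ⟨_, hd⟩)⟩, ⟨_, _, rfl, Or.inl ⟨f0, hc1⟩, inF_sec (hb u) y.2⟩,
        ⟨u, (⟨c + 1, hc⟩, ⟨_, hd⟩)⟩, ⟨_, _, rfl, Or.inl ⟨f0, ?_⟩, ?_⟩,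
        Or.inl ⟨rfl, Or.inl ⟨f0, rfl, rfl⟩⟩⟩
      · change pr _ _ (c + 1) = x'.1; rw [hc2, e1]
      · change InF _ _ _ y'.1 _; rw [e2]; exact inF_sec (hb u) y.2
    · obtain ⟨d, hd, hd1, hd2⟩ := pr_step (hb u).1
        (show y.1 + 1 < b u by rw [← e2]; exact y'.2)
      have hc := sec_lt (ha u) x.2
      refine ⟨⟨u, (⟨_, hc⟩, ⟨d, by omega⟩)⟩, ⟨_, _, rfl, inF_sec (ha u) x.2, Or.inl ⟨f1, hd1⟩⟩,
        ⟨u, (⟨_, hc⟩, ⟨d + 1, hd⟩)⟩, ⟨_, _, rfl, ?_, Or.inl ⟨f1, ?_⟩⟩,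
        Or.inl ⟨rfl, Or.inr (Or.inl ⟨f1, rfl, rfl⟩)⟩⟩
      · change InF _ _ _ x'.1 _; rw [e1]; exact inF_sec (ha u) x.2
      · change pr _ _ (d + 1) = y'.1; rw [hd2, e2]
    · obtain ⟨c, hc, hc1, hc2⟩ := pr_step (ha u).1
        (show x.1 + 1 < a u by rw [← e1]; exact x'.2)
      obtain ⟨d, hd, hd1, hd2⟩ := pr_step (hb u).1
        (show y.1 + 1 < b u by rw [← e2]; exact y'.2)
      refine ⟨⟨u, (⟨c, by omega⟩, ⟨d, by omega⟩)⟩, ⟨_, _, rfl, Or.inl ⟨f0, hc1⟩,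
        Or.inl ⟨f1, hd1⟩⟩, ⟨u, (⟨c + 1, hc⟩, ⟨d + 1, hd⟩)⟩,
        ⟨_, _, rfl, Or.inl ⟨f0, ?_⟩, Or.inl ⟨f1, ?_⟩⟩,
        Or.inl ⟨rfl, Or.inr (Or.inr (Or.inl ⟨f0, f1, f2, rfl, rfl⟩))⟩⟩
      · change pr _ _ (c + 1) = x'.1; rw [hc2, e1]
      · change pr _ _ (d + 1) = y'.1; rw [hd2, e2]
    · obtain ⟨c, hc, hc1, hc2⟩ := pr_step (ha u).1
        (show x.1 + 1 < a u by rw [← e1]; exact x'.2)
      obtain ⟨d, hd, hd1, hd2⟩ := pr_step (hb u).1
        (show y'.1 + 1 < b u by rw [← e2]; exact y.2)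
      refine ⟨⟨u, (⟨c, by omega⟩, ⟨d + 1, by omega⟩)⟩, ⟨_, _, rfl, Or.inl ⟨f0, hc1⟩,
        Or.inl ⟨f1, ?_⟩⟩, ⟨u, (⟨c + 1, hc⟩, ⟨d, by omega⟩)⟩,
        ⟨_, _, rfl, Or.inl ⟨f0, ?_⟩, Or.inl ⟨f1, ?_⟩⟩,
        Or.inl ⟨rfl, Or.inr (Or.inr (Or.inr ⟨f0, f1, f2, rfl, rfl⟩))⟩⟩
      · change pr _ _ (d + 1) = y.1; rw [hd2, e2]
      · change pr _ _ (c + 1) = x'.1; rw [hc2, e1]
      · change pr _ _ d = y'.1; rw [hd1]
  · change P.1 u s v t r = true at hP
    change OnSide (a u) (b u) s x.1 y.1 i at h1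
    change OnSide (a v) (b v) t x'.1 y'.1 j at h2
    change (r = 0 ∧ i = j) ∨ (r = 1 ∧ i + j + 1 = sideLen (a u) (b u) s) ∨ r = 2 at h3
    have hE : ∀ (w : Fin k) (s : Fin 4), Ext (sideLen (a w) (b w) s) (sideLen (a' w) (b' w) s) := by
      intro w s
      unfold sideLen
      split_ifs
      · exact hb w
      · exact ha w
    obtain ⟨c, d, hc, hd, g1, g2, g3⟩ :=
      side_lift (D := P.2 u 0) (D' := P.2 u 1) x.2 y.2 (ha u) (hb u) h1
    obtain ⟨c', d', hc', hd', g1', g2', g3'⟩ :=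
      side_lift (D := P.2 v 0) (D' := P.2 v 1) x'.2 y'.2 (ha v) (hb v) h2
    refine ⟨⟨u, (⟨c, hc⟩, ⟨d, hd⟩)⟩, ⟨_, _, rfl, g2, g3⟩, ⟨v, (⟨c', hc'⟩, ⟨d', hd'⟩)⟩,
      ⟨_, _, rfl, g2', g3'⟩, Or.inr ⟨s, t, r, _, _, hP, g1, g1', ?_⟩⟩
    rcases h3 with ⟨hr, hij⟩ | ⟨hr, hij⟩ | hr
    · have hr2 : r ≠ 2 := by rw [hr]; decide
      left
      rw [hv u s v t r hP hr2, hv' u s v t r hP hr2, hij]
      exact ⟨hr, rfl⟩
    · have hr2 : r ≠ 2 := by rw [hr]; decide
      right; left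
      refine ⟨hr, ?_⟩
      have h4 := sec_rev (hE u s) hij
      rw [← hv u s v t r hP hr2, ← hv' u s v t r hP hr2]
      exact h4
    · right; right; exact hr

theorem patched_mono {G H : FG} (ha : ∀ u, Ext (a u) (a' u)) (hb : ∀ u, Ext (b u) (b' u))
    (hv : ValidP P a b) (hv' : ValidP P a' b') (e : G.2 ≃g Patched P a b)
    (e' : H.2 ≃g Patched P a' b') : Minor G H := by
  apply minor_of_iso e e' (Br P a b a' b') (fun p => br_connected ha hb p)
    (fun p p' h => br_disjoint ha hb p p' h)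
  rintro p q ⟨hne, h | h⟩
  · obtain ⟨x, hx, y, hy, hxy⟩ := br_edge ha hb hv hv' p q h
    refine ⟨x, hx, y, hy, ?_, Or.inl hxy⟩
    rintro rfl
    exact Set.disjoint_left.1 (br_disjoint ha hb p q hne) hx hy
  · obtain ⟨x, hx, y, hy, hxy⟩ := br_edge ha hb hv hv' q p h
    refine ⟨y, hy, x, hx, ?_, Or.inr hxy⟩
    rintro rfl
    exact Set.disjoint_left.1 (br_disjoint ha hb p q hne) hy hx

end

instance finPattern (k : ℕ) : Finite (Pattern k) := by
  have h1 : Finite (Fin k → Fin 4 → Fin k → Fin 4 → Fin 3 → Bool) := inferInstance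
  have h2 : Finite (Fin k → Fin 4 → Bool) := inferInstance
  exact Finite.instProd

/-- the order `Ext` on the natural numbers is bqo, with all finite powers, uniformly -/
theorem bqr_param (k : ℕ) :
    Bqr (fun p q : Pattern k × (Fin k → ℕ) × (Fin k → ℕ) =>
      p.1 = q.1 ∧ (∀ u, Ext (p.2.1 u) (q.2.1 u)) ∧ (∀ u, Ext (p.2.2 u) (q.2.2 u)))
      (fun _ => True) := by
  classical
  intro f _ hc
  -- finite data of a parameter vector
  let cl : ℕ → Fin 2 × Bool := fun n => (⟨n % 2, Nat.mod_lt _ (by decide)⟩, decide (n = 1))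
  let col : (Pattern k × (Fin k → ℕ) × (Fin k → ℕ)) × (Pattern k × (Fin k → ℕ) × (Fin k → ℕ)) →
      (Pattern k × (Fin k → Fin 2 × Bool) × (Fin k → Fin 2 × Bool)) ×
        (Fin k → Bool) × (Fin k → Bool) := fun p =>
    ((p.1.1, (fun u => cl (p.1.2.1 u)), (fun u => cl (p.1.2.2 u))),
      (fun u => decide (p.1.2.1 u ≤ p.2.2.1 u)), (fun u => decide (p.1.2.2 u ≤ p.2.2.2 u)))
  obtain ⟨Z, _, hZi, v, hv⟩ := ramsey_rel
    (locConst_comp (locConst_pair hc (locConst_tl hc)) col) Set.infinite_univ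
  have hcl : ∀ n m : ℕ, cl n = cl m → n ≤ m → Ext n m := by
    intro n m h hnm
    simp only [cl, Prod.mk.injEq, Fin.mk.injEq, decide_eq_decide] at h
    exact ⟨hnm, h.1, h.2⟩
  have hle1 : ∀ u, (f Z).2.1 u ≤ (f (tl Z)).2.1 u := by
    intro u
    have h1 : ∀ X : Set ℕ, X ⊆ Z → X.Infinite →
        decide ((f X).2.1 u ≤ (f (tl X)).2.1 u) = v.2.1 u :=
      fun X hX hXi => congrFun (congrArg (fun w => w.2.1) (hv X hX hXi)) u
    cases hb : v.2.1 u with
    | true =>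
      have := h1 Z le_rfl hZi
      rw [hb] at this
      exact of_decide_eq_true this
    | false =>
      exfalso
      apply no_desc (fun X => (f X).2.1 u) hZi
      intro X hX hXi
      have := h1 X hX hXi
      rw [hb] at this
      exact not_le.1 (of_decide_eq_false this)
  have hle2 : ∀ u, (f Z).2.2 u ≤ (f (tl Z)).2.2 u := by
    intro u
    have h1 : ∀ X : Set ℕ, X ⊆ Z → X.Infinite →
        decide ((f X).2.2 u ≤ (f (tl X)).2.2 u) = v.2.2 u :=
      fun X hX hXi => congrFun (congrArg (fun w => w.2.2) (hv X hX hXi)) u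
    cases hb : v.2.2 u with
    | true =>
      have := h1 Z le_rfl hZi
      rw [hb] at this
      exact of_decide_eq_true this
    | false =>
      exfalso
      apply no_desc (fun X => (f X).2.2 u) hZi
      intro X hX hXi
      have := h1 X hX hXi
      rw [hb] at this
      exact not_le.1 (of_decide_eq_false this)
  have hfin : (col (f Z, f (tl Z))).1 = (col (f (tl Z), f (tl (tl Z)))).1 := by
    have h1 := hv Z le_rfl hZi
    have h2 := hv (tl Z) (tl_subset Z) (tl_infinite hZi)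
    rw [h1, h2]
  refine ⟨Z, hZi, ?_, fun u => ?_, fun u => ?_⟩
  · have h := congrArg (fun w => w.1) hfin
    exact h
  · exact hcl _ _ (congrFun (congrArg (fun w => w.2.1) hfin) u) (hle1 u)
  · exact hcl _ _ (congrFun (congrArg (fun w => w.2.2) hfin) u) (hle2 u)

theorem patch_bqo (k : ℕ) : BQO (PatchNumberLE k) := by
  classical
  have hch : ∀ G : FG, ∃ p : Pattern k × (Fin k → ℕ) × (Fin k → ℕ), PatchNumberLE k G →
      ValidP p.1 p.2.1 p.2.2 ∧ Nonempty (G.2 ≃g Patched p.1 p.2.1 p.2.2) := by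
    intro G
    by_cases h : PatchNumberLE k G
    · obtain ⟨P, a, b, h⟩ := h
      exact ⟨(P, a, b), fun _ => h⟩
    · exact ⟨(((fun _ _ _ _ _ => false), (fun _ _ => false)), (fun _ => 0), (fun _ => 0)),
        fun h' => absurd h' h⟩
  choose ρ hρ using hch
  apply crit (bqr_param k) ρ _ (fun _ _ => trivial)
  intro A hA
  refine ⟨0, fun B hB _ hr => ?_⟩
  obtain ⟨v1, ⟨e⟩⟩ := hρ A hA
  obtain ⟨v2, ⟨e'⟩⟩ := hρ B hB
  obtain ⟨h1, h2, h3⟩ := hr
  generalize ρ A = p at *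
  generalize ρ B = q at *
  obtain ⟨P, a, b⟩ := p
  obtain ⟨P', a', b'⟩ := q
  change P = P' at h1
  subst h1
  exact patched_mono h2 h3 v1 v2 e e'

end Pool.Agent.Bqp
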