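import Pool.Agent.Bqp.GDefs
import Pool.Agent.Bqp.Patch

set_option autoImplicit false

namespace Pool.Agent.Bqp

theorem bqr_map {α β : Type*} {r : β → β → Prop} {D : β → Prop} (hD : Bqr r D) {s : α → α → Prop}
    {C : α → Prop} (ρ : α → β) (h1 : ∀ A, C A → D (ρ A))
    (h2 : ∀ A B, C A → C B → r (ρ A) (ρ B) → s A B) : Bqr s C := by
  intro f hf hc
  obtain ⟨X, hX, hr⟩ := hD (fun X => ρ (f X)) (fun X hX => h1 _ (hf X hX)) (locConst_comp hc ρ)
  exact ⟨X, hX, h2 _ _ (hf X hX) (hf _ (tl_infinite hX)) hr⟩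

theorem bqr_mono {α : Type*} {r : α → α → Prop} {C D : α → Prop} (h : ∀ G, C G → D G)
    (hD : Bqr r D) : Bqr r C :=
  fun f hf hc => hD f (fun X hX => h _ (hf X hX)) hc

/-- finite unions -/
theorem bqr_or {α : Type*} {r : α → α → Prop} {C D : α → Prop} (hC : Bqr r C) (hD : Bqr r D) :
    Bqr r (fun G => C G ∨ D G) := by
  classical
  intro f hf hc
  obtain ⟨Z, _, hZi, v, hv⟩ := ramsey_rel (locConst_comp hc (fun x => decide (C x)))
    Set.infinite_univ
  cases v with
  | true =>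
    obtain ⟨X, _, hXi, hr⟩ := bqr_on hC hc hZi (fun X hX hXi => by
      have := hv X hX hXi
      simpa using this)
    exact ⟨X, hXi, hr⟩
  | false =>
    obtain ⟨X, _, hXi, hr⟩ := bqr_on hD hc hZi (fun X hX hXi => by
      have h1 := hv X hX hXi
      simp only [decide_eq_false_iff_not] at h1
      exact (hf X hXi).resolve_left h1)
    exact ⟨X, hXi, hr⟩

theorem bqr_exists {α ι : Type*} [Finite ι] {r : α → α → Prop} {C : ι → α → Prop}
    (hC : ∀ i, Bqr r (C i)) : Bqr r (fun G => ∃ i, C i G) := by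
  classical
  intro f hf hc
  by_cases hne : Nonempty ι
  · obtain ⟨i0⟩ := hne
    let ch : α → ι := fun x => if h : ∃ i, C i x then h.choose else i0
    have hch : ∀ x, (∃ i, C i x) → C (ch x) x := by
      intro x h
      simp only [ch]
      rw [dif_pos h]
      exact h.choose_spec
    obtain ⟨Z, _, hZi, v, hv⟩ := ramsey_rel (locConst_comp hc ch) Set.infinite_univ
    obtain ⟨X, _, hXi, hr⟩ := bqr_on (hC v) hc hZi (fun X hX hXi => by
      have h1 := hch _ (hf X hXi)
      have h2 : ch (f X) = v := hv X hX hXi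
      rw [h2] at h1
      exact h1)
    exact ⟨X, hXi, hr⟩
  · obtain ⟨i, _⟩ := hf Set.univ Set.infinite_univ
    exact absurd ⟨i⟩ hne

/-- minors respecting the attachments -/
def LMinor {ι : Type} (S T : LG ι) : Prop :=
  ∃ φ : Fin S.1.1 → Set (Fin T.1.1),
    (∀ v, (T.1.2.induce (φ v)).Connected) ∧
    (∀ v w, v ≠ w → Disjoint (φ v) (φ w)) ∧
    (∀ v w, S.1.2.Adj v w → ∃ a ∈ φ v, ∃ b ∈ φ w, T.1.2.Adj a b) ∧
    (∀ v l, S.2 v l = true → ∃ a ∈ φ v, T.2 a l = true)

theorem lminor_trans {ι : Type} {A B C : LG ι} (h : LMinor A B) (h' : LMinor B C) :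
    LMinor A C := by
  obtain ⟨φ, a1, a2, a3, a4⟩ := h
  obtain ⟨ψ, b1, b2, b3, b4⟩ := h'
  refine ⟨fun i => {x | ∃ b ∈ φ i, x ∈ ψ b}, fun i => ?_, fun i j hij => ?_, fun i j hij => ?_,
    fun i l hil => ?_⟩
  · exact connected_biUnion B.1.2 C.1.2 (φ i) (a1 i) ψ b1 b3
  · rw [Set.disjoint_left]
    rintro x ⟨b, hb, hx⟩ ⟨b', hb', hx'⟩
    by_cases hbb : b = b'
    · subst hbb
      exact Set.disjoint_left.1 (a2 i j hij) hb hb'
    · exact Set.disjoint_left.1 (b2 b b' hbb) hx hx'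
  · obtain ⟨b, hb, b', hb', hadj⟩ := a3 i j hij
    obtain ⟨x, hx, y, hy, hxy⟩ := b3 b b' hadj
    exact ⟨x, ⟨b, hb, hx⟩, y, ⟨b', hb', hy⟩, hxy⟩
  · obtain ⟨b, hb, hbl⟩ := a4 i l hil
    obtain ⟨x, hx, hxl⟩ := b4 b l hbl
    exact ⟨x, ⟨b, hb, hx⟩, hxl⟩

theorem lminor_of_iso {ι : Type} {S T : LG ι} {V W : Type} {G : SimpleGraph V}
    {H : SimpleGraph W} {A : V → ι → Prop} {B : W → ι → Prop} (hS : LIso S G A) (hT : LIso T H B)
    (φ : V → Set W)
    (h1 : ∀ v, (H.induce (φ v)).Connected) (h2 : ∀ v v', v ≠ v' → Disjoint (φ v) (φ v'))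
    (h3 : ∀ v v', G.Adj v v' → ∃ x ∈ φ v, ∃ y ∈ φ v', H.Adj x y)
    (h4 : ∀ v i, A v i → ∃ x ∈ φ v, B x i) : LMinor S T := by
  obtain ⟨e, he⟩ := hS
  obtain ⟨e', he'⟩ := hT
  have key : ∀ v : V, (T.1.2.induce {w | e' w ∈ φ v}).Connected := by
    intro v
    let F : (H.induce (φ v)) →g (T.1.2.induce {w | e' w ∈ φ v}) :=
      { toFun := fun x => ⟨e'.symm x.1, by simp⟩
        map_rel' := by
          intro x y hxy
          rw [SimpleGraph.induce_adj] at hxy ⊢
          rw [e'.symm.map_adj_iff]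
          exact hxy }
    have hF : Function.Surjective F := by
      rintro ⟨w, hw⟩
      refine ⟨⟨e' w, hw⟩, ?_⟩
      apply Subtype.ext
      change e'.symm (e' w) = w
      simp
    exact SimpleGraph.Connected.map F hF (h1 v)
  refine ⟨fun v => {w | e' w ∈ φ (e v)}, fun v => key (e v), ?_, ?_, ?_⟩
  · intro v v' hvv'
    rw [Set.disjoint_left]
    intro w hw hw'
    exact Set.disjoint_left.1 (h2 (e v) (e v') (fun h => hvv' (e.injective h))) hw hw'
  · intro v v' hadj
    rw [← e.map_adj_iff] at hadj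
    obtain ⟨x, hx, y, hy, hxy⟩ := h3 _ _ hadj
    refine ⟨e'.symm x, ?_, e'.symm y, ?_, ?_⟩
    · change e' (e'.symm x) ∈ φ (e v)
      simpa using hx
    · change e' (e'.symm y) ∈ φ (e v')
      simpa using hy
    · rw [e'.symm.map_adj_iff]; exact hxy
  · intro v i hvi
    obtain ⟨x, hx, hxi⟩ := h4 (e v) i ((he v i).1 hvi)
    refine ⟨e'.symm x, ?_, ?_⟩
    · change e' (e'.symm x) ∈ φ (e v)
      simpa using hx
    · rw [he']
      simpa using hxi

theorem conn_image {V W : Type} {G : SimpleGraph V} {H : SimpleGraph W} {s : Set V}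
    (h : (G.induce s).Connected) (f : V → W) (hf : ∀ x y, G.Adj x y → H.Adj (f x) (f y)) :
    (H.induce (f '' s)).Connected := by
  let F : (G.induce s) →g (H.induce (f '' s)) :=
    { toFun := fun x => ⟨f x.1, x.1, x.2, rfl⟩
      map_rel' := by
        intro x y hxy
        rw [SimpleGraph.induce_adj] at hxy ⊢
        exact hf _ _ hxy }
  have hF : Function.Surjective F := by
    rintro ⟨w, b, hb, rfl⟩
    exact ⟨⟨b, hb⟩, rfl⟩
  exact SimpleGraph.Connected.map F hF h

theorem conn_single {W : Type} (H : SimpleGraph W) (w : W) :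
    (H.induce ({w} : Set W)).Connected := by
  have : Subsingleton ({w} : Set W) := by infer_instance
  have : Nonempty ({w} : Set W) := ⟨⟨w, rfl⟩⟩
  exact SimpleGraph.Connected.mk (fun a b => by rw [Subsingleton.elim a b])

/-! ### making an external vertex internal -/

theorem apex_minor {ι : Type} {M : ι → Bool} {U U' : LG (Option ι)} {S T : LG ι}
    (h : LMinor U U') (hS : LIso S (ApexG U) (ApexA U M)) (hT : LIso T (ApexG U') (ApexA U' M)) :
    LMinor S T := by
  obtain ⟨φ, a1, a2, a3, a4⟩ := h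
  let ψ : Option (Fin U.1.1) → Set (Option (Fin U'.1.1)) := fun p =>
    match p with
    | some v => some '' φ v
    | none => {none}
  have hd : ∀ p q, p ≠ q → Disjoint (ψ p) (ψ q) := by
    intro p q hpq
    rw [Set.disjoint_left]
    cases p with
    | none =>
      cases q with
      | none => exact absurd rfl hpq
      | some q =>
        rintro w hw ⟨b, _, hb⟩
        rw [Set.mem_singleton_iff.1 hw] at hb
        exact absurd hb (by simp)
    | some p =>
      cases q with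
      | none =>
        rintro w ⟨b, _, hb⟩ hw
        rw [Set.mem_singleton_iff.1 hw] at hb
        exact absurd hb (by simp)
      | some q =>
        rintro w ⟨b, hb, rfl⟩ ⟨b', hb', hbb⟩
        have : b' = b := Option.some_injective _ hbb
        subst this
        exact Set.disjoint_left.1 (a2 p q (fun h => hpq (by rw [h]))) hb hb'
  apply lminor_of_iso hS hT ψ
  · intro p
    cases p with
    | none => exact conn_single _ _
    | some v =>
      refine conn_image (a1 v) some (fun x y hxy => ⟨fun h => ?_, Or.inl hxy⟩)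
      exact U'.1.2.ne_of_adj hxy (Option.some_injective _ h)
  · exact hd
  · have key : ∀ p q : Option (Fin U.1.1), p ≠ q → (match p, q with
        | some u, some v => U.1.2.Adj u v
        | none, some v => U.2 v none = true
        | _, none => False) → ∃ x ∈ ψ p, ∃ y ∈ ψ q, (match x, y with
        | some u, some v => U'.1.2.Adj u v
        | none, some v => U'.2 v none = true
        | _, none => False) := by
      intro p q _ h
      cases p with
      | none =>
        cases q with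
        | none => exact absurd h (by simp)
        | some q =>
          obtain ⟨x, hx, hxj⟩ := a4 q none h
          exact ⟨none, rfl, some x, ⟨x, hx, rfl⟩, hxj⟩
      | some p =>
        cases q with
        | none => exact absurd h (by simp)
        | some q =>
          obtain ⟨x, hx, y, hy, hxy⟩ := a3 p q h
          exact ⟨some x, ⟨x, hx, rfl⟩, some y, ⟨y, hy, rfl⟩, hxy⟩
    rintro p q ⟨hne, h | h⟩
    · obtain ⟨x, hx, y, hy, hxy⟩ := key p q hne h
      refine ⟨x, hx, y, hy, ?_, Or.inl hxy⟩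
      rintro rfl
      exact Set.disjoint_left.1 (hd p q hne) hx hy
    · obtain ⟨x, hx, y, hy, hxy⟩ := key q p hne.symm h
      refine ⟨y, hy, x, hx, ?_, Or.inr hxy⟩
      rintro rfl
      exact Set.disjoint_left.1 (hd p q hne) hy hx
  · intro p l h
    cases p with
    | none => exact ⟨none, rfl, h⟩
    | some v =>
      obtain ⟨x, hx, hxi⟩ := a4 v (some l) h
      exact ⟨some x, ⟨x, hx, rfl⟩, hxi⟩

/-! ### the base -/

theorem br_adj {k : ℕ} {P : Pattern k} {a b a' b' : Fin k → ℕ} (ha : ∀ u, Ext (a u) (a' u))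
    (hb : ∀ u, Ext (b u) (b' u)) (hv : ValidP P a b) (hv' : ValidP P a' b')
    (p q : Σ u : Fin k, Fin (a u) × Fin (b u)) (h : (Patched P a b).Adj p q) :
    ∃ x ∈ Br P a b a' b' p, ∃ y ∈ Br P a b a' b' q, (Patched P a' b').Adj x y := by
  obtain ⟨hne, h | h⟩ := h
  · obtain ⟨x, hx, y, hy, hxy⟩ := br_edge ha hb hv hv' p q h
    refine ⟨x, hx, y, hy, ?_, Or.inl hxy⟩
    rintro rfl
    exact Set.disjoint_left.1 (br_disjoint ha hb p q hne) hx hy
  · obtain ⟨x, hx, y, hy, hxy⟩ := br_edge ha hb hv hv' q p h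
    refine ⟨y, hy, x, hx, ?_, Or.inr hxy⟩
    rintro rfl
    exact Set.disjoint_left.1 (br_disjoint ha hb p q hne) hy hx

theorem base_mono {p : ℕ} {ι : Type} {S T : LG ι} {Q : Fin p → Fin 5 → ι → Bool} {P : Pattern p}
    {a b a' b' : Fin p → ℕ} (ha : ∀ u, Ext (a u) (a' u))
    (hb : ∀ u, Ext (b u) (b' u)) (hv : ValidP P a b) (hv' : ValidP P a' b')
    (hS : LIso S (Patched P a b) (Uni Q a b)) (hT : LIso T (Patched P a' b') (Uni Q a' b')) :
    LMinor S T := by
  apply lminor_of_iso hS hT (Br P a b a' b') (fun p => br_connected ha hb p)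
    (fun p p' h => br_disjoint ha hb p p' h) (fun p q h => br_adj ha hb hv hv' p q h)
  rintro ⟨u, x, y⟩ i h
  rcases h with h | ⟨s, l, h, hl⟩
  · exact ⟨⟨u, (⟨_, sec_lt (ha u) x.2⟩, ⟨_, sec_lt (hb u) y.2⟩)⟩,
      ⟨_, _, rfl, inF_sec (ha u) x.2, inF_sec (hb u) y.2⟩, Or.inl h⟩
  · obtain ⟨c, d, hc, hd, g1, g2, g3⟩ :=
      side_lift (D := P.2 u 0) (D' := P.2 u 1) x.2 y.2 (ha u) (hb u) hl
    exact ⟨⟨u, (⟨c, hc⟩, ⟨d, hd⟩)⟩, ⟨_, _, rfl, g2, g3⟩, Or.inr ⟨s, _, h, g1⟩⟩

theorem base_bqr (p : ℕ) (ι : Type) [Finite ι] : Bqr (LMinor (ι := ι)) (PatchTree p 0 ι) := by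
  classical
  have h : ∀ Q : Fin p → Fin 5 → ι → Bool, Bqr (LMinor (ι := ι)) (fun T =>
      ∃ (P : Pattern p) (a b : Fin p → ℕ), ValidP P a b ∧ LIso T (Patched P a b) (Uni Q a b)) := by
    intro Q
    have hch : ∀ T : LG ι, ∃ x : Pattern p × (Fin p → ℕ) × (Fin p → ℕ),
        (∃ (P : Pattern p) (a b : Fin p → ℕ), ValidP P a b ∧
          LIso T (Patched P a b) (Uni Q a b)) →
        ValidP x.1 x.2.1 x.2.2 ∧ LIso T (Patched x.1 x.2.1 x.2.2) (Uni Q x.2.1 x.2.2) := by
      intro T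
      by_cases h : ∃ (P : Pattern p) (a b : Fin p → ℕ), ValidP P a b ∧
          LIso T (Patched P a b) (Uni Q a b)
      · obtain ⟨P, a, b, h⟩ := h
        exact ⟨(P, a, b), fun _ => h⟩
      · exact ⟨(((fun _ _ _ _ _ => false), (fun _ _ => false)), (fun _ => 0), (fun _ => 0)),
          fun h' => absurd h' h⟩
    choose ρ hρ using hch
    apply bqr_map (bqr_param p) ρ (fun _ _ => trivial)
    intro S T hS hT hr
    obtain ⟨v1, e⟩ := hρ S hS
    obtain ⟨v2, e'⟩ := hρ T hT
    obtain ⟨h1, h2, h3⟩ := hr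
    generalize ρ S = x at *
    generalize ρ T = y at *
    obtain ⟨P, a, b⟩ := x
    obtain ⟨P', a', b'⟩ := y
    change P = P' at h1
    subst h1
    exact base_mono h2 h3 v1 v2 e e'
  exact bqr_exists h

end Pool.Agent.Bqp
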