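import Pool.Agent.Bqp.Closure

set_option autoImplicit false

namespace Pool.Agent.Bqp

/-- locally constant on the infinite subsets of `A` -/
def LocOn {α : Type*} (A : Set ℕ) (f : Set ℕ → α) : Prop :=
  ∀ X : Set ℕ, X ⊆ A → X.Infinite → ∃ N : ℕ, ∀ Y : Set ℕ, Y ⊆ A → Y.Infinite →
    (∀ k < N, (k ∈ X ↔ k ∈ Y)) → f Y = f X

theorem locOn_mono {α : Type*} {A B : Set ℕ} {f : Set ℕ → α} (h : LocOn A f) (hB : B ⊆ A) :
    LocOn B f := by
  intro X hX hXi
  obtain ⟨N, hN⟩ := h X (hX.trans hB) hXi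
  exact ⟨N, fun Y hY hYi => hN Y (hY.trans hB) hYi⟩

theorem locOn_of_locConst {α : Type*} {f : Set ℕ → α} (h : LocConst f) (A : Set ℕ) : LocOn A f := by
  intro X _ hXi
  obtain ⟨N, hN⟩ := h X hXi
  exact ⟨N, fun Y _ hYi => hN Y hYi⟩

theorem locOn_comp {α β : Type*} {A : Set ℕ} {c : Set ℕ → α} (hc : LocOn A c) (F : α → β) :
    LocOn A (fun X => F (c X)) := by
  intro X hX hXi
  obtain ⟨N, hN⟩ := hc X hX hXi
  exact ⟨N, fun Y hY hYi hXY => by simp only [hN Y hY hYi hXY]⟩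

theorem locOn_pair {α β : Type*} {A : Set ℕ} {c : Set ℕ → α} {d : Set ℕ → β} (hc : LocOn A c)
    (hd : LocOn A d) : LocOn A (fun X => (c X, d X)) := by
  intro X hX hXi
  obtain ⟨N, hN⟩ := hc X hX hXi
  obtain ⟨M, hM⟩ := hd X hX hXi
  exact ⟨max N M, fun Y hY hYi hXY => by
    simp only [hN Y hY hYi (fun k hk => hXY k (lt_of_lt_of_le hk (le_max_left _ _))),
      hM Y hY hYi (fun k hk => hXY k (lt_of_lt_of_le hk (le_max_right _ _)))]⟩

theorem locOn_tl {α : Type*} {A : Set ℕ} {c : Set ℕ → α} (hc : LocOn A c) :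
    LocOn A (fun X => c (tl X)) := by
  intro X hXA hX
  obtain ⟨N, hN⟩ := hc (tl X) ((tl_subset X).trans hXA) (tl_infinite hX)
  refine ⟨max N (sInf X + 1), fun Y hYA hY hXY =>
    hN _ ((tl_subset Y).trans hYA) (tl_infinite hY) ?_⟩
  have hmX : sInf X ∈ X := Nat.sInf_mem hX.nonempty
  have hmY : sInf X ∈ Y := (hXY _ (lt_of_lt_of_le (Nat.lt_succ_self _) (le_max_right _ _))).1 hmX
  have h1 : sInf Y = sInf X := by
    apply le_antisymm (Nat.sInf_le hmY)
    by_contra hcon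
    push Not at hcon
    have h2 : sInf Y ∈ Y := Nat.sInf_mem hY.nonempty
    have h3 : sInf Y ∈ X := (hXY _ (by
      apply lt_of_lt_of_le (lt_trans hcon (Nat.lt_succ_self _)) (le_max_right _ _))).2 h2
    exact absurd (Nat.sInf_le h3) (by omega)
  intro k hk
  simp only [tl, h1, Set.mem_sdiff, Set.mem_singleton_iff]
  rw [hXY k (lt_of_lt_of_le hk (le_max_left _ _))]

theorem locConst_of_locOn {α : Type*} {A : Set ℕ} {c : Set ℕ → α} (hc : LocOn A c) {e : ℕ → ℕ}
    (he : StrictMono e) (hr : Set.range e ⊆ A) : LocConst (fun X => c (e '' X)) := by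
  intro X hX
  have hsub : ∀ X : Set ℕ, e '' X ⊆ A := fun X => (Set.image_subset_range _ _).trans hr
  obtain ⟨N, hN⟩ := hc (e '' X) (hsub X) (hX.image he.injective.injOn)
  refine ⟨N, fun Z hZ hXZ => hN _ (hsub Z) (hZ.image he.injective.injOn) (fun k hk => ?_)⟩
  constructor
  · rintro ⟨j, hj, rfl⟩
    exact ⟨j, (hXZ j (lt_of_le_of_lt (he.le_apply) hk)).1 hj, rfl⟩
  · rintro ⟨j, hj, rfl⟩
    exact ⟨j, (hXZ j (lt_of_le_of_lt (he.le_apply) hk)).2 hj, rfl⟩

theorem ramsey_on {α : Type*} [Finite α] {Y : Set ℕ} {c : Set ℕ → α} (hc : LocOn Y c)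
    (hY : Y.Infinite) :
    ∃ Z : Set ℕ, Z ⊆ Y ∧ Z.Infinite ∧ ∃ v, ∀ X : Set ℕ, X ⊆ Z → X.Infinite → c X = v := by
  obtain ⟨e, he, hr⟩ := enum_range Y hY
  obtain ⟨Y', hY', v, hv⟩ := ramsey (locConst_of_locOn hc he hr.subset)
  refine ⟨e '' Y', ?_, hY'.image he.injective.injOn, v, fun X hX hXi => ?_⟩
  · rw [← hr]; exact Set.image_subset_range _ _
  · obtain ⟨X', hX', rfl⟩ := (Set.subset_image_iff).1 hX
    exact hv X' hX' (Set.Infinite.of_image e hXi)

theorem bqr_locOn {α : Type*} {r : α → α → Prop} {C : α → Prop} (h : Bqr r C) {f : Set ℕ → α}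
    {Y : Set ℕ} (hc : LocOn Y f) (hY : Y.Infinite)
    (hf : ∀ X : Set ℕ, X ⊆ Y → X.Infinite → C (f X)) :
    ∃ X : Set ℕ, X ⊆ Y ∧ X.Infinite ∧ r (f X) (f (tl X)) := by
  obtain ⟨e, he, hr⟩ := enum_range Y hY
  have hsub : ∀ X : Set ℕ, e '' X ⊆ Y := fun X => by rw [← hr]; exact Set.image_subset_range _ _
  have hinf : ∀ X : Set ℕ, X.Infinite → (e '' X).Infinite := fun X hX => hX.image he.injective.injOn
  obtain ⟨X, hX, hM⟩ := h (fun X => f (e '' X)) (fun X hX => hf _ (hsub X) (hinf X hX))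
    (locConst_of_locOn hc he hr.subset)
  refine ⟨e '' X, hsub X, hinf X hX, ?_⟩
  rw [← image_tl he hX]
  exact hM

theorem bqr_homog_on {α : Type*} {r : α → α → Prop} {C : α → Prop} (h : Bqr r C) {f : Set ℕ → α}
    {Y : Set ℕ} (hc : LocOn Y f) (hY : Y.Infinite)
    (hf : ∀ X : Set ℕ, X ⊆ Y → X.Infinite → C (f X)) :
    ∃ Z : Set ℕ, Z ⊆ Y ∧ Z.Infinite ∧ ∀ X : Set ℕ, X ⊆ Z → X.Infinite → r (f X) (f (tl X)) := by
  classical
  obtain ⟨Z, hZ, hZi, v, hv⟩ := ramsey_on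
    (locOn_comp (locOn_pair hc (locOn_tl hc)) (fun p => decide (r p.1 p.2))) hY
  refine ⟨Z, hZ, hZi, ?_⟩
  cases v with
  | true =>
    intro X hX hXi
    have := hv X hX hXi
    simpa using this
  | false =>
    obtain ⟨X, hX, hXi, hr⟩ := bqr_locOn h (locOn_mono hc hZ) hZi (fun X hX => hf X (hX.trans hZ))
    have := hv X hX hXi
    simp only [decide_eq_false_iff_not] at this
    exact absurd hr this

/-- `f` is a bad array on `A` with values in `C` -/
def Bad {α : Type*} (r : α → α → Prop) (C : α → Prop) (A : Set ℕ) (f : Set ℕ → α) : Prop :=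
  A.Infinite ∧ LocOn A f ∧ ∀ X : Set ℕ, X ⊆ A → X.Infinite → C (f X) ∧ ¬ r (f X) (f (tl X))

theorem bad_mono {α : Type*} {r : α → α → Prop} {C : α → Prop} {A B : Set ℕ} {f : Set ℕ → α}
    (h : Bad r C A f) (hB : B ⊆ A) (hBi : B.Infinite) : Bad r C B f :=
  ⟨hBi, locOn_mono h.2.1 hB, fun X hX hXi => h.2.2 X (hX.trans hB) hXi⟩

theorem not_bqr {α : Type*} {r : α → α → Prop} {C : α → Prop} (h : ¬ Bqr r C) :
    ∃ f : Set ℕ → α, Bad r C Set.univ f := by
  simp only [Bqr] at h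
  push Not at h
  obtain ⟨f, h1, h2, h3⟩ := h
  exact ⟨f, Set.infinite_univ, locOn_of_locConst h2 _, fun X _ hX => ⟨h1 X hX, h3 X hX⟩⟩

section minbad

variable {α : Type*} (r sub : α → α → Prop) (C : α → Prop) (rk : α → ℕ)

/-- minimality at all `s` in `D` among the arrays unchanged on `cov` -/
def MinAll (F : Finset ℕ) (cov : Set ℕ → Prop) (D : Finset (Finset ℕ)) (T : Set ℕ)
    (f : Set ℕ → α) : Prop :=
  ∀ (T' : Set ℕ) (f' : Set ℕ → α), T' ⊆ T → Bad r C (↑F ∪ T') f' →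
    (∀ X : Set ℕ, X ⊆ ↑F ∪ T' → X.Infinite → (f' X = f X ∨ sub (f' X) (f X))) →
    (∀ X : Set ℕ, X ⊆ ↑F ∪ T' → X.Infinite → cov X → f' X = f X) →
    ∀ s ∈ D, ¬ (∀ X : Set ℕ, X ⊆ ↑F ∪ T' → X.Infinite → X ∩ ↑F = ↑s → sub (f' X) (f X))

theorem locOn_union {β : Type*} {F : Finset ℕ} {T : Set ℕ} {f : Set ℕ → β}
    (h : LocOn (↑F ∪ T) f) {s : Finset ℕ} (hs : s ⊆ F) : LocOn T (fun Y => f (↑s ∪ Y)) := by
  intro X hX hXi
  have h1 : ∀ Y : Set ℕ, Y ⊆ T → (↑s ∪ Y : Set ℕ) ⊆ ↑F ∪ T := fun Y hY =>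
    Set.union_subset_union (Finset.coe_subset.2 hs) hY
  obtain ⟨N, hN⟩ := h (↑s ∪ X) (h1 X hX) (hXi.mono Set.subset_union_right)
  refine ⟨N, fun Y hY hYi hXY => hN _ (h1 Y hY) (hYi.mono Set.subset_union_right) ?_⟩
  intro k hk
  simp only [Set.mem_union]
  rw [hXY k hk]

theorem split_set {F : Finset ℕ} {T : Set ℕ} {s : Finset ℕ}
    {X : Set ℕ} (hX : X ⊆ ↑F ∪ T) (hXs : X ∩ ↑F = ↑s) : X = ↑s ∪ (X ∩ T) := by
  ext k
  simp only [Set.mem_union, Set.mem_inter_iff]
  constructor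
  · intro hk
    rcases hX hk with h | h
    · left; rw [← hXs]; exact ⟨hk, h⟩
    · right; exact ⟨hk, h⟩
  · rintro (h | h)
    · rw [← hXs] at h; exact h.1
    · exact h.1

theorem inter_inf {F : Finset ℕ} {T X : Set ℕ} (hX : X ⊆ ↑F ∪ T) (hXi : X.Infinite) :
    (X ∩ T).Infinite := by
  by_contra hfin
  rw [Set.not_infinite] at hfin
  apply hXi
  apply (F.finite_toSet.union hfin).subset
  intro k hk
  rcases hX hk with h | h
  · exact Or.inl h
  · exact Or.inr ⟨hk, h⟩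

/-- make the ranks constant on all `[s, T]`, `s` in `D` -/
theorem make_const {F : Finset ℕ} {D : Finset (Finset ℕ)} (hD : ∀ s ∈ D, s ⊆ F) {T : Set ℕ}
    (hT : T.Infinite) {f : Set ℕ → α} (hf : LocOn (↑F ∪ T) f)
    (M : ℕ) (hM : ∀ s ∈ D, ∀ X : Set ℕ, X ⊆ ↑F ∪ T → X.Infinite → X ∩ ↑F = ↑s → rk (f X) ≤ M) :
    ∃ T' : Set ℕ, T' ⊆ T ∧ T'.Infinite ∧ ∃ w : Finset ℕ → ℕ, ∀ s ∈ D, ∀ X : Set ℕ,
      X ⊆ ↑F ∪ T' → X.Infinite → X ∩ ↑F = ↑s → rk (f X) = w s := by
  classical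
  let col : Set ℕ → ({s // s ∈ D} → Fin (M + 1)) := fun Y s =>
    ⟨min (rk (f (↑s.1 ∪ Y))) M, by omega⟩
  have hcol : LocOn T col := by
    -- finitely many coordinates
    intro X hX hXi
    have h1 : ∀ s : {s // s ∈ D}, ∃ N : ℕ, ∀ Y : Set ℕ, Y ⊆ T → Y.Infinite →
        (∀ k < N, (k ∈ X ↔ k ∈ Y)) → f (↑s.1 ∪ Y) = f (↑s.1 ∪ X) :=
      fun s => locOn_union hf (hD s.1 s.2) X hX hXi
    choose N hN using h1
    refine ⟨∑ s, N s, fun Y hY hYi hXY => ?_⟩
    funext s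
    apply Fin.ext
    simp only [col]
    rw [hN s Y hY hYi (fun k hk => hXY k (lt_of_lt_of_le hk
      (Finset.single_le_sum (f := N) (fun _ _ => Nat.zero_le _) (Finset.mem_univ s))))]
  obtain ⟨T', hT', hTi, v, hv⟩ := ramsey_on hcol hT
  refine ⟨T', hT', hTi, fun s => if h : s ∈ D then (v ⟨s, h⟩).1 else 0, fun s hs X hX hXi hXs => ?_⟩
  have h1 := hv (X ∩ T') Set.inter_subset_right (inter_inf hX hXi)
  have h2 : min (rk (f (↑s ∪ (X ∩ T')))) M = (v ⟨s, hs⟩).1 :=
    congrArg Fin.val (congrFun h1 ⟨s, hs⟩)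
  rw [← split_set hX hXs] at h2
  have h3 := hM s hs X (hX.trans (Set.union_subset_union_right _ hT')) hXi hXs
  simp only [dif_pos hs]
  rw [← h2]
  omega

variable {r sub C rk}

theorem exists_minAll (hrk : ∀ x y, sub x y → rk x < rk y)
    (htr : ∀ x y z, sub x y → sub y z → sub x z)
    {F : Finset ℕ} {cov : Set ℕ → Prop} {D : Finset (Finset ℕ)} (hD : ∀ s ∈ D, s ⊆ F) :
    ∀ (v : ℕ) (w : Finset ℕ → ℕ) (T : Set ℕ) (f : Set ℕ → α), ∑ s ∈ D, w s = v → T.Infinite →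
      (∀ x ∈ F, ∀ t ∈ T, x < t) → Bad r C (↑F ∪ T) f →
      (∀ s ∈ D, ∀ X : Set ℕ, X ⊆ ↑F ∪ T → X.Infinite → X ∩ ↑F = ↑s → rk (f X) = w s) →
      ∃ (T1 : Set ℕ) (f1 : Set ℕ → α), T1 ⊆ T ∧ T1.Infinite ∧ Bad r C (↑F ∪ T1) f1 ∧
        (∀ X : Set ℕ, X ⊆ ↑F ∪ T1 → X.Infinite → (f1 X = f X ∨ sub (f1 X) (f X))) ∧
        (∀ X : Set ℕ, X ⊆ ↑F ∪ T1 → X.Infinite → cov X → f1 X = f X) ∧
        MinAll r sub C F cov D T1 f1 := by
  classical
  intro v
  induction v using Nat.strong_induction_on with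
  | _ v ih =>
    intro w T f hv hT hFT hbad hw
    by_cases hmin : MinAll r sub C F cov D T f
    · exact ⟨T, f, le_rfl, hT, hbad, fun X _ _ => Or.inl rfl, fun X _ _ _ => rfl, hmin⟩
    · simp only [MinAll] at hmin
      push Not at hmin
      obtain ⟨T', f', hT', hbad', hle, hcov, s0, hs0, hsub⟩ := hmin
      have hTi' : T'.Infinite := by
        by_contra hfin
        rw [Set.not_infinite] at hfin
        exact hbad'.1 (F.finite_toSet.union hfin)
      have hFT' : ∀ x ∈ F, ∀ t ∈ T', x < t := fun x hx t ht => hFT x hx t (hT' ht)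
      have hup : ∀ {S : Set ℕ}, S ⊆ T' → (↑F ∪ S : Set ℕ) ⊆ ↑F ∪ T := fun h =>
        Set.union_subset_union_right _ (h.trans hT')
      have hrk' : ∀ X : Set ℕ, X ⊆ ↑F ∪ T' → X.Infinite → rk (f' X) ≤ rk (f X) := by
        intro X hX hXi
        rcases hle X hX hXi with h | h
        · rw [h]
        · exact (hrk _ _ h).le
      obtain ⟨T2, hT2, hT2i, w2, hw2⟩ := make_const (rk := rk) hD hTi' hbad'.2.1
        (∑ s ∈ D, w s) (by
          intro s hs X hX hXi hXs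
          refine (hrk' X hX hXi).trans ?_
          rw [hw s hs X (hX.trans (hup le_rfl)) hXi hXs]
          exact Finset.single_le_sum (f := w) (fun _ _ => Nat.zero_le _) hs)
      have hlt : ∑ s ∈ D, w2 s < v := by
        rw [← hv]
        have hXs : ∀ s ∈ D, (↑s ∪ T2 : Set ℕ) ⊆ ↑F ∪ T2 ∧ (↑s ∪ T2 : Set ℕ).Infinite ∧
            (↑s ∪ T2 : Set ℕ) ∩ ↑F = ↑s := by
          intro s hs
          refine ⟨Set.union_subset_union_left _ (Finset.coe_subset.2 (hD s hs)),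
            hT2i.mono Set.subset_union_right, ?_⟩
          ext k
          simp only [Set.mem_inter_iff, Set.mem_union, Finset.mem_coe]
          constructor
          · rintro ⟨h | h, hF⟩
            · exact h
            · exact absurd (hFT' k hF k (hT2 h)) (lt_irrefl _)
          · intro h; exact ⟨Or.inl h, hD s hs h⟩
        apply Finset.sum_lt_sum
        · intro s hs
          obtain ⟨g1, g2, g3⟩ := hXs s hs
          rw [← hw2 s hs _ g1 g2 g3, ← hw s hs _ (g1.trans (hup hT2)) g2 g3]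
          exact hrk' _ (g1.trans (Set.union_subset_union_right _ hT2)) g2
        · refine ⟨s0, hs0, ?_⟩
          obtain ⟨g1, g2, g3⟩ := hXs s0 hs0
          rw [← hw2 s0 hs0 _ g1 g2 g3, ← hw s0 hs0 _ (g1.trans (hup hT2)) g2 g3]
          exact hrk _ _ (hsub _ (g1.trans (Set.union_subset_union_right _ hT2)) g2 g3)
      obtain ⟨T1, f1, a1, a2, a3, a4, a5, a6⟩ := ih _ hlt w2 T2 f' rfl hT2i
        (fun x hx t ht => hFT' x hx t (hT2 ht))
        (bad_mono hbad' (Set.union_subset_union_right _ hT2) (hT2i.mono Set.subset_union_right)) hw2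
      have hup1 : (↑F ∪ T1 : Set ℕ) ⊆ ↑F ∪ T' := Set.union_subset_union_right _ (a1.trans hT2)
      refine ⟨T1, f1, (a1.trans hT2).trans hT', a2, a3, fun X hX hXi => ?_,
        fun X hX hXi hc => ?_, a6⟩
      · rcases a4 X hX hXi with h | h
        · rw [h]; exact hle X (hX.trans hup1) hXi
        · rcases hle X (hX.trans hup1) hXi with h' | h'
          · rw [← h']; exact Or.inr h
          · exact Or.inr (htr _ _ _ h h')
      · rw [a5 X hX hXi hc, hcov X (hX.trans hup1) hXi hc]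

variable (r sub C rk)

/-- a stage of the construction -/
structure St where
  F : Finset ℕ
  T : Set ℕ
  f : Set ℕ → α
  H : Set (Finset ℕ × Finset ℕ)
  hT : T.Infinite
  hFT : ∀ x ∈ F, ∀ t ∈ T, x < t
  hbad : Bad r C (↑F ∪ T) f

/-- `X` is covered by a pair in `H` -/
def Cov (H : Set (Finset ℕ × Finset ℕ)) (X : Set ℕ) : Prop :=
  ∃ p ∈ H, X ∩ (↑p.1 : Set ℕ) = ↑p.2

/-- `s` is of bounded rank -/
def Bdd (F : Finset ℕ) (T : Set ℕ) (f : Set ℕ → α) (s : Finset ℕ) : Prop :=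
  s ⊆ F ∧ ∃ B, ∀ X : Set ℕ, X ⊆ ↑F ∪ T → X.Infinite → X ∩ ↑F = ↑s → rk (f X) ≤ B

variable {r sub C rk}

theorem next_stage (hrk : ∀ x y, sub x y → rk x < rk y)
    (htr : ∀ x y z, sub x y → sub y z → sub x z) (S : St r C) :
    ∃ S' : St r C, (∃ y ∈ S.T, S'.F = insert y S.F) ∧ S'.T ⊆ S.T ∧
      (∀ X : Set ℕ, X ⊆ ↑S'.F ∪ S'.T → X.Infinite → (S'.f X = S.f X ∨ sub (S'.f X) (S.f X))) ∧
      (∀ X : Set ℕ, X ⊆ ↑S'.F ∪ S'.T → X.Infinite → Cov S.H X → S'.f X = S.f X) ∧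
      S'.H = S.H ∪ {p | p.1 = S.F ∧ Bdd rk S.F S.T S.f p.2} ∧
      (∀ s, Bdd rk S.F S.T S.f s → ∀ (T' : Set ℕ) (f' : Set ℕ → α), (↑S.F ∪ T' : Set ℕ) ⊆ ↑S'.F ∪ S'.T →
        (∀ x ∈ S.F, ∀ t ∈ T', x < t) →
        Bad r C (↑S.F ∪ T') f' →
        (∀ X : Set ℕ, X ⊆ ↑S.F ∪ T' → X.Infinite → (f' X = S'.f X ∨ sub (f' X) (S'.f X))) →
        (∀ X : Set ℕ, X ⊆ ↑S.F ∪ T' → X.Infinite → Cov S.H X → f' X = S'.f X) →
        ¬ (∀ X : Set ℕ, X ⊆ ↑S.F ∪ T' → X.Infinite → X ∩ ↑S.F = ↑s → sub (f' X) (S'.f X))) := by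
  classical
  let D : Finset (Finset ℕ) := S.F.powerset.filter (fun s => Bdd rk S.F S.T S.f s)
  have hDm : ∀ s, s ∈ D ↔ Bdd rk S.F S.T S.f s := by
    intro s
    simp only [D, Finset.mem_filter, Finset.mem_powerset]
    exact ⟨fun h => h.2, fun h => ⟨h.1, h⟩⟩
  have hD : ∀ s ∈ D, s ⊆ S.F := fun s hs => ((hDm s).1 hs).1
  have hB : ∀ s, ∃ B, s ∈ D → ∀ X : Set ℕ, X ⊆ ↑S.F ∪ S.T → X.Infinite → X ∩ ↑S.F = ↑s →
      rk (S.f X) ≤ B := by
    intro s
    by_cases h : s ∈ D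
    · obtain ⟨B, hB⟩ := ((hDm s).1 h).2
      exact ⟨B, fun _ => hB⟩
    · exact ⟨0, fun h' => absurd h' h⟩
  choose B hB using hB
  obtain ⟨T0, hT0, hT0i, w, hw⟩ := make_const (rk := rk) hD S.hT S.hbad.2.1 (∑ s ∈ D, B s) (by
    intro s hs X hX hXi hXs
    exact (hB s hs X hX hXi hXs).trans
      (Finset.single_le_sum (f := B) (fun _ _ => Nat.zero_le _) hs))
  obtain ⟨T1, f1, a1, a2, a3, a4, a5, a6⟩ := exists_minAll (cov := Cov S.H) hrk htr hD _ w T0 S.f rfl
    hT0i (fun x hx t ht => S.hFT x hx t (hT0 ht))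
    (bad_mono S.hbad (Set.union_subset_union_right _ hT0) (hT0i.mono Set.subset_union_right)) hw
  let y : ℕ := sInf T1
  have hy : y ∈ T1 := Nat.sInf_mem a2.nonempty
  have hU : (↑(insert y S.F) ∪ tl T1 : Set ℕ) = ↑S.F ∪ T1 := by
    ext k
    simp only [tl, Finset.coe_insert, Set.mem_union, Set.mem_insert_iff, Finset.mem_coe,
      Set.mem_sdiff, Set.mem_singleton_iff]
    constructor
    · rintro ((rfl | h) | h)
      · exact Or.inr hy
      · exact Or.inl h
      · exact Or.inr h.1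
    · rintro (h | h)
      · exact Or.inl (Or.inr h)
      · by_cases hk : k = sInf T1
        · exact Or.inl (Or.inl hk)
        · exact Or.inr ⟨h, hk⟩
  let S' : St r C :=
    { F := insert y S.F
      T := tl T1
      f := f1
      H := S.H ∪ {p | p.1 = S.F ∧ Bdd rk S.F S.T S.f p.2}
      hT := tl_infinite a2
      hFT := by
        intro x hx t ht
        have h1 : t ∈ T1 := ht.1
        have h2 : t ≠ y := ht.2
        have h3 : y ≤ t := Nat.sInf_le h1
        rcases Finset.mem_insert.1 hx with rfl | hx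
        · omega
        · exact S.hFT x hx t (hT0 (a1 h1))
      hbad := by rw [hU]; exact a3 }
  refine ⟨S', ⟨y, hT0 (a1 hy), rfl⟩, (tl_subset T1).trans (a1.trans hT0), ?_, ?_, rfl, ?_⟩
  · intro X hX hXi
    change X ⊆ ↑(insert y S.F) ∪ tl T1 at hX
    rw [hU] at hX
    exact a4 X hX hXi
  · intro X hX hXi
    change X ⊆ ↑(insert y S.F) ∪ tl T1 at hX
    rw [hU] at hX
    exact a5 X hX hXi
  · intro s hs T' f' hT' hFT' hbad' hle hcov
    change (↑S.F ∪ T' : Set ℕ) ⊆ ↑(insert y S.F) ∪ tl T1 at hT'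
    rw [hU] at hT'
    have hT1 : T' ⊆ T1 := by
      intro t ht
      rcases hT' (Or.inr ht) with h | h
      · exact absurd (hFT' t h t ht) (lt_irrefl _)
      · exact h
    exact a6 T' f' hT1 hbad' hle hcov s ((hDm s).2 hs)

/-- Nash-Williams' minimal bad array lemma (clopen form) -/
theorem min_bad (hrk : ∀ x y, sub x y → rk x < rk y)
    (htr : ∀ x y z, sub x y → sub y z → sub x z) (hcomp : ∀ a x y, r a x → sub x y → r a y)
    {A : Set ℕ} {f : Set ℕ → α} (hAf : Bad r C A f) :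
    ∃ (A' : Set ℕ) (f' : Set ℕ → α), Bad r C A' f' ∧ A' ⊆ A ∧
      (∀ X : Set ℕ, X ⊆ A' → X.Infinite → (f' X = f X ∨ sub (f' X) (f X))) ∧
      ∀ (A'' : Set ℕ) (f'' : Set ℕ → α), Bad r C A'' f'' → A'' ⊆ A' →
        ¬ (∀ X : Set ℕ, X ⊆ A'' → X.Infinite → sub (f'' X) (f' X)) := by
  classical
  choose nx n1 n2 n3 n4 n5 n6 using next_stage (r := r) (C := C) hrk htr
  let S0 : St r C :=
    { F := ∅, T := A, f := f, H := ∅, hT := hAf.1
      hFT := fun x hx => absurd hx (by simp)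
      hbad := by simpa using hAf }
  let S : ℕ → St r C := fun n => Nat.rec S0 (fun _ s => nx s) n
  have hS : ∀ n, S (n + 1) = nx (S n) := fun n => rfl
  have hy : ∀ n, ∃ y ∈ (S n).T, (S (n + 1)).F = insert y (S n).F := fun n => by
    rw [hS]; exact n1 (S n)
  choose y hyT hyF using hy
  have hT : ∀ n, (S (n + 1)).T ⊆ (S n).T := fun n => by rw [hS]; exact n2 (S n)
  let U : ℕ → Set ℕ := fun n => ↑(S n).F ∪ (S n).T
  have hU : ∀ n, U (n + 1) ⊆ U n := by
    intro n k hk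
    rcases hk with hk | hk
    · rw [hyF n] at hk
      rcases Finset.mem_insert.1 (Finset.mem_coe.1 hk) with rfl | hk
      · exact Or.inr (hyT n)
      · exact Or.inl hk
    · exact Or.inr (hT n hk)
  have Umono : ∀ m n, m ≤ n → U n ⊆ U m := by
    intro m n hmn
    induction n, hmn using Nat.le_induction with
    | base => exact le_rfl
    | succ n _ ih => exact (hU n).trans ih
  have Tmono : ∀ m n, m ≤ n → (S n).T ⊆ (S m).T := by
    intro m n hmn
    induction n, hmn using Nat.le_induction with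
    | base => exact le_rfl
    | succ n _ ih => exact (hT n).trans ih
  have Fmono : ∀ m n, m ≤ n → (S m).F ⊆ (S n).F := by
    intro m n hmn
    induction n, hmn using Nat.le_induction with
    | base => exact le_rfl
    | succ n _ ih => rw [hyF n]; exact ih.trans (Finset.subset_insert _ _)
  let Y : Set ℕ := {k | ∃ n, k ∈ (S n).F}
  have hYU : ∀ n, Y ⊆ U n := by
    rintro n k ⟨m, hm⟩
    rcases le_total m n with h | h
    · exact Or.inl (Fmono m n h hm)
    · exact Umono n m h (Or.inl hm)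
  have hyY : ∀ n, y n ∈ (S (n + 1)).F := fun n => by rw [hyF n]; exact Finset.mem_insert_self _ _
  have hylt : ∀ n, y n < y (n + 1) := fun n => (S (n + 1)).hFT _ (hyY n) _ (hyT (n + 1))
  have hym : StrictMono y := strictMono_nat_of_lt_succ hylt
  have hYi : Y.Infinite :=
    Set.infinite_of_injective_forall_mem hym.injective (fun n => ⟨n + 1, hyY n⟩)
  have hTbig : ∀ n t, t ∈ (S (n + 1)).T → n < t := fun n t ht =>
    lt_of_le_of_lt hym.le_apply ((S (n + 1)).hFT _ (hyY n) t ht)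
  -- chain of arrays
  have hle : ∀ m n, m ≤ n → ∀ X : Set ℕ, X ⊆ U n → X.Infinite →
      ((S n).f X = (S m).f X ∨ sub ((S n).f X) ((S m).f X)) := by
    intro m n hmn
    induction n, hmn using Nat.le_induction with
    | base => intro X _ _; exact Or.inl rfl
    | succ n _ ih =>
      intro X hX hXi
      have h1 : (S (n + 1)).f X = (S n).f X ∨ sub ((S (n + 1)).f X) ((S n).f X) := by
        have := n3 (S n) X (by rw [← hS]; exact hX) hXi
        rw [hS]; exact this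
      have h2 := ih X (hX.trans (hU n)) hXi
      rcases h1 with h1 | h1
      · rw [h1]; exact h2
      · rcases h2 with h2 | h2
        · rw [← h2]; exact Or.inr h1
        · exact Or.inr (htr _ _ _ h1 h2)
  have hH : ∀ n, (S (n + 1)).H = (S n).H ∪ {p | p.1 = (S n).F ∧ Bdd rk (S n).F (S n).T (S n).f p.2} :=
    fun n => by rw [hS]; exact n5 (S n)
  have hH1 : ∀ m n, m ≤ n → (S m).H ⊆ (S n).H := by
    intro m n hmn
    induction n, hmn using Nat.le_induction with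
    | base => exact le_rfl
    | succ n _ ih => rw [hH n]; exact ih.trans Set.subset_union_left
  have hH2 : ∀ m p, p ∈ (S m).H → ∃ n, n < m ∧ p.1 = (S n).F ∧
      Bdd rk (S n).F (S n).T (S n).f p.2 := by
    intro m
    induction m with
    | zero => intro p hp; exact absurd hp (Set.notMem_empty p)
    | succ m ih =>
      intro p hp
      rw [hH m] at hp
      rcases hp with hp | hp
      · obtain ⟨n, h1, h2⟩ := ih p hp
        exact ⟨n, by omega, h2⟩
      · exact ⟨m, by omega, hp⟩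
  have covmono : ∀ m n, m ≤ n → ∀ X, Cov (S m).H X → Cov (S n).H X := by
    rintro m n hmn X ⟨p, hp, h⟩
    exact ⟨p, hH1 m n hmn hp, h⟩
  have hfr : ∀ m n, m ≤ n → ∀ X : Set ℕ, X ⊆ U n → X.Infinite → Cov (S m).H X →
      (S n).f X = (S m).f X := by
    intro m n hmn
    induction n, hmn using Nat.le_induction with
    | base => intro X _ _ _; rfl
    | succ n hmn ih =>
      intro X hX hXi hc
      have h1 : (S (n + 1)).f X = (S n).f X := by
        have := n4 (S n) X (by rw [← hS]; exact hX) hXi (covmono m n hmn X hc)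
        rw [hS]; exact this
      rw [h1]
      exact ih X (hX.trans (hU n)) hXi hc
  -- every `X` is covered at some stage
  have hcov : ∀ X : Set ℕ, X ⊆ Y → X.Infinite → ∃ n, Cov (S n).H X := by
    intro X hX hXi
    obtain ⟨N, hN⟩ := hAf.2.1 X ((hX.trans (hYU 0)).trans (by simp [U, S, S0])) hXi
    let n := N + 1
    let s : Finset ℕ := (S n).F.filter (fun k => k ∈ X)
    have hs : X ∩ ↑(S n).F = ↑s := by
      ext k
      simp only [s, Set.mem_inter_iff, Finset.coe_filter, Set.mem_ofPred_eq, Finset.mem_coe]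
      exact and_comm
    refine ⟨n + 1, ((S n).F, s), ?_, hs⟩
    rw [hH n]
    refine Or.inr ⟨rfl, Finset.filter_subset _ _, rk (f X), fun X' hX' hXi' hXs' => ?_⟩
    have hagree : ∀ k < N, (k ∈ X ↔ k ∈ X') := by
      intro k hk
      have hkT : k ∉ (S n).T := fun h => by have := hTbig N k h; omega
      constructor
      · intro h
        rcases hYU n (hX h) with h1 | h1
        · have : k ∈ X' ∩ ↑(S n).F := by rw [hXs', ← hs]; exact ⟨h, h1⟩
          exact this.1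
        · exact absurd h1 hkT
      · intro h
        rcases hX' h with h1 | h1
        · have : k ∈ X ∩ ↑(S n).F := by rw [hs, ← hXs']; exact ⟨h, h1⟩
          exact this.1
        · exact absurd h1 hkT
    have h0 : (S 0).f X' = f X := by
      have hX'A : X' ⊆ A := by
        have h1 : U 0 = A := by simp [U, S, S0]
        rw [← h1]; exact hX'.trans (Umono 0 n (Nat.zero_le _))
      exact hN X' hX'A hXi' hagree
    rcases hle 0 n (Nat.zero_le _) X' hX' hXi' with h | h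
    · change rk ((S n).f X') ≤ rk (f X)
      rw [h, h0]
    · have := hrk _ _ h
      rw [h0] at this
      exact this.le
  -- the limit
  let g : Set ℕ → α := fun X => if h : ∃ n, Cov (S n).H X then (S (Nat.find h)).f X else f X
  have hg : ∀ X : Set ℕ, X ⊆ Y → X.Infinite → ∀ n, Cov (S n).H X → g X = (S n).f X := by
    intro X hX hXi n hn
    have h : ∃ n, Cov (S n).H X := ⟨n, hn⟩
    have h1 : g X = (S (Nat.find h)).f X := by simp only [g]; rw [dif_pos h]
    rw [h1]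
    exact (hfr (Nat.find h) n (Nat.find_min' h hn) X (hX.trans (hYU n)) hXi (Nat.find_spec h)).symm
  have hgle : ∀ X : Set ℕ, X ⊆ Y → X.Infinite → ∀ n, (g X = (S n).f X ∨ sub (g X) ((S n).f X)) := by
    intro X hX hXi n
    obtain ⟨m, hm⟩ := hcov X hX hXi
    have h1 := hg X hX hXi (max m n) (covmono m _ (le_max_left _ _) X hm)
    rw [h1]
    exact hle n _ (le_max_right _ _) X (hX.trans (hYU _)) hXi
  have hgl : LocOn Y g := by
    intro X hX hXi
    obtain ⟨n, hn⟩ := hcov X hX hXi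
    obtain ⟨⟨E, s⟩, hp, hEs⟩ := hn
    obtain ⟨N, hN⟩ := (S n).hbad.2.1 X (hX.trans (hYU n)) hXi
    refine ⟨max N (E.sup id + 1), fun X' hX' hXi' hag => ?_⟩
    have hc : Cov (S n).H X' := by
      refine ⟨(E, s), hp, ?_⟩
      change X' ∩ ↑E = ↑s
      change X ∩ ↑E = ↑s at hEs
      rw [← hEs]
      ext k
      simp only [Set.mem_inter_iff, Finset.mem_coe]
      constructor
      · rintro ⟨h1, h2⟩
        have h3 : k ≤ E.sup id := Finset.le_sup (f := id) h2
        exact ⟨(hag k (lt_of_lt_of_le (by omega) (le_max_right _ _))).2 h1, h2⟩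
      · rintro ⟨h1, h2⟩
        have h3 : k ≤ E.sup id := Finset.le_sup (f := id) h2
        exact ⟨(hag k (lt_of_lt_of_le (by omega) (le_max_right _ _))).1 h1, h2⟩
    rw [hg X' hX' hXi' n hc, hg X hX hXi n ⟨(E, s), hp, hEs⟩]
    exact hN X' (hX'.trans (hYU n)) hXi' (fun k hk => hag k (lt_of_lt_of_le hk (le_max_left _ _)))
  have hgC : ∀ X : Set ℕ, X ⊆ Y → X.Infinite → C (g X) ∧ ¬ r (g X) (g (tl X)) := by
    intro X hX hXi
    obtain ⟨m, hm⟩ := hcov X hX hXi
    obtain ⟨n, hn⟩ := hcov (tl X) ((tl_subset X).trans hX) (tl_infinite hXi)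
    have h1 := hg X hX hXi (max m n) (covmono m _ (le_max_left _ _) X hm)
    have h2 := hg (tl X) ((tl_subset X).trans hX) (tl_infinite hXi) (max m n)
      (covmono n _ (le_max_right _ _) _ hn)
    rw [h1, h2]
    exact (S (max m n)).hbad.2.2 X (hX.trans (hYU _)) hXi
  have hYA : Y ⊆ A := by
    have h1 : U 0 = A := by simp [U, S, S0]
    rw [← h1]; exact hYU 0
  refine ⟨Y, g, ⟨hYi, hgl, hgC⟩, hYA, fun X hX hXi => hgle X hX hXi 0, ?_⟩
  intro Z h hZ hZY hsub
  -- the first stage with a bounded `s` inside `Z`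
  have hex : ∃ n, ∃ s : Finset ℕ, Bdd rk (S n).F (S n).T (S n).f s ∧ (↑s : Set ℕ) ⊆ Z := by
    obtain ⟨m, p, hp, hpZ⟩ := hcov Z hZY hZ.1
    obtain ⟨n, _, h2, h3⟩ := hH2 m p hp
    exact ⟨n, p.2, h3, by rw [← hpZ]; exact Set.inter_subset_left⟩
  obtain ⟨s, hsB, hsZ⟩ := Nat.find_spec hex
  have hmin : ∀ m, m < Nat.find hex → ¬ ∃ s : Finset ℕ, Bdd rk (S m).F (S m).T (S m).f s ∧
      (↑s : Set ℕ) ⊆ Z := fun m hm => Nat.find_min hex hm
  generalize Nat.find hex = n at hsB hmin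
  let T' : Set ℕ := Z ∩ (S n).T
  have hT'i : T'.Infinite := inter_inf (hZY.trans (hYU n)) hZ.1
  have hDY : (↑(S n).F ∪ T' : Set ℕ) ⊆ Y := by
    rintro k (hk | hk)
    · exact ⟨n, hk⟩
    · exact hZY hk.1
  let f' : Set ℕ → α := fun X => if X ⊆ Z then h X else g X
  have hf1 : ∀ X, X ⊆ Z → f' X = h X := fun X hX => if_pos hX
  have hf2 : ∀ X, ¬ X ⊆ Z → f' X = g X := fun X hX => if_neg hX
  have hsuby : ∀ X : Set ℕ, X ⊆ ↑(S n).F ∪ T' → X.Infinite →
      (f' X = (S (n + 1)).f X ∨ sub (f' X) ((S (n + 1)).f X)) := by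
    intro X hX hXi
    have h1 := hgle X (hX.trans hDY) hXi (n + 1)
    by_cases hXZ : X ⊆ Z
    · rw [hf1 X hXZ]
      have h2 := hsub X hXZ hXi
      rcases h1 with h1 | h1
      · rw [← h1]; exact Or.inr h2
      · exact Or.inr (htr _ _ _ h2 h1)
    · rw [hf2 X hXZ]; exact h1
  have hbadf : Bad r C (↑(S n).F ∪ T') f' := by
    refine ⟨hT'i.mono Set.subset_union_right, ?_, ?_⟩
    · intro X hX hXi
      by_cases hXZ : X ⊆ Z
      · obtain ⟨N, hN⟩ := hZ.2.1 X hXZ hXi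
        refine ⟨max N ((S n).F.sup id + 1), fun X' hX' hXi' hag => ?_⟩
        have hX'Z : X' ⊆ Z := by
          intro k hk
          rcases hX' hk with h1 | h1
          · have h3 : k ≤ (S n).F.sup id := Finset.le_sup (f := id) h1
            exact hXZ ((hag k (lt_of_lt_of_le (by omega) (le_max_right _ _))).2 hk)
          · exact h1.1
        rw [hf1 X hXZ, hf1 X' hX'Z]
        exact hN X' hX'Z hXi' (fun k hk => hag k (lt_of_lt_of_le hk (le_max_left _ _)))
      · obtain ⟨N, hN⟩ := hgl X (hX.trans hDY) hXi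
        refine ⟨max N ((S n).F.sup id + 1), fun X' hX' hXi' hag => ?_⟩
        have hX'Z : ¬ X' ⊆ Z := by
          intro hcon
          apply hXZ
          intro k hk
          rcases hX hk with h1 | h1
          · have h3 : k ≤ (S n).F.sup id := Finset.le_sup (f := id) h1
            exact hcon ((hag k (lt_of_lt_of_le (by omega) (le_max_right _ _))).1 hk)
          · exact h1.1
        rw [hf2 X hXZ, hf2 X' hX'Z]
        exact hN X' (hX'.trans hDY) hXi' (fun k hk => hag k (lt_of_lt_of_le hk (le_max_left _ _)))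
    · intro X hX hXi
      have hXt : tl X ⊆ ↑(S n).F ∪ T' := (tl_subset X).trans hX
      by_cases hXZ : X ⊆ Z
      · have htZ : tl X ⊆ Z := (tl_subset X).trans hXZ
        rw [hf1 X hXZ, hf1 _ htZ]
        exact hZ.2.2 X hXZ hXi
      · rw [hf2 X hXZ]
        have h1 := hgC X (hX.trans hDY) hXi
        refine ⟨h1.1, ?_⟩
        by_cases htZ : tl X ⊆ Z
        · rw [hf1 _ htZ]
          intro hr
          exact h1.2 (hcomp _ _ _ hr (hsub _ htZ (tl_infinite hXi)))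
        · rw [hf2 _ htZ]
          exact h1.2
  have hHn : ((S n).F, s) ∈ (S (n + 1)).H := by
    rw [hH n]; exact Or.inr ⟨rfl, hsB⟩
  have hfin := n6 (S n) s hsB T' f' (by
      rw [← hS]
      exact hDY.trans (hYU (n + 1)))
    (fun x hx t ht => (S n).hFT x hx t ht.2) hbadf
    (fun X hX hXi => by rw [← hS]; exact hsuby X hX hXi)
    (fun X hX hXi hc => by
      rw [← hS]
      obtain ⟨p, hp, hpX⟩ := hc
      have hXZ : ¬ X ⊆ Z := by
        intro hcon
        obtain ⟨m, hm, h2, h3⟩ := hH2 n p hp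
        exact hmin m hm ⟨p.2, h3, by rw [← hpX]; exact Set.inter_subset_left.trans hcon⟩
      rw [hf2 X hXZ]
      exact hg X (hX.trans hDY) hXi (n + 1) (covmono n _ (Nat.le_succ n) X ⟨p, hp, hpX⟩))
  apply hfin
  intro X hX hXi hXs
  rw [← hS]
  have hXZ : X ⊆ Z := by
    intro k hk
    rcases hX hk with h1 | h1
    · apply hsZ
      rw [← hXs]
      exact ⟨hk, h1⟩
    · exact h1.1
  rw [hf1 X hXZ]
  have h1 := hsub X hXZ hXi
  rwa [hg X (hX.trans hDY) hXi (n + 1) ⟨_, hHn, hXs⟩] at h1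

end minbad

end Pool.Agent.Bqp
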