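import Pool.Agent.Bqp.GGlue
import Pool.Agent.Bqp.MinBad

set_option autoImplicit false

namespace Pool.Agent.Bqp

/-- finite lists -/
abbrev LL (β : Type*) : Type _ := Σ n : ℕ, (Fin n → β)

/-- domination by an injective map -/
def rL {β : Type*} (rb : β → β → Prop) (M N : LL β) : Prop :=
  ∃ σ : Fin M.1 → Fin N.1, Function.Injective σ ∧ ∀ j, rb (M.2 j) (N.2 (σ j))

/-- proper sub-multiset -/
def subL {β : Type*} (M N : LL β) : Prop :=
  M.1 < N.1 ∧ ∃ σ : Fin M.1 → Fin N.1, Function.Injective σ ∧ ∀ j, M.2 j = N.2 (σ j)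

/-- the list without its first element -/
def tlL {β : Type*} (M : LL β) : LL β := ⟨M.1 - 1, fun j => M.2 ⟨j.1 + 1, by omega⟩⟩

theorem rL_cons {β : Type*} {rb : β → β → Prop} {M N : LL β} (hM : 0 < M.1) (hN : 0 < N.1)
    (h : rb (M.2 ⟨0, hM⟩) (N.2 ⟨0, hN⟩)) (ht : rL rb (tlL M) (tlL N)) : rL rb M N := by
  obtain ⟨σ, hσ, h1⟩ := ht
  have hM1 : (tlL M).1 = M.1 - 1 := rfl
  have hN1 : (tlL N).1 = N.1 - 1 := rfl
  let τ : Fin M.1 → Fin N.1 := fun j =>
    if hj : j.1 = 0 then ⟨0, hN⟩ else ⟨(σ ⟨j.1 - 1, by omega⟩).1 + 1, by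
      have := (σ ⟨j.1 - 1, by omega⟩).2
      omega⟩
  have t0 : ∀ j : Fin M.1, j.1 = 0 → τ j = ⟨0, hN⟩ := fun j hj => dif_pos hj
  have t1 : ∀ (j : Fin M.1) (hj : ¬ j.1 = 0), τ j = ⟨(σ ⟨j.1 - 1, by omega⟩).1 + 1, by
      have := (σ ⟨j.1 - 1, by omega⟩).2
      omega⟩ := fun j hj => dif_neg hj
  refine ⟨τ, ?_, ?_⟩
  · intro a b hab
    by_cases ha : a.1 = 0
    · by_cases hb : b.1 = 0
      · exact Fin.ext (ha.trans hb.symm)
      · rw [t0 a ha, t1 b hb] at hab
        have := congrArg Fin.val hab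
        simp at this
    · by_cases hb : b.1 = 0
      · rw [t1 a ha, t0 b hb] at hab
        have := congrArg Fin.val hab
        simp at this
      · rw [t1 a ha, t1 b hb] at hab
        have h2 := congrArg Fin.val hab
        simp only [Nat.add_right_cancel_iff] at h2
        have h3 := hσ (Fin.ext h2)
        have h4 := congrArg Fin.val h3
        simp only at h4
        apply Fin.ext
        omega
  · intro j
    by_cases hj : j.1 = 0
    · rw [t0 j hj]
      have : j = ⟨0, hM⟩ := Fin.ext hj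
      rw [this]
      exact h
    · rw [t1 j hj]
      have h2 := h1 ⟨j.1 - 1, by omega⟩
      have h3 : (tlL M).2 ⟨j.1 - 1, by omega⟩ = M.2 j := by
        change M.2 ⟨j.1 - 1 + 1, _⟩ = M.2 j
        exact congrArg M.2 (Fin.ext (by
          change j.1 - 1 + 1 = j.1
          omega))
      rw [h3] at h2
      exact h2

/-- a bad array of multisets has a bad array of elements -/
theorem multi_bad {β : Type*} {rb : β → β → Prop} {A : Set ℕ} {M : Set ℕ → LL β}
    (h : Bad (rL rb) (fun _ => True) A M) : ∃ (A' : Set ℕ) (g : Set ℕ → β), A' ⊆ A ∧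
      Bad rb (fun _ => True) A' g ∧ ∀ X : Set ℕ, X ⊆ A' → X.Infinite → ∃ j, g X = (M X).2 j := by
  classical
  obtain ⟨A1, N, b1, b2, b3, b4⟩ := min_bad (sub := subL) (rk := fun M : LL β => M.1)
    (fun x y hxy => hxy.1)
    (by
      rintro x y z ⟨h1, σ, h2, h3⟩ ⟨h1', σ', h2', h3'⟩
      exact ⟨h1.trans h1', σ' ∘ σ, h2'.comp h2, fun j => (h3 j).trans (h3' _)⟩)
    (by
      rintro a x y ⟨σ, h2, h3⟩ ⟨h1', σ', h2', h3'⟩
      refine ⟨σ' ∘ σ, h2'.comp h2, fun j => ?_⟩
      have := h3 j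
      rw [h3' (σ j)] at this
      exact this) h
  have hpos : ∀ X : Set ℕ, X ⊆ A1 → X.Infinite → 0 < (N X).1 := by
    intro X hX hXi
    by_contra hcon
    have h0 : (N X).1 = 0 := by omega
    apply (b1.2.2 X hX hXi).2
    refine ⟨fun j => absurd j.2 (by omega), fun j => absurd j.2 (by omega),
      fun j => absurd j.2 (by omega)⟩
  have hβ : Nonempty β := ⟨(N A1).2 ⟨0, hpos A1 le_rfl b1.1⟩⟩
  obtain ⟨β0⟩ := hβ
  let hd : LL β → β := fun L => if h : 0 < L.1 then L.2 ⟨0, h⟩ else β0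
  have hhd : ∀ (L : LL β) (h : 0 < L.1), hd L = L.2 ⟨0, h⟩ := fun L h => dif_pos h
  have hloc : LocOn A1 N := b1.2.1
  obtain ⟨Z, hZ, hZi, v, hv⟩ := ramsey_on
    (locOn_comp (locOn_pair hloc (locOn_tl hloc))
      (fun p => (decide (rb (hd p.1) (hd p.2)), decide (rL rb (tlL p.1) (tlL p.2))))) b1.1
  have hmem : ∀ X : Set ℕ, X ⊆ A1 → X.Infinite → ∃ j, hd (N X) = (M X).2 j := by
    intro X hX hXi
    rw [hhd _ (hpos X hX hXi)]
    rcases b3 X hX hXi with h1 | h1
    · have key : ∀ (L L' : LL β) (hL : 0 < L.1), L = L' → ∃ j, L.2 ⟨0, hL⟩ = L'.2 j := by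
        intro L L' hL hLL
        subst hLL
        exact ⟨_, rfl⟩
      exact key _ _ _ h1
    · obtain ⟨_, σ, _, h3⟩ := h1
      exact ⟨_, h3 _⟩
  by_cases hv1 : v.1 = true
  · by_cases hv2 : v.2 = true
    · exfalso
      have h1 := hv Z le_rfl hZi
      rw [Prod.ext_iff] at h1
      have h2 : rb (hd (N Z)) (hd (N (tl Z))) := of_decide_eq_true (h1.1.trans hv1)
      have h3 : rL rb (tlL (N Z)) (tlL (N (tl Z))) := of_decide_eq_true (h1.2.trans hv2)
      have p1 := hpos Z hZ hZi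
      have p2 := hpos (tl Z) ((tl_subset Z).trans hZ) (tl_infinite hZi)
      rw [hhd _ p1, hhd _ p2] at h2
      exact (b1.2.2 Z hZ hZi).2 (rL_cons p1 p2 h2 h3)
    · exfalso
      have hbad : Bad (rL rb) (fun _ => True) Z (fun X => tlL (N X)) := by
        refine ⟨hZi, locOn_comp (locOn_mono hloc hZ) tlL, fun X hX hXi => ⟨trivial, fun hr => ?_⟩⟩
        have h1 := hv X hX hXi
        rw [Prod.ext_iff] at h1
        apply hv2
        rw [← h1.2]
        exact decide_eq_true hr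
      apply b4 Z _ hbad hZ
      intro X hX hXi
      have p1 := hpos X (hX.trans hZ) hXi
      refine ⟨?_, fun j => ⟨j.1 + 1, ?_⟩, ?_, fun j => rfl⟩
      · change (N X).1 - 1 < (N X).1
        omega
      · have h2 : j.1 < (N X).1 - 1 := j.2
        omega
      · intro a b hab
        have h2 := congrArg Fin.val hab
        simp only [Nat.add_right_cancel_iff] at h2
        exact Fin.ext h2
  · refine ⟨Z, fun X => hd (N X), hZ.trans b2, ⟨hZi, locOn_comp (locOn_mono hloc hZ) hd,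
      fun X hX hXi => ⟨trivial, fun hr => ?_⟩⟩, fun X hX hXi => hmem X (hX.trans hZ) hXi⟩
    have h1 := hv X hX hXi
    rw [Prod.ext_iff] at h1
    apply hv1
    rw [← h1.1]
    exact decide_eq_true hr

/-- with a bound for the height -/
def TreeH {ι : Type} {m q : ℕ} (r : Fin m → Fin q) (Core : MK ι q → Prop) :
    ℕ → MK ι m → Prop
  | 0, _ => False
  | h + 1, G => ∃ (C : MK ι q) (n : ℕ) (K : Fin n → MK ι m) (i : Fin n → Fin m → Fin q)
      (α : KV C → KV G) (β : ∀ j, KV (K j) → KV G),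
      Core C ∧ (∀ j, TreeH r Core h (K j)) ∧ IsGlue r C K i G α β ∧
      ∀ j, Linked C.1.1 (fun s => kmark C (r s)) (fun s => kmark C (i j s))

theorem treeH_mono {ι : Type} {m q : ℕ} (r : Fin m → Fin q) (Core : MK ι q → Prop) :
    ∀ (h : ℕ) (G : MK ι m), TreeH r Core h G → TreeH r Core (h + 1) G := by
  intro h
  induction h with
  | zero => intro G hG; exact hG.elim
  | succ h ih =>
    intro G hG
    obtain ⟨C, n, K, i, α, β, c1, c2, c3⟩ := hG
    exact ⟨C, n, K, i, α, β, c1, fun j => ih _ (c2 j), c3⟩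

theorem treeH_le {ι : Type} {m q : ℕ} (r : Fin m → Fin q) (Core : MK ι q → Prop) {h h' : ℕ}
    (hh : h ≤ h') (G : MK ι m) (hG : TreeH r Core h G) : TreeH r Core h' G := by
  induction h', hh using Nat.le_induction with
  | base => exact hG
  | succ h' _ ih => exact treeH_mono r Core h' G ih

theorem treeH_of {ι : Type} {m q : ℕ} (r : Fin m → Fin q) (Core : MK ι q → Prop) (G : MK ι m)
    (hG : TreeGlued r Core G) : ∃ h, TreeH r Core h G := by
  induction hG with
  | glue G C n K i α β hC _ hG hL ih =>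
    choose h hh using ih
    refine ⟨(∑ j, h j) + 1, C, n, K, i, α, β, hC, fun j => ?_, hG, hL⟩
    exact treeH_le r Core (Finset.single_le_sum (f := h) (fun _ _ => Nat.zero_le _)
      (Finset.mem_univ j)) _ (hh j)

/-- Kruskal's theorem for better-quasi-orders, graph form -/
theorem tree_bqr {ι : Type} {m q : ℕ} (r : Fin m → Fin q) {Core : MK ι q → Prop}
    (hC : Bqr (KMinor (ι := ι) (q := q)) Core) :
    Bqr (KMinor (ι := ι) (q := m)) (TreeGlued r Core) := by
  classical
  apply bqr_mono (D := fun G => ∃ h, TreeH r Core h G) (treeH_of r Core)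
  by_contra hnot
  obtain ⟨f0, hf0⟩ := not_bqr hnot
  let T : MK ι m → Prop := fun G => ∃ h, TreeH r Core h G
  let rk : MK ι m → ℕ := fun G => if h : ∃ h, TreeH r Core h G then Nat.find h else 0
  have hrk1 : ∀ G, T G → TreeH r Core (rk G) G := by
    intro G hG
    have h1 : rk G = Nat.find hG := dif_pos hG
    rw [h1]
    exact Nat.find_spec hG
  have hrk2 : ∀ G h, TreeH r Core h G → rk G ≤ h := by
    intro G h hG
    have h1 : rk G = Nat.find (⟨h, hG⟩ : ∃ h, TreeH r Core h G) := dif_pos ⟨h, hG⟩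
    rw [h1]
    exact Nat.find_min' _ hG
  let sub : MK ι m → MK ι m → Prop := fun S T' => KMinor S T' ∧ rk S < rk T'
  obtain ⟨A, f, b1, _, _, b4⟩ := min_bad (r := KMinor (ι := ι) (q := m)) (sub := sub) (rk := rk)
    (fun x y h => h.2)
    (fun x y z h h' => ⟨kminor_trans h.1 h'.1, h.2.trans h'.2⟩)
    (fun a x y h h' => kminor_trans h h'.1) hf0
  -- decomposition
  have hdec : ∀ G : MK ι m, ∃ p : MK ι q × LL (MK ι m × (Fin m → Fin q)), T G → Core p.1 ∧
      (∀ j, T (p.2.2 j).1 ∧ sub (p.2.2 j).1 G) ∧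
      ∃ (α : Fin p.1.1.1.1 → Fin G.1.1.1) (β : ∀ j, Fin (p.2.2 j).1.1.1.1 → Fin G.1.1.1),
        IsGlueX p.1 (fun j => (p.2.2 j).1) (fun j => (p.2.2 j).2) G.1 α β ∧
        ∀ s, G.2 s = α (p.1.2 (r s)) := by
    intro G
    by_cases hG : T G
    · have h1 := hrk1 G hG
      cases hr : rk G with
      | zero => rw [hr] at h1; exact h1.elim
      | succ h =>
        rw [hr] at h1
        obtain ⟨C, n, K, i, α, β, c1, c2, c3, c5⟩ := h1
        refine ⟨(C, ⟨n, fun j => (K j, i j)⟩), fun _ => ⟨c1, fun j => ⟨⟨h, c2 j⟩, ?_, ?_⟩,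
          α, β, isGlueX c3, c3.groot⟩⟩
        · exact piece_minor (isGlueX c3) c3.groot j (c5 j)
        · have := hrk2 _ _ (c2 j)
          change rk (K j) < rk G
          omega
    · by_cases hq : ∃ x : MK ι q, True
      · obtain ⟨x, _⟩ := hq
        exact ⟨(x, ⟨0, fun j => j.elim0⟩), fun h => absurd h hG⟩
      · exact absurd ⟨(⟨⟨⟨q, ⊥⟩, fun _ _ => false⟩, Function.Embedding.refl _⟩ : MK ι q), trivial⟩
          hq
  choose dec hdec using hdec
  have hT : ∀ X : Set ℕ, X ⊆ A → X.Infinite → T (f X) := fun X hX hXi => (b1.2.2 X hX hXi).1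
  obtain ⟨Z, hZ, hZi, hZc⟩ := bqr_homog_on hC (locOn_comp b1.2.1 (fun G => (dec G).1)) b1.1
    (fun X hX hXi => (hdec _ (hT X hX hXi)).1)
  have hbad : Bad (rL (fun x y : MK ι m × (Fin m → Fin q) => KMinor x.1 y.1 ∧ x.2 = y.2))
      (fun _ => True) Z (fun X => (dec (f X)).2) := by
    refine ⟨hZi, locOn_comp (locOn_mono b1.2.1 hZ) (fun G => (dec G).2),
      fun X hX hXi => ⟨trivial, ?_⟩⟩
    rintro ⟨σ, hσ, hs⟩
    have htA : tl X ⊆ A := ((tl_subset X).trans hX).trans hZ
    obtain ⟨_, _, α, β, e, he⟩ := hdec _ (hT X (hX.trans hZ) hXi)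
    obtain ⟨_, _, α', β', e', he'⟩ := hdec _ (hT (tl X) htA (tl_infinite hXi))
    exact (b1.2.2 X (hX.trans hZ) hXi).2
      (glue_mono e he e' he' (hZc X hX hXi) σ hσ (fun j => (hs j).2) (fun j => (hs j).1))
  obtain ⟨A', g, hA', hg, hgm⟩ := multi_bad hbad
  obtain ⟨Y, hY, hYi, v, hv⟩ := ramsey_on (locOn_comp hg.2.1 (fun p => p.2)) hg.1
  have hin : ∀ X : Set ℕ, X ⊆ Y → X.Infinite → T (g X).1 ∧ sub (g X).1 (f X) := by
    intro X hX hXi
    obtain ⟨j, hj⟩ := hgm X (hX.trans hY) hXi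
    rw [hj]
    exact (hdec _ (hT X ((hX.trans hY).trans (hA'.trans hZ)) hXi)).2.1 j
  have hlast : Bad (KMinor (ι := ι) (q := m)) (fun G => ∃ h, TreeH r Core h G) Y
      (fun X => (g X).1) := by
    refine ⟨hYi, locOn_comp (locOn_mono hg.2.1 hY) (fun p => p.1),
      fun X hX hXi => ⟨(hin X hX hXi).1, fun hr => ?_⟩⟩
    apply (hg.2.2 X (hX.trans hY) hXi).2
    refine ⟨hr, ?_⟩
    have h1 : (g X).2 = v := hv X hX hXi
    have h2 : (g (tl X)).2 = v := hv (tl X) ((tl_subset X).trans hX) (tl_infinite hXi)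
    rw [h1, h2]
  exact b4 Y _ hlast ((hY.trans hA').trans hZ) (fun X hX hXi => (hin X hX hXi).2)

theorem patchTree_bqr (p d : ℕ) : ∀ (ι : Type) [Finite ι],
    Bqr (LMinor (ι := ι)) (PatchTree p d ι) := by
  classical
  induction d with
  | zero => intro ι _; exact base_bqr p ι
  | succ d ih =>
    intro ι _
    apply bqr_or
    · have h : ∀ M : ι → Bool, Bqr (LMinor (ι := ι)) (fun T =>
          ∃ U : LG (Option ι), PatchTree p d (Option ι) U ∧ LIso T (ApexG U) (ApexA U M)) := by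
        intro M
        have hch : ∀ T : LG ι, ∃ U : LG (Option ι),
            (∃ U : LG (Option ι), PatchTree p d (Option ι) U ∧
              LIso T (ApexG U) (ApexA U M)) →
            PatchTree p d (Option ι) U ∧ LIso T (ApexG U) (ApexA U M) := by
          intro T
          by_cases h : ∃ U : LG (Option ι), PatchTree p d (Option ι) U ∧
              LIso T (ApexG U) (ApexA U M)
          · obtain ⟨U, h⟩ := h
            exact ⟨U, fun _ => h⟩
          · exact ⟨⟨⟨0, ⊥⟩, fun _ _ => false⟩, fun h' => absurd h' h⟩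
        choose ρ hρ using hch
        apply bqr_map (ih (Option ι)) ρ (fun T hT => (hρ T hT).1)
        intro S T hS hT hr
        exact apex_minor hr (hρ S hS).2 (hρ T hT).2
      refine bqr_mono (fun T hT => ?_) (bqr_exists h)
      obtain ⟨U, M, h3⟩ := hT
      exact ⟨M, U, h3⟩
    · have h : ∀ x : (Σ mq : Fin (p + 1) × Fin (p + 1), (Fin mq.1 → Fin mq.2)),
          Bqr (LMinor (ι := ι)) (fun T => ∃ G : MK ι x.1.1,
            TreeGlued x.2 (fun C => PatchTree p d (ι ⊕ Fin x.1.2) (markAtt C)) G ∧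
            T = G.1) := by
        rintro ⟨⟨m, q⟩, r⟩
        have hcore : Bqr (KMinor (ι := ι) (q := q))
            (fun C => PatchTree p d (ι ⊕ Fin q) (markAtt C)) :=
          bqr_map (ih (ι ⊕ Fin q)) markAtt (fun _ h => h) (fun _ _ _ _ h => h)
        have htree := tree_bqr r hcore
        have hch : ∀ T : LG ι, ∃ G : Option (MK ι m),
            (∃ G : MK ι m,
              TreeGlued r (fun C => PatchTree p d (ι ⊕ Fin q) (markAtt C)) G ∧ T = G.1) →
            ∃ G', G = some G' ∧ TreeGlued r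
              (fun C => PatchTree p d (ι ⊕ Fin q) (markAtt C)) G' ∧ T = G'.1 := by
          intro T
          by_cases h : ∃ G : MK ι m,
              TreeGlued r (fun C => PatchTree p d (ι ⊕ Fin q) (markAtt C)) G ∧ T = G.1
          · obtain ⟨G, h1, h2⟩ := h
            exact ⟨some G, fun _ => ⟨G, rfl, h1, h2⟩⟩
          · exact ⟨none, fun h' => absurd h' h⟩
        choose ρ hρ using hch
        let G0 : MK ι m := ⟨⟨⟨m, ⊥⟩, fun _ _ => false⟩, Function.Embedding.refl _⟩
        apply bqr_map htree (fun T => (ρ T).getD G0)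
        · intro T hT
          obtain ⟨G', h1, h2, _⟩ := hρ T hT
          rw [h1]
          exact h2
        · intro S T hS hT hr
          obtain ⟨G, h1, _, h3⟩ := hρ S hS
          obtain ⟨G', h1', _, h3'⟩ := hρ T hT
          rw [h1, h1'] at hr
          rw [h3, h3']
          exact kminor_fst hr
      refine bqr_mono (fun T hT => ?_) (bqr_exists h)
      obtain ⟨m, q, r, G, hm, hq, h1, h2⟩ := hT
      exact ⟨⟨(⟨m, by omega⟩, ⟨q, by omega⟩), r⟩, G, h1, h2⟩

/-- the unlabelled graphs -/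
theorem patchTree_bqo (p d : ℕ) :
    BQO (fun G => PatchTree p d Empty ⟨G, fun _ l => l.elim⟩) := by
  apply bqr_map (patchTree_bqr p d Empty) (fun G : FG => (⟨G, fun _ l => l.elim⟩ : LG Empty))
    (fun _ h => h)
  rintro G H _ _ ⟨φ, a1, a2, a3, _⟩
  exact ⟨φ, a1, a2, a3⟩

end Pool.Agent.Bqp
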