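import Pool.Agent.Bqp.Ramsey

set_option autoImplicit false

namespace Pool.Agent.Bqp

/-- finite graphs -/
abbrev FG : Type := Σ n : ℕ, SimpleGraph (Fin n)

/-- `Minor A B`: `A` is a minor of `B` (disjoint connected branch sets). -/
def Minor (A B : FG) : Prop :=
  ∃ φ : Fin A.1 → Set (Fin B.1),
    (∀ i, (B.2.induce (φ i)).Connected) ∧
    (∀ i j, i ≠ j → Disjoint (φ i) (φ j)) ∧
    (∀ i j, A.2.Adj i j → ∃ a ∈ φ i, ∃ b ∈ φ j, B.2.Adj a b)

/-- no `K₅` minor and no `K₃₃` minor. -/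
def Planar (G : FG) : Prop :=
  ¬ Minor ⟨5, (⊤ : SimpleGraph (Fin 5))⟩ G ∧
  ¬ Minor ⟨6, SimpleGraph.fromRel (fun i j : Fin 6 => (i : ℕ) < 3 ∧ 3 ≤ (j : ℕ))⟩ G

/-- `C` is better-quasi-ordered by the minor relation. -/
def BQO (C : FG → Prop) : Prop :=
  ∀ f : Set ℕ → FG, (∀ X : Set ℕ, X.Infinite → C (f X)) → LocConst f →
    ∃ X : Set ℕ, X.Infinite ∧ Minor (f X) (f (X \ {sInf X}))

/-- every member of `C` with at most `m` vertices is a minor of `G`. -/
def Rich (C : FG → Prop) (m : ℕ) (G : FG) : Prop := ∀ H : FG, C H → H.1 ≤ m → Minor H G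

theorem minor_refl (A : FG) : Minor A A := by
  refine ⟨fun i => {i}, fun i => ?_, fun i j hij => by simpa using hij, fun i j h => ⟨i, rfl, j, rfl, h⟩⟩
  have : Subsingleton ({i} : Set (Fin A.1)) := by infer_instance
  have : Nonempty ({i} : Set (Fin A.1)) := ⟨⟨i, rfl⟩⟩
  exact SimpleGraph.Connected.mk (fun a b => by rw [Subsingleton.elim a b])

/-- `X` without its least element. -/
def tl (X : Set ℕ) : Set ℕ := X \ {sInf X}

theorem tl_infinite {X : Set ℕ} (h : X.Infinite) : (tl X).Infinite :=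
  h.sdiff (Set.finite_singleton _)

theorem tl_union (n : ℕ) (T : Set ℕ) (hT : ∀ t ∈ T, n ≤ t) (k : ℕ) (hk : k < n) :
    tl ({j | k ≤ j ∧ j < n} ∪ T) = {j | k + 1 ≤ j ∧ j < n} ∪ T := by
  have hmin : sInf ({j | k ≤ j ∧ j < n} ∪ T) = k := by
    apply le_antisymm
    · exact Nat.sInf_le (Or.inl ⟨le_rfl, hk⟩)
    · apply le_csInf ⟨k, Or.inl ⟨le_rfl, hk⟩⟩
      rintro b (⟨h1, _⟩ | h1)
      · exact h1
      · exact hk.le.trans (hT b h1)
  ext j
  simp only [tl, hmin, Set.mem_sdiff, Set.mem_union, Set.mem_ofPred_eq, Set.mem_singleton_iff]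
  constructor
  · rintro ⟨h1 | h1, h2⟩
    · left; omega
    · right; exact h1
  · rintro (h1 | h1)
    · exact ⟨Or.inl (by omega), by omega⟩
    · exact ⟨Or.inr h1, by have := hT j h1; omega⟩

/-- rich graphs form a bqo -/
theorem rich_bqo (C : FG → Prop) (h : ℕ → ℕ) (hh : Filter.Tendsto h Filter.atTop Filter.atTop) :
    BQO (fun G => C G ∧ Rich C (h G.1) G) := by
  classical
  intro f hf hc
  by_contra hbad
  push Not at hbad
  have hb : ∀ X : Set ℕ, X.Infinite → ¬ Minor (f X) (f (tl X)) := hbad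
  -- growth
  have hg : ∀ b : ℕ, ∃ N : ℕ, ∀ n, N ≤ n → b ≤ h n := fun b =>
    Filter.eventually_atTop.1 (hh.eventually (Filter.eventually_ge_atTop b))
  choose g hg using hg
  -- one step
  have hstep : ∀ X : Set ℕ, X.Infinite → (f (tl X)).1 < g (f X).1 := by
    intro X hX
    by_contra hcon
    have h1 := hg (f X).1 (f (tl X)).1 (by omega)
    exact hb X hX ((hf (tl X) (tl_infinite hX)).2 (f X) (hf X hX).1 h1)
  let G : ℕ → ℕ := fun b => (Finset.range (b + 1)).sup g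
  have hG : ∀ a b, a ≤ b → g a ≤ G b := fun a b hab =>
    Finset.le_sup (f := g) (Finset.mem_range.2 (by omega))
  obtain ⟨N0, hN0⟩ := hc Set.univ Set.infinite_univ
  -- bound after removing k elements
  have hbd : ∃ B : ℕ, ∀ T : Set ℕ, T.Infinite → (∀ t ∈ T, N0 ≤ t) → (f T).1 ≤ B := by
    have key : ∀ k, k ≤ N0 → ∃ B : ℕ, ∀ T : Set ℕ, T.Infinite → (∀ t ∈ T, N0 ≤ t) →
        (f ({j | k ≤ j ∧ j < N0} ∪ T)).1 ≤ B := by
      intro k
      induction k with
      | zero =>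
        intro _
        refine ⟨(f Set.univ).1, fun T hT hTN => ?_⟩
        rw [hN0 _ (hT.mono Set.subset_union_right) (fun k hk => by
          simp only [Set.mem_univ, Set.mem_union, Set.mem_ofPred_eq, true_iff]; left; omega)]
      | succ k ih =>
        intro hk
        obtain ⟨B, hB⟩ := ih (by omega)
        refine ⟨G B, fun T hT hTN => ?_⟩
        rw [← tl_union N0 T hTN k (by omega)]
        have h1 := hstep ({j | k ≤ j ∧ j < N0} ∪ T) (hT.mono Set.subset_union_right)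
        exact h1.le.trans (hG _ _ (hB T hT hTN))
    obtain ⟨B, hB⟩ := key N0 le_rfl
    refine ⟨B, fun T hT hTN => ?_⟩
    have h1 := hB T hT hTN
    have h2 : ({j | N0 ≤ j ∧ j < N0} : Set ℕ) = ∅ := by
      ext j; simp only [Set.mem_ofPred_eq, Set.mem_empty_iff_false, iff_false]; omega
    rwa [h2, Set.empty_union] at h1
  obtain ⟨B, hB⟩ := hbd
  -- colour
  let κ := Σ n : Fin (B + 1), SimpleGraph (Fin n)
  let toF : κ → FG := fun x => ⟨x.1, x.2⟩
  let sh : Set ℕ → Set ℕ := fun X => (fun k => k + N0) '' X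
  have hsh_inf : ∀ X : Set ℕ, X.Infinite → (sh X).Infinite := fun X hX =>
    hX.image (fun a _ b _ hab => by simpa using hab)
  have hsh_ge : ∀ X : Set ℕ, ∀ t ∈ sh X, N0 ≤ t := by
    rintro X t ⟨k, _, rfl⟩; simp
  have hcol : ∀ X : Set ℕ, ∃ x : κ, X.Infinite → toF x = f (sh X) := by
    intro X
    by_cases hX : X.Infinite
    · have h1 := hB (sh X) (hsh_inf X hX) (hsh_ge X)
      refine ⟨⟨⟨(f (sh X)).1, by omega⟩, (f (sh X)).2⟩, fun _ => rfl⟩
    · exact ⟨⟨0, ⊥⟩, fun h => absurd h hX⟩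
  choose col hcol using hcol
  have htoF : Function.Injective toF := by
    rintro ⟨⟨a, ha⟩, A⟩ ⟨⟨b, hb'⟩, B'⟩ hab
    simp only [toF, Sigma.mk.injEq] at hab
    obtain ⟨h1, h2⟩ := hab
    subst h1
    simp only [heq_eq_eq] at h2
    subst h2
    rfl
  have hcolc : LocConst col := by
    intro X hX
    obtain ⟨N, hN⟩ := hc (sh X) (hsh_inf X hX)
    refine ⟨N, fun Y hY hXY => htoF ?_⟩
    rw [hcol Y hY, hcol X hX]
    apply hN _ (hsh_inf Y hY)
    intro k hk
    constructor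
    · rintro ⟨j, hj, rfl⟩
      exact ⟨j, (hXY j (by simp at hk; omega)).1 hj, rfl⟩
    · rintro ⟨j, hj, rfl⟩
      exact ⟨j, (hXY j (by simp at hk; omega)).2 hj, rfl⟩
  obtain ⟨Y, hY, v, hv⟩ := ramsey hcolc
  have h1 : f (sh Y) = toF v := by rw [← hcol Y hY, hv Y le_rfl hY]
  have h2 : f (sh (tl Y)) = toF v := by
    rw [← hcol _ (tl_infinite hY), hv (tl Y) Set.sdiff_subset (tl_infinite hY)]
  have h3 : sh (tl Y) = tl (sh Y) := by
    have hm : sInf (sh Y) = sInf Y + N0 := by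
      apply le_antisymm
      · exact Nat.sInf_le ⟨_, Nat.sInf_mem hY.nonempty, rfl⟩
      · apply le_csInf (hsh_inf Y hY).nonempty
        rintro b ⟨j, hj, rfl⟩
        have := Nat.sInf_le hj
        simp only; omega
    ext t
    simp only [sh, tl, hm, Set.mem_image, Set.mem_sdiff, Set.mem_singleton_iff]
    constructor
    · rintro ⟨j, ⟨hj1, hj2⟩, rfl⟩
      exact ⟨⟨j, hj1, rfl⟩, by omega⟩
    · rintro ⟨⟨j, hj, rfl⟩, h4⟩
      exact ⟨j, ⟨hj, by omega⟩, rfl⟩
  rw [h3] at h2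
  apply hb (sh Y) (hsh_inf Y hY)
  rw [h1, h2]
  exact minor_refl _

/-- image of a set under the enumeration of an infinite set -/
theorem enum_facts (Y : Set ℕ) (hY : Y.Infinite) :
    ∃ e : ℕ → ℕ, StrictMono e ∧ ∀ n, e n ∈ Y :=
  ⟨Nat.nth (· ∈ Y), Nat.nth_strictMono hY, fun n => Nat.nth_mem_of_infinite hY n⟩

theorem reduction (C D : FG → Prop) (h1 : BQO (fun G => C G ∧ D G))
    (h2 : BQO (fun G => C G ∧ ¬ D G)) : BQO C := by
  classical
  intro f hf hc
  let col : Set ℕ → Bool := fun X => decide (D (f X))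
  have hcol : LocConst col := by
    intro X hX
    obtain ⟨N, hN⟩ := hc X hX
    exact ⟨N, fun Y hY hXY => by simp only [col, hN Y hY hXY]⟩
  obtain ⟨Y, hY, v, hv⟩ := ramsey hcol
  obtain ⟨e, he, heY⟩ := enum_facts Y hY
  have hinf : ∀ X : Set ℕ, X.Infinite → (e '' X).Infinite := fun X hX => hX.image he.injective.injOn
  have hsub : ∀ X : Set ℕ, e '' X ⊆ Y := by rintro X _ ⟨k, _, rfl⟩; exact heY k
  let f' : Set ℕ → FG := fun X => f (e '' X)
  have hc' : LocConst f' := by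
    intro X hX
    obtain ⟨N, hN⟩ := hc (e '' X) (hinf X hX)
    refine ⟨N, fun Z hZ hXZ => hN _ (hinf Z hZ) (fun k hk => ?_)⟩
    constructor
    · rintro ⟨j, hj, rfl⟩
      exact ⟨j, (hXZ j (lt_of_le_of_lt (he.le_apply) hk)).1 hj, rfl⟩
    · rintro ⟨j, hj, rfl⟩
      exact ⟨j, (hXZ j (lt_of_le_of_lt (he.le_apply) hk)).2 hj, rfl⟩
  have htl : ∀ X : Set ℕ, X.Infinite → e '' (X \ {sInf X}) = (e '' X) \ {sInf (e '' X)} := by
    intro X hX
    have hm : sInf (e '' X) = e (sInf X) := by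
      apply le_antisymm
      · exact Nat.sInf_le ⟨_, Nat.sInf_mem hX.nonempty, rfl⟩
      · apply le_csInf (hinf X hX).nonempty
        rintro b ⟨j, hj, rfl⟩
        exact he.monotone (Nat.sInf_le hj)
    rw [hm, Set.image_sdiff he.injective, Set.image_singleton]
  have fin : (∃ X : Set ℕ, X.Infinite ∧ Minor (f' X) (f' (X \ {sInf X}))) →
      ∃ X : Set ℕ, X.Infinite ∧ Minor (f X) (f (X \ {sInf X})) := by
    rintro ⟨X, hX, hM⟩
    refine ⟨e '' X, hinf X hX, ?_⟩
    rw [← htl X hX]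
    exact hM
  cases v with
  | true =>
    apply fin
    apply h1 f' _ hc'
    intro X hX
    refine ⟨hf _ (hinf X hX), ?_⟩
    have := hv (e '' X) (hsub X) (hinf X hX)
    simpa [col] using this
  | false =>
    apply fin
    apply h2 f' _ hc'
    intro X hX
    refine ⟨hf _ (hinf X hX), ?_⟩
    have := hv (e '' X) (hsub X) (hinf X hX)
    simpa [col] using this

end Pool.Agent.Bqp
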