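import Pool.Agent.Bqp.Union

set_option autoImplicit false

namespace Pool.Agent.Bqp

theorem connected_biUnion {n m : ℕ} (G : SimpleGraph (Fin n)) (H : SimpleGraph (Fin m))
    (s : Set (Fin n)) (hs : (G.induce s).Connected) (ψ : Fin n → Set (Fin m))
    (h1 : ∀ b, (H.induce (ψ b)).Connected)
    (h3 : ∀ b b', G.Adj b b' → ∃ x ∈ ψ b, ∃ y ∈ ψ b', H.Adj x y) :
    (H.induce {x | ∃ b ∈ s, x ∈ ψ b}).Connected := by
  set T : Set (Fin m) := {x | ∃ b ∈ s, x ∈ ψ b} with hT
  have hsub : ∀ b ∈ s, ψ b ⊆ T := fun b hb x hx => ⟨b, hb, hx⟩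
  have within : ∀ b (hb : b ∈ s) x (hx : x ∈ ψ b) y (hy : y ∈ ψ b),
      (H.induce T).Reachable ⟨x, hsub b hb hx⟩ ⟨y, hsub b hb hy⟩ := by
    intro b hb x hx y hy
    exact ((h1 b).preconnected ⟨x, hx⟩ ⟨y, hy⟩).map
      (SimpleGraph.induceHomOfLE H (hsub b hb)).toHom
  have walk : ∀ (p q : s), (G.induce s).Reachable p q → ∀ x (hx : x ∈ ψ p.1) y (hy : y ∈ ψ q.1),
      (H.induce T).Reachable ⟨x, hsub p.1 p.2 hx⟩ ⟨y, hsub q.1 q.2 hy⟩ := by
    rintro p q ⟨w⟩
    induction w with
    | @nil u => intro x hx y hy; exact within u.1 u.2 x hx y hy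
    | @cons u v t h p ih =>
      intro x hx y hy
      obtain ⟨a, ha, a', ha', haa'⟩ := h3 u.1 v.1 h
      have e1 := within u.1 u.2 x hx a ha
      have e2 : (H.induce T).Reachable ⟨a, hsub u.1 u.2 ha⟩ ⟨a', hsub v.1 v.2 ha'⟩ :=
        SimpleGraph.Adj.reachable haa'
      exact (e1.trans e2).trans (ih a' ha' y hy)
  obtain ⟨b0⟩ := hs.nonempty
  obtain ⟨x0⟩ := (h1 b0.1).nonempty
  have : Nonempty T := ⟨⟨x0.1, hsub b0.1 b0.2 x0.2⟩⟩
  refine SimpleGraph.Connected.mk ?_
  rintro ⟨x, b, hb, hx⟩ ⟨y, b', hb', hy⟩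
  exact walk ⟨b, hb⟩ ⟨b', hb'⟩ (hs.preconnected _ _) x hx y hy

theorem minor_trans {A B C : FG} (h : Minor A B) (h' : Minor B C) : Minor A C := by
  obtain ⟨φ, a1, a2, a3⟩ := h
  obtain ⟨ψ, b1, b2, b3⟩ := h'
  refine ⟨fun i => {x | ∃ b ∈ φ i, x ∈ ψ b}, fun i => ?_, fun i j hij => ?_, fun i j hij => ?_⟩
  · exact connected_biUnion B.2 C.2 (φ i) (a1 i) ψ b1 b3
  · rw [Set.disjoint_left]
    rintro x ⟨b, hb, hx⟩ ⟨b', hb', hx'⟩
    by_cases hbb : b = b'
    · subst hbb
      exact Set.disjoint_left.1 (a2 i j hij) hb hb'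
    · exact Set.disjoint_left.1 (b2 b b' hbb) hx hx'
  · obtain ⟨b, hb, b', hb', hadj⟩ := a3 i j hij
    obtain ⟨x, hx, y, hy, hxy⟩ := b3 b b' hadj
    exact ⟨x, ⟨b, hb, hx⟩, y, ⟨b', hb', hy⟩, hxy⟩

theorem minor_card {A B : FG} (h : Minor A B) : A.1 ≤ B.1 := by
  obtain ⟨φ, a1, a2, _⟩ := h
  have hne : ∀ i, ∃ x, x ∈ φ i := fun i => by
    obtain ⟨x⟩ := (a1 i).nonempty
    exact ⟨x.1, x.2⟩
  choose g hg using hne
  have hinj : Function.Injective g := by
    intro i j hij
    by_contra hne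
    exact Set.disjoint_left.1 (a2 i j hne) (hg i) (hij ▸ hg j)
  simpa using Fintype.card_le_of_injective g hinj

theorem minor_of_inj {A B : FG} (e : Fin A.1 → Fin B.1) (he : Function.Injective e)
    (h : ∀ i j, A.2.Adj i j → B.2.Adj (e i) (e j)) : Minor A B := by
  refine ⟨fun i => {e i}, fun i => ?_, fun i j hij => ?_, fun i j h' => ⟨e i, rfl, e j, rfl, h i j h'⟩⟩
  · have : Subsingleton ({e i} : Set (Fin B.1)) := by infer_instance
    have : Nonempty ({e i} : Set (Fin B.1)) := ⟨⟨e i, rfl⟩⟩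
    exact SimpleGraph.Connected.mk (fun a b => by rw [Subsingleton.elim a b])
  · simp only [Set.disjoint_singleton]
    exact fun h' => hij (he h')

/-- decomposition into connected components -/
theorem components (G : FG) :
    UnionOf (fun K => K.2.Connected ∧ Minor K G) G := by
  classical
  obtain ⟨n, G⟩ := G
  let r := Fintype.card G.ConnectedComponent
  let e0 : G.ConnectedComponent ≃ Fin r := Fintype.equivFin _
  let E : ∀ i : Fin r, Fin (Fintype.card (e0.symm i).supp) ≃ (e0.symm i).supp :=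
    fun i => (Fintype.equivFin _).symm
  let K : Fin r → FG := fun i =>
    ⟨Fintype.card (e0.symm i).supp, (G.induce (e0.symm i).supp).comap (E i)⟩
  refine ⟨r, K, fun i => ⟨?_, ?_⟩, ?_⟩
  · have h1 : (G.induce (e0.symm i).supp).Connected := (e0.symm i).connected_toSimpleGraph
    have iso : (G.induce (e0.symm i).supp) ≃g (K i).2 :=
      { toEquiv := (E i).symm
        map_rel_iff' := by
          intro a b
          simp [K, SimpleGraph.comap_adj] }
    exact iso.connected_iff.1 h1
  · apply minor_of_inj (A := K i) (B := ⟨n, G⟩) (fun a => (E i a).1)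
    · intro a b hab
      exact (E i).injective (Subtype.ext hab)
    · intro a b hab
      exact hab
  · let Φ : (Σ i : Fin r, Fin (K i).1) → Fin n := fun x => (E x.1 x.2).1
    have hmem : ∀ x : (Σ i : Fin r, Fin (K i).1), G.connectedComponentMk (Φ x) = e0.symm x.1 :=
      fun x => (E x.1 x.2).2
    have hinj : Function.Injective Φ := by
      intro x y hxy
      have h1 : e0.symm x.1 = e0.symm y.1 := by rw [← hmem x, ← hmem y, hxy]
      have h2 := e0.symm.injective h1
      obtain ⟨i, a⟩ := x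
      obtain ⟨j, b⟩ := y
      simp only at h2
      subst h2
      have h3 : a = b := (E i).injective (Subtype.ext hxy)
      rw [h3]
    have hsurj : Function.Surjective Φ := by
      intro v
      have hv : v ∈ (e0.symm (e0 (G.connectedComponentMk v))).supp := by
        rw [e0.symm_apply_apply]
        rfl
      refine ⟨⟨e0 (G.connectedComponentMk v), (E _).symm ⟨v, hv⟩⟩, ?_⟩
      simp only [Φ, Equiv.apply_symm_apply]
    have iso : DU K ≃g G :=
      { toEquiv := Equiv.ofBijective Φ ⟨hinj, hsurj⟩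
        map_rel_iff' := by
          intro x y
          change G.Adj (Φ x) (Φ y) ↔ (DU K).Adj x y
          constructor
          · intro h
            have h1 : e0.symm x.1 = e0.symm y.1 := by
              rw [← hmem x, ← hmem y]
              exact SimpleGraph.ConnectedComponent.sound h.reachable
            have h2 := e0.symm.injective h1
            obtain ⟨i, a⟩ := x
            obtain ⟨j, b⟩ := y
            simp only at h2
            subst h2
            exact ⟨i, a, b, rfl, rfl, h⟩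
          · rintro ⟨i, a, b, rfl, rfl, h⟩
            exact h }
    exact ⟨iso.symm⟩

theorem planar_minor {A B : FG} (h : Minor A B) (hB : Planar B) : Planar A :=
  ⟨fun h1 => hB.1 (minor_trans h1 h), fun h1 => hB.2 (minor_trans h1 h)⟩

end Pool.Agent.Bqp
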