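import Pool.Agent.Bqp.Patch

set_option autoImplicit false

namespace Pool.Agent.Bqp

/-- every graph with `k` vertices has patch number at most `k` -/
theorem patch_card (G : FG) : PatchNumberLE G.1 G := by
  classical
  obtain ⟨k, G⟩ := G
  change PatchNumberLE k ⟨k, G⟩
  refine ⟨((fun u s v t r => decide (s = 0 ∧ t = 0 ∧ r = 0 ∧ G.Adj u v)), fun _ _ => false),
    (fun _ => 1), (fun _ => 1), fun u s v t r h _ => ?_, ⟨?_⟩⟩
  · simp only [sideLen]; split_ifs <;> rfl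
  · refine
      { toFun := fun u => ⟨u, (0, 0)⟩
        invFun := fun p => p.1
        left_inv := fun u => rfl
        right_inv := fun p => by
          obtain ⟨u, x, y⟩ := p
          rw [Subsingleton.elim x 0, Subsingleton.elim y 0]
        map_rel_iff' := ?_ }
    intro u v
    change (Patched _ _ _).Adj ⟨u, (0, 0)⟩ ⟨v, (0, 0)⟩ ↔ G.Adj u v
    constructor
    · rintro ⟨_, (⟨_, h⟩ | ⟨s, t, r, i, j, h, _⟩) | (⟨_, h⟩ | ⟨s, t, r, i, j, h, _⟩)⟩
      · rcases h with ⟨h, _⟩ | ⟨h, _⟩ | ⟨h, _⟩ | ⟨h, _⟩ <;> exact absurd h (by simp)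
      · have := of_decide_eq_true h
        exact this.2.2.2
      · rcases h with ⟨h, _⟩ | ⟨h, _⟩ | ⟨h, _⟩ | ⟨h, _⟩ <;> exact absurd h (by simp)
      · have := of_decide_eq_true h
        exact this.2.2.2.symm
    · intro h
      refine ⟨?_, Or.inl (Or.inr ⟨0, 0, 0, 0, 0, decide_eq_true ⟨rfl, rfl, rfl, h⟩,
        Or.inl ⟨rfl, rfl, rfl⟩, Or.inl ⟨rfl, rfl, rfl⟩, Or.inl ⟨rfl, rfl⟩⟩)⟩
      intro h2
      simp only [Sigma.mk.injEq] at h2
      exact G.ne_of_adj h h2.1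

/-- rectangular grids have patch number at most one -/
theorem patch_grid (m n : ℕ) :
    PatchNumberLE 1 ⟨m * n, PrismG (SimpleGraph.pathGraph m) n⟩ := by
  let P : Pattern 1 := ((fun _ _ _ _ _ => false), fun _ e => decide (e = 0 ∨ e = 1))
  let E : Fin (m * n) ≃ (Σ _ : Fin 1, Fin m × Fin n) :=
    { toFun := fun w => ⟨0, finProdFinEquiv.symm w⟩
      invFun := fun p => finProdFinEquiv p.2
      left_inv := fun w => finProdFinEquiv.apply_symm_apply w
      right_inv := fun p => by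
        obtain ⟨u, xy⟩ := p
        obtain rfl : u = 0 := Subsingleton.elim _ _
        change (⟨0, finProdFinEquiv.symm (finProdFinEquiv xy)⟩ : Σ _ : Fin 1, Fin m × Fin n) = _
        rw [Equiv.symm_apply_apply] }
  refine ⟨P, (fun _ => m), (fun _ => n), fun u s v t r h _ => absurd h (by simp [P]),
    ⟨{ toEquiv := E, map_rel_iff' := ?_ }⟩⟩
  intro v w
  change (Patched P (fun _ => m) (fun _ => n)).Adj (E v) (E w) ↔
    (PrismG (SimpleGraph.pathGraph m) n).Adj v w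
  rw [prismG_adj]
  have hv : E v = ⟨0, finProdFinEquiv.symm v⟩ := rfl
  have hw : E w = ⟨0, finProdFinEquiv.symm w⟩ := rfl
  rw [hv, hw]
  generalize finProdFinEquiv.symm v = p
  generalize finProdFinEquiv.symm w = q
  obtain ⟨x, y⟩ := p
  obtain ⟨x', y'⟩ := q
  simp only [SimpleGraph.pathGraph_adj]
  constructor
  · rintro ⟨_, (⟨_, h⟩ | ⟨s, t, r, i, j, h, _⟩) | (⟨_, h⟩ | ⟨s, t, r, i, j, h, _⟩)⟩
    · rcases h with ⟨_, h1, h2⟩ | ⟨_, h1, h2⟩ | ⟨_, _, h, _⟩ | ⟨_, _, h, _⟩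
      · left
        exact ⟨Or.inl h1.symm, Fin.ext h2.symm⟩
      · right
        exact ⟨Or.inl h2.symm, Fin.ext h1.symm⟩
      · exact absurd h (by simp [P])
      · exact absurd h (by simp [P])
    · exact absurd h (by simp [P])
    · rcases h with ⟨_, h1, h2⟩ | ⟨_, h1, h2⟩ | ⟨_, _, h, _⟩ | ⟨_, _, h, _⟩
      · left
        exact ⟨Or.inr h1.symm, Fin.ext h2⟩
      · right
        exact ⟨Or.inr h2.symm, Fin.ext h1⟩
      · exact absurd h (by simp [P])
      · exact absurd h (by simp [P])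
    · exact absurd h (by simp [P])
  · intro h
    refine ⟨?_, ?_⟩
    · intro h2
      simp only [Sigma.mk.injEq, heq_eq_eq, true_and, Prod.mk.injEq] at h2
      obtain ⟨rfl, rfl⟩ := h2
      rcases h with ⟨h | h, _⟩ | ⟨h | h, _⟩ <;> omega
    · rcases h with ⟨h | h, h'⟩ | ⟨h | h, h'⟩
      · exact Or.inl (Or.inl ⟨rfl, Or.inl ⟨by simp [P], h.symm, congrArg Fin.val h'.symm⟩⟩)
      · exact Or.inr (Or.inl ⟨rfl, Or.inl ⟨by simp [P], h.symm, congrArg Fin.val h'⟩⟩)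
      · exact Or.inl (Or.inl ⟨rfl, Or.inr (Or.inl ⟨by simp [P], congrArg Fin.val h'.symm, h.symm⟩)⟩)
      · exact Or.inr (Or.inl ⟨rfl, Or.inr (Or.inl ⟨by simp [P], congrArg Fin.val h', h.symm⟩)⟩)

end Pool.Agent.Bqp
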