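import Pool.Agent.Bqp.PortMinor

set_option autoImplicit false

namespace Pool.Agent.Bqp.Port

open Pool.Agent.Bqp Pool.Agent.Bqp.Sky

/-- pieces with modes -/
abbrev PM (ι : Type) : Type := PG ι × Option (Bool → Bool)

/-- order of the pieces with modes -/
def pmLE {ι : Type} (x y : PM ι) : Prop := TileMinor x.1 y.1 ∧ x.2 = y.2

/-- the finite part of a label: diagonals, names of the two systems, the system of the root -/
abbrev FP (Q : Type) : Type := (Bool → Bool) × Q × Q × (Q → Bool)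

/-- label of a tile: the tile, the pieces, the finite part -/
abbrev TL (ι Q : Type) : Type := (Tile ι Q × (Q → LL (PM ι))) × FP Q

/-- order of the labels -/
def tlLE {ι Q : Type} (x y : TL ι Q) : Prop :=
  TileMinor x.1.1 y.1.1 ∧ (∀ t, rL pmLE (x.1.2 t) (y.1.2 t)) ∧ x.2 = y.2

open Classical in
/-- the sequence of labels of a strip -/
noncomputable def code {ι Q : Type} (n : ℕ) (K : ℕ → Tile ι Q) (x y : ℕ → Q) (c : ℕ → ℕ)
    (e : ℕ → Bool → Bool) (r : Fin (n + 1)) (t : Q) (D : Deco ι Q) : GS (TL ι Q) :=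
  (n + 1, (fun i => ((K i, D i), (e i, x i, y i, fun t' => decide (i = r ∧ t' = t)))), c)

/-- the code of a strip determines an embedding -/
theorem code_mono {ι Q : Type} {n n' : ℕ} {K K' : ℕ → Tile ι Q} {x y x' y' : ℕ → Q}
    {c c' : ℕ → ℕ}
    {e e' : ℕ → Bool → Bool} {r : Fin (n + 1)} {r' : Fin (n' + 1)} {t t' : Q}
    {D D' : Deco ι Q} {G G' : PG ι}
    {α : (Σ i : Fin (n + 1), (K i).V) → G.V} {β : ∀ q : DIdx n D, (dpiece D q).V → G.V}
    {α' : (Σ i : Fin (n' + 1), (K' i).V) → G'.V}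
    {β' : ∀ q : DIdx n' D', (dpiece D' q).V → G'.V}
    (hv : ValidStrip n K x y c) (hv' : ValidStrip n' K' x' y' c')
    (hw : ValidDeco n K x y c e r t G.w D)
    (hG : GluedP (StripG n K x y c e) (fun z l => (K z.1).G.2 z.2 l = true) (port K r t)
      (dpiece D) (dmode D) (fun q => port K q.1.1 q.1.2) G α β)
    (hG' : GluedP (StripG n' K' x' y' c' e') (fun z l => (K' z.1).G.2 z.2 l = true)
      (port K' r' t') (dpiece D') (dmode D') (fun q => port K' q.1.1 q.1.2) G' α' β')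
    (hc : c n ≤ c' n') (hW : G.w ≤ G'.w)
    (h : gapLE tlLE (code n K x y c e r t D) (code n' K' x' y' c' e' r' t' D')) :
    TileMinor G G' := by
  classical
  obtain ⟨f, h1, h2, h3, h4⟩ := h
  change ∀ i, i < n + 1 → f i < n' + 1 at h1
  change ∀ i j, i < j → j < n + 1 → f i < f j at h2
  change ∀ i, i + 1 < n + 1 → ∀ t, f i ≤ t → t < f (i + 1) → c i ≤ c' t at h4
  have h3a : ∀ i, i < n + 1 → TileMinor (K i) (K' (f i)) := fun i hi => (h3 i hi).1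
  have h3b : ∀ i, i < n + 1 → ∀ s, rL pmLE (D i s) (D' (f i) s) := fun i hi => (h3 i hi).2.1
  have h3c : ∀ i, i < n + 1 → e i = e' (f i) := fun i hi =>
    congrArg (fun q => q.1) (h3 i hi).2.2
  have h3x : ∀ i, i < n + 1 → x i = x' (f i) := fun i hi =>
    congrArg (fun q => q.2.1) (h3 i hi).2.2
  have h3y : ∀ i, i < n + 1 → y i = y' (f i) := fun i hi =>
    congrArg (fun q => q.2.2.1) (h3 i hi).2.2
  have h3d : ∀ i, i < n + 1 → ∀ s, ((i = (r : ℕ) ∧ s = t) ↔ (f i = (r' : ℕ) ∧ s = t')) := by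
    intro i hi s
    have h5 := congrFun (congrArg (fun q => q.2.2.2) (h3 i hi).2.2) s
    exact decide_eq_decide.1 h5
  obtain ⟨φ, c1, c2, c3, c5, c4⟩ := strip_core (e := e) (e' := e') hv hv'
    (f := f) (fun i hi => by have := h1 i (by omega); omega)
    (fun i j hij hj => h2 i j hij (by omega)) (fun i hi => h3a i (by omega))
    (fun i hi => h4 i (by omega)) hc (fun i hi => h3c i (by omega))
    (fun i hi => h3x i (by omega)) (fun i hi => h3y i (by omega))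
  have hrl : ∀ (i : Fin (n + 1)) (s : Q), rL pmLE (D i s) (D' (f i) s) := fun i s =>
    h3b i i.2 s
  choose σ hσ hσm using hrl
  let τ : DIdx n D → DIdx n' D' := fun q =>
    ⟨(⟨f q.1.1, h1 q.1.1 q.1.1.2⟩, q.1.2), σ q.1.1 q.1.2 q.2⟩
  have hinj : ∀ i j : Fin (n + 1), f i = f j → i = j := by
    intro i j hij
    rcases Nat.lt_trichotomy i j with h | h | h
    · have := h2 i j h j.2
      omega
    · exact Fin.ext h
    · have := h2 j i h i.2
      omega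
  have hτ : Function.Injective τ := by
    rintro ⟨⟨i, s⟩, x⟩ ⟨⟨j, s'⟩, y⟩ hxy
    simp only [τ, Sigma.mk.injEq, Prod.mk.injEq, Fin.mk.injEq] at hxy
    obtain ⟨⟨e1, e2⟩, e3⟩ := hxy
    have e4 := hinj i j e1
    subst e4 e2
    have e5 := hσ i s (eq_of_heq e3)
    rw [e5]
  apply glued_mono hG hG' φ c1 c2 c3 c5 hW ?_ (fun q => (hw.2 q).1) τ hτ ?_ ?_ ?_
  · -- the root
    intro j hj
    have h6 := (h3d r r.2 t).1 ⟨rfl, rfl⟩
    have h7 := c4 r r' t j h6.1.symm (lt_of_lt_of_le hj hw.1)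
    rw [← h6.2]
    exact h7
  · intro q
    exact (hσm q.1.1 q.1.2 q.2).2
  · intro q j hj
    exact c4 q.1.1 ⟨f q.1.1, h1 q.1.1 q.1.1.2⟩ q.1.2 j rfl (lt_of_lt_of_le hj (hw.2 q).2.1)
  · intro q
    exact (hσm q.1.1 q.1.2 q.2).1

/-- with a bound for the nesting -/
def PortH {ι Q : Type} (T : Tile ι Q → Prop) (B : PG ι → Prop) : ℕ → PG ι → Prop
  | 0, G => B G
  | h + 1, G => B G ∨ ∃ (n : ℕ) (K : ℕ → Tile ι Q) (x y : ℕ → Q) (c : ℕ → ℕ)
      (e : ℕ → Bool → Bool) (r : Fin (n + 1)) (t : Q) (D : Deco ι Q)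
      (α : (Σ i : Fin (n + 1), (K i).V) → G.V)
      (β : ∀ q : DIdx n D, (dpiece D q).V → G.V),
      (∀ i, i ≤ n → T (K i)) ∧ ValidStrip n K x y c ∧ ValidDeco n K x y c e r t G.w D ∧
      (∀ q : DIdx n D, PortH T B h (dpiece D q)) ∧
      GluedP (StripG n K x y c e) (fun z l => (K z.1).G.2 z.2 l = true) (port K r t)
        (dpiece D) (dmode D) (fun q => port K q.1.1 q.1.2) G α β

theorem portH_mono {ι Q : Type} (T : Tile ι Q → Prop) (B : PG ι → Prop) :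
    ∀ (h : ℕ) (G : PG ι), PortH T B h G → PortH T B (h + 1) G := by
  intro h
  induction h with
  | zero => intro G hG; exact Or.inl hG
  | succ h ih =>
    intro G hG
    rcases hG with hG | ⟨n, K, x, y, c, e, r, t, D, α, β, c0, c1, cw, c2, c3⟩
    · exact Or.inl hG
    · exact Or.inr ⟨n, K, x, y, c, e, r, t, D, α, β, c0, c1, cw, fun q => ih _ (c2 q), c3⟩

theorem portH_le {ι Q : Type} (T : Tile ι Q → Prop) (B : PG ι → Prop) {h h' : ℕ} (hh : h ≤ h')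
    (G : PG ι) (hG : PortH T B h G) : PortH T B h' G := by
  induction h', hh using Nat.le_induction with
  | base => exact hG
  | succ h' _ ih => exact portH_mono T B h' G ih

theorem portH_of {ι Q : Type} [Finite Q] (T : Tile ι Q → Prop) (B : PG ι → Prop) (G : PG ι)
    (hG : PortTree T B G) : ∃ h, PortH T B h G := by
  classical
  have := Fintype.ofFinite Q
  induction hG with
  | base G hG => exact ⟨0, hG⟩
  | strip G n K x y c e r t D α β hT hv hw _ hG ih =>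
    choose h hh using ih
    refine ⟨(∑ q, h q) + 1, Or.inr ⟨n, K, x, y, c, e, r, t, D, α, β, hT, hv, hw,
      fun q => ?_, hG⟩⟩
    exact portH_le T B (Finset.single_le_sum (f := h) (fun _ _ => Nat.zero_le _)
      (Finset.mem_univ q)) _ (hh q)

/-- the data of a strip -/
abbrev Dat (ι Q : Type) : Type :=
  Σ n : ℕ, (ℕ → Tile ι Q) × (ℕ → Q) × (ℕ → Q) × (ℕ → ℕ) × (ℕ → Bool → Bool) × Fin (n + 1) × Q ×
    Deco ι Q

/-- the code of the data -/
noncomputable def Dat.cd {ι Q : Type} (d : Dat ι Q) : GS (TL ι Q) :=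
  code d.1 d.2.1 d.2.2.1 d.2.2.2.1 d.2.2.2.2.1 d.2.2.2.2.2.1 d.2.2.2.2.2.2.1 d.2.2.2.2.2.2.2.1
    d.2.2.2.2.2.2.2.2

/-- `G` is the strip with the data `d` -/
def Dat.Is {ι Q : Type} (T : Tile ι Q → Prop) (d : Dat ι Q) (G : PG ι) : Prop :=
  (∀ i, i ≤ d.1 → T (d.2.1 i)) ∧ ValidStrip d.1 d.2.1 d.2.2.1 d.2.2.2.1 d.2.2.2.2.1 ∧
  ValidDeco d.1 d.2.1 d.2.2.1 d.2.2.2.1 d.2.2.2.2.1 d.2.2.2.2.2.1 d.2.2.2.2.2.2.1
    d.2.2.2.2.2.2.2.1 G.w d.2.2.2.2.2.2.2.2 ∧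
  ∃ (α : (Σ i : Fin (d.1 + 1), (d.2.1 i).V) → G.V)
    (β : ∀ q : DIdx d.1 d.2.2.2.2.2.2.2.2, (dpiece d.2.2.2.2.2.2.2.2 q).V → G.V),
    GluedP (StripG d.1 d.2.1 d.2.2.1 d.2.2.2.1 d.2.2.2.2.1 d.2.2.2.2.2.1)
      (fun z l => (d.2.1 z.1).G.2 z.2 l = true)
      (port d.2.1 d.2.2.2.2.2.2.1 d.2.2.2.2.2.2.2.1)
      (dpiece d.2.2.2.2.2.2.2.2) (dmode d.2.2.2.2.2.2.2.2)
      (fun q => port d.2.1 q.1.1 q.1.2) G α β

/-- trees of strips -/
theorem port_bqr {ι Q : Type} [Finite Q] {T : Tile ι Q → Prop} {B : PG ι → Prop}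
    (hT : Bqr TileMinor T) (hB : Bqr TileMinor B) : Bqr TileMinor (PortTree T B) := by
  classical
  apply bqr_mono (D := fun G => ∃ h, PortH T B h G) (portH_of T B)
  by_contra hnot
  obtain ⟨f0, hf0⟩ := not_bqr hnot
  -- there is a port system
  by_cases hQ : Nonempty Q
  swap
  · -- without port systems there are no strips
    have hall : ∀ h G, PortH T B h G → B G := by
      intro h
      cases h with
      | zero => exact fun G hG => hG
      | succ h =>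
        rintro G (hG | ⟨_, _, _, _, _, _, _, t, _⟩)
        · exact hG
        · exact absurd ⟨t⟩ hQ
    obtain ⟨Y, _, hYi, hr⟩ := bqr_locOn hB hf0.2.1 hf0.1 (fun X hX hXi => by
      obtain ⟨h, hh⟩ := (hf0.2.2 X hX hXi).1
      exact hall h _ hh)
    exact (hf0.2.2 Y (Set.subset_univ _) hYi).2 hr
  obtain ⟨t0⟩ := hQ
  let M : PG ι → Prop := fun G => ∃ h, PortH T B h G
  let rk : PG ι → ℕ := fun G => if h : ∃ h, PortH T B h G then Nat.find h else 0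
  have hrk1 : ∀ G, M G → PortH T B (rk G) G := by
    intro G hG
    have h1 : rk G = Nat.find hG := dif_pos hG
    rw [h1]
    exact Nat.find_spec hG
  have hrk2 : ∀ G h, PortH T B h G → rk G ≤ h := by
    intro G h hG
    have h1 : rk G = Nat.find (⟨h, hG⟩ : ∃ h, PortH T B h G) := dif_pos ⟨h, hG⟩
    rw [h1]
    exact Nat.find_min' _ hG
  let sub : PG ι → PG ι → Prop := fun S T' => TileMinor S T' ∧ rk S < rk T'
  obtain ⟨A, f, b1, _, _, b4⟩ := min_bad (r := TileMinor) (sub := sub) (rk := rk)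
    (fun x y h => h.2)
    (fun x y z h h' => ⟨tminor_trans h.1 h'.1, h.2.trans h'.2⟩)
    (fun a x y h h' => tminor_trans h h'.1) hf0
  have hMf : ∀ X : Set ℕ, X ⊆ A → X.Infinite → M (f X) := fun X hX hXi => (b1.2.2 X hX hXi).1
  -- the members of `B`
  obtain ⟨Z0, hZ0, hZ0i, v0, hv0⟩ := ramsey_on (locOn_comp b1.2.1 (fun G => decide (B G))) b1.1
  have hnB : ∀ X : Set ℕ, X ⊆ Z0 → X.Infinite → ¬ B (f X) := by
    intro X hX hXi hBX
    have h0 : v0 = true := by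
      rw [← hv0 X hX hXi]
      exact decide_eq_true hBX
    have hall : ∀ X : Set ℕ, X ⊆ Z0 → X.Infinite → B (f X) := fun X hX hXi =>
      of_decide_eq_true ((hv0 X hX hXi).trans h0)
    obtain ⟨Y, hY, hYi, hr⟩ := bqr_locOn hB (locOn_mono b1.2.1 hZ0) hZ0i hall
    exact (b1.2.2 Y (hY.trans hZ0) hYi).2 hr
  -- there is a tile
  obtain ⟨S0⟩ : Nonempty (Tile ι Q) :=
    ⟨⟨⟨⟨1, ⊥⟩, fun _ _ => false⟩, fun _ => 0, fun _ _ => 0⟩⟩
  -- decomposition
  have hdec : ∀ G : PG ι, ∃ d : Dat ι Q, M G → ¬ B G → d.Is T G ∧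
      ∀ q : DIdx d.1 d.2.2.2.2.2.2.2.2, M (dpiece d.2.2.2.2.2.2.2.2 q) ∧
        sub (dpiece d.2.2.2.2.2.2.2.2 q) G := by
    intro G
    by_cases hG : M G ∧ ¬ B G
    · obtain ⟨hG, hnG⟩ := hG
      have h1 := hrk1 G hG
      cases hr : rk G with
      | zero => rw [hr] at h1; exact absurd h1 hnG
      | succ h =>
        rw [hr] at h1
        rcases h1 with h1 | ⟨n, K, x, y, c, e, r, t, D, α, β, c0, c1, cw, c2, c3⟩
        · exact absurd h1 hnG
        · refine ⟨⟨n, K, x, y, c, e, r, t, D⟩, fun _ _ => ⟨⟨c0, c1, cw, α, β, c3⟩,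
            fun q => ⟨⟨h, c2 q⟩, ?_, ?_⟩⟩⟩
          · obtain ⟨w1, w2, w3, w4⟩ := cw.2 q
            exact piece_le c3 q w1 w3 w4
          · have := hrk2 _ _ (c2 q)
            change rk (dpiece D q) < rk G
            omega
    · exact ⟨⟨0, fun _ => S0, fun _ => t0, fun _ => t0, fun _ => 0, fun _ _ => false, 0, t0,
        fun _ _ => ⟨0, fun j => j.elim0⟩⟩, fun h h' => absurd ⟨h, h'⟩ hG⟩
  choose dec hdec using hdec
  have hd : ∀ X : Set ℕ, X ⊆ Z0 → X.Infinite → _ := fun X hX hXi =>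
    hdec (f X) (hMf X (hX.trans hZ0) hXi) (hnB X hX hXi)
  have hloc0 := locOn_mono b1.2.1 hZ0
  obtain ⟨Z1, hZ1, hZ1i, hZ1c⟩ := bqr_homog_on bqr_nat
    (locOn_comp hloc0 (fun G => (dec G).2.2.2.2.1 (dec G).1)) hZ0i (fun _ _ _ => trivial)
  have hloc1 := locOn_mono hloc0 hZ1
  obtain ⟨Z2, hZ2, hZ2i, hZ2c⟩ := bqr_homog_on bqr_nat
    (locOn_comp hloc1 (fun G : PG ι => G.w)) hZ1i (fun _ _ _ => trivial)
  have hloc2 := locOn_mono hloc1 hZ2
  have hbad : Bad (gapLE tlLE) (fun _ => True) Z2 (fun X => (dec (f X)).cd) := by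
    refine ⟨hZ2i, locOn_comp hloc2 (fun G => (dec G).cd), fun X hX hXi => ⟨trivial, fun hr => ?_⟩⟩
    have hX1 := hX.trans hZ2
    have hX0 := hX1.trans hZ1
    have htX0 : tl X ⊆ Z0 := (tl_subset X).trans hX0
    obtain ⟨⟨_, v1, w1, α, β, e⟩, _⟩ := hd X hX0 hXi
    obtain ⟨⟨_, v2, w2, α', β', e'⟩, _⟩ := hd (tl X) htX0 (tl_infinite hXi)
    exact (b1.2.2 X (hX0.trans hZ0) hXi).2
      (code_mono v1 v2 w1 e e' (hZ1c X hX1 hXi) (hZ2c X hX hXi) hr)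
  obtain ⟨A2, g, hA2, hg, hgm⟩ := gap_bad hbad
  -- the tiles
  have hgT : ∀ X : Set ℕ, X ⊆ A2 → X.Infinite → T (g X).1.1 := by
    intro X hX hXi
    obtain ⟨i, hi, hgi⟩ := hgm X hX hXi
    obtain ⟨⟨k, _⟩, _⟩ := hd X (((hX.trans hA2).trans hZ2).trans hZ1) hXi
    rw [hgi]
    exact k i (Nat.le_of_lt_succ hi)
  obtain ⟨Z3, hZ3, hZ3i, hZ3c⟩ := bqr_homog_on hT
    (locOn_comp hg.2.1 (fun x : TL ι Q => x.1.1)) hg.1 hgT
  obtain ⟨Z4, hZ4, hZ4i, fl, hfl⟩ := ramsey_on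
    (locOn_comp (locOn_mono hg.2.1 hZ3) (fun x : TL ι Q => x.2)) hZ3i
  have hloc4 := locOn_mono (locOn_mono hg.2.1 hZ3) hZ4
  obtain ⟨Z5, hZ5, hZ5i, v5, hv5⟩ := ramsey_on
    (locOn_comp (locOn_pair hloc4 (locOn_tl hloc4))
      (fun q : TL ι Q × TL ι Q =>
        (fun t : Q => decide (rL pmLE (q.1.1.2 t) (q.2.1.2 t))))) hZ4i
  have h5A : Z5 ⊆ A2 := (hZ5.trans hZ4).trans hZ3
  have hex : ∃ t : Q, v5 t = false := by
    by_contra hcon
    push Not at hcon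
    apply (hg.2.2 Z5 h5A hZ5i).2
    refine ⟨hZ3c Z5 (hZ5.trans hZ4) hZ5i, fun t => ?_, ?_⟩
    · have h1 := congrFun (hv5 Z5 le_rfl hZ5i) t
      have h2 : v5 t = true := by
        cases h : v5 t with
        | true => rfl
        | false => exact absurd h (hcon t)
      exact of_decide_eq_true (h1.trans h2)
    · have h1 : (g Z5).2 = fl := hfl Z5 hZ5 hZ5i
      have h2 : (g (tl Z5)).2 = fl := hfl (tl Z5) ((tl_subset _).trans hZ5) (tl_infinite hZ5i)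
      rw [h1, h2]
  obtain ⟨t, ht⟩ := hex
  have hbad2 : Bad (rL pmLE) (fun _ => True) Z5 (fun X => (g X).1.2 t) := by
    refine ⟨hZ5i, locOn_comp (locOn_mono hloc4 hZ5) (fun x : TL ι Q => x.1.2 t),
      fun X hX hXi => ⟨trivial, fun hr => ?_⟩⟩
    have h1 := congrFun (hv5 X hX hXi) t
    rw [ht] at h1
    have h2 : decide (rL pmLE ((g X).1.2 t) ((g (tl X)).1.2 t)) = true := decide_eq_true hr
    exact absurd (h2.symm.trans h1) (by simp)
  obtain ⟨A6, g6, hA6, hg6, hgm6⟩ := multi_bad hbad2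
  have hin : ∀ X : Set ℕ, X ⊆ A6 → X.Infinite → M (g6 X).1 ∧ sub (g6 X).1 (f X) := by
    intro X hX hXi
    have hX2 : X ⊆ A2 := (hX.trans hA6).trans h5A
    have hX0 : X ⊆ Z0 := ((hX2.trans hA2).trans hZ2).trans hZ1
    obtain ⟨j, hj⟩ := hgm6 X hX hXi
    obtain ⟨i, hi, hgi⟩ := hgm X hX2 hXi
    obtain ⟨_, hp⟩ := hd X hX0 hXi
    have hi' : i < (dec (f X)).1 + 1 := hi
    have key : ∀ (x : TL ι Q), x = ((dec (f X)).cd.2.1 i) → ∀ j : Fin (x.1.2 t).1,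
        M ((x.1.2 t).2 j).1 ∧ sub ((x.1.2 t).2 j).1 (f X) := by
      rintro x rfl j
      exact hp ⟨(⟨i, hi'⟩, t), j⟩
    rw [hj]
    exact key (g X) hgi j
  -- the modes
  obtain ⟨Z7, hZ7, hZ7i, m7, hm7⟩ := ramsey_on
    (locOn_comp hg6.2.1 (fun x : PM ι => x.2)) hg6.1
  have hbad7 : Bad TileMinor M Z7 (fun X => (g6 X).1) := by
    refine ⟨hZ7i, locOn_comp (locOn_mono hg6.2.1 hZ7) (fun x : PM ι => x.1),
      fun X hX hXi => ⟨(hin X (hX.trans hZ7) hXi).1, fun hr => ?_⟩⟩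
    apply (hg6.2.2 X (hX.trans hZ7) hXi).2
    have e1 : (g6 X).2 = m7 := hm7 X hX hXi
    have e2 : (g6 (tl X)).2 = m7 := hm7 (tl X) ((tl_subset X).trans hX) (tl_infinite hXi)
    exact ⟨hr, e1.trans e2.symm⟩
  exact b4 Z7 _ hbad7
    (((((hZ7.trans hA6).trans h5A).trans hA2).trans hZ2).trans (hZ1.trans hZ0))
    (fun X hX hXi => (hin X (hX.trans hZ7) hXi).2)

theorem unionP_mono {ι : Type} {n m : ℕ} {K : Fin n → PG ι} {L : Fin m → PG ι} {S T : LG ι}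
    (hS : UnionP K S) (hT : UnionP L T) (h : rL TileMinor ⟨n, K⟩ ⟨m, L⟩) : LMinor S T := by
  obtain ⟨σ, hσ, hm⟩ := h
  change Fin n → Fin m at σ
  change ∀ i : Fin n, TileMinor (K i) (L (σ i)) at hm
  have hm2 : ∀ i : Fin n, _ := fun i => (hm i).2
  choose φ hφ1 hφ2 hφ3 hφ4 _ using hm2
  apply lminor_of_iso hS hT
    (fun x => {w | ∃ b ∈ φ x.1 x.2, w = (⟨σ x.1, b⟩ : Σ j : Fin m, Fin (L j).G.1.1)})
  · rintro ⟨i, a⟩
    have h1 := conn_image (H := DU (fun j => (L j).G.1)) (hφ1 i a)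
      (fun b => (⟨σ i, b⟩ : Σ j : Fin m, Fin (L j).G.1.1))
      (fun x y hxy => ⟨σ i, x, y, rfl, rfl, hxy⟩)
    have h2 : {w | ∃ b ∈ φ i a, w = (⟨σ i, b⟩ : Σ j : Fin m, Fin (L j).G.1.1)} =
        (fun b => (⟨σ i, b⟩ : Σ j : Fin m, Fin (L j).G.1.1)) '' φ i a := by
      ext w
      exact ⟨fun ⟨b, hb, hw⟩ => ⟨b, hb, hw.symm⟩, fun ⟨b, hb, hw⟩ => ⟨b, hb, hw.symm⟩⟩
    rw [h2]
    exact h1
  · rintro ⟨i, a⟩ ⟨j, a'⟩ hne
    rw [Set.disjoint_left]
    rintro w ⟨b, hb, rfl⟩ ⟨b', hb', hw'⟩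
    simp only [Sigma.mk.injEq] at hw'
    obtain ⟨h1, h2⟩ := hw'
    have hij := hσ h1
    subst hij
    simp only [heq_eq_eq] at h2
    subst h2
    have hne' : a ≠ a' := fun h => hne (by rw [h])
    exact Set.disjoint_left.1 (hφ2 i a a' hne') hb hb'
  · rintro _ _ ⟨i, a, a', rfl, rfl, h⟩
    obtain ⟨x, hx, y, hy, hxy⟩ := hφ3 i a a' h
    exact ⟨_, ⟨x, hx, rfl⟩, _, ⟨y, hy, rfl⟩, σ i, x, y, rfl, rfl, hxy⟩
  · rintro ⟨i, a⟩ l h
    obtain ⟨x, hx, hxl⟩ := hφ4 i a l h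
    exact ⟨_, ⟨x, hx, rfl⟩, hxl⟩

/-- the final theorem -/
theorem port_bqo {k : ℕ} {Q : Type} [Finite Q] {T : Tile (Fin k) Q → Prop}
    {B : PG (Fin k) → Prop} (hT : Bqr TileMinor T) (hB : Bqr TileMinor B) :
    BQO (UnionOf (PortGraph T B)) := by
  classical
  apply union_closure
  have h : ∀ M : SimpleGraph (Fin k), Bqr Minor (fun G => ∃ (S : LG (Fin k)) (m : ℕ)
      (K : Fin m → PG (Fin k)), (∀ j, PortTree T B (K j)) ∧ UnionP K S ∧
      Nonempty (G.2 ≃g AllG M S)) := by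
    intro M
    have hch : ∀ G : FG, ∃ x : LG (Fin k) × LL (PG (Fin k)),
        (∃ (S : LG (Fin k)) (m : ℕ)
          (K : Fin m → PG (Fin k)), (∀ j, PortTree T B (K j)) ∧ UnionP K S ∧
          Nonempty (G.2 ≃g AllG M S)) →
        (∀ j, PortTree T B (x.2.2 j)) ∧ UnionP x.2.2 x.1 ∧ Nonempty (G.2 ≃g AllG M x.1) := by
      intro G
      by_cases h : ∃ (S : LG (Fin k)) (m : ℕ)
          (K : Fin m → PG (Fin k)), (∀ j, PortTree T B (K j)) ∧ UnionP K S ∧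
          Nonempty (G.2 ≃g AllG M S)
      · obtain ⟨S, m, K, h⟩ := h
        exact ⟨(S, ⟨m, K⟩), fun _ => h⟩
      · exact ⟨(⟨⟨0, ⊥⟩, fun _ _ => false⟩, ⟨0, fun j => j.elim0⟩), fun h' => absurd h' h⟩
    choose ρ hρ using hch
    apply bqr_map (list_bqr (port_bqr hT hB)) (fun G => (ρ G).2) (fun G hG => (hρ G hG).1)
    intro G H hG hH hr
    obtain ⟨_, u1, ⟨e1⟩⟩ := hρ G hG
    obtain ⟨_, u2, ⟨e2⟩⟩ := hρ H hH
    exact all_minor (unionP_mono u1 u2 hr) e1 e2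
  exact bqr_exists h

end Pool.Agent.Bqp.Port
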