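import Pool.Agent.Bqp.Port

set_option autoImplicit false

namespace Pool.Agent.Bqp.Port

open Pool.Agent.Bqp Pool.Agent.Bqp.Sky

/-- The names of the port systems of array tiles: `Sum.inl (s, ε)` is side `s` (0 left, 1 right,
2 bottom, 3 top) counted from its first end (left or bottom, `ε = false`) or from its last end
(`ε = true`); `Sum.inr t` is a place, a system with one port. -/
abbrev AQ (p : ℕ) : Type := (Fin 4 × Bool) ⊕ (Fin (p + 2) × Fin (p + 2))

/-- the position `t` in `0, ..., a - 1`: `t` (at most `a1 - 1`) for `t ≤ p`, and the last position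
for `t = p + 1` -/
def pos {p : ℕ} (a1 a : ℕ) (t : Fin (p + 2)) : ℕ :=
  if (t : ℕ) = p + 1 then a - 1 else min t (a1 - 1)

/-- `S` is an array with `a1 + a2` columns and `b1 + b2` rows: its vertices are `α x y` for
`x < a1 + a2`, `y < b1 + b2`, with horizontal and vertical edges and with diagonal edges as `D`
says. The ports of a side counted from its first end are its first `a1` (or `b1`) vertices, the
ports counted from its last end are its last `a2` (or `b2`) vertices. The places are the vertices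
`(x, y)` with `x` and `y` given by `pos`. The attachments are constant on the array and on the port
systems. -/
structure IsArr {ι : Type} {p : ℕ} (a1 a2 b1 b2 : ℕ) (D : Fin 4 → Bool)
    (U : Option (AQ p) → ι → Bool) (S : Tile ι (AQ p)) (α : ℕ → ℕ → S.V) : Prop where
  one : 1 ≤ a1 ∧ 1 ≤ b1
  hv : D 0 = true ∧ D 1 = true
  inj : ∀ x y x' y', x < a1 + a2 → y < b1 + b2 → x' < a1 + a2 → y' < b1 + b2 →
    α x y = α x' y' → x = x' ∧ y = y'
  cover : ∀ v, ∃ x y, x < a1 + a2 ∧ y < b1 + b2 ∧ v = α x y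
  adj : ∀ x y x' y', x < a1 + a2 → y < b1 + b2 → x' < a1 + a2 → y' < b1 + b2 →
    (S.G.1.2.Adj (α x y) (α x' y') ↔ Step D x y x' y' ∨ Step D x' y' x y)
  att : ∀ v l, S.G.2 v l = true ↔ U none l = true ∨
    ∃ q j, U (some q) l = true ∧ j < S.wd q ∧ v = S.pt q j
  pl : ∀ t, S.wd (Sum.inr t) = 1 ∧
    S.pt (Sum.inr t) 0 = α (pos a1 (a1 + a2) t.1) (pos b1 (b1 + b2) t.2)
  wd : ∀ s, S.wd (Sum.inl (s, false)) = sideLen a1 b1 s ∧
    S.wd (Sum.inl (s, true)) = sideLen a2 b2 s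
  first : ∀ s x y i, OnSide (a1 + a2) (b1 + b2) s x y i → i < sideLen a1 b1 s →
    S.pt (Sum.inl (s, false)) i = α x y
  last : ∀ s x y i j, OnSide (a1 + a2) (b1 + b2) s x y i →
    i + j + 1 = sideLen (a1 + a2) (b1 + b2) s → j < sideLen a2 b2 s →
    S.pt (Sum.inl (s, true)) j = α x y

/-- the array tiles -/
def ArrTile {ι : Type} {p : ℕ} (S : Tile ι (AQ p)) : Prop :=
  ∃ (q : (Fin 4 → Bool) × (Option (AQ p) → ι → Bool)) (a1 a2 b1 b2 : ℕ) (α : ℕ → ℕ → S.V),
    IsArr a1 a2 b1 b2 q.1 q.2 S α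

/-- the fibre of `x` -/
def blk (a1 a2 a' x c : ℕ) : Prop :=
  (x + 1 < a1 ∧ c = x) ∨ (x + 1 = a1 ∧ x ≤ c ∧ c + a2 < a') ∨ (a1 ≤ x ∧ c + (a1 + a2) = x + a')

theorem blk_lt {a1 a2 a1' a2' x c : ℕ} (h1 : a1 ≤ a1') (h2 : a2 ≤ a2') (hx : x < a1 + a2)
    (h : blk a1 a2 (a1' + a2') x c) : c < a1' + a2' := by
  unfold blk at h
  omega

theorem blk_unique {a1 a2 a1' a2' x x' c : ℕ} (h1 : a1 ≤ a1') (h2 : a2 ≤ a2')
    (h : blk a1 a2 (a1' + a2') x c) (h' : blk a1 a2 (a1' + a2') x' c) : x = x' := by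
  unfold blk at h h'
  omega

theorem blk_first {a1 a2 a1' a2' x : ℕ} (h1 : a1 ≤ a1') (h2 : a2 ≤ a2') (hx : x < a1) :
    blk a1 a2 (a1' + a2') x x := by
  unfold blk
  omega

theorem blk_last {a1 a2 a1' a2' x x' j : ℕ} (h : x + j + 1 = a1 + a2) (h' : x' + j + 1 = a1' + a2')
    (hj : j < a2) : blk a1 a2 (a1' + a2') x x' := by
  unfold blk
  omega

theorem blk_end {a1 a2 a1' a2' x x' : ℕ} (_ : 1 ≤ a1) (h1 : a1 ≤ a1') (h2 : a2 ≤ a2')
    (h : x + 1 = a1 + a2) (h' : x' + 1 = a1' + a2') : blk a1 a2 (a1' + a2') x x' := by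
  unfold blk
  omega

/-- the first element of the fibre -/
def fst' (a1 a2 a' x : ℕ) : ℕ := if x < a1 then x else x + a' - (a1 + a2)

theorem blk_fst {a1 a2 a1' a2' x : ℕ} (h1 : a1 ≤ a1') (h2 : a2 ≤ a2') (_ : x < a1 + a2) :
    blk a1 a2 (a1' + a2') x (fst' a1 a2 (a1' + a2') x) := by
  unfold blk fst'
  split_ifs <;> omega

theorem fst_le {a1 a2 a1' a2' x c : ℕ} (h : blk a1 a2 (a1' + a2') x c) :
    fst' a1 a2 (a1' + a2') x ≤ c := by
  unfold blk at h
  unfold fst'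
  split_ifs <;> omega

theorem blk_down {a1 a2 a1' a2' x c : ℕ} (h : blk a1 a2 (a1' + a2') x (c + 1))
    (hc : fst' a1 a2 (a1' + a2') x < c + 1) : blk a1 a2 (a1' + a2') x c := by
  unfold blk at h ⊢
  unfold fst' at hc
  split_ifs at hc <;> omega

theorem blk_step {a1 a2 a1' a2' x : ℕ} (_ : 1 ≤ a1) (h1 : a1 ≤ a1') (h2 : a2 ≤ a2')
    (_ : x + 1 < a1 + a2) :
    ∃ c, blk a1 a2 (a1' + a2') x c ∧ blk a1 a2 (a1' + a2') (x + 1) (c + 1) := by
  by_cases h : x + 1 < a1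
  · exact ⟨x, by unfold blk; omega, by unfold blk; omega⟩
  · by_cases h' : x + 1 = a1
    · exact ⟨a1' + a2' - a2 - 1, by unfold blk; omega, by unfold blk; omega⟩
    · exact ⟨x + (a1' + a2') - (a1 + a2), by unfold blk; omega, by unfold blk; omega⟩

theorem pos_lt {p a1 a2 : ℕ} (ha : 1 ≤ a1) (t : Fin (p + 2)) : pos a1 (a1 + a2) t < a1 + a2 := by
  unfold pos
  split_ifs <;> omega

theorem blk_pos {p a1 a2 a1' a2' : ℕ} (h0 : 1 ≤ a1) (h1 : a1 ≤ a1') (h2 : a2 ≤ a2')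
    (t : Fin (p + 2)) :
    blk a1 a2 (a1' + a2') (pos a1 (a1 + a2) t) (pos a1' (a1' + a2') t) := by
  unfold pos blk
  split_ifs <;> omega

/-- products of two intervals of an array are connected -/
theorem box_conn {W : Type} {H : SimpleGraph W} {a b x y : ℕ} {α : ℕ → ℕ → W} {A B : ℕ → Prop}
    (hA : ∀ c, A c → x ≤ c ∧ c < a) (hB : ∀ c, B c → y ≤ c ∧ c < b)
    (hA' : ∀ c, A (c + 1) → x < c + 1 → A c) (hB' : ∀ c, B (c + 1) → y < c + 1 → B c)
    (hAx : A x) (hBy : B y)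
    (hh : ∀ c d, c + 1 < a → d < b → H.Adj (α c d) (α (c + 1) d))
    (hv : ∀ c d, c < a → d + 1 < b → H.Adj (α c d) (α c (d + 1))) :
    (H.induce {w | ∃ c d, A c ∧ B d ∧ w = α c d}).Connected := by
  rw [SimpleGraph.connected_iff_exists_forall_reachable]
  refine ⟨⟨α x y, x, y, hAx, hBy, rfl⟩, ?_⟩
  have key : ∀ n c d, c + d = n → ∀ (hc : A c) (hd : B d),
      (H.induce {w | ∃ c d, A c ∧ B d ∧ w = α c d}).Reachable ⟨α x y, x, y, hAx, hBy, rfl⟩
        ⟨α c d, c, d, hc, hd, rfl⟩ := by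
    intro n
    induction n with
    | zero =>
      intro c d hn hc hd
      have h1 := hA c hc
      have h2 := hB d hd
      have e1 : x = c := by omega
      have e2 : y = d := by omega
      subst e1 e2
      rfl
    | succ n ih =>
      intro c d hn hc hd
      have h1 := hA c hc
      have h2 := hB d hd
      by_cases hxc : x < c
      · obtain ⟨c, rfl⟩ : ∃ m, c = m + 1 := ⟨c - 1, by omega⟩
        have hc' := hA' c hc hxc
        refine (ih c d (by omega) hc' hd).trans (SimpleGraph.Adj.reachable ?_)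
        rw [SimpleGraph.induce_adj]
        exact hh c d (by omega) (by omega)
      · by_cases hyd : y < d
        · obtain ⟨d, rfl⟩ : ∃ m, d = m + 1 := ⟨d - 1, by omega⟩
          have hd' := hB' d hd hyd
          refine (ih c d (by omega) hc hd').trans (SimpleGraph.Adj.reachable ?_)
          rw [SimpleGraph.induce_adj]
          exact hv c d (by omega) (by omega)
        · have e1 : x = c := by omega
          have e2 : y = d := by omega
          subst e1 e2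
          rfl
  rintro ⟨_, c, d, hc, hd, rfl⟩
  exact key _ c d rfl hc hd

theorem side_cases (s : Fin 4) : s = 0 ∨ s = 1 ∨ s = 2 ∨ s = 3 := by
  revert s
  decide

/-- the ports of an array tile are in the fibres of the same ports of a smaller one -/
theorem port_blk {ι : Type} {p : ℕ} {a1 a2 b1 b2 a1' a2' b1' b2' : ℕ} {D : Fin 4 → Bool}
    {U : Option (AQ p) → ι → Bool} {S T : Tile ι (AQ p)} {α : ℕ → ℕ → S.V} {α' : ℕ → ℕ → T.V}
    (h : IsArr a1 a2 b1 b2 D U S α) (h' : IsArr a1' a2' b1' b2' D U T α') (ha1 : a1 ≤ a1')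
    (ha2 : a2 ≤ a2') (hb1 : b1 ≤ b1') (hb2 : b2 ≤ b2') (q : AQ p) (j : ℕ) (hj : j < S.wd q) :
    ∃ x y, x < a1 + a2 ∧ y < b1 + b2 ∧ S.pt q j = α x y ∧ ∃ c d, blk a1 a2 (a1' + a2') x c ∧
      blk b1 b2 (b1' + b2') y d ∧ T.pt q j = α' c d := by
  obtain ⟨o1, o2⟩ := h.one
  obtain ⟨o1', o2'⟩ := h'.one
  rcases q with ⟨s, ε⟩ | t
  · cases ε with
    | false =>
      rw [(h.wd s).1] at hj
      rcases side_cases s with rfl | rfl | rfl | rfl
      · rw [sideLen, if_pos (by decide)] at hj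
        refine ⟨0, j, by omega, by omega, h.first 0 0 j j (Or.inl ⟨rfl, rfl, rfl⟩)
          (by rw [sideLen, if_pos (by decide)]; exact hj), 0, j, blk_first ha1 ha2 (by omega),
          blk_first hb1 hb2 hj, h'.first 0 0 j j (Or.inl ⟨rfl, rfl, rfl⟩)
          (by rw [sideLen, if_pos (by decide)]; omega)⟩
      · rw [sideLen, if_pos (by decide)] at hj
        refine ⟨a1 + a2 - 1, j, by omega, by omega, h.first 1 _ j j
          (Or.inr (Or.inl ⟨rfl, by omega, rfl⟩))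
          (by rw [sideLen, if_pos (by decide)]; exact hj), a1' + a2' - 1, j,
          blk_end o1 ha1 ha2 (by omega) (by omega), blk_first hb1 hb2 hj, h'.first 1 _ j j
          (Or.inr (Or.inl ⟨rfl, by omega, rfl⟩)) (by rw [sideLen, if_pos (by decide)]; omega)⟩
      · rw [sideLen, if_neg (by decide)] at hj
        refine ⟨j, 0, by omega, by omega, h.first 2 j 0 j
          (Or.inr (Or.inr (Or.inl ⟨rfl, rfl, rfl⟩)))
          (by rw [sideLen, if_neg (by decide)]; exact hj), j, 0,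
          blk_first ha1 ha2 hj, blk_first hb1 hb2 (by omega), h'.first 2 j 0 j
          (Or.inr (Or.inr (Or.inl ⟨rfl, rfl, rfl⟩)))
          (by rw [sideLen, if_neg (by decide)]; omega)⟩
      · rw [sideLen, if_neg (by decide)] at hj
        refine ⟨j, b1 + b2 - 1, by omega, by omega, h.first 3 j _ j
          (Or.inr (Or.inr (Or.inr ⟨rfl, by omega, rfl⟩)))
          (by rw [sideLen, if_neg (by decide)]; exact hj), j, b1' + b2' - 1,
          blk_first ha1 ha2 hj, blk_end o2 hb1 hb2 (by omega) (by omega), h'.first 3 j _ j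
          (Or.inr (Or.inr (Or.inr ⟨rfl, by omega, rfl⟩)))
          (by rw [sideLen, if_neg (by decide)]; omega)⟩
    | true =>
      rw [(h.wd s).2] at hj
      rcases side_cases s with rfl | rfl | rfl | rfl
      · rw [sideLen, if_pos (by decide)] at hj
        refine ⟨0, b1 + b2 - 1 - j, by omega, by omega,
          h.last 0 0 _ (b1 + b2 - 1 - j) j (Or.inl ⟨rfl, rfl, rfl⟩)
          (by rw [sideLen, if_pos (by decide)]; omega)
          (by rw [sideLen, if_pos (by decide)]; exact hj), 0, b1' + b2' - 1 - j,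
          blk_first ha1 ha2 (by omega),
          blk_last (j := j) (by omega) (by omega) hj,
          h'.last 0 0 _ (b1' + b2' - 1 - j) j (Or.inl ⟨rfl, rfl, rfl⟩)
          (by rw [sideLen, if_pos (by decide)]; omega)
          (by rw [sideLen, if_pos (by decide)]; omega)⟩
      · rw [sideLen, if_pos (by decide)] at hj
        refine ⟨a1 + a2 - 1, b1 + b2 - 1 - j, by omega, by omega,
          h.last 1 _ _ (b1 + b2 - 1 - j) j (Or.inr (Or.inl ⟨rfl, by omega, rfl⟩))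
          (by rw [sideLen, if_pos (by decide)]; omega)
          (by rw [sideLen, if_pos (by decide)]; exact hj), a1' + a2' - 1, b1' + b2' - 1 - j,
          blk_end o1 ha1 ha2 (by omega) (by omega),
          blk_last (j := j) (by omega) (by omega) hj,
          h'.last 1 _ _ (b1' + b2' - 1 - j) j (Or.inr (Or.inl ⟨rfl, by omega, rfl⟩))
          (by rw [sideLen, if_pos (by decide)]; omega)
          (by rw [sideLen, if_pos (by decide)]; omega)⟩
      · rw [sideLen, if_neg (by decide)] at hj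
        refine ⟨a1 + a2 - 1 - j, 0, by omega, by omega,
          h.last 2 _ _ (a1 + a2 - 1 - j) j (Or.inr (Or.inr (Or.inl ⟨rfl, rfl, rfl⟩)))
          (by rw [sideLen, if_neg (by decide)]; omega)
          (by rw [sideLen, if_neg (by decide)]; exact hj), a1' + a2' - 1 - j, 0,
          blk_last (j := j) (by omega) (by omega) hj,
          blk_first hb1 hb2 (by omega),
          h'.last 2 _ _ (a1' + a2' - 1 - j) j (Or.inr (Or.inr (Or.inl ⟨rfl, rfl, rfl⟩)))
          (by rw [sideLen, if_neg (by decide)]; omega)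
          (by rw [sideLen, if_neg (by decide)]; omega)⟩
      · rw [sideLen, if_neg (by decide)] at hj
        refine ⟨a1 + a2 - 1 - j, b1 + b2 - 1, by omega, by omega,
          h.last 3 _ _ (a1 + a2 - 1 - j) j (Or.inr (Or.inr (Or.inr ⟨rfl, by omega, rfl⟩)))
          (by rw [sideLen, if_neg (by decide)]; omega)
          (by rw [sideLen, if_neg (by decide)]; exact hj), a1' + a2' - 1 - j, b1' + b2' - 1,
          blk_last (j := j) (by omega) (by omega) hj,
          blk_end o2 hb1 hb2 (by omega) (by omega),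
          h'.last 3 _ _ (a1' + a2' - 1 - j) j (Or.inr (Or.inr (Or.inr ⟨rfl, by omega, rfl⟩)))
          (by rw [sideLen, if_neg (by decide)]; omega)
          (by rw [sideLen, if_neg (by decide)]; omega)⟩
  · rw [(h.pl t).1] at hj
    have hj0 : j = 0 := by omega
    subst hj0
    exact ⟨_, _, pos_lt o1 _, pos_lt o2 _, (h.pl t).2, _, _, blk_pos o1 ha1 ha2 t.1,
      blk_pos o2 hb1 hb2 t.2, (h'.pl t).2⟩

/-- monotonicity of array tiles -/
theorem arr_mono {ι : Type} {p : ℕ} {a1 a2 b1 b2 a1' a2' b1' b2' : ℕ} {D : Fin 4 → Bool}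
    {U : Option (AQ p) → ι → Bool} {S T : Tile ι (AQ p)} {α : ℕ → ℕ → S.V} {α' : ℕ → ℕ → T.V}
    (h : IsArr a1 a2 b1 b2 D U S α) (h' : IsArr a1' a2' b1' b2' D U T α') (ha1 : a1 ≤ a1')
    (ha2 : a2 ≤ a2') (hb1 : b1 ≤ b1') (hb2 : b2 ≤ b2') : TileMinor S T := by
  obtain ⟨o1, o2⟩ := h.one
  obtain ⟨o1', o2'⟩ := h'.one
  have hwd : ∀ q, S.wd q ≤ T.wd q := by
    rintro (⟨s, ε⟩ | t)
    · cases ε with
      | false =>
        rw [(h.wd s).1, (h'.wd s).1]
        unfold sideLen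
        split_ifs <;> omega
      | true =>
        rw [(h.wd s).2, (h'.wd s).2]
        unfold sideLen
        split_ifs <;> omega
    · rw [(h.pl t).1, (h'.pl t).1]
  refine ⟨hwd, fun v => {w | ∃ x y, x < a1 + a2 ∧ y < b1 + b2 ∧ v = α x y ∧
    ∃ c d, blk a1 a2 (a1' + a2') x c ∧ blk b1 b2 (b1' + b2') y d ∧ w = α' c d},
    ?_, ?_, ?_, ?_, ?_⟩
  · intro v
    obtain ⟨x, y, hx, hy, rfl⟩ := h.cover v
    have hset : {w | ∃ x_1 y_1, x_1 < a1 + a2 ∧ y_1 < b1 + b2 ∧ α x y = α x_1 y_1 ∧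
        ∃ c d, blk a1 a2 (a1' + a2') x_1 c ∧ blk b1 b2 (b1' + b2') y_1 d ∧ w = α' c d} =
        {w | ∃ c d, blk a1 a2 (a1' + a2') x c ∧ blk b1 b2 (b1' + b2') y d ∧ w = α' c d} := by
      ext w
      constructor
      · rintro ⟨x1, y1, hx1, hy1, e, hw⟩
        obtain ⟨rfl, rfl⟩ := h.inj x y x1 y1 hx hy hx1 hy1 e
        exact hw
      · intro hw
        exact ⟨x, y, hx, hy, rfl, hw⟩
    beta_reduce
    rw [hset]
    apply box_conn (a := a1' + a2') (b := b1' + b2') (x := fst' a1 a2 (a1' + a2') x)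
      (y := fst' b1 b2 (b1' + b2') y)
    · intro c hc; exact ⟨fst_le hc, blk_lt ha1 ha2 hx hc⟩
    · intro c hc; exact ⟨fst_le hc, blk_lt hb1 hb2 hy hc⟩
    · intro c hc hxc; exact blk_down hc hxc
    · intro c hc hxc; exact blk_down hc hxc
    · exact blk_fst ha1 ha2 hx
    · exact blk_fst hb1 hb2 hy
    · intro c d hc hd
      rw [h'.adj c d (c + 1) d (by omega) hd hc hd]
      exact Or.inl (Or.inl ⟨h'.hv.1, rfl, rfl⟩)
    · intro c d hc hd
      rw [h'.adj c d c (d + 1) hc (by omega) hc hd]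
      exact Or.inl (Or.inr (Or.inl ⟨h'.hv.2, rfl, rfl⟩))
  · intro v v' hvv
    rw [Set.disjoint_left]
    rintro w ⟨x, y, hx, hy, rfl, c, d, hc, hd, e⟩ ⟨x', y', hx', hy', rfl, c', d', hc', hd', e'⟩
    obtain ⟨rfl, rfl⟩ := h'.inj c d c' d' (blk_lt ha1 ha2 hx hc) (blk_lt hb1 hb2 hy hd)
      (blk_lt ha1 ha2 hx' hc') (blk_lt hb1 hb2 hy' hd') (e.symm.trans e')
    have e1 := blk_unique ha1 ha2 hc hc'
    have e2 := blk_unique hb1 hb2 hd hd'
    subst e1 e2
    exact hvv rfl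
  · have key : ∀ x y x' y', x < a1 + a2 → y < b1 + b2 → x' < a1 + a2 → y' < b1 + b2 →
        Step D x y x' y' → ∃ c d c' d', blk a1 a2 (a1' + a2') x c ∧ blk b1 b2 (b1' + b2') y d ∧
          blk a1 a2 (a1' + a2') x' c' ∧ blk b1 b2 (b1' + b2') y' d' ∧ Step D c d c' d' := by
      rintro x y x' y' hx hy hx' hy' (⟨g, rfl, rfl⟩ | ⟨g, rfl, rfl⟩ | ⟨g, g', g'', rfl, rfl⟩ |
        ⟨g, g', g'', rfl, rfl⟩)
      · obtain ⟨c, hc, hc'⟩ := blk_step o1 ha1 ha2 hx'
        have hd := blk_fst hb1 hb2 hy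
        exact ⟨c, _, c + 1, _, hc, hd, hc', hd, Or.inl ⟨g, rfl, rfl⟩⟩
      · obtain ⟨d, hd, hd'⟩ := blk_step o2 hb1 hb2 hy'
        have hc := blk_fst ha1 ha2 hx
        exact ⟨_, d, _, d + 1, hc, hd, hc, hd', Or.inr (Or.inl ⟨g, rfl, rfl⟩)⟩
      · obtain ⟨c, hc, hc'⟩ := blk_step o1 ha1 ha2 hx'
        obtain ⟨d, hd, hd'⟩ := blk_step o2 hb1 hb2 hy'
        exact ⟨c, d, c + 1, d + 1, hc, hd, hc', hd',
          Or.inr (Or.inr (Or.inl ⟨g, g', g'', rfl, rfl⟩))⟩
      · obtain ⟨c, hc, hc'⟩ := blk_step o1 ha1 ha2 hx'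
        obtain ⟨d, hd, hd'⟩ := blk_step o2 hb1 hb2 hy
        exact ⟨c, d + 1, c + 1, d, hc, hd', hc', hd,
          Or.inr (Or.inr (Or.inr ⟨g, g', g'', rfl, rfl⟩))⟩
    intro v v' hadj
    obtain ⟨x, y, hx, hy, rfl⟩ := h.cover v
    obtain ⟨x', y', hx', hy', rfl⟩ := h.cover v'
    rw [h.adj x y x' y' hx hy hx' hy'] at hadj
    rcases hadj with hs | hs
    · obtain ⟨c, d, c', d', g1, g2, g3, g4, g5⟩ := key x y x' y' hx hy hx' hy' hs
      refine ⟨α' c d, ⟨x, y, hx, hy, rfl, c, d, g1, g2, rfl⟩, α' c' d',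
        ⟨x', y', hx', hy', rfl, c', d', g3, g4, rfl⟩, ?_⟩
      rw [h'.adj c d c' d' (blk_lt ha1 ha2 hx g1) (blk_lt hb1 hb2 hy g2)
        (blk_lt ha1 ha2 hx' g3) (blk_lt hb1 hb2 hy' g4)]
      exact Or.inl g5
    · obtain ⟨c, d, c', d', g1, g2, g3, g4, g5⟩ := key x' y' x y hx' hy' hx hy hs
      refine ⟨α' c' d', ⟨x, y, hx, hy, rfl, c', d', g3, g4, rfl⟩, α' c d,
        ⟨x', y', hx', hy', rfl, c, d, g1, g2, rfl⟩, ?_⟩
      rw [h'.adj c' d' c d (blk_lt ha1 ha2 hx g3) (blk_lt hb1 hb2 hy g4)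
        (blk_lt ha1 ha2 hx' g1) (blk_lt hb1 hb2 hy' g2)]
      exact Or.inr g5
  · intro v l hl
    rw [h.att v l] at hl
    rcases hl with hl | ⟨q, j, hl, hj, rfl⟩
    · obtain ⟨x, y, hx, hy, rfl⟩ := h.cover v
      exact ⟨_, ⟨x, y, hx, hy, rfl, _, _, blk_fst ha1 ha2 hx, blk_fst hb1 hb2 hy, rfl⟩,
        (h'.att _ l).2 (Or.inl hl)⟩
    · obtain ⟨x, y, hx, hy, e, c, d, hc, hd, e'⟩ := port_blk h h' ha1 ha2 hb1 hb2 q j hj
      exact ⟨T.pt q j, ⟨x, y, hx, hy, e, c, d, hc, hd, e'⟩,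
        (h'.att _ l).2 (Or.inr ⟨q, j, hl, lt_of_lt_of_le hj (hwd q), rfl⟩)⟩
  · intro q j hj
    obtain ⟨x, y, hx, hy, e, c, d, hc, hd, e'⟩ := port_blk h h' ha1 ha2 hb1 hb2 q j hj
    exact ⟨x, y, hx, hy, e, c, d, hc, hd, e'⟩

/-- the array tiles are better-quasi-ordered -/
theorem arr_bqr {ι : Type} [Finite ι] (p : ℕ) : Bqr TileMinor (ArrTile (ι := ι) (p := p)) := by
  classical
  apply bqr_exists
  intro q
  have hch : ∀ S : Tile ι (AQ p), ∃ x : (ℕ × ℕ) × (ℕ × ℕ),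
      (∃ (a1 a2 b1 b2 : ℕ) (α : ℕ → ℕ → S.V), IsArr a1 a2 b1 b2 q.1 q.2 S α) →
      ∃ α : ℕ → ℕ → S.V, IsArr x.1.1 x.1.2 x.2.1 x.2.2 q.1 q.2 S α := by
    intro S
    by_cases h : ∃ (a1 a2 b1 b2 : ℕ) (α : ℕ → ℕ → S.V), IsArr a1 a2 b1 b2 q.1 q.2 S α
    · obtain ⟨a1, a2, b1, b2, h⟩ := h
      exact ⟨((a1, a2), (b1, b2)), fun _ => h⟩
    · exact ⟨((0, 0), (0, 0)), fun h' => absurd h' h⟩
  choose ρ hρ using hch
  apply bqr_map (bqr_prod (bqr_prod bqr_nat bqr_nat) (bqr_prod bqr_nat bqr_nat)) ρ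
    (fun _ _ => ⟨⟨trivial, trivial⟩, trivial, trivial⟩)
  intro S T hS hT hr
  obtain ⟨α, h⟩ := hρ S hS
  obtain ⟨α', h'⟩ := hρ T hT
  exact arr_mono h h' hr.1.1 hr.1.2 hr.2.1 hr.2.2

/-- trees of strips of array tiles and of tiles of any bqo class -/
theorem arr_bqo {k p : ℕ} {T : Tile (Fin k) (AQ p) → Prop} {B : PG (Fin k) → Prop}
    (hT : Bqr TileMinor T) (hB : Bqr TileMinor B) :
    BQO (UnionOf (PortGraph (fun S => T S ∨ ArrTile S) B)) :=
  port_bqo (bqr_or hT (arr_bqr p)) hB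

end Pool.Agent.Bqp.Port
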