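import Pool.Agent.Bqp.SkyDefs

set_option autoImplicit false

namespace Pool.Agent.Bqp.Port

open Pool.Agent.Bqp Pool.Agent.Bqp.Sky

/-- A tile: a finite graph with attachments to the external vertices `l : ι` and with port systems
named by `q : Q`; the system `q` has the ports `pt q 0, ..., pt q (wd q - 1)`. -/
structure Tile (ι Q : Type) where
  G : LG ι
  wd : Q → ℕ
  pt : Q → ℕ → Fin G.1.1

/-- the vertices of a tile -/
abbrev Tile.V {ι Q : Type} (S : Tile ι Q) : Type := Fin S.G.1.1

/-- minors of tiles: attachments and ports are respected -/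
def TileMinor {ι Q : Type} (S T : Tile ι Q) : Prop :=
  (∀ q, S.wd q ≤ T.wd q) ∧ ∃ φ : S.V → Set T.V,
    (∀ v, (T.G.1.2.induce (φ v)).Connected) ∧
    (∀ v w, v ≠ w → Disjoint (φ v) (φ w)) ∧
    (∀ v w, S.G.1.2.Adj v w → ∃ a ∈ φ v, ∃ b ∈ φ w, T.G.1.2.Adj a b) ∧
    (∀ v l, S.G.2 v l = true → ∃ a ∈ φ v, T.G.2 a l = true) ∧
    (∀ q j, j < S.wd q → T.pt q j ∈ φ (S.pt q j))

/-- a graph with root ports: a tile with one port system -/
abbrev PG (ι : Type) : Type := Tile ι Unit

/-- the number of root ports -/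
abbrev Tile.w {ι : Type} (S : PG ι) : ℕ := S.wd ()

/-- the root ports -/
abbrev Tile.P {ι : Type} (S : PG ι) : ℕ → S.V := S.pt ()

/-- disjoint connected sets join `x j` to `y j`, `j < m` -/
def LinkedP {V : Type} (H : SimpleGraph V) (m : ℕ) (x y : ℕ → V) : Prop :=
  ∃ B : ℕ → Set V, (∀ j, j < m → (H.induce (B j)).Connected ∧ x j ∈ B j ∧ y j ∈ B j) ∧
    ∀ j j', j < j' → j' < m → Disjoint (B j) (B j')

/-- The strip of the tiles `K 0, ..., K n`: the ports `j < c i` of the system `y i` of tile `i` are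
joined to the ports of the system `x i'` of the next tile `i'` (the next one of the last tile is
the first one), with diagonals as `e i'` says. -/
def StripG {ι Q : Type} (n : ℕ) (K : ℕ → Tile ι Q) (x y : ℕ → Q) (c : ℕ → ℕ)
    (e : ℕ → Bool → Bool) : SimpleGraph (Σ i : Fin (n + 1), (K i).V) :=
  SimpleGraph.fromRel (fun a b =>
    (∃ (i : Fin (n + 1)) (u v : (K i).V), a = ⟨i, u⟩ ∧ b = ⟨i, v⟩ ∧ (K i).G.1.2.Adj u v) ∨
    (∃ (i i' : Fin (n + 1)) (j j' : ℕ), ((i' : ℕ) = i + 1 ∨ ((i : ℕ) = n ∧ (i' : ℕ) = 0)) ∧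
      Joined (c i) (e i') j j' ∧ a = ⟨i, (K i).pt (y i) j⟩ ∧ b = ⟨i', (K i').pt (x i') j'⟩))

/-- the tile before tile `i` in the cyclic order -/
def prv (n i : ℕ) : ℕ := if i = 0 then n else i - 1

/-- All joined ports exist; the last and the first tile are joined in at most as many ports as any
two neighbouring tiles (perhaps in none); in each tile the ports joined to both neighbours are
linked. -/
def ValidStrip {ι Q : Type} (n : ℕ) (K : ℕ → Tile ι Q) (x y : ℕ → Q) (c : ℕ → ℕ) : Prop :=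
  ∀ i, i ≤ n → c i ≤ (K i).wd (y i) ∧ c (prv n i) ≤ (K i).wd (x i) ∧ c n ≤ c i ∧
    LinkedP (K i).G.1.2 (min (c (prv n i)) (c i)) ((K i).pt (x i)) ((K i).pt (y i))

/-- Pieces: `D i q` is the list of the graphs with root ports which are glued (mode `none`) or
joined (mode `some e`, diagonals as `e` says) to the system `q` of tile `i`. -/
abbrev Deco (ι Q : Type) : Type :=
  ℕ → Q → (Σ m : ℕ, (Fin m → PG ι × Option (Bool → Bool)))

/-- the index set of the pieces -/
abbrev DIdx {ι Q : Type} (n : ℕ) (D : Deco ι Q) : Type :=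
  Σ q : Fin (n + 1) × Q, Fin (D q.1 q.2).1

/-- the piece with index `q` -/
abbrev dpiece {ι Q : Type} {n : ℕ} (D : Deco ι Q) (q : DIdx n D) : PG ι :=
  ((D q.1.1 q.1.2).2 q.2).1

/-- its mode -/
abbrev dmode {ι Q : Type} {n : ℕ} (D : Deco ι Q) (q : DIdx n D) : Option (Bool → Bool) :=
  ((D q.1.1 q.1.2).2 q.2).2

/-- the ports of the system `t` of tile `i` -/
def port {ι Q : Type} {n : ℕ} (K : ℕ → Tile ι Q) (i : Fin (n + 1)) (t : Q) (j : ℕ) :
    Σ i : Fin (n + 1), (K i).V := ⟨i, (K i).pt t j⟩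

/-- `G` is obtained from the graph `C` with the attachments `A` by adding the graphs `K s`: in the
mode `none` the root port `0` of `K s` is identified with `a s 0`, in the mode `some e` the root
ports `j` of `K s` are joined to the vertices `a s j`, with diagonals as `e` says. The root ports
of `G` are `α (r j)`, `j < G.w`; `α` and `β s` are the inclusions. -/
structure GluedP {ι V P : Type} (C : SimpleGraph V) (A : V → ι → Prop) (r : ℕ → V)
    (K : P → PG ι) (μ : P → Option (Bool → Bool)) (a : P → ℕ → V) (G : PG ι) (α : V → G.V)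
    (β : ∀ s, (K s).V → G.V) : Prop where
  inj : Function.Injective α
  injb : ∀ s, Function.Injective (β s)
  root : ∀ s, μ s = none → β s ((K s).P 0) = α (a s 0)
  off : ∀ s v, ¬ (μ s = none ∧ v = (K s).P 0) → ∀ x, β s v ≠ α x
  disj : ∀ s s' v v', ¬ (μ s = none ∧ v = (K s).P 0) → β s v = β s' v' → s = s'
  cover : ∀ x, (∃ y, x = α y) ∨ ∃ s v, x = β s v
  adj : ∀ x y, G.G.1.2.Adj x y ↔ (∃ u v, x = α u ∧ y = α v ∧ C.Adj u v) ∨
    (∃ s u v, x = β s u ∧ y = β s v ∧ (K s).G.1.2.Adj u v) ∨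
    ∃ s e j j', μ s = some e ∧ Joined (K s).w e j j' ∧
      ((x = α (a s j) ∧ y = β s ((K s).P j')) ∨ (y = α (a s j) ∧ x = β s ((K s).P j')))
  att : ∀ x l, G.G.2 x l = true ↔ (∃ u, x = α u ∧ A u l) ∨
    ∃ s u, x = β s u ∧ (K s).G.2 u l = true
  groot : ∀ j, j < G.w → G.P j = α (r j)

/-- The pieces have enough partners: a piece with `w` root ports is added to a system with at least
`w` ports, `w` is at most the number of the root ports of the whole graph, and disjoint connected
sets of the strip join its partners to the first `w` root ports; glued pieces have `w = 1`. -/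
def ValidDeco {ι Q : Type} (n : ℕ) (K : ℕ → Tile ι Q) (x y : ℕ → Q) (c : ℕ → ℕ)
    (e : ℕ → Bool → Bool) (r : Fin (n + 1)) (t : Q) (W : ℕ) (D : Deco ι Q) : Prop :=
  W ≤ (K r).wd t ∧ ∀ q : DIdx n D, (dmode D q = none → (dpiece D q).w = 1) ∧
    (dpiece D q).w ≤ (K q.1.1).wd q.1.2 ∧ (dpiece D q).w ≤ W ∧
    LinkedP (StripG n K x y c e) (dpiece D q).w (port K q.1.1 q.1.2) (port K r t)

/-- The least class of finite graphs with attachments and root ports which contains `B` and all
strips of tiles of the class `T` with pieces of the class. The root ports of a strip are ports of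
one system of one tile. -/
inductive PortTree {ι Q : Type} (T : Tile ι Q → Prop) (B : PG ι → Prop) : PG ι → Prop
  | base (G : PG ι) (hG : B G) : PortTree T B G
  | strip (G : PG ι) (n : ℕ) (K : ℕ → Tile ι Q) (x y : ℕ → Q) (c : ℕ → ℕ)
      (e : ℕ → Bool → Bool) (r : Fin (n + 1)) (t : Q) (D : Deco ι Q)
      (α : (Σ i : Fin (n + 1), (K i).V) → G.V)
      (β : ∀ q : DIdx n D, (dpiece D q).V → G.V)
      (hT : ∀ i, i ≤ n → T (K i)) (hv : ValidStrip n K x y c)
      (hw : ValidDeco n K x y c e r t G.w D)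
      (hD : ∀ q : DIdx n D, PortTree T B (dpiece D q))
      (hG : GluedP (StripG n K x y c e) (fun z l => (K z.1).G.2 z.2 l = true) (port K r t)
        (dpiece D) (dmode D) (fun q => port K q.1.1 q.1.2) G α β) : PortTree T B G

/-- `T` is the disjoint union of the graphs `K j` -/
def UnionP {ι : Type} {m : ℕ} (K : Fin m → PG ι) (T : LG ι) : Prop :=
  LIso T (DU (fun j => (K j).G.1)) (fun x l => (K x.1).G.2 x.2 l = true)

/-- `G` has `k` vertices whose deletion leaves a disjoint union of members of `PortTree T B` -/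
def PortGraph {k : ℕ} {Q : Type} (T : Tile (Fin k) Q → Prop) (B : PG (Fin k) → Prop) (G : FG) :
    Prop :=
  ∃ (M : SimpleGraph (Fin k)) (S : LG (Fin k)) (m : ℕ) (K : Fin m → PG (Fin k)),
    (∀ j, PortTree T B (K j)) ∧ UnionP K S ∧ Nonempty (G.2 ≃g AllG M S)

end Pool.Agent.Bqp.Port
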