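import Pool.Agent.Bqp.PortArr

set_option autoImplicit false

namespace Pool.Agent.Bqp.Port

open Pool.Agent.Bqp Pool.Agent.Bqp.Sky

/-- the vertices `α x y`, `x < a`, `y < b`, form a grid (perhaps with more edges) -/
structure Grid {V : Type} (H : SimpleGraph V) (a b : ℕ) (α : ℕ → ℕ → V) : Prop where
  inj : ∀ x y x' y', x < a → y < b → x' < a → y' < b → α x y = α x' y' → x = x' ∧ y = y'
  hor : ∀ x y, x + 1 < a → y < b → H.Adj (α x y) (α (x + 1) y)
  ver : ∀ x y, x < a → y + 1 < b → H.Adj (α x y) (α x (y + 1))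

theorem Grid.swap {V : Type} {H : SimpleGraph V} {a b : ℕ} {α : ℕ → ℕ → V} (h : Grid H a b α) :
    Grid H b a (fun x y => α y x) :=
  ⟨fun x y x' y' hx hy hx' hy' e => (h.inj y x y' x' hy hx hy' hx' e).symm,
    fun x y hx hy => h.ver y x hy hx, fun x y hx hy => h.hor y x hy hx⟩

theorem Grid.flipX {V : Type} {H : SimpleGraph V} {a b : ℕ} {α : ℕ → ℕ → V} (h : Grid H a b α) :
    Grid H a b (fun x y => α (a - 1 - x) y) := by
  refine ⟨fun x y x' y' hx hy hx' hy' e => ?_, fun x y hx hy => ?_, fun x y hx hy => ?_⟩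
  · have := h.inj _ y _ y' (by omega) hy (by omega) hy' e
    exact ⟨by omega, this.2⟩
  · have := h.hor (a - 1 - (x + 1)) y (by omega) hy
    have e1 : a - 1 - (x + 1) + 1 = a - 1 - x := by omega
    rw [e1] at this
    exact this.symm
  · exact h.ver _ y (by omega) hy

theorem Grid.flipY {V : Type} {H : SimpleGraph V} {a b : ℕ} {α : ℕ → ℕ → V} (h : Grid H a b α) :
    Grid H a b (fun x y => α x (b - 1 - y)) :=
  h.swap.flipX.swap

theorem linkedP_congr {V : Type} {H : SimpleGraph V} {m : ℕ} {x y x' y' : ℕ → V}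
    (h : LinkedP H m x y) (hx : ∀ j, j < m → x j = x' j) (hy : ∀ j, j < m → y j = y' j) :
    LinkedP H m x' y' := by
  obtain ⟨B, h1, h2⟩ := h
  exact ⟨B, fun j hj => ⟨(h1 j hj).1, hx j hj ▸ (h1 j hj).2.1, hy j hj ▸ (h1 j hj).2.2⟩, h2⟩

theorem linkedP_symm {V : Type} {H : SimpleGraph V} {m : ℕ} {x y : ℕ → V}
    (h : LinkedP H m x y) : LinkedP H m y x := by
  obtain ⟨B, h1, h2⟩ := h
  exact ⟨B, fun j hj => ⟨(h1 j hj).1, (h1 j hj).2.2, (h1 j hj).2.1⟩, h2⟩

theorem linkedP_le {V : Type} {H : SimpleGraph V} {m m' : ℕ} {x y : ℕ → V}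
    (h : LinkedP H m x y) (hm : m' ≤ m) : LinkedP H m' x y := by
  obtain ⟨B, h1, h2⟩ := h
  exact ⟨B, fun j hj => h1 j (by omega), fun j j' hj hj' => h2 j j' hj (by omega)⟩

/-- opposite sides, counted from the same end -/
theorem grid_rows {V : Type} {H : SimpleGraph V} {a b : ℕ} {α : ℕ → ℕ → V} (h : Grid H a b α)
    (ha : 1 ≤ a) {m : ℕ} (hm : m ≤ b) :
    LinkedP H m (fun j => α 0 j) (fun j => α (a - 1) j) := by
  refine ⟨fun j => {w | ∃ c d, c < a ∧ d = j ∧ w = α c d}, fun j hj => ⟨?_, ?_, ?_⟩, ?_⟩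
  · apply box_conn (a := a) (b := b) (x := 0) (y := j)
    · intro c hc; exact ⟨by omega, hc⟩
    · intro c hc; exact ⟨by omega, by omega⟩
    · intro c hc _; omega
    · intro c hc hc'; omega
    · omega
    · rfl
    · exact h.hor
    · exact h.ver
  · exact ⟨0, j, by omega, rfl, rfl⟩
  · exact ⟨a - 1, j, by omega, rfl, rfl⟩
  · intro j j' hj hj'
    rw [Set.disjoint_left]
    rintro w ⟨c, d, hc, rfl, rfl⟩ ⟨c', d', hc', rfl, e⟩
    have := h.inj c d c' d' hc (by omega) hc' (by omega) e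
    omega

/-- L-shaped sets -/
theorem grid_L {V : Type} {H : SimpleGraph V} {a b : ℕ} {α : ℕ → ℕ → V} (h : Grid H a b α)
    {k y0 y1 j : ℕ} (hk : k < a) (hj : j < b) (h0 : y0 ≤ j) (h1 : j ≤ y1) (hy1 : y1 < b) :
    (H.induce ({w | ∃ c d, c ≤ k ∧ d = j ∧ w = α c d} ∪
      {w | ∃ c d, c = k ∧ (y0 ≤ d ∧ d ≤ y1) ∧ w = α c d})).Connected := by
  have hA : (H.induce {w | ∃ c d, c ≤ k ∧ d = j ∧ w = α c d}).Connected := by
    apply box_conn (a := a) (b := b) (x := 0) (y := j) (A := fun c => c ≤ k) (B := fun d => d = j)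
    · intro c hc; exact ⟨by omega, by omega⟩
    · intro c hc; exact ⟨by omega, by omega⟩
    · intro c hc _; omega
    · intro c hc hc'; omega
    · omega
    · rfl
    · exact h.hor
    · exact h.ver
  have hB : (H.induce {w | ∃ c d, c = k ∧ (y0 ≤ d ∧ d ≤ y1) ∧ w = α c d}).Connected := by
    apply box_conn (a := a) (b := b) (x := k) (y := y0) (A := fun c => c = k)
      (B := fun d => y0 ≤ d ∧ d ≤ y1)
    · intro c hc; exact ⟨by omega, by omega⟩
    · intro c hc; exact ⟨by omega, by omega⟩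
    · intro c hc hc'; omega
    · intro c hc hc'; omega
    · rfl
    · exact ⟨le_rfl, by omega⟩
    · exact h.hor
    · exact h.ver
  have hU := SimpleGraph.induce_union_connected hA.preconnected hB.preconnected
    ⟨α k j, ⟨k, j, le_rfl, rfl, rfl⟩, ⟨k, j, rfl, ⟨h0, h1⟩, rfl⟩⟩
  exact hU

/-- around a corner: left side from below, bottom side from the left -/
theorem grid_corner {V : Type} {H : SimpleGraph V} {a b : ℕ} {α : ℕ → ℕ → V} (h : Grid H a b α)
    {m : ℕ} (hma : m ≤ a) (hmb : m ≤ b) : LinkedP H m (fun j => α 0 j) (fun j => α j 0) := by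
  refine ⟨fun j => {w | ∃ c d, c ≤ j ∧ d = j ∧ w = α c d} ∪
    {w | ∃ c d, c = j ∧ (0 ≤ d ∧ d ≤ j) ∧ w = α c d}, fun j hj => ⟨?_, ?_, ?_⟩, ?_⟩
  · exact grid_L h (by omega) (by omega) (by omega) le_rfl (by omega)
  · exact Or.inl ⟨0, j, by omega, rfl, rfl⟩
  · exact Or.inr ⟨j, 0, rfl, ⟨le_rfl, by omega⟩, rfl⟩
  · intro j j' hj hj'
    rw [Set.disjoint_left]
    rintro w (⟨c, d, hc, hd, rfl⟩ | ⟨c, d, hc, hd, rfl⟩)
      (⟨c', d', hc', hd', e⟩ | ⟨c', d', hc', hd', e⟩) <;>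
    · have := h.inj c d c' d' (by omega) (by omega) (by omega) (by omega) e
      omega

/-- across: left side from below, top side from the right -/
theorem grid_cross {V : Type} {H : SimpleGraph V} {a b : ℕ} {α : ℕ → ℕ → V} (h : Grid H a b α)
    {m : ℕ} (hma : m ≤ a) (hmb : m ≤ b) :
    LinkedP H m (fun j => α 0 j) (fun j => α (a - 1 - j) (b - 1)) := by
  refine ⟨fun j => {w | ∃ c d, c ≤ a - 1 - j ∧ d = j ∧ w = α c d} ∪
    {w | ∃ c d, c = a - 1 - j ∧ (j ≤ d ∧ d ≤ b - 1) ∧ w = α c d}, fun j hj => ⟨?_, ?_, ?_⟩, ?_⟩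
  · exact grid_L h (by omega) (by omega) le_rfl (by omega) (by omega)
  · exact Or.inl ⟨0, j, by omega, rfl, rfl⟩
  · exact Or.inr ⟨_, b - 1, rfl, ⟨by omega, le_rfl⟩, rfl⟩
  · intro j j' hj hj'
    rw [Set.disjoint_left]
    rintro w (⟨c, d, hc, hd, rfl⟩ | ⟨c, d, hc, hd, rfl⟩)
      (⟨c', d', hc', hd', e⟩ | ⟨c', d', hc', hd', e⟩) <;>
    · have := h.inj c d c' d' (by omega) (by omega) (by omega) (by omega) e
      omega

/-! ### array tiles -/

theorem arr_grid {ι : Type} {p : ℕ} {a1 a2 b1 b2 : ℕ} {D : Fin 4 → Bool}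
    {U : Option (AQ p) → ι → Bool} {S : Tile ι (AQ p)} {α : ℕ → ℕ → S.V}
    (h : IsArr a1 a2 b1 b2 D U S α) : Grid S.G.1.2 (a1 + a2) (b1 + b2) α := by
  refine ⟨h.inj, fun x y hx hy => ?_, fun x y hx hy => ?_⟩
  · rw [h.adj x y (x + 1) y (by omega) hy hx hy]
    exact Or.inl (Or.inl ⟨h.hv.1, rfl, rfl⟩)
  · rw [h.adj x y x (y + 1) hx (by omega) hx hy]
    exact Or.inl (Or.inr (Or.inl ⟨h.hv.2, rfl, rfl⟩))

/-- the sides counted in clockwise direction -/
def CW (q : Fin 4 × Bool) : Prop :=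
  q = (0, false) ∨ q = (3, false) ∨ q = (1, true) ∨ q = (2, true)

/-- the ports of the eight systems -/
theorem arr_pt {ι : Type} {p : ℕ} {a1 a2 b1 b2 : ℕ} {D : Fin 4 → Bool}
    {U : Option (AQ p) → ι → Bool} {S : Tile ι (AQ p)} {α : ℕ → ℕ → S.V}
    (h : IsArr a1 a2 b1 b2 D U S α) :
    (∀ j, j < b1 → S.pt (Sum.inl (0, false)) j = α 0 j) ∧
    (∀ j, j < b2 → S.pt (Sum.inl (0, true)) j = α 0 (b1 + b2 - 1 - j)) ∧
    (∀ j, j < b1 → S.pt (Sum.inl (1, false)) j = α (a1 + a2 - 1) j) ∧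
    (∀ j, j < b2 → S.pt (Sum.inl (1, true)) j = α (a1 + a2 - 1) (b1 + b2 - 1 - j)) ∧
    (∀ j, j < a1 → S.pt (Sum.inl (2, false)) j = α j 0) ∧
    (∀ j, j < a2 → S.pt (Sum.inl (2, true)) j = α (a1 + a2 - 1 - j) 0) ∧
    (∀ j, j < a1 → S.pt (Sum.inl (3, false)) j = α j (b1 + b2 - 1)) ∧
    (∀ j, j < a2 → S.pt (Sum.inl (3, true)) j = α (a1 + a2 - 1 - j) (b1 + b2 - 1)) := by
  obtain ⟨o1, o2⟩ := h.one
  have e1 : ∀ u v : ℕ, sideLen u v 0 = v := fun u v => if_pos (by decide)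
  have e2 : ∀ u v : ℕ, sideLen u v 1 = v := fun u v => if_pos (by decide)
  have e3 : ∀ u v : ℕ, sideLen u v 2 = u := fun u v => if_neg (by decide)
  have e4 : ∀ u v : ℕ, sideLen u v 3 = u := fun u v => if_neg (by decide)
  refine ⟨fun j hj => ?_, fun j hj => ?_, fun j hj => ?_, fun j hj => ?_, fun j hj => ?_,
    fun j hj => ?_, fun j hj => ?_, fun j hj => ?_⟩
  · exact h.first 0 _ _ j (Or.inl ⟨rfl, rfl, rfl⟩) (by rw [e1]; exact hj)
  · exact h.last 0 _ _ (b1 + b2 - 1 - j) j (Or.inl ⟨rfl, rfl, rfl⟩) (by rw [e1]; omega)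
      (by rw [e1]; exact hj)
  · exact h.first 1 _ _ j (Or.inr (Or.inl ⟨rfl, by omega, rfl⟩)) (by rw [e2]; exact hj)
  · exact h.last 1 _ _ (b1 + b2 - 1 - j) j (Or.inr (Or.inl ⟨rfl, by omega, rfl⟩))
      (by rw [e2]; omega) (by rw [e2]; exact hj)
  · exact h.first 2 _ _ j (Or.inr (Or.inr (Or.inl ⟨rfl, rfl, rfl⟩))) (by rw [e3]; exact hj)
  · exact h.last 2 _ _ (a1 + a2 - 1 - j) j (Or.inr (Or.inr (Or.inl ⟨rfl, rfl, rfl⟩)))
      (by rw [e3]; omega) (by rw [e3]; exact hj)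
  · exact h.first 3 _ _ j (Or.inr (Or.inr (Or.inr ⟨rfl, by omega, rfl⟩))) (by rw [e4]; exact hj)
  · exact h.last 3 _ _ (a1 + a2 - 1 - j) j (Or.inr (Or.inr (Or.inr ⟨rfl, by omega, rfl⟩)))
      (by rw [e4]; omega) (by rw [e4]; exact hj)

/-- In an array tile every side counted clockwise is linked to every other side counted
counterclockwise, in all ports. -/
theorem arr_linked {ι : Type} {p : ℕ} {a1 a2 b1 b2 : ℕ} {D : Fin 4 → Bool}
    {U : Option (AQ p) → ι → Bool} {S : Tile ι (AQ p)} {α : ℕ → ℕ → S.V}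
    (h : IsArr a1 a2 b1 b2 D U S α) (q q' : Fin 4 × Bool) (hq : CW q) (hq' : ¬ CW q')
    (hs : q.1 ≠ q'.1) : LinkedP S.G.1.2 (min (S.wd (Sum.inl q)) (S.wd (Sum.inl q')))
      (S.pt (Sum.inl q)) (S.pt (Sum.inl q')) := by
  obtain ⟨o1, o2⟩ := h.one
  have e1 : ∀ u v : ℕ, sideLen u v 0 = v := fun u v => if_pos (by decide)
  have e2 : ∀ u v : ℕ, sideLen u v 1 = v := fun u v => if_pos (by decide)
  have e3 : ∀ u v : ℕ, sideLen u v 2 = u := fun u v => if_neg (by decide)
  have e4 : ∀ u v : ℕ, sideLen u v 3 = u := fun u v => if_neg (by decide)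
  have w0 := h.wd 0
  have w1 := h.wd 1
  have w2 := h.wd 2
  have w3 := h.wd 3
  rw [e1, e1] at w0
  rw [e2, e2] at w1
  rw [e3, e3] at w2
  rw [e4, e4] at w3
  obtain ⟨p0, p0', p1, p1', p2, p2', p3, p3'⟩ := arr_pt h
  have g := arr_grid h
  have hq2 : q' = (2, false) ∨ q' = (1, false) ∨ q' = (3, true) ∨ q' = (0, true) := by
    obtain ⟨s, ε⟩ := q'
    rcases side_cases s with rfl | rfl | rfl | rfl <;> cases ε <;> simp_all [CW]
  rcases hq with rfl | rfl | rfl | rfl <;> rcases hq2 with rfl | rfl | rfl | rfl <;>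
    simp only [ne_eq, not_true_eq_false] at hs <;> clear hq'
  · rw [w0.1, w2.1]
    exact linkedP_congr (grid_corner g (m := min b1 a1) (by omega) (by omega))
      (fun j hj => (p0 j (by omega)).symm) (fun j hj => (p2 j (by omega)).symm)
  · rw [w0.1, w1.1]
    exact linkedP_congr (grid_rows g (by omega) (m := min b1 b1) (by omega))
      (fun j hj => (p0 j (by omega)).symm) (fun j hj => (p1 j (by omega)).symm)
  · rw [w0.1, w3.2]
    exact linkedP_congr (grid_cross g (m := min b1 a2) (by omega) (by omega))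
      (fun j hj => (p0 j (by omega)).symm) (fun j hj => (p3' j (by omega)).symm)
  · rw [w3.1, w2.1]
    exact linkedP_congr (linkedP_symm (grid_rows g.swap (by omega) (m := min a1 a1) (by omega)))
      (fun j hj => (p3 j (by omega)).symm) (fun j hj => (p2 j (by omega)).symm)
  · rw [w3.1, w1.1]
    refine linkedP_congr (linkedP_symm (grid_cross g.flipX (m := min a1 b1) (by omega) (by omega)))
      (fun j hj => ?_) (fun j hj => ?_)
    · rw [p3 j (by omega)]
      have : a1 + a2 - 1 - (a1 + a2 - 1 - j) = j := by omega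
      simp only [this]
    · rw [p1 j (by omega)]
      simp only [Nat.sub_zero]
  · rw [w3.1, w0.2]
    refine linkedP_congr (linkedP_symm (grid_corner g.flipY (m := min a1 b2) (by omega)
      (by omega))) (fun j hj => ?_) (fun j hj => ?_)
    · rw [p3 j (by omega)]
      simp only [Nat.sub_zero]
    · rw [p0' j (by omega)]
  · rw [w1.2, w2.1]
    refine linkedP_congr (grid_cross g.flipX.flipY (m := min b2 a1) (by omega) (by omega))
      (fun j hj => ?_) (fun j hj => ?_)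
    · rw [p1' j (by omega)]
      simp only [Nat.sub_zero]
    · rw [p2 j (by omega)]
      have : a1 + a2 - 1 - (a1 + a2 - 1 - j) = j := by omega
      simp only [this, Nat.sub_self]
  · rw [w1.2, w3.2]
    refine linkedP_congr (grid_corner g.flipX.flipY (m := min b2 a2) (by omega) (by omega))
      (fun j hj => ?_) (fun j hj => ?_)
    · rw [p1' j (by omega)]
      simp only [Nat.sub_zero]
    · rw [p3' j (by omega)]
      simp only [Nat.sub_zero]
  · rw [w1.2, w0.2]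
    refine linkedP_congr (linkedP_symm (grid_rows g.flipY (by omega) (m := min b2 b2) (by omega)))
      (fun j hj => ?_) (fun j hj => ?_)
    · rw [p1' j (by omega)]
    · rw [p0' j (by omega)]
  · rw [w2.2, w1.1]
    refine linkedP_congr (linkedP_symm (grid_corner g.flipX (m := min a2 b1) (by omega)
      (by omega))) (fun j hj => ?_) (fun j hj => ?_)
    · rw [p2' j (by omega)]
    · rw [p1 j (by omega)]
      simp only [Nat.sub_zero]
  · rw [w2.2, w3.2]
    refine linkedP_congr (grid_rows g.flipX.swap (by omega) (m := min a2 a2) (by omega))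
      (fun j hj => ?_) (fun j hj => ?_)
    · rw [p2' j (by omega)]
    · rw [p3' j (by omega)]
  · rw [w2.2, w0.2]
    refine linkedP_congr (linkedP_symm (grid_cross g.flipY (m := min a2 b2) (by omega) (by omega)))
      (fun j hj => ?_) (fun j hj => ?_)
    · rw [p2' j (by omega)]
      simp only [Nat.sub_self]
    · rw [p0' j (by omega)]

end Pool.Agent.Bqp.Port
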