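import Pool.Agent.Bqp.PortExamples

set_option autoImplicit false

namespace Pool.Agent.Bqp.Port

open Pool.Agent.Bqp Pool.Agent.Bqp.Sky

open Classical in
/-- array tiles of all sizes, with all kinds of diagonals and attachments, exist -/
theorem arr_exists {ι : Type} {p : ℕ} (a1 a2 b1 b2 : ℕ) (ha : 1 ≤ a1) (hb : 1 ≤ b1)
    (D : Fin 4 → Bool) (hD : D 0 = true ∧ D 1 = true) (U : Option (AQ p) → ι → Bool) :
    ∃ (S : Tile ι (AQ p)) (α : ℕ → ℕ → S.V), IsArr a1 a2 b1 b2 D U S α := by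
  obtain ⟨a, hA⟩ : ∃ a, a = a1 + a2 := ⟨_, rfl⟩
  obtain ⟨b, hB⟩ : ∃ b, b = b1 + b2 := ⟨_, rfl⟩
  have ha0 : 0 < a := by omega
  have hb0 : 0 < b := by omega
  let E : Fin a × Fin b ≃ Fin (a * b) := finProdFinEquiv
  let α : ℕ → ℕ → Fin (a * b) := fun x y =>
    E (⟨min x (a - 1), by omega⟩, ⟨min y (b - 1), by omega⟩)
  have hinj : ∀ x y x' y', x < a → y < b → x' < a → y' < b → α x y = α x' y' →
      x = x' ∧ y = y' := by
    intro x y x' y' hx hy hx' hy' h
    have h1 := E.injective h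
    simp only [Prod.mk.injEq, Fin.mk.injEq] at h1
    omega
  have hcov : ∀ v, ∃ x y, x < a ∧ y < b ∧ v = α x y := by
    intro v
    refine ⟨(E.symm v).1, (E.symm v).2, (E.symm v).1.2, (E.symm v).2.2, ?_⟩
    rw [← E.apply_symm_apply v]
    simp only [α]
    congr 1
    ext
    · simp
      omega
    · simp
      omega
  let R : Fin (a * b) → Fin (a * b) → Prop := fun u v => ∃ x y x' y', x < a ∧ y < b ∧ x' < a ∧
    y' < b ∧ u = α x y ∧ v = α x' y' ∧ Step D x y x' y'
  have hstep : ∀ x y, ¬ Step D x y x y := by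
    rintro x y (⟨_, h, _⟩ | ⟨_, _, h⟩ | ⟨_, _, _, h, _⟩ | ⟨_, _, _, h, _⟩) <;> omega
  let H : SimpleGraph (Fin (a * b)) :=
    { Adj := fun u v => R u v ∨ R v u
      symm := ⟨fun u v h => h.symm⟩
      loopless := ⟨by
        rintro u (⟨x, y, x', y', hx, hy, hx', hy', e, e', h⟩ |
          ⟨x, y, x', y', hx, hy, hx', hy', e, e', h⟩) <;>
        · obtain ⟨rfl, rfl⟩ := hinj x y x' y' hx hy hx' hy' (e.symm.trans e')
          exact hstep _ _ h⟩ }
  have hadj : ∀ x y x' y', x < a → y < b → x' < a → y' < b →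
      (H.Adj (α x y) (α x' y') ↔ Step D x y x' y' ∨ Step D x' y' x y) := by
    intro x y x' y' hx hy hx' hy'
    constructor
    · rintro (⟨u, v, u', v', k1, k2, k3, k4, e, e', h⟩ | ⟨u, v, u', v', k1, k2, k3, k4, e, e', h⟩)
      · obtain ⟨rfl, rfl⟩ := hinj _ _ _ _ hx hy k1 k2 e
        obtain ⟨rfl, rfl⟩ := hinj _ _ _ _ hx' hy' k3 k4 e'
        exact Or.inl h
      · obtain ⟨rfl, rfl⟩ := hinj _ _ _ _ hx' hy' k1 k2 e
        obtain ⟨rfl, rfl⟩ := hinj _ _ _ _ hx hy k3 k4 e'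
        exact Or.inr h
    · rintro (h | h)
      · exact Or.inl ⟨x, y, x', y', hx, hy, hx', hy', rfl, rfl, h⟩
      · exact Or.inr ⟨x', y', x, y, hx', hy', hx, hy, rfl, rfl, h⟩
  let wd : AQ p → ℕ := fun q => match q with
    | Sum.inl (s, ε) => if ε = true then sideLen a2 b2 s else sideLen a1 b1 s
    | Sum.inr _ => 1
  let pt : AQ p → ℕ → Fin (a * b) := fun q j => match q with
    | Sum.inl (s, ε) => if s = 0 then α 0 (if ε = true then b - 1 - j else j) else
        if s = 1 then α (a - 1) (if ε = true then b - 1 - j else j) else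
        if s = 2 then α (if ε = true then a - 1 - j else j) 0 else
        α (if ε = true then a - 1 - j else j) (b - 1)
    | Sum.inr t => α (pos a1 a t.1) (pos b1 b t.2)
  let S : Tile ι (AQ p) := ⟨⟨⟨a * b, H⟩, fun v l => decide (U none l = true ∨
    ∃ q j, U (some q) l = true ∧ j < wd q ∧ v = pt q j)⟩, wd, pt⟩
  refine ⟨S, α, ⟨⟨ha, hb⟩, hD, ?_, ?_, ?_, ?_, ?_, ?_, ?_, ?_⟩⟩
  · rw [← hA, ← hB]; exact hinj
  · rw [← hA, ← hB]; exact hcov
  · rw [← hA, ← hB]; exact hadj
  · intro v l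
    exact decide_eq_true_iff
  · intro t
    rw [← hA, ← hB]
    exact ⟨rfl, rfl⟩
  · intro s
    exact ⟨rfl, rfl⟩
  · intro s x y i h hi
    rw [← hA, ← hB] at h
    rcases h with ⟨rfl, h1, h2⟩ | ⟨rfl, h1, h2⟩ | ⟨rfl, h1, h2⟩ | ⟨rfl, h1, h2⟩
    · subst h1 h2; rfl
    · subst h2
      have h3 : x = a - 1 := by omega
      subst h3; rfl
    · subst h1 h2; rfl
    · subst h2
      have h3 : y = b - 1 := by omega
      subst h3; rfl
  · intro s x y i j h hij hj
    rw [← hA, ← hB] at h hij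
    rcases h with ⟨rfl, h1, h2⟩ | ⟨rfl, h1, h2⟩ | ⟨rfl, h1, h2⟩ | ⟨rfl, h1, h2⟩
    · rw [sideLen, if_pos (by decide)] at hij
      subst h1 h2
      have h3 : i = b - 1 - j := by omega
      subst h3; rfl
    · rw [sideLen, if_pos (by decide)] at hij
      subst h2
      have h3 : x = a - 1 := by omega
      have h4 : i = b - 1 - j := by omega
      subst h3 h4; rfl
    · rw [sideLen, if_neg (by decide)] at hij
      subst h1 h2
      have h3 : i = a - 1 - j := by omega
      subst h3; rfl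
    · rw [sideLen, if_neg (by decide)] at hij
      subst h2
      have h3 : y = b - 1 := by omega
      have h4 : i = a - 1 - j := by omega
      subst h3 h4; rfl

/-- gluing and joining is always possible -/
theorem glue_exists {ι V P : Type} [Finite V] [Finite P] (C : SimpleGraph V) (A : V → ι → Prop)
    (r : ℕ → V) (W : ℕ) (K : P → PG ι) (μ : P → Option (Bool → Bool)) (a : P → ℕ → V) :
    ∃ (G : PG ι) (α : V → G.V) (β : ∀ s, (K s).V → G.V), G.w = W ∧
      GluedP C A r K μ a G α β := by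
  classical
  have := Fintype.ofFinite V
  have := Fintype.ofFinite P
  let X : Type := V ⊕ {z : Σ s, (K s).V // ¬ (μ z.1 = none ∧ z.2 = (K z.1).P 0)}
  let E : X ≃ Fin (Fintype.card X) := Fintype.equivFin X
  let α0 : V → X := Sum.inl
  let β0 : ∀ s, (K s).V → X := fun s v =>
    if h : μ s = none ∧ v = (K s).P 0 then Sum.inl (a s 0) else Sum.inr ⟨⟨s, v⟩, h⟩
  have hb1 : ∀ s v, (μ s = none ∧ v = (K s).P 0) → β0 s v = Sum.inl (a s 0) := fun s v h =>
    dif_pos h
  have hb2 : ∀ s v (h : ¬ (μ s = none ∧ v = (K s).P 0)), β0 s v = Sum.inr ⟨⟨s, v⟩, h⟩ :=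
    fun s v h => dif_neg h
  have hinjb : ∀ s, Function.Injective (β0 s) := by
    intro s v v' h
    by_cases hv : μ s = none ∧ v = (K s).P 0
    · by_cases hv' : μ s = none ∧ v' = (K s).P 0
      · rw [hv.2, hv'.2]
      · rw [hb1 s v hv, hb2 s v' hv'] at h
        exact absurd h (by simp)
    · by_cases hv' : μ s = none ∧ v' = (K s).P 0
      · rw [hb2 s v hv, hb1 s v' hv'] at h
        exact absurd h (by simp)
      · rw [hb2 s v hv, hb2 s v' hv'] at h
        have h1 := Sum.inr_injective h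
        simp only [Subtype.mk.injEq, Sigma.mk.injEq, heq_eq_eq, true_and] at h1
        exact h1
  let R : X → X → Prop := fun x y => (∃ u v, x = α0 u ∧ y = α0 v ∧ C.Adj u v) ∨
    (∃ s u v, x = β0 s u ∧ y = β0 s v ∧ (K s).G.1.2.Adj u v) ∨
    ∃ s e j j', μ s = some e ∧ Joined (K s).w e j j' ∧
      ((x = α0 (a s j) ∧ y = β0 s ((K s).P j')) ∨ (y = α0 (a s j) ∧ x = β0 s ((K s).P j')))
  have hRs : ∀ x y, R x y → R y x := by
    rintro x y (⟨u, v, e1, e2, h⟩ | ⟨s, u, v, e1, e2, h⟩ | ⟨s, e, j, j', hm, hj, h⟩)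
    · exact Or.inl ⟨v, u, e2, e1, h.symm⟩
    · exact Or.inr (Or.inl ⟨s, v, u, e2, e1, h.symm⟩)
    · exact Or.inr (Or.inr ⟨s, e, j, j', hm, hj, h.symm⟩)
  have hRi : ∀ x, ¬ R x x := by
    rintro x (⟨u, v, e1, e2, h⟩ | ⟨s, u, v, e1, e2, h⟩ | ⟨s, e, j, j', hm, hj, h⟩)
    · have := Sum.inl_injective (e1.symm.trans e2)
      subst this
      exact C.ne_of_adj h rfl
    · have := hinjb s (e1.symm.trans e2)
      subst this
      exact (K s).G.1.2.ne_of_adj h rfl
    · have h1 : ¬ (μ s = none ∧ (K s).P j' = (K s).P 0) := by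
        rw [hm]
        rintro ⟨h, _⟩
        exact absurd h (by simp)
      rcases h with ⟨e1, e2⟩ | ⟨e1, e2⟩ <;>
      · rw [hb2 s _ h1] at e2
        exact absurd (e1.symm.trans e2) (by simp [α0])
  let H : SimpleGraph (Fin (Fintype.card X)) :=
    { Adj := fun x y => R (E.symm x) (E.symm y)
      symm := ⟨fun x y h => hRs _ _ h⟩
      loopless := ⟨fun x h => hRi _ h⟩ }
  let G : PG ι := ⟨⟨⟨Fintype.card X, H⟩, fun x l => decide ((∃ u, E.symm x = α0 u ∧ A u l) ∨
    ∃ s u, E.symm x = β0 s u ∧ (K s).G.2 u l = true)⟩, fun _ => W, fun _ j => E (α0 (r j))⟩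
  refine ⟨G, fun v => E (α0 v), fun s v => E (β0 s v), rfl, ⟨?_, ?_, ?_, ?_, ?_, ?_, ?_, ?_, ?_⟩⟩
  · intro u v h
    exact Sum.inl_injective (E.injective h)
  · intro s u v h
    exact hinjb s (E.injective h)
  · intro s hm
    change E _ = E _
    rw [hb1 s _ ⟨hm, rfl⟩]
  · intro s v h x e
    have h1 := E.injective e
    rw [hb2 s v h] at h1
    exact absurd h1 (by simp [α0])
  · intro s s' v v' h e
    have h1 := E.injective e
    rw [hb2 s v h] at h1
    by_cases h' : μ s' = none ∧ v' = (K s').P 0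
    · rw [hb1 s' v' h'] at h1
      exact absurd h1 (by simp)
    · rw [hb2 s' v' h'] at h1
      have h2 := Sum.inr_injective h1
      simp only [Subtype.mk.injEq, Sigma.mk.injEq] at h2
      exact h2.1
  · intro x
    have hx : x = E (E.symm x) := (E.apply_symm_apply x).symm
    rcases hy : E.symm x with u | ⟨⟨s, v⟩, h⟩
    · left
      refine ⟨u, ?_⟩
      rw [hx, hy]
    · right
      refine ⟨s, v, ?_⟩
      rw [hx, hy]
      change E _ = E _
      rw [hb2 s v h]
  · intro x y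
    have e1 : ∀ (z : Fin (Fintype.card X)) (w : X), (z = E w ↔ E.symm z = w) := fun z w =>
      ⟨fun h => by rw [h, E.symm_apply_apply], fun h => by rw [← h, E.apply_symm_apply]⟩
    change R (E.symm x) (E.symm y) ↔ _
    simp only [R, e1]
  · intro x l
    have e1 : ∀ (z : Fin (Fintype.card X)) (w : X), (z = E w ↔ E.symm z = w) := fun z w =>
      ⟨fun h => by rw [h, E.symm_apply_apply], fun h => by rw [← h, E.apply_symm_apply]⟩
    change decide _ = true ↔ _
    rw [decide_eq_true_iff]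
    simp only [e1]
  · intro j _
    rfl

/-- every valid system of data gives a member of the class -/
theorem strip_mem {ι Q : Type} [Finite Q] {T : Tile ι Q → Prop} {B : PG ι → Prop} (n : ℕ)
    (K : ℕ → Tile ι Q) (x y : ℕ → Q) (c : ℕ → ℕ) (e : ℕ → Bool → Bool) (r : Fin (n + 1)) (t : Q)
    (D : Deco ι Q) (W : ℕ) (hT : ∀ i, i ≤ n → T (K i)) (hv : ValidStrip n K x y c)
    (hw : ValidDeco n K x y c e r t W D) (hD : ∀ q : DIdx n D, PortTree T B (dpiece D q)) :
    ∃ (G : PG ι) (α : (Σ i : Fin (n + 1), (K i).V) → G.V)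
      (β : ∀ q : DIdx n D, (dpiece D q).V → G.V), G.w = W ∧ PortTree T B G ∧
      GluedP (StripG n K x y c e) (fun z l => (K z.1).G.2 z.2 l = true) (port K r t)
        (dpiece D) (dmode D) (fun q => port K q.1.1 q.1.2) G α β := by
  have := Fintype.ofFinite Q
  obtain ⟨G, α, β, h1, h2⟩ := glue_exists (StripG n K x y c e)
    (fun z l => (K z.1).G.2 z.2 l = true) (port K r t) W (dpiece D) (dmode D)
    (fun q : DIdx n D => port K q.1.1 q.1.2)
  subst h1
  exact ⟨G, α, β, rfl, PortTree.strip G n K x y c e r t D α β hT hv hw hD h2, h2⟩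

/-! ### tiles with boundedly many ports over the classes of `GluedPatches` -/

open Classical in
/-- the first `m` ports of all systems encoded as attachments -/
noncomputable def portAtt {ι Q : Type} (m : ℕ) (S : Tile ι Q) : LG (ι ⊕ (Q × Fin m)) :=
  ⟨S.G.1, fun v l => match l with
    | Sum.inl l => S.G.2 v l
    | Sum.inr s => decide ((s.2 : ℕ) < S.wd s.1 ∧ v = S.pt s.1 s.2)⟩

theorem portAtt_inr {ι Q : Type} (m : ℕ) (S : Tile ι Q) (v : S.V) (s : Q × Fin m) :
    (portAtt m S).2 v (Sum.inr s) = true ↔ (s.2 : ℕ) < S.wd s.1 ∧ v = S.pt s.1 s.2 := by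
  classical
  exact decide_eq_true_iff

/-- The tiles with at most `m` ports in every system whose graph (with the ports encoded as
attachments) is in the class `PatchTree p d` are bqo: they can be used as `T` and as `B`. -/
theorem patch_tile_bqr (ι Q : Type) [Finite ι] [Finite Q] (m p d : ℕ) :
    Bqr (TileMinor (ι := ι) (Q := Q)) (fun S => (∀ q, S.wd q ≤ m) ∧
      PatchTree p d (ι ⊕ (Q × Fin m)) (portAtt m S)) := by
  apply bqr_mono (D := fun S : Tile ι Q => ∃ u : Q → Fin (m + 1), (∀ q, S.wd q = u q) ∧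
    PatchTree p d (ι ⊕ (Q × Fin m)) (portAtt m S))
    (fun S h => ⟨fun q => ⟨S.wd q, Nat.lt_succ_of_le (h.1 q)⟩, fun q => rfl, h.2⟩)
  apply bqr_exists
  intro u
  apply bqr_map (patchTree_bqr p d (ι ⊕ (Q × Fin m))) (portAtt m) (fun _ h => h.2)
  rintro S T ⟨hS, _⟩ ⟨hT, _⟩ ⟨φ, a1, a2, a3, a4⟩
  refine ⟨fun q => by rw [hS, hT], φ, a1, a2, a3, fun v l h => ?_, fun q j hj => ?_⟩
  · obtain ⟨a, ha, h'⟩ := a4 v (Sum.inl l) h
    exact ⟨a, ha, h'⟩
  · have hjm : j < m := by
      have := hS q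
      have := (u q).2
      omega
    obtain ⟨a, ha, h'⟩ := a4 (S.pt q j) (Sum.inr (q, ⟨j, hjm⟩))
      ((portAtt_inr m S _ (q, ⟨j, hjm⟩)).2 ⟨hj, rfl⟩)
    have h2 := ((portAtt_inr m T a (q, ⟨j, hjm⟩)).1 h').2
    rw [← h2]
    exact ha

end Pool.Agent.Bqp.Port
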