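import Pool.Agent.Bqp.MinBad

set_option autoImplicit false

namespace Pool.Agent.Bqp.Sky

open Pool.Agent.Bqp

/-- sequences `q 0, c 0, q 1, c 1, ..., q (n - 1)` -/
abbrev GS (β : Type*) : Type _ := ℕ × (ℕ → β) × (ℕ → ℕ)

/-- embeddings of sequences with the gap condition -/
def gapLE {β : Type*} (rb : β → β → Prop) (x y : GS β) : Prop :=
  ∃ f : ℕ → ℕ, (∀ i, i < x.1 → f i < y.1) ∧ (∀ i j, i < j → j < x.1 → f i < f j) ∧
    (∀ i, i < x.1 → rb (x.2.1 i) (y.2.1 (f i))) ∧
    (∀ i, i + 1 < x.1 → ∀ t, f i ≤ t → t < f (i + 1) → x.2.2 i ≤ y.2.2 t)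

/-- proper blocks -/
def subG {β : Type*} (x y : GS β) : Prop :=
  x.1 < y.1 ∧ ∃ s, s + x.1 ≤ y.1 ∧ (∀ i, i < x.1 → x.2.1 i = y.2.1 (s + i)) ∧
    (∀ i, i + 1 < x.1 → x.2.2 i = y.2.2 (s + i))

theorem gap_comp {β : Type*} {rb : β → β → Prop} {a x y : GS β} (h : gapLE rb a x)
    (h' : subG x y) : gapLE rb a y := by
  obtain ⟨f, h1, h2, h3, h4⟩ := h
  obtain ⟨_, s, g1, g2, g3⟩ := h'
  refine ⟨fun i => s + f i, fun i hi => ?_, fun i j hij hj => ?_, fun i hi => ?_,
    fun i hi t ht ht' => ?_⟩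
  · have := h1 i hi
    change s + f i < y.1
    omega
  · have := h2 i j hij hj
    change s + f i < s + f j
    omega
  · have := h3 i hi
    rw [g2 _ (h1 i hi)] at this
    exact this
  · change s + f i ≤ t at ht
    change t < s + f (i + 1) at ht'
    have h5 := h1 (i + 1) hi
    have h6 := h4 i hi (t - s) (by omega) (by omega)
    rw [g3 (t - s) (by omega)] at h6
    have h7 : s + (t - s) = t := by omega
    rw [h7] at h6
    exact h6

theorem sub_trans {β : Type*} {x y z : GS β} (h : subG x y) (h' : subG y z) : subG x z := by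
  obtain ⟨h1, s, h2, h3, h4⟩ := h
  obtain ⟨g1, s', g2, g3, g4⟩ := h'
  refine ⟨by omega, s' + s, by omega, fun i hi => ?_, fun i hi => ?_⟩
  · rw [h3 i hi, g3 _ (by omega), Nat.add_assoc]
  · rw [h4 i hi, g4 _ (by omega), Nat.add_assoc]

/-- the part up to column `p` -/
def lft {β : Type*} (x : GS β) (p : ℕ) : GS β := (p + 1, x.2)

/-- the part after column `p` -/
def rgt {β : Type*} (x : GS β) (p : ℕ) : GS β :=
  (x.1 - (p + 1), (fun i => x.2.1 (p + 1 + i)), (fun i => x.2.2 (p + 1 + i)))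

theorem lft_sub {β : Type*} {x : GS β} {p : ℕ} (hp : p + 1 < x.1) : subG (lft x p) x :=
  ⟨hp, 0, by simp only [lft]; omega, fun i _ => by simp [lft], fun i _ => by simp [lft]⟩

theorem rgt_sub {β : Type*} {x : GS β} {p : ℕ} (hp : p + 1 < x.1) : subG (rgt x p) x :=
  ⟨by simp only [rgt]; omega, p + 1, by simp only [rgt]; omega, fun i _ => rfl, fun i _ => rfl⟩

theorem gap_join {β : Type*} {rb : β → β → Prop} {x y : GS β} {p p' : ℕ} (hp : p + 1 < x.1)
    (hp' : p' + 1 < y.1) (hmin : ∀ t, t + 1 < y.1 → y.2.2 p' ≤ y.2.2 t)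
    (hc : x.2.2 p ≤ y.2.2 p') (hL : gapLE rb (lft x p) (lft y p'))
    (hR : gapLE rb (rgt x p) (rgt y p')) : gapLE rb x y := by
  obtain ⟨f, a1, a2, a3, a4⟩ := hL
  obtain ⟨g, b1, b2, b3, b4⟩ := hR
  change ∀ i, i < p + 1 → f i < p' + 1 at a1
  change ∀ i j, i < j → j < p + 1 → f i < f j at a2
  change ∀ i, i < p + 1 → rb (x.2.1 i) (y.2.1 (f i)) at a3
  change ∀ i, i + 1 < p + 1 → ∀ t, f i ≤ t → t < f (i + 1) → x.2.2 i ≤ y.2.2 t at a4
  change ∀ i, i < x.1 - (p + 1) → g i < y.1 - (p' + 1) at b1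
  change ∀ i j, i < j → j < x.1 - (p + 1) → g i < g j at b2
  change ∀ i, i < x.1 - (p + 1) → rb (x.2.1 (p + 1 + i)) (y.2.1 (p' + 1 + g i)) at b3
  change ∀ i, i + 1 < x.1 - (p + 1) → ∀ t, g i ≤ t → t < g (i + 1) →
    x.2.2 (p + 1 + i) ≤ y.2.2 (p' + 1 + t) at b4
  let F : ℕ → ℕ := fun i => if i ≤ p then f i else p' + 1 + g (i - (p + 1))
  have F1 : ∀ i, i ≤ p → F i = f i := fun i hi => if_pos hi
  have F2 : ∀ i, F (p + 1 + i) = p' + 1 + g i := by
    intro i
    have h1 : F (p + 1 + i) = p' + 1 + g (p + 1 + i - (p + 1)) := if_neg (by omega)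
    rw [h1]
    congr 2
    omega
  have hsp : ∀ i, ¬ i ≤ p → ∃ k, i = p + 1 + k := fun i hi => ⟨i - (p + 1), by omega⟩
  refine ⟨F, fun i hi => ?_, fun i j hij hj => ?_, fun i hi => ?_, fun i hi t ht ht' => ?_⟩
  · by_cases h : i ≤ p
    · rw [F1 i h]
      have := a1 i (by omega)
      omega
    · obtain ⟨k, rfl⟩ := hsp i h
      rw [F2]
      have := b1 k (by omega)
      omega
  · by_cases h : i ≤ p
    · by_cases h' : j ≤ p
      · rw [F1 i h, F1 j h']
        exact a2 i j hij (by omega)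
      · obtain ⟨k, rfl⟩ := hsp j h'
        rw [F1 i h, F2]
        have := a1 i (by omega)
        omega
    · obtain ⟨k, rfl⟩ := hsp i h
      obtain ⟨k', rfl⟩ := hsp j (by omega)
      rw [F2, F2]
      have := b2 k k' (by omega) (by omega)
      omega
  · by_cases h : i ≤ p
    · rw [F1 i h]
      exact a3 i (by omega)
    · obtain ⟨k, rfl⟩ := hsp i h
      rw [F2]
      exact b3 k (by omega)
  · by_cases h : i + 1 ≤ p
    · rw [F1 i (by omega)] at ht
      rw [F1 _ h] at ht'
      exact a4 i (by omega) t ht ht'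
    · by_cases h' : i ≤ p
      · have hip : i = p := by omega
        subst hip
        have h1 : F (i + 1) < y.1 := by
          have h2 := F2 0
          have h3 := b1 0 (by omega)
          simp only [Nat.add_zero] at h2
          rw [h2]
          omega
        exact hc.trans (hmin t (by omega))
      · obtain ⟨k, rfl⟩ := hsp i h'
        rw [F2] at ht
        have h1 : p + 1 + k + 1 = p + 1 + (k + 1) := by omega
        rw [h1, F2] at ht'
        have h2 := b4 k (by omega) (t - (p' + 1)) (by omega) (by omega)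
        have h3 : p' + 1 + (t - (p' + 1)) = t := by omega
        rw [h3] at h2
        exact h2

/-- Higman's theorem with the gap condition for better-quasi-orders: a bad array of sequences has
a bad array of members -/
theorem gap_bad {β : Type*} {rb : β → β → Prop} {A : Set ℕ} {M : Set ℕ → GS β}
    (h : Bad (gapLE rb) (fun _ => True) A M) : ∃ (A' : Set ℕ) (g : Set ℕ → β), A' ⊆ A ∧
      Bad rb (fun _ => True) A' g ∧
      ∀ X : Set ℕ, X ⊆ A' → X.Infinite → ∃ i, i < (M X).1 ∧ g X = (M X).2.1 i := by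
  classical
  obtain ⟨A1, N, b1, b2, b3, b4⟩ := min_bad (r := gapLE rb) (sub := subG)
    (rk := fun M : GS β => M.1)
    (fun x y hxy => hxy.1) (fun x y z h h' => sub_trans h h') (fun a x y h h' => gap_comp h h') h
  have hpos : ∀ X : Set ℕ, X ⊆ A1 → X.Infinite → 0 < (N X).1 := by
    intro X hX hXi
    by_contra hcon
    have h0 : (N X).1 = 0 := by omega
    apply (b1.2.2 X hX hXi).2
    exact ⟨fun _ => 0, fun i hi => by omega, fun i j _ hj => by omega, fun i hi => by omega,
      fun i hi => by omega⟩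
  -- the place of the least connection
  have hmin : ∀ x : GS β, ∃ p, 1 < x.1 → p + 1 < x.1 ∧ ∀ t, t + 1 < x.1 → x.2.2 p ≤ x.2.2 t := by
    intro x
    by_cases hx : 1 < x.1
    · obtain ⟨p, hp, hmin⟩ := Finset.exists_min_image (Finset.range (x.1 - 1)) x.2.2
        ⟨0, Finset.mem_range.2 (by omega)⟩
      refine ⟨p, fun _ => ⟨by have := Finset.mem_range.1 hp; omega, fun t ht => ?_⟩⟩
      exact hmin t (Finset.mem_range.2 (by omega))
    · exact ⟨0, fun h => absurd h hx⟩
  choose pp hpp using hmin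
  have hloc : LocOn A1 N := b1.2.1
  obtain ⟨Z0, hZ0, hZ0i, hZ0c⟩ := bqr_homog_on bqr_nat
    (locOn_comp hloc (fun x : GS β => x.2.2 (pp x))) b1.1 (fun _ _ _ => trivial)
  obtain ⟨Z, hZ, hZi, v, hv⟩ := ramsey_on
    (locOn_comp (locOn_pair (locOn_mono hloc hZ0) (locOn_tl (locOn_mono hloc hZ0)))
      (fun q : GS β × GS β => (decide (1 < q.1.1),
        decide (gapLE rb (lft q.1 (pp q.1)) (lft q.2 (pp q.2))),
        decide (gapLE rb (rgt q.1 (pp q.1)) (rgt q.2 (pp q.2)))))) hZ0i
  have hZA : Z ⊆ A1 := hZ.trans hZ0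
  have hv1 : ∀ X : Set ℕ, X ⊆ Z → X.Infinite → decide (1 < (N X).1) = v.1 := fun X hX hXi =>
    congrArg (fun q => q.1) (hv X hX hXi)
  have hv2 : ∀ X : Set ℕ, X ⊆ Z → X.Infinite →
      decide (gapLE rb (lft (N X) (pp (N X))) (lft (N (tl X)) (pp (N (tl X))))) = v.2.1 :=
    fun X hX hXi => congrArg (fun q => q.2.1) (hv X hX hXi)
  have hv3 : ∀ X : Set ℕ, X ⊆ Z → X.Infinite →
      decide (gapLE rb (rgt (N X) (pp (N X))) (rgt (N (tl X)) (pp (N (tl X))))) = v.2.2 :=
    fun X hX hXi => congrArg (fun q => q.2.2) (hv X hX hXi)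
  by_cases hv' : v.1 = true
  · exfalso
    have hn : ∀ X : Set ℕ, X ⊆ Z → X.Infinite → 1 < (N X).1 := fun X hX hXi =>
      of_decide_eq_true ((hv1 X hX hXi).trans hv')
    by_cases hL : v.2.1 = true
    · by_cases hR : v.2.2 = true
      · have h1 := of_decide_eq_true ((hv2 Z le_rfl hZi).trans hL)
        have h2 := of_decide_eq_true ((hv3 Z le_rfl hZi).trans hR)
        have n1 := hn Z le_rfl hZi
        have n2 := hn (tl Z) (tl_subset Z) (tl_infinite hZi)
        exact (b1.2.2 Z hZA hZi).2 (gap_join (hpp _ n1).1 (hpp _ n2).1 (hpp _ n2).2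
          (hZ0c Z hZ hZi) h1 h2)
      · have hbad : Bad (gapLE rb) (fun _ => True) Z (fun X => rgt (N X) (pp (N X))) := by
          refine ⟨hZi, locOn_comp (locOn_mono hloc hZA) (fun x => rgt x (pp x)),
            fun X hX hXi => ⟨trivial, fun hr => hR ?_⟩⟩
          rw [← hv3 X hX hXi]
          exact decide_eq_true hr
        exact b4 Z _ hbad hZA (fun X hX hXi => rgt_sub (hpp _ (hn X hX hXi)).1)
    · have hbad : Bad (gapLE rb) (fun _ => True) Z (fun X => lft (N X) (pp (N X))) := by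
        refine ⟨hZi, locOn_comp (locOn_mono hloc hZA) (fun x => lft x (pp x)),
          fun X hX hXi => ⟨trivial, fun hr => hL ?_⟩⟩
        rw [← hv2 X hX hXi]
        exact decide_eq_true hr
      exact b4 Z _ hbad hZA (fun X hX hXi => lft_sub (hpp _ (hn X hX hXi)).1)
  · have hn : ∀ X : Set ℕ, X ⊆ Z → X.Infinite → (N X).1 = 1 := by
      intro X hX hXi
      have h1 := hpos X (hX.trans hZA) hXi
      by_contra hcon
      apply hv'
      rw [← hv1 X hX hXi]
      exact decide_eq_true (by omega)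
    refine ⟨Z, fun X => (N X).2.1 0, hZA.trans b2, ⟨hZi,
      locOn_comp (locOn_mono hloc hZA) (fun x => x.2.1 0), fun X hX hXi => ⟨trivial, fun hr => ?_⟩⟩,
      fun X hX hXi => ?_⟩
    · apply (b1.2.2 X (hX.trans hZA) hXi).2
      have n1 := hn X hX hXi
      have n2 := hn (tl X) ((tl_subset X).trans hX) (tl_infinite hXi)
      refine ⟨fun _ => 0, fun i hi => ?_, fun i j _ hj => by omega, fun i hi => ?_,
        fun i hi => by omega⟩
      · change 0 < (N (tl X)).1
        omega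
      have hi0 : i = 0 := by omega
      subst hi0
      exact hr
    · rcases b3 X (hX.trans hZA) hXi with h1 | h1
      · have n1 := hn X hX hXi
        rw [h1] at n1
        refine ⟨0, by omega, ?_⟩
        change (N X).2.1 0 = (M X).2.1 0
        rw [h1]
      · obtain ⟨h2, s, h3, h4, _⟩ := h1
        have n1 := hn X hX hXi
        refine ⟨s + 0, by omega, ?_⟩
        exact h4 0 (by omega)

end Pool.Agent.Bqp.Sky
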