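import Pool.Agent.Bqp.SkyMinor
import Pool.Agent.Bqp.SkySeq
import Pool.Agent.Bqp.GTree

set_option autoImplicit false

namespace Pool.Agent.Bqp.Sky

open Pool.Agent.Bqp

theorem rminor_trans {ι : Type} {A B C : RG ι} (h : RMinor A B) (h' : RMinor B C) :
    RMinor A C := by
  obtain ⟨φ, a1, a2, a3, a5, a4⟩ := h
  obtain ⟨ψ, b1, b2, b3, b5, b4⟩ := h'
  refine ⟨fun i => {x | ∃ b ∈ φ i, x ∈ ψ b}, fun i => ?_, fun i j hij => ?_, fun i j hij => ?_,
    fun i l hil => ?_, ?_⟩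
  · exact connected_biUnion B.1.1.2 C.1.1.2 (φ i) (a1 i) ψ b1 b3
  · rw [Set.disjoint_left]
    rintro x ⟨b, hb, hx⟩ ⟨b', hb', hx'⟩
    by_cases hbb : b = b'
    · subst hbb
      exact Set.disjoint_left.1 (a2 i j hij) hb hb'
    · exact Set.disjoint_left.1 (b2 b b' hbb) hx hx'
  · obtain ⟨b, hb, b', hb', hadj⟩ := a3 i j hij
    obtain ⟨x, hx, y, hy, hxy⟩ := b3 b b' hadj
    exact ⟨x, ⟨b, hb, hx⟩, y, ⟨b', hb', hy⟩, hxy⟩
  · obtain ⟨b, hb, hbl⟩ := a5 i l hil
    obtain ⟨x, hx, hxl⟩ := b5 b l hbl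
    exact ⟨x, ⟨b, hb, hx⟩, hxl⟩
  · exact ⟨B.2, a4, b4⟩

/-- every piece is a rooted minor of the whole graph -/
theorem piece_le {ι V P : Type} {C : SimpleGraph V} {A : V → ι → Prop} {r : V} {K : P → RG ι}
    {a : P → V} {G : RG ι}
    {α : V → RV G} {β : ∀ s, RV (K s) → RV G} (hG : GluedAt C A r K a G α β) (hC : C.Connected)
    (p : P) : RMinor (K p) G := by
  classical
  let φ : RV (K p) → Set (RV G) := fun v => if v = (K p).2 then Set.range α else {β p v}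
  have f1 : φ (K p).2 = Set.range α := if_pos rfl
  have f2 : ∀ v, v ≠ (K p).2 → φ v = {β p v} := fun v hv => if_neg hv
  have f3 : ∀ v, β p v ∈ φ v := by
    intro v
    by_cases hv : v = (K p).2
    · subst hv
      rw [f1, hG.root]
      exact ⟨_, rfl⟩
    · rw [f2 v hv]; rfl
  refine ⟨φ, ?_, ?_, ?_, ?_, ?_⟩
  · intro v
    by_cases hv : v = (K p).2
    · subst hv
      rw [f1, ← Set.image_univ]
      apply conn_image (G := C)
      · exact (SimpleGraph.induceUnivIso C).symm.connected_iff.1 hC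
      · exact fun x y h => (hG.adj _ _).2 (Or.inl ⟨x, y, rfl, rfl, h⟩)
    · rw [f2 v hv]
      exact conn_single _ _
  · intro v w hvw
    by_cases hv : v = (K p).2
    · subst hv
      rw [f1, f2 w (fun h => hvw h.symm), Set.disjoint_singleton_right]
      rintro ⟨x, hx⟩
      exact hG.off p w (fun h => hvw h.symm) x hx.symm
    · by_cases hw : w = (K p).2
      · subst hw
        rw [f1, f2 v hv, Set.disjoint_singleton_left]
        rintro ⟨x, hx⟩
        exact hG.off p v hv x hx.symm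
      · rw [f2 v hv, f2 w hw, Set.disjoint_singleton]
        exact fun h => hvw (hG.injb p h)
  · intro v w h
    exact ⟨_, f3 v, _, f3 w, (hG.adj _ _).2 (Or.inr ⟨p, v, w, rfl, rfl, h⟩)⟩
  · intro v l h
    exact ⟨_, f3 v, (hG.att _ _).2 (Or.inr ⟨p, v, rfl, h⟩)⟩
  · rw [f1, hG.groot]
    exact ⟨r, rfl⟩

/-- gluing is monotone -/
theorem glued_mono {ι V V' P P' : Type} {C : SimpleGraph V} {C' : SimpleGraph V'}
    {A : V → ι → Prop} {A' : V' → ι → Prop} {r : V} {r' : V'}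
    {K : P → RG ι} {K' : P' → RG ι} {a : P → V} {a' : P' → V'} {G G' : RG ι} {α : V → RV G}
    {β : ∀ s, RV (K s) → RV G} {α' : V' → RV G'} {β' : ∀ s, RV (K' s) → RV G'}
    (hG : GluedAt C A r K a G α β) (hG' : GluedAt C' A' r' K' a' G' α' β') (φ : V → Set V')
    (c1 : ∀ v, (C'.induce (φ v)).Connected) (c2 : ∀ u v, u ≠ v → Disjoint (φ u) (φ v))
    (c3 : ∀ u v, C.Adj u v → ∃ x ∈ φ u, ∃ y ∈ φ v, C'.Adj x y)
    (c4 : ∀ u l, A u l → ∃ x ∈ φ u, A' x l) (cr : r' ∈ φ r)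
    (σ : P → P') (hσ : Function.Injective σ) (ca : ∀ p, a' (σ p) ∈ φ (a p))
    (hK : ∀ p, RMinor (K p) (K' (σ p))) : RMinor G G' := by
  classical
  choose ψ d1 d2 d3 d4 d5 using hK
  let Φ : RV G → Set (RV G') := fun x =>
    {z | (∃ u, x = α u ∧ ∃ b ∈ φ u, z = α' b) ∨
      ∃ p u, x = β p u ∧ ∃ w ∈ ψ p u, z = β' (σ p) w}
  have hrt : ∀ p w, β' (σ p) w ∈ Set.range α' → w = (K' (σ p)).2 := by
    intro p w h
    by_contra hcon
    obtain ⟨x, hx⟩ := h
    exact hG'.off (σ p) w hcon x hx.symm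
  have hrt2 : ∀ p u, (K' (σ p)).2 ∈ ψ p u → u = (K p).2 := by
    intro p u h
    by_contra hcon
    exact Set.disjoint_left.1 (d2 p _ _ hcon) h (d5 p)
  have hdis : ∀ x y, x ≠ y → Disjoint (Φ x) (Φ y) := by
    intro x y hxy
    rw [Set.disjoint_left]
    rintro z hz hz'
    apply hxy
    rcases hz with ⟨u, rfl, b, hb, rfl⟩ | ⟨p, u, rfl, w, hw, rfl⟩
    · rcases hz' with ⟨u', rfl, b', hb', h⟩ | ⟨p', u', rfl, w', hw', h⟩
      · have h1 := hG'.inj h
        subst h1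
        by_contra hcon
        exact Set.disjoint_left.1 (c2 u u' (fun h => hcon (by rw [h]))) hb hb'
      · have h0 := hrt p' w' ⟨b, h⟩
        subst h0
        have h1 := hrt2 p' u' hw'
        subst h1
        rw [hG'.root] at h
        have h2 := hG'.inj h
        subst h2
        rw [hG.root]
        by_contra hcon
        exact Set.disjoint_left.1 (c2 u (a p') (fun h => hcon (by rw [h]))) hb (ca p')
    · rcases hz' with ⟨u', rfl, b', hb', h⟩ | ⟨p', u', rfl, w', hw', h⟩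
      · have h0 := hrt p w ⟨b', h.symm⟩
        subst h0
        have h1 := hrt2 p u hw
        subst h1
        rw [hG'.root] at h
        have h2 := hG'.inj h
        subst h2
        rw [hG.root]
        by_contra hcon
        exact Set.disjoint_left.1 (c2 u' (a p) (fun h => hcon (by rw [h]))) hb' (ca p)
      · by_cases hwr : w = (K' (σ p)).2
        · subst hwr
          have h1 := hrt2 p u hw
          subst h1
          have h0 := hrt p' w' ⟨a' (σ p), by rw [← hG'.root]; exact h⟩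
          subst h0
          have h1 := hrt2 p' u' hw'
          subst h1
          rw [hG'.root, hG'.root] at h
          have h2 := hG'.inj h
          rw [hG.root, hG.root]
          by_contra hcon
          have h3 := ca p'
          rw [← h2] at h3
          exact Set.disjoint_left.1 (c2 (a p) (a p') (fun h => hcon (by rw [h]))) (ca p) h3
        · have h1 := hσ (hG'.disj _ _ w w' hwr h)
          subst h1
          have h2 := hG'.injb _ h
          subst h2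
          by_contra hcon
          exact Set.disjoint_left.1 (d2 p u u' (fun h => hcon (by rw [h]))) hw hw'
  have hα' : ∀ x y, C'.Adj x y → G'.1.1.2.Adj (α' x) (α' y) := fun x y h =>
    (hG'.adj _ _).2 (Or.inl ⟨x, y, rfl, rfl, h⟩)
  have hβ' : ∀ p x y, (K' p).1.1.2.Adj x y → G'.1.1.2.Adj (β' p x) (β' p y) := fun p x y h =>
    (hG'.adj _ _).2 (Or.inr ⟨p, x, y, rfl, rfl, h⟩)
  refine ⟨Φ, ?_, hdis, ?_, ?_, ?_⟩
  · intro x
    by_cases hx : ∃ u, x = α u
    · obtain ⟨u, rfl⟩ := hx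
      obtain ⟨⟨b0, hb0⟩⟩ := (c1 u).nonempty
      have hA : (G'.1.1.2.induce (α' '' φ u)).Connected := conn_image (c1 u) _ hα'
      apply SimpleGraph.induce_connected_of_patches (α' b0) (Or.inl ⟨u, rfl, b0, hb0, rfl⟩)
      intro z hz
      have hsub : α' '' φ u ⊆ Φ (α u) := by
        rintro _ ⟨b, hb, rfl⟩
        exact Or.inl ⟨u, rfl, b, hb, rfl⟩
      rcases hz with ⟨u', hu', b, hb, rfl⟩ | ⟨p, v, hv, w, hw, rfl⟩
      · have h1 := hG.inj hu'
        subst h1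
        exact ⟨α' '' φ u, hsub, ⟨b0, hb0, rfl⟩, ⟨b, hb, rfl⟩, hA.preconnected _ _⟩
      · have hvr : v = (K p).2 := by
          by_contra hcon
          exact hG.off p v hcon u hv.symm
        subst hvr
        rw [hG.root] at hv
        have h1 := hG.inj hv
        subst h1
        have hB : (G'.1.1.2.induce (β' (σ p) '' ψ p (K p).2)).Connected :=
          conn_image (d1 p _) _ (hβ' _)
        have hU := SimpleGraph.induce_union_connected hA.preconnected hB.preconnected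
          ⟨α' (a' (σ p)), ⟨_, ca p, rfl⟩, ⟨_, d5 p, hG'.root _⟩⟩
        refine ⟨_, ?_, Or.inl ⟨b0, hb0, rfl⟩, Or.inr ⟨w, hw, rfl⟩, hU _ _⟩
        rintro _ (⟨b, hb, rfl⟩ | ⟨y, hy, rfl⟩)
        · exact Or.inl ⟨_, rfl, b, hb, rfl⟩
        · exact Or.inr ⟨p, _, (hG.root p).symm, y, hy, rfl⟩
    · obtain ⟨p, u, rfl⟩ := (hG.cover x).resolve_left hx
      have hur : u ≠ (K p).2 := by
        rintro rfl
        exact hx ⟨_, hG.root p⟩
      have hΦ : Φ (β p u) = β' (σ p) '' ψ p u := by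
        ext z
        constructor
        · rintro (⟨v, hv, _⟩ | ⟨p', u', hu', w, hw, rfl⟩)
          · exact absurd ⟨v, hv⟩ hx
          · have h1 := hG.disj _ _ _ _ hur hu'
            subst h1
            have h2 := hG.injb _ hu'
            subst h2
            exact ⟨w, hw, rfl⟩
        · rintro ⟨w, hw, rfl⟩
          exact Or.inr ⟨p, u, rfl, w, hw, rfl⟩
      rw [hΦ]
      exact conn_image (d1 p u) _ (hβ' _)
  · intro x y h
    rcases (hG.adj x y).1 h with ⟨u, v, rfl, rfl, h0⟩ | ⟨p, u, v, rfl, rfl, h0⟩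
    · obtain ⟨x', hx', y', hy', h'⟩ := c3 u v h0
      exact ⟨_, Or.inl ⟨u, rfl, x', hx', rfl⟩, _, Or.inl ⟨v, rfl, y', hy', rfl⟩, hα' _ _ h'⟩
    · obtain ⟨x', hx', y', hy', h'⟩ := d3 p u v h0
      exact ⟨_, Or.inr ⟨p, u, rfl, x', hx', rfl⟩, _, Or.inr ⟨p, v, rfl, y', hy', rfl⟩,
        hβ' _ _ _ h'⟩
  · intro x l h
    rcases (hG.att x l).1 h with ⟨u, rfl, h0⟩ | ⟨p, u, rfl, h0⟩
    · obtain ⟨x', hx', h'⟩ := c4 u l h0
      exact ⟨_, Or.inl ⟨u, rfl, x', hx', rfl⟩, (hG'.att _ _).2 (Or.inl ⟨x', rfl, h'⟩)⟩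
    · obtain ⟨x', hx', h'⟩ := d4 p u l h0
      exact ⟨_, Or.inr ⟨p, u, rfl, x', hx', rfl⟩, (hG'.att _ _).2 (Or.inr ⟨_, x', rfl, h'⟩)⟩
  · rw [hG.groot, hG'.groot]
    exact Or.inl ⟨_, rfl, _, cr, rfl⟩

/-! ### labels of columns -/

/-- the finite part of the label of a column: diagonals, attachments, the place of the root -/
abbrev FL (p : ℕ) (ι : Type) : Type :=
  (Bool → Bool) × (Option (Fin (p + 2)) → ι → Bool) × (Fin (p + 2) → Bool)

/-- label of a column -/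
abbrev CL (p : ℕ) (ι : Type) : Type := (ℕ × (Fin (p + 2) → LL (RG ι))) × FL p ι

/-- order of the labels -/
def clLE {p : ℕ} {ι : Type} (x y : CL p ι) : Prop :=
  x.1.1 ≤ y.1.1 ∧ (∀ t, rL RMinor (x.1.2 t) (y.1.2 t)) ∧ x.2 = y.2

/-- the sequence of labels of a skyline -/
def code {p : ℕ} {ι : Type} (n : ℕ) (w c : ℕ → ℕ) (e : ℕ → Bool → Bool)
    (U : ℕ → Option (Fin (p + 2)) → ι → Bool) (r : Fin (n + 1)) (t : Fin (p + 2))
    (D : Decor p ι) : GS (CL p ι) :=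
  (n + 1, (fun i => ((w i, D i), (e i, U i, fun t' => decide (i = r ∧ t' = t)))), c)

/-- the code of a skyline determines an embedding -/
theorem code_mono {p : ℕ} {ι : Type} {n n' : ℕ} {w c w' c' : ℕ → ℕ} {e e' : ℕ → Bool → Bool}
    {U U' : ℕ → Option (Fin (p + 2)) → ι → Bool} {r : Fin (n + 1)} {r' : Fin (n' + 1)}
    {t t' : Fin (p + 2)} {D D' : Decor p ι} {G G' : RG ι}
    {α : SV n w → RV G} {β : ∀ q : PIdx n D, RV (piece D q) → RV G}
    {α' : SV n' w' → RV G'} {β' : ∀ q : PIdx n' D', RV (piece D' q) → RV G'}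
    (hv : ValidSky n w c) (hv' : ValidSky n' w' c')
    (hG : GluedAt (SkyG n w c e) (SkyA n w U) (place w r t) (piece D)
      (fun q => place w q.1.1 q.1.2) G α β)
    (hG' : GluedAt (SkyG n' w' c' e') (SkyA n' w' U') (place w' r' t') (piece D')
      (fun q => place w' q.1.1 q.1.2) G' α' β')
    (hc : c n ≤ c' n') (h : gapLE clLE (code n w c e U r t D) (code n' w' c' e' U' r' t' D')) :
    RMinor G G' := by
  classical
  obtain ⟨f, h1, h2, h3, h4⟩ := h
  change ∀ i, i < n + 1 → f i < n' + 1 at h1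
  change ∀ i j, i < j → j < n + 1 → f i < f j at h2
  change ∀ i, i < n + 1 → (w i ≤ w' (f i) ∧ (∀ t, rL RMinor (D i t) (D' (f i) t)) ∧
    (e i, U i, (fun s => decide (i = (r : ℕ) ∧ s = t))) =
      (e' (f i), U' (f i), (fun s => decide (f i = (r' : ℕ) ∧ s = t')))) at h3
  change ∀ i, i + 1 < n + 1 → ∀ t, f i ≤ t → t < f (i + 1) → c i ≤ c' t at h4
  have h3' : ∀ i, i < n + 1 → e i = e' (f i) ∧ U i = U' (f i) ∧
      (fun s => decide (i = (r : ℕ) ∧ s = t)) = (fun s => decide (f i = (r' : ℕ) ∧ s = t')) := by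
    intro i hi
    have h5 := (h3 i hi).2.2
    exact ⟨congrArg (fun q => q.1) h5, congrArg (fun q => q.2.1) h5,
      congrArg (fun q => q.2.2) h5⟩
  obtain ⟨φ, c1, c2, c3, c5, c4⟩ := sky_core (e := e) (e' := e') (U := U) (U' := U') hv hv'
    (f := f) (fun i hi => by have := h1 i (by omega); omega)
    (fun i j hij hj => h2 i j hij (by omega)) (fun i hi => (h3 i (by omega)).1)
    (fun i hi => h4 i (by omega)) hc (fun i hi => (h3' i (by omega)).1)
    (fun i hi => (h3' i (by omega)).2.1)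
  have hrl : ∀ (i : Fin (n + 1)) (s : Fin (p + 2)), rL RMinor (D i s) (D' (f i) s) := fun i s =>
    (h3 i i.2).2.1 s
  choose σ hσ hσm using hrl
  let τ : PIdx n D → PIdx n' D' := fun q =>
    ⟨(⟨f q.1.1, h1 q.1.1 q.1.1.2⟩, q.1.2), σ q.1.1 q.1.2 q.2⟩
  have hinj : ∀ i j : Fin (n + 1), f i = f j → i = j := by
    intro i j hij
    rcases Nat.lt_trichotomy i j with h | h | h
    · have := h2 i j h j.2
      omega
    · exact Fin.ext h
    · have := h2 j i h i.2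
      omega
  have hτ : Function.Injective τ := by
    rintro ⟨⟨i, s⟩, x⟩ ⟨⟨j, s'⟩, y⟩ hxy
    simp only [τ, Sigma.mk.injEq, Prod.mk.injEq, Fin.mk.injEq] at hxy
    obtain ⟨⟨e1, e2⟩, e3⟩ := hxy
    have e4 := hinj i j e1
    subst e4 e2
    have e5 := hσ i s (eq_of_heq e3)
    rw [e5]
  apply glued_mono hG hG' φ c1 c2 c3 c5 ?_ τ hτ ?_ ?_
  · -- the root
    have h5 := congrFun (h3' r r.2).2.2 t
    simp only [and_self, decide_true] at h5
    have h6 := of_decide_eq_true h5.symm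
    have h7 := c4 r r' t h6.1.symm
    rw [← h6.2]
    exact h7
  · intro q
    exact c4 q.1.1 ⟨f q.1.1, h1 q.1.1 q.1.1.2⟩ q.1.2 rfl
  · intro q
    exact hσm q.1.1 q.1.2 q.2

/-- with a bound for the nesting -/
def SkyH {ι : Type} (p : ℕ) (B : RG ι → Prop) : ℕ → RG ι → Prop
  | 0, G => B G
  | h + 1, G => B G ∨ ∃ (n : ℕ) (w c : ℕ → ℕ) (e : ℕ → Bool → Bool)
      (U : ℕ → Option (Fin (p + 2)) → ι → Bool) (r : Fin (n + 1)) (t : Fin (p + 2))
      (D : Decor p ι) (α : SV n w → RV G) (β : ∀ q : PIdx n D, RV (piece D q) → RV G),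
      ValidSky n w c ∧ (∀ q : PIdx n D, SkyH p B h (piece D q)) ∧
      GluedAt (SkyG n w c e) (SkyA n w U) (place w r t) (piece D)
        (fun q => place w q.1.1 q.1.2) G α β

theorem skyH_mono {ι : Type} {p : ℕ} (B : RG ι → Prop) :
    ∀ (h : ℕ) (G : RG ι), SkyH p B h G → SkyH p B (h + 1) G := by
  intro h
  induction h with
  | zero => intro G hG; exact Or.inl hG
  | succ h ih =>
    intro G hG
    rcases hG with hG | ⟨n, w, c, e, U, r, t, D, α, β, c1, c2, c3⟩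
    · exact Or.inl hG
    · exact Or.inr ⟨n, w, c, e, U, r, t, D, α, β, c1, fun q => ih _ (c2 q), c3⟩

theorem skyH_le {ι : Type} {p : ℕ} (B : RG ι → Prop) {h h' : ℕ} (hh : h ≤ h') (G : RG ι)
    (hG : SkyH p B h G) : SkyH p B h' G := by
  induction h', hh using Nat.le_induction with
  | base => exact hG
  | succ h' _ ih => exact skyH_mono B h' G ih

theorem skyH_of {ι : Type} {p : ℕ} (B : RG ι → Prop) (G : RG ι) (hG : SkyTree p B G) :
    ∃ h, SkyH p B h G := by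
  induction hG with
  | base G hG => exact ⟨0, hG⟩
  | sky G n w c e U r t D α β hv _ hG ih =>
    choose h hh using ih
    refine ⟨(∑ q, h q) + 1, Or.inr ⟨n, w, c, e, U, r, t, D, α, β, hv, fun q => ?_, hG⟩⟩
    exact skyH_le B (Finset.single_le_sum (f := h) (fun _ _ => Nat.zero_le _)
      (Finset.mem_univ q)) _ (hh q)

/-- the data of a skyline -/
abbrev Dat (p : ℕ) (ι : Type) : Type :=
  Σ n : ℕ, (ℕ → ℕ) × (ℕ → ℕ) × (ℕ → Bool → Bool) × (ℕ → Option (Fin (p + 2)) → ι → Bool) ×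
    Fin (n + 1) × Fin (p + 2) × Decor p ι

/-- the code of the data -/
def Dat.cd {p : ℕ} {ι : Type} (d : Dat p ι) : GS (CL p ι) :=
  code d.1 d.2.1 d.2.2.1 d.2.2.2.1 d.2.2.2.2.1 d.2.2.2.2.2.1 d.2.2.2.2.2.2.1 d.2.2.2.2.2.2.2

/-- `G` is the skyline with the data `d` -/
def Dat.Is {p : ℕ} {ι : Type} (d : Dat p ι) (G : RG ι) : Prop :=
  ValidSky d.1 d.2.1 d.2.2.1 ∧
  ∃ (α : SV d.1 d.2.1 → RV G)
    (β : ∀ q : PIdx d.1 d.2.2.2.2.2.2.2, RV (piece d.2.2.2.2.2.2.2 q) → RV G),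
    GluedAt (SkyG d.1 d.2.1 d.2.2.1 d.2.2.2.1) (SkyA d.1 d.2.1 d.2.2.2.2.1)
      (place d.2.1 d.2.2.2.2.2.1 d.2.2.2.2.2.2.1)
      (piece d.2.2.2.2.2.2.2) (fun q => place d.2.1 q.1.1 q.1.2) G α β

/-- trees of skylines -/
theorem sky_bqr {ι : Type} [Finite ι] {p : ℕ} {B : RG ι → Prop} (hB : Bqr RMinor B) :
    Bqr RMinor (SkyTree p B) := by
  classical
  apply bqr_mono (D := fun G => ∃ h, SkyH p B h G) (skyH_of B)
  by_contra hnot
  obtain ⟨f0, hf0⟩ := not_bqr hnot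
  let T : RG ι → Prop := fun G => ∃ h, SkyH p B h G
  let rk : RG ι → ℕ := fun G => if h : ∃ h, SkyH p B h G then Nat.find h else 0
  have hrk1 : ∀ G, T G → SkyH p B (rk G) G := by
    intro G hG
    have h1 : rk G = Nat.find hG := dif_pos hG
    rw [h1]
    exact Nat.find_spec hG
  have hrk2 : ∀ G h, SkyH p B h G → rk G ≤ h := by
    intro G h hG
    have h1 : rk G = Nat.find (⟨h, hG⟩ : ∃ h, SkyH p B h G) := dif_pos ⟨h, hG⟩
    rw [h1]
    exact Nat.find_min' _ hG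
  let sub : RG ι → RG ι → Prop := fun S T' => RMinor S T' ∧ rk S < rk T'
  obtain ⟨A, f, b1, _, _, b4⟩ := min_bad (r := RMinor) (sub := sub) (rk := rk)
    (fun x y h => h.2)
    (fun x y z h h' => ⟨rminor_trans h.1 h'.1, h.2.trans h'.2⟩)
    (fun a x y h h' => rminor_trans h h'.1) hf0
  have hT : ∀ X : Set ℕ, X ⊆ A → X.Infinite → T (f X) := fun X hX hXi => (b1.2.2 X hX hXi).1
  -- the members of `B`
  obtain ⟨Z0, hZ0, hZ0i, v0, hv0⟩ := ramsey_on (locOn_comp b1.2.1 (fun G => decide (B G))) b1.1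
  have hnB : ∀ X : Set ℕ, X ⊆ Z0 → X.Infinite → ¬ B (f X) := by
    intro X hX hXi hBX
    have h0 : v0 = true := by
      rw [← hv0 X hX hXi]
      exact decide_eq_true hBX
    have hall : ∀ X : Set ℕ, X ⊆ Z0 → X.Infinite → B (f X) := fun X hX hXi =>
      of_decide_eq_true ((hv0 X hX hXi).trans h0)
    obtain ⟨Y, hY, hYi, hr⟩ := bqr_locOn hB (locOn_mono b1.2.1 hZ0) hZ0i hall
    exact (b1.2.2 Y (hY.trans hZ0) hYi).2 hr
  -- decomposition
  have hdec : ∀ G : RG ι, ∃ d : Dat p ι, T G → ¬ B G → d.Is G ∧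
      ∀ q : PIdx d.1 d.2.2.2.2.2.2.2, T (piece d.2.2.2.2.2.2.2 q) ∧
        sub (piece d.2.2.2.2.2.2.2 q) G := by
    intro G
    by_cases hG : T G ∧ ¬ B G
    · obtain ⟨hG, hnG⟩ := hG
      have h1 := hrk1 G hG
      cases hr : rk G with
      | zero => rw [hr] at h1; exact absurd h1 hnG
      | succ h =>
        rw [hr] at h1
        rcases h1 with h1 | ⟨n, w, c, e, U, r, t, D, α, β, c1, c2, c3⟩
        · exact absurd h1 hnG
        · refine ⟨⟨n, w, c, e, U, r, t, D⟩, fun _ _ => ⟨⟨c1, α, β, c3⟩,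
            fun q => ⟨⟨h, c2 q⟩, ?_, ?_⟩⟩⟩
          · exact piece_le c3 (sky_conn c1) q
          · have := hrk2 _ _ (c2 q)
            change rk (piece D q) < rk G
            omega
    · exact ⟨⟨0, fun _ => 0, fun _ => 0, fun _ _ => false, fun _ _ _ => false, 0, 0,
        fun _ _ => ⟨0, fun j => j.elim0⟩⟩, fun h h' => absurd ⟨h, h'⟩ hG⟩
  choose dec hdec using hdec
  have hd : ∀ X : Set ℕ, X ⊆ Z0 → X.Infinite → _ := fun X hX hXi =>
    hdec (f X) (hT X (hX.trans hZ0) hXi) (hnB X hX hXi)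
  have hloc0 := locOn_mono b1.2.1 hZ0
  obtain ⟨Z1, hZ1, hZ1i, hZ1c⟩ := bqr_homog_on bqr_nat
    (locOn_comp hloc0 (fun G => (dec G).2.2.1 (dec G).1)) hZ0i (fun _ _ _ => trivial)
  have hloc1 := locOn_mono hloc0 hZ1
  have hbad : Bad (gapLE clLE) (fun _ => True) Z1 (fun X => (dec (f X)).cd) := by
    refine ⟨hZ1i, locOn_comp hloc1 (fun G => (dec G).cd), fun X hX hXi => ⟨trivial, fun hr => ?_⟩⟩
    have hX0 := hX.trans hZ1
    have htX0 : tl X ⊆ Z0 := (tl_subset X).trans hX0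
    obtain ⟨⟨v1, α, β, e⟩, _⟩ := hd X hX0 hXi
    obtain ⟨⟨v2, α', β', e'⟩, _⟩ := hd (tl X) htX0 (tl_infinite hXi)
    exact (b1.2.2 X (hX0.trans hZ0) hXi).2 (code_mono v1 v2 e e' (hZ1c X hX hXi) hr)
  obtain ⟨A2, g, hA2, hg, hgm⟩ := gap_bad hbad
  obtain ⟨Z3, hZ3, hZ3i, hZ3c⟩ := bqr_homog_on bqr_nat
    (locOn_comp hg.2.1 (fun x : CL p ι => x.1.1)) hg.1 (fun _ _ _ => trivial)
  obtain ⟨Z4, hZ4, hZ4i, fl, hfl⟩ := ramsey_on
    (locOn_comp (locOn_mono hg.2.1 hZ3) (fun x : CL p ι => x.2)) hZ3i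
  have hloc4 := locOn_mono (locOn_mono hg.2.1 hZ3) hZ4
  obtain ⟨Z5, hZ5, hZ5i, v5, hv5⟩ := ramsey_on
    (locOn_comp (locOn_pair hloc4 (locOn_tl hloc4))
      (fun q : CL p ι × CL p ι =>
        (fun t : Fin (p + 2) => decide (rL RMinor (q.1.1.2 t) (q.2.1.2 t))))) hZ4i
  have h5A : Z5 ⊆ A2 := (hZ5.trans hZ4).trans hZ3
  have hex : ∃ t : Fin (p + 2), v5 t = false := by
    by_contra hcon
    push Not at hcon
    apply (hg.2.2 Z5 h5A hZ5i).2
    refine ⟨hZ3c Z5 (hZ5.trans hZ4) hZ5i, fun t => ?_, ?_⟩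
    · have h1 := congrFun (hv5 Z5 le_rfl hZ5i) t
      have h2 : v5 t = true := by
        cases h : v5 t with
        | true => rfl
        | false => exact absurd h (hcon t)
      exact of_decide_eq_true (h1.trans h2)
    · have h1 : (g Z5).2 = fl := hfl Z5 hZ5 hZ5i
      have h2 : (g (tl Z5)).2 = fl := hfl (tl Z5) ((tl_subset _).trans hZ5) (tl_infinite hZ5i)
      rw [h1, h2]
  obtain ⟨t, ht⟩ := hex
  have hbad2 : Bad (rL RMinor) (fun _ => True) Z5 (fun X => (g X).1.2 t) := by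
    refine ⟨hZ5i, locOn_comp (locOn_mono hloc4 hZ5) (fun x : CL p ι => x.1.2 t),
      fun X hX hXi => ⟨trivial, fun hr => ?_⟩⟩
    have h1 := congrFun (hv5 X hX hXi) t
    rw [ht] at h1
    have h2 : decide (rL RMinor ((g X).1.2 t) ((g (tl X)).1.2 t)) = true := decide_eq_true hr
    exact absurd (h2.symm.trans h1) (by simp)
  obtain ⟨A6, g6, hA6, hg6, hgm6⟩ := multi_bad hbad2
  have hin : ∀ X : Set ℕ, X ⊆ A6 → X.Infinite → T (g6 X) ∧ sub (g6 X) (f X) := by
    intro X hX hXi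
    have hX2 : X ⊆ A2 := (hX.trans hA6).trans h5A
    have hX0 : X ⊆ Z0 := (hX2.trans hA2).trans hZ1
    obtain ⟨j, hj⟩ := hgm6 X hX hXi
    obtain ⟨i, hi, hgi⟩ := hgm X hX2 hXi
    obtain ⟨_, hp⟩ := hd X hX0 hXi
    have hi' : i < (dec (f X)).1 + 1 := hi
    have key : ∀ (x : CL p ι), x = ((dec (f X)).cd.2.1 i) → ∀ j : Fin (x.1.2 t).1,
        T ((x.1.2 t).2 j) ∧ sub ((x.1.2 t).2 j) (f X) := by
      rintro x rfl j
      exact hp ⟨(⟨i, hi'⟩, t), j⟩
    rw [hj]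
    exact key (g X) hgi j
  exact b4 A6 g6 ⟨hg6.1, hg6.2.1, fun X hX hXi => ⟨(hin X hX hXi).1, (hg6.2.2 X hX hXi).2⟩⟩
    (((hA6.trans h5A).trans hA2).trans (hZ1.trans hZ0)) (fun X hX hXi => (hin X hX hXi).2)

/-- finite lists over a bqo -/
theorem list_bqr {β : Type*} {rb : β → β → Prop} {C : β → Prop} (h : Bqr rb C) :
    Bqr (rL rb) (fun M : LL β => ∀ j, C (M.2 j)) := by
  by_contra hnot
  obtain ⟨f, hf⟩ := not_bqr hnot
  obtain ⟨A, g, hA, hg, hgm⟩ := multi_bad (rb := rb) (A := Set.univ) (M := f)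
    ⟨hf.1, hf.2.1, fun X hX hXi => ⟨trivial, (hf.2.2 X hX hXi).2⟩⟩
  obtain ⟨X, hX, hXi, hr⟩ := bqr_locOn h hg.2.1 hg.1 (fun X hX hXi => by
    obtain ⟨j, hj⟩ := hgm X hX hXi
    rw [hj]
    exact (hf.2.2 X (hX.trans hA) hXi).1 j)
  exact (hg.2.2 X hX hXi).2 hr

theorem unionL_mono {ι : Type} {n m : ℕ} {K : Fin n → RG ι} {L : Fin m → RG ι} {S T : LG ι}
    (hS : UnionL K S) (hT : UnionL L T) (h : rL RMinor ⟨n, K⟩ ⟨m, L⟩) : LMinor S T := by
  obtain ⟨σ, hσ, hm⟩ := h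
  change Fin n → Fin m at σ
  change ∀ i : Fin n, RMinor (K i) (L (σ i)) at hm
  choose φ hφ1 hφ2 hφ3 hφ4 _ using hm
  apply lminor_of_iso hS hT
    (fun x => {w | ∃ b ∈ φ x.1 x.2, w = (⟨σ x.1, b⟩ : Σ j : Fin m, Fin (L j).1.1.1)})
  · rintro ⟨i, a⟩
    have h1 := conn_image (H := DU (fun j => (L j).1.1)) (hφ1 i a)
      (fun b => (⟨σ i, b⟩ : Σ j : Fin m, Fin (L j).1.1.1))
      (fun x y hxy => ⟨σ i, x, y, rfl, rfl, hxy⟩)
    have h2 : {w | ∃ b ∈ φ i a, w = (⟨σ i, b⟩ : Σ j : Fin m, Fin (L j).1.1.1)} =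
        (fun b => (⟨σ i, b⟩ : Σ j : Fin m, Fin (L j).1.1.1)) '' φ i a := by
      ext w
      exact ⟨fun ⟨b, hb, hw⟩ => ⟨b, hb, hw.symm⟩, fun ⟨b, hb, hw⟩ => ⟨b, hb, hw.symm⟩⟩
    rw [h2]
    exact h1
  · rintro ⟨i, a⟩ ⟨j, a'⟩ hne
    rw [Set.disjoint_left]
    rintro w ⟨b, hb, rfl⟩ ⟨b', hb', hw'⟩
    simp only [Sigma.mk.injEq] at hw'
    obtain ⟨h1, h2⟩ := hw'
    have hij := hσ h1
    subst hij
    simp only [heq_eq_eq] at h2
    subst h2
    have hne' : a ≠ a' := fun h => hne (by rw [h])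
    exact Set.disjoint_left.1 (hφ2 i a a' hne') hb hb'
  · rintro _ _ ⟨i, a, a', rfl, rfl, h⟩
    obtain ⟨x, hx, y, hy, hxy⟩ := hφ3 i a a' h
    exact ⟨_, ⟨x, hx, rfl⟩, _, ⟨y, hy, rfl⟩, σ i, x, y, rfl, rfl, hxy⟩
  · rintro ⟨i, a⟩ l h
    obtain ⟨x, hx, hxl⟩ := hφ4 i a l h
    exact ⟨_, ⟨x, hx, rfl⟩, hxl⟩

/-- making all external vertices internal is monotone -/
theorem all_minor {k : ℕ} {M : SimpleGraph (Fin k)} {T T' : LG (Fin k)} {G G' : FG}
    (h : LMinor T T') (e : G.2 ≃g AllG M T) (e' : G'.2 ≃g AllG M T') : Minor G G' := by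
  obtain ⟨φ, a1, a2, a3, a4⟩ := h
  let ψ : Fin k ⊕ Fin T.1.1 → Set (Fin k ⊕ Fin T'.1.1) := fun x =>
    match x with
    | Sum.inl a => {Sum.inl a}
    | Sum.inr v => Sum.inr '' φ v
  have hd : ∀ x y, x ≠ y → Disjoint (ψ x) (ψ y) := by
    intro x y hxy
    rw [Set.disjoint_left]
    cases x with
    | inl a =>
      cases y with
      | inl b =>
        intro w hw hw'
        have h1 : w = Sum.inl a := hw
        have h2 : w = Sum.inl b := hw'
        have h3 : a = b := Sum.inl_injective (h1.symm.trans h2)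
        exact hxy (by rw [h3])
      | inr v =>
        rintro w hw ⟨b, _, hb⟩
        rw [Set.mem_singleton_iff.1 hw] at hb
        exact absurd hb (by simp)
    | inr u =>
      cases y with
      | inl b =>
        rintro w ⟨b, _, hb⟩ hw
        rw [Set.mem_singleton_iff.1 hw] at hb
        exact absurd hb (by simp)
      | inr v =>
        rintro w ⟨b, hb, rfl⟩ ⟨b', hb', hbb⟩
        have : b' = b := Sum.inr_injective hbb
        subst this
        exact Set.disjoint_left.1 (a2 u v (fun h => hxy (by rw [h]))) hb hb'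
  apply minor_of_iso e e' ψ
  · intro x
    cases x with
    | inl a => exact conn_single _ _
    | inr v =>
      refine conn_image (a1 v) Sum.inr (fun x y hxy => ⟨fun h => ?_, Or.inl hxy⟩)
      exact T'.1.2.ne_of_adj hxy (Sum.inr_injective h)
  · exact hd
  · have key : ∀ x y : Fin k ⊕ Fin T.1.1, x ≠ y → (match x, y with
        | Sum.inl a, Sum.inl b => M.Adj a b
        | Sum.inl a, Sum.inr v => T.2 v a = true
        | Sum.inr u, Sum.inr v => T.1.2.Adj u v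
        | Sum.inr _, Sum.inl _ => False) → ∃ a ∈ ψ x, ∃ b ∈ ψ y, (match a, b with
        | Sum.inl a, Sum.inl b => M.Adj a b
        | Sum.inl a, Sum.inr v => T'.2 v a = true
        | Sum.inr u, Sum.inr v => T'.1.2.Adj u v
        | Sum.inr _, Sum.inl _ => False) := by
      intro x y _ h
      cases x with
      | inl a =>
        cases y with
        | inl b => exact ⟨Sum.inl a, rfl, Sum.inl b, rfl, h⟩
        | inr v =>
          obtain ⟨z, hz, hza⟩ := a4 v a h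
          exact ⟨Sum.inl a, rfl, Sum.inr z, ⟨z, hz, rfl⟩, hza⟩
      | inr u =>
        cases y with
        | inl b => exact absurd h (by simp)
        | inr v =>
          obtain ⟨z, hz, z', hz', hzz⟩ := a3 u v h
          exact ⟨Sum.inr z, ⟨z, hz, rfl⟩, Sum.inr z', ⟨z', hz', rfl⟩, hzz⟩
    rintro x y ⟨hne, h | h⟩
    · obtain ⟨a, ha, b, hb, hab⟩ := key x y hne h
      refine ⟨a, ha, b, hb, ?_, Or.inl hab⟩
      rintro rfl
      exact Set.disjoint_left.1 (hd x y hne) ha hb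
    · obtain ⟨a, ha, b, hb, hab⟩ := key y x hne.symm h
      refine ⟨b, hb, a, ha, ?_, Or.inr hab⟩
      rintro rfl
      exact Set.disjoint_left.1 (hd x y hne) hb ha

/-- the final theorem -/
theorem sky_bqo {k p : ℕ} {B : RG (Fin k) → Prop} (hB : Bqr RMinor B) :
    BQO (UnionOf (SkyGraph p B)) := by
  classical
  apply union_closure
  have h : ∀ M : SimpleGraph (Fin k), Bqr Minor (fun G => ∃ (T : LG (Fin k)) (m : ℕ)
      (K : Fin m → RG (Fin k)), (∀ j, SkyTree p B (K j)) ∧ UnionL K T ∧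
      Nonempty (G.2 ≃g AllG M T)) := by
    intro M
    have hch : ∀ G : FG, ∃ x : LG (Fin k) × LL (RG (Fin k)),
        (∃ (T : LG (Fin k)) (m : ℕ)
          (K : Fin m → RG (Fin k)), (∀ j, SkyTree p B (K j)) ∧ UnionL K T ∧
          Nonempty (G.2 ≃g AllG M T)) →
        (∀ j, SkyTree p B (x.2.2 j)) ∧ UnionL x.2.2 x.1 ∧ Nonempty (G.2 ≃g AllG M x.1) := by
      intro G
      by_cases h : ∃ (T : LG (Fin k)) (m : ℕ)
          (K : Fin m → RG (Fin k)), (∀ j, SkyTree p B (K j)) ∧ UnionL K T ∧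
          Nonempty (G.2 ≃g AllG M T)
      · obtain ⟨T, m, K, h⟩ := h
        exact ⟨(T, ⟨m, K⟩), fun _ => h⟩
      · exact ⟨(⟨⟨0, ⊥⟩, fun _ _ => false⟩, ⟨0, fun j => j.elim0⟩), fun h' => absurd h' h⟩
    choose ρ hρ using hch
    apply bqr_map (list_bqr (sky_bqr (p := p) hB)) (fun G => (ρ G).2) (fun G hG => (hρ G hG).1)
    intro G H hG hH hr
    obtain ⟨_, u1, ⟨e1⟩⟩ := hρ G hG
    obtain ⟨_, u2, ⟨e2⟩⟩ := hρ H hH
    exact all_minor (unionL_mono u1 u2 hr) e1 e2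
  exact bqr_exists h

end Pool.Agent.Bqp.Sky
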