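import Pool.Agent.Bqp.PortDefs
import Pool.Agent.Bqp.Sky

set_option autoImplicit false

namespace Pool.Agent.Bqp.Port

open Pool.Agent.Bqp Pool.Agent.Bqp.Sky

theorem tminor_trans {ι Q : Type} {A B C : Tile ι Q} (h : TileMinor A B) (h' : TileMinor B C) :
    TileMinor A C := by
  obtain ⟨a0, φ, a1, a2, a3, a5, a4⟩ := h
  obtain ⟨b0, ψ, b1, b2, b3, b5, b4⟩ := h'
  refine ⟨fun q => (a0 q).trans (b0 q), fun i => {x | ∃ b ∈ φ i, x ∈ ψ b}, fun i => ?_,
    fun i j hij => ?_, fun i j hij => ?_, fun i l hil => ?_, fun q j hj => ?_⟩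
  · exact connected_biUnion B.G.1.2 C.G.1.2 (φ i) (a1 i) ψ b1 b3
  · rw [Set.disjoint_left]
    rintro x ⟨b, hb, hx⟩ ⟨b', hb', hx'⟩
    by_cases hbb : b = b'
    · subst hbb
      exact Set.disjoint_left.1 (a2 i j hij) hb hb'
    · exact Set.disjoint_left.1 (b2 b b' hbb) hx hx'
  · obtain ⟨b, hb, b', hb', hadj⟩ := a3 i j hij
    obtain ⟨x, hx, y, hy, hxy⟩ := b3 b b' hadj
    exact ⟨x, ⟨b, hb, hx⟩, y, ⟨b', hb', hy⟩, hxy⟩
  · obtain ⟨b, hb, hbl⟩ := a5 i l hil
    obtain ⟨x, hx, hxl⟩ := b5 b l hbl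
    exact ⟨x, ⟨b, hb, hx⟩, hxl⟩
  · exact ⟨B.pt q j, a4 q j hj, b4 q j (hj.trans_le (a0 q))⟩

/-- every piece is a minor of the whole graph -/
theorem piece_le {ι V P : Type} {C : SimpleGraph V} {A : V → ι → Prop} {r : ℕ → V}
    {K : P → PG ι} {μ : P → Option (Bool → Bool)} {a : P → ℕ → V} {G : PG ι}
    {α : V → G.V} {β : ∀ s, (K s).V → G.V} (hG : GluedP C A r K μ a G α β) (p : P)
    (h1 : μ p = none → (K p).w = 1) (h2 : (K p).w ≤ G.w)
    (hL : LinkedP C (K p).w (a p) r) : TileMinor (K p) G := by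
  classical
  obtain ⟨B, q1, q2⟩ := hL
  let φ : (K p).V → Set G.V := fun v => {x | x = β p v ∨
    ∃ j, j < (K p).w ∧ (K p).P j = v ∧ x ∈ α '' B j}
  have hin : ∀ v, β p v ∈ φ v := fun v => Or.inl rfl
  have hα : ∀ x y, C.Adj x y → G.G.1.2.Adj (α x) (α y) := fun x y h =>
    (hG.adj _ _).2 (Or.inl ⟨x, y, rfl, rfl, h⟩)
  have hBc : ∀ j, j < (K p).w → (G.G.1.2.induce (α '' B j)).Connected := fun j hj =>
    conn_image (q1 j hj).1 _ hα
  -- the intersection of `β p v` with the linking sets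
  have hx : ∀ v x, β p v = α x → μ p = none ∧ v = (K p).P 0 := by
    intro v x h
    by_contra hcon
    exact hG.off p v hcon x h
  refine ⟨fun _ => h2, φ, ?_, ?_, ?_, ?_, ?_⟩
  · intro v
    apply SimpleGraph.induce_connected_of_patches (β p v) (hin v)
    intro z hz
    rcases hz with rfl | ⟨j, hj, rfl, hz⟩
    · exact ⟨{β p v}, by rintro _ rfl; exact hin v, rfl, rfl, (conn_single _ _).preconnected _ _⟩
    · have hsub : {β p ((K p).P j)} ∪ α '' B j ⊆ φ ((K p).P j) := by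
        rintro _ (rfl | h)
        · exact hin _
        · exact Or.inr ⟨j, hj, rfl, h⟩
      refine ⟨_, hsub, Or.inl rfl, Or.inr hz, ?_⟩
      obtain ⟨_, b2, b3⟩ := q1 j hj
      cases hμ : μ p with
      | none =>
        have hj0 : j = 0 := by
          have := h1 hμ
          omega
        subst hj0
        have hU := SimpleGraph.induce_union_connected
          (conn_single G.G.1.2 (β p ((K p).P 0))).preconnected (hBc 0 hj).preconnected
          ⟨β p ((K p).P 0), rfl, ⟨_, b2, (hG.root p hμ).symm⟩⟩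
        exact hU _ _
      | some e =>
        have hadj : G.G.1.2.Adj (β p ((K p).P j)) (α (a p j)) :=
          (hG.adj _ _).2 (Or.inr (Or.inr ⟨p, e, j, j, hμ, ⟨hj, hj, Or.inl rfl⟩,
            Or.inr ⟨rfl, rfl⟩⟩))
        have h5 : (G.G.1.2.induce ({β p ((K p).P j)} ∪ α '' B j)).Reachable
            ⟨β p ((K p).P j), Or.inl rfl⟩ ⟨α (a p j), Or.inr ⟨_, b2, rfl⟩⟩ := by
          apply SimpleGraph.Adj.reachable
          rw [SimpleGraph.induce_adj]
          exact hadj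
        refine h5.trans ?_
        have h6 := (hBc j hj).preconnected ⟨α (a p j), ⟨_, b2, rfl⟩⟩ ⟨z, hz⟩
        exact h6.map (SimpleGraph.induceHomOfLE G.G.1.2 (Set.subset_union_right)).toHom
  · intro v v' hvv
    rw [Set.disjoint_left]
    rintro z (rfl | ⟨j, hj, rfl, u, hu, rfl⟩) (h | ⟨j', hj', rfl, u', hu', h⟩)
    · exact hvv (hG.injb p h)
    · obtain ⟨h3, h4⟩ := hx v u' h.symm
      have hj0 : j' = 0 := by
        have := h1 h3
        omega
      subst hj0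
      exact hvv h4
    · obtain ⟨h3, h4⟩ := hx v' u h.symm
      have hj0 : j = 0 := by
        have := h1 h3
        omega
      subst hj0
      exact hvv h4.symm
    · have h3 := hG.inj h
      subst h3
      rcases Nat.lt_trichotomy j j' with h | h | h
      · exact Set.disjoint_left.1 (q2 j j' h hj') hu hu'
      · exact hvv (by rw [h])
      · exact Set.disjoint_left.1 (q2 j' j h hj) hu' hu
  · intro v w h
    exact ⟨_, hin v, _, hin w, (hG.adj _ _).2 (Or.inr (Or.inl ⟨p, v, w, rfl, rfl, h⟩))⟩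
  · intro v l h
    exact ⟨_, hin v, (hG.att _ _).2 (Or.inr ⟨p, v, rfl, h⟩)⟩
  · intro _ j hj
    have h3 := hG.groot j (lt_of_lt_of_le hj h2)
    change G.P j ∈ φ ((K p).P j)
    rw [h3]
    exact Or.inr ⟨j, hj, rfl, r j, (q1 j hj).2.2, rfl⟩

/-- gluing is monotone -/
theorem glued_mono {ι V V' P P' : Type} {C : SimpleGraph V} {C' : SimpleGraph V'}
    {A : V → ι → Prop} {A' : V' → ι → Prop} {r : ℕ → V} {r' : ℕ → V'}
    {K : P → PG ι} {K' : P' → PG ι} {μ : P → Option (Bool → Bool)}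
    {μ' : P' → Option (Bool → Bool)} {a : P → ℕ → V} {a' : P' → ℕ → V'} {G G' : PG ι}
    {α : V → G.V} {β : ∀ s, (K s).V → G.V} {α' : V' → G'.V} {β' : ∀ s, (K' s).V → G'.V}
    (hG : GluedP C A r K μ a G α β) (hG' : GluedP C' A' r' K' μ' a' G' α' β')
    (φ : V → Set V')
    (c1 : ∀ v, (C'.induce (φ v)).Connected) (c2 : ∀ u v, u ≠ v → Disjoint (φ u) (φ v))
    (c3 : ∀ u v, C.Adj u v → ∃ x ∈ φ u, ∃ y ∈ φ v, C'.Adj x y)
    (c4 : ∀ u l, A u l → ∃ x ∈ φ u, A' x l) (hW : G.w ≤ G'.w)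
    (cr : ∀ j, j < G.w → r' j ∈ φ (r j))
    (h1 : ∀ p, μ p = none → (K p).w = 1)
    (σ : P → P') (hσ : Function.Injective σ) (hμ : ∀ p, μ p = μ' (σ p))
    (ca : ∀ p j, j < (K p).w → a' (σ p) j ∈ φ (a p j))
    (hK : ∀ p, TileMinor (K p) (K' (σ p))) : TileMinor G G' := by
  classical
  have hK1 : ∀ p, (K p).w ≤ (K' (σ p)).w := fun p => (hK p).1 ()
  have hK2 : ∀ p, _ := fun p => (hK p).2
  choose ψ d1 d2 d3 d4 d5 using hK2
  have hP : ∀ p j, j < (K p).w → (K' (σ p)).P j ∈ ψ p ((K p).P j) := fun p j hj => d5 p () j hj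
  let Φ : G.V → Set G'.V := fun x =>
    {z | (∃ u, x = α u ∧ ∃ b ∈ φ u, z = α' b) ∨
      ∃ p u, x = β p u ∧ ∃ w ∈ ψ p u, z = β' (σ p) w}
  have hrt : ∀ p w, β' (σ p) w ∈ Set.range α' → μ p = none ∧ w = (K' (σ p)).P 0 := by
    intro p w h
    rw [hμ p]
    by_contra hcon
    obtain ⟨x, hx⟩ := h
    exact hG'.off (σ p) w hcon x hx.symm
  have h0 : ∀ p, μ p = none → 0 < (K p).w := fun p h => by have := h1 p h; omega
  have hrt2 : ∀ p u, μ p = none → (K' (σ p)).P 0 ∈ ψ p u → u = (K p).P 0 := by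
    intro p u hm h
    by_contra hcon
    exact Set.disjoint_left.1 (d2 p _ _ hcon) h (hP p 0 (h0 p hm))
  have hdis : ∀ x y, x ≠ y → Disjoint (Φ x) (Φ y) := by
    intro x y hxy
    rw [Set.disjoint_left]
    rintro z hz hz'
    apply hxy
    rcases hz with ⟨u, rfl, b, hb, rfl⟩ | ⟨p, u, rfl, w, hw, rfl⟩
    · rcases hz' with ⟨u', rfl, b', hb', h⟩ | ⟨p', u', rfl, w', hw', h⟩
      · have h1 := hG'.inj h
        subst h1
        by_contra hcon
        exact Set.disjoint_left.1 (c2 u u' (fun h => hcon (by rw [h]))) hb hb'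
      · obtain ⟨hm, h0'⟩ := hrt p' w' ⟨b, h⟩
        subst h0'
        have h1 := hrt2 p' u' hm hw'
        subst h1
        rw [hG'.root _ ((hμ p').symm.trans hm)] at h
        have h2 := hG'.inj h
        subst h2
        rw [hG.root _ hm]
        by_contra hcon
        exact Set.disjoint_left.1 (c2 u (a p' 0) (fun h => hcon (by rw [h]))) hb
          (ca p' 0 (h0 p' hm))
    · rcases hz' with ⟨u', rfl, b', hb', h⟩ | ⟨p', u', rfl, w', hw', h⟩
      · obtain ⟨hm, h0'⟩ := hrt p w ⟨b', h.symm⟩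
        subst h0'
        have h1 := hrt2 p u hm hw
        subst h1
        rw [hG'.root _ ((hμ p).symm.trans hm)] at h
        have h2 := hG'.inj h
        subst h2
        rw [hG.root _ hm]
        by_contra hcon
        exact Set.disjoint_left.1 (c2 u' (a p 0) (fun h => hcon (by rw [h]))) hb'
          (ca p 0 (h0 p hm))
      · by_cases hwr : μ p = none ∧ w = (K' (σ p)).P 0
        · obtain ⟨hm, rfl⟩ := hwr
          have h1 := hrt2 p u hm hw
          subst h1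
          obtain ⟨hm', h0'⟩ := hrt p' w' ⟨a' (σ p) 0, by
            rw [← hG'.root _ ((hμ p).symm.trans hm)]; exact h⟩
          subst h0'
          have h1 := hrt2 p' u' hm' hw'
          subst h1
          rw [hG'.root _ ((hμ p).symm.trans hm), hG'.root _ ((hμ p').symm.trans hm')] at h
          have h2 := hG'.inj h
          rw [hG.root _ hm, hG.root _ hm']
          by_contra hcon
          have h3 := ca p' 0 (h0 p' hm')
          rw [← h2] at h3
          exact Set.disjoint_left.1 (c2 (a p 0) (a p' 0) (fun h => hcon (by rw [h])))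
            (ca p 0 (h0 p hm)) h3
        · rw [hμ p] at hwr
          have h1 := hσ (hG'.disj _ _ w w' hwr h)
          subst h1
          have h2 := hG'.injb _ h
          subst h2
          by_contra hcon
          exact Set.disjoint_left.1 (d2 p u u' (fun h => hcon (by rw [h]))) hw hw'
  have hα' : ∀ x y, C'.Adj x y → G'.G.1.2.Adj (α' x) (α' y) := fun x y h =>
    (hG'.adj _ _).2 (Or.inl ⟨x, y, rfl, rfl, h⟩)
  have hβ' : ∀ p x y, (K' p).G.1.2.Adj x y → G'.G.1.2.Adj (β' p x) (β' p y) := fun p x y h =>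
    (hG'.adj _ _).2 (Or.inr (Or.inl ⟨p, x, y, rfl, rfl, h⟩))
  refine ⟨fun _ => hW, Φ, ?_, hdis, ?_, ?_, ?_⟩
  · intro x
    by_cases hx : ∃ u, x = α u
    · obtain ⟨u, rfl⟩ := hx
      obtain ⟨⟨b0, hb0⟩⟩ := (c1 u).nonempty
      have hA : (G'.G.1.2.induce (α' '' φ u)).Connected := conn_image (c1 u) _ hα'
      apply SimpleGraph.induce_connected_of_patches (α' b0) (Or.inl ⟨u, rfl, b0, hb0, rfl⟩)
      intro z hz
      have hsub : α' '' φ u ⊆ Φ (α u) := by
        rintro _ ⟨b, hb, rfl⟩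
        exact Or.inl ⟨u, rfl, b, hb, rfl⟩
      rcases hz with ⟨u', hu', b, hb, rfl⟩ | ⟨p, v, hv, w, hw, rfl⟩
      · have h1 := hG.inj hu'
        subst h1
        exact ⟨α' '' φ u, hsub, ⟨b0, hb0, rfl⟩, ⟨b, hb, rfl⟩, hA.preconnected _ _⟩
      · have hvr : μ p = none ∧ v = (K p).P 0 := by
          by_contra hcon
          exact hG.off p v hcon u hv.symm
        obtain ⟨hm, rfl⟩ := hvr
        rw [hG.root _ hm] at hv
        have h1 := hG.inj hv
        subst h1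
        have hB : (G'.G.1.2.induce (β' (σ p) '' ψ p ((K p).P 0))).Connected :=
          conn_image (d1 p _) _ (hβ' _)
        have hU := SimpleGraph.induce_union_connected hA.preconnected hB.preconnected
          ⟨α' (a' (σ p) 0), ⟨_, ca p 0 (h0 p hm), rfl⟩, ⟨_, hP p 0 (h0 p hm),
            hG'.root _ ((hμ p).symm.trans hm)⟩⟩
        refine ⟨_, ?_, Or.inl ⟨b0, hb0, rfl⟩, Or.inr ⟨w, hw, rfl⟩, hU _ _⟩
        rintro _ (⟨b, hb, rfl⟩ | ⟨y, hy, rfl⟩)
        · exact Or.inl ⟨_, rfl, b, hb, rfl⟩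
        · exact Or.inr ⟨p, _, (hG.root p hm).symm, y, hy, rfl⟩
    · obtain ⟨p, u, rfl⟩ := (hG.cover x).resolve_left hx
      have hur : ¬ (μ p = none ∧ u = (K p).P 0) := by
        rintro ⟨hm, rfl⟩
        exact hx ⟨_, hG.root p hm⟩
      have hΦ : Φ (β p u) = β' (σ p) '' ψ p u := by
        ext z
        constructor
        · rintro (⟨v, hv, _⟩ | ⟨p', u', hu', w, hw, rfl⟩)
          · exact absurd ⟨v, hv⟩ hx
          · have h1 := hG.disj _ _ _ _ hur hu'
            subst h1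
            have h2 := hG.injb _ hu'
            subst h2
            exact ⟨w, hw, rfl⟩
        · rintro ⟨w, hw, rfl⟩
          exact Or.inr ⟨p, u, rfl, w, hw, rfl⟩
      rw [hΦ]
      exact conn_image (d1 p u) _ (hβ' _)
  · intro x y h
    rcases (hG.adj x y).1 h with ⟨u, v, rfl, rfl, h0⟩ | ⟨p, u, v, rfl, rfl, h0⟩ |
      ⟨p, e, j, j', hm, hj, h0⟩
    · obtain ⟨x', hx', y', hy', h'⟩ := c3 u v h0
      exact ⟨_, Or.inl ⟨u, rfl, x', hx', rfl⟩, _, Or.inl ⟨v, rfl, y', hy', rfl⟩, hα' _ _ h'⟩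
    · obtain ⟨x', hx', y', hy', h'⟩ := d3 p u v h0
      exact ⟨_, Or.inr ⟨p, u, rfl, x', hx', rfl⟩, _, Or.inr ⟨p, v, rfl, y', hy', rfl⟩,
        hβ' _ _ _ h'⟩
    · have hw := hK1 p
      have h3 : α' (a' (σ p) j) ∈ Φ (α (a p j)) := Or.inl ⟨_, rfl, _, ca p j hj.1, rfl⟩
      have h4 : β' (σ p) ((K' (σ p)).P j') ∈ Φ (β p ((K p).P j')) :=
        Or.inr ⟨p, _, rfl, _, hP p j' hj.2.1, rfl⟩
      have h5 : Joined (K' (σ p)).w e j j' :=
        ⟨lt_of_lt_of_le hj.1 hw, lt_of_lt_of_le hj.2.1 hw, hj.2.2⟩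
      have hm' : μ' (σ p) = some e := (hμ p).symm.trans hm
      rcases h0 with ⟨rfl, rfl⟩ | ⟨rfl, rfl⟩
      · exact ⟨_, h3, _, h4, (hG'.adj _ _).2 (Or.inr (Or.inr ⟨σ p, e, j, j', hm', h5,
          Or.inl ⟨rfl, rfl⟩⟩))⟩
      · exact ⟨_, h4, _, h3, (hG'.adj _ _).2 (Or.inr (Or.inr ⟨σ p, e, j, j', hm', h5,
          Or.inr ⟨rfl, rfl⟩⟩))⟩
  · intro x l h
    rcases (hG.att x l).1 h with ⟨u, rfl, h0⟩ | ⟨p, u, rfl, h0⟩
    · obtain ⟨x', hx', h'⟩ := c4 u l h0
      exact ⟨_, Or.inl ⟨u, rfl, x', hx', rfl⟩, (hG'.att _ _).2 (Or.inl ⟨x', rfl, h'⟩)⟩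
    · obtain ⟨x', hx', h'⟩ := d4 p u l h0
      exact ⟨_, Or.inr ⟨p, u, rfl, x', hx', rfl⟩, (hG'.att _ _).2 (Or.inr ⟨_, x', rfl, h'⟩)⟩
  · intro _ j hj
    change G'.P j ∈ Φ (G.P j)
    rw [hG.groot j hj, hG'.groot j (lt_of_lt_of_le hj hW)]
    exact Or.inl ⟨_, rfl, _, cr j hj, rfl⟩

end Pool.Agent.Bqp.Port
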