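import Pool.Agent.Bqp.Closure

set_option autoImplicit false

namespace Pool.Agent.Bqp

/-- the path with `n` vertices -/
def PathG (n : ℕ) : FG := ⟨n, SimpleGraph.pathGraph n⟩

/-- the cartesian product of `T` with the path with `n` vertices -/
def PrismG {t : ℕ} (T : SimpleGraph (Fin t)) (n : ℕ) : SimpleGraph (Fin (t * n)) :=
  (SimpleGraph.boxProd T (SimpleGraph.pathGraph n)).comap finProdFinEquiv.symm

/-- the cartesian product of `T` with the path with `n` vertices -/
def Prism (T : FG) (n : ℕ) : FG := ⟨T.1 * n, PrismG T.2 n⟩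

theorem prismG_adj {t n : ℕ} (T : SimpleGraph (Fin t)) (v w : Fin (t * n)) :
    (PrismG T n).Adj v w ↔
      (T.Adj (finProdFinEquiv.symm v).1 (finProdFinEquiv.symm w).1 ∧
        (finProdFinEquiv.symm v).2 = (finProdFinEquiv.symm w).2) ∨
      ((SimpleGraph.pathGraph n).Adj (finProdFinEquiv.symm v).2 (finProdFinEquiv.symm w).2 ∧
        (finProdFinEquiv.symm v).1 = (finProdFinEquiv.symm w).1) := by
  simp only [PrismG, SimpleGraph.comap_adj, SimpleGraph.boxProd_adj]

theorem path_adj_castLE {a b : ℕ} (h : a ≤ b) (i j : Fin a)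
    (hij : (SimpleGraph.pathGraph a).Adj i j) :
    (SimpleGraph.pathGraph b).Adj (Fin.castLE h i) (Fin.castLE h j) := by
  rw [SimpleGraph.pathGraph_adj] at hij ⊢
  simpa using hij

theorem path_minor {a b : ℕ} (h : a ≤ b) : Minor (PathG a) (PathG b) :=
  minor_of_inj (A := PathG a) (B := PathG b) (fun i => Fin.castLE h i)
    (fun _ _ hij => Fin.castLE_injective h hij) (fun i j hij => path_adj_castLE h i j hij)

theorem prism_mono {T T' : FG} {n n' : ℕ} (hT : Minor T T') (hn : n ≤ n') :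
    Minor (Prism T n) (Prism T' n') := by
  obtain ⟨t, T⟩ := T
  obtain ⟨t', T'⟩ := T'
  obtain ⟨φ, a1, a2, a3⟩ := hT
  change Fin t → Set (Fin t') at φ
  change ∀ i : Fin t, (T'.induce (φ i)).Connected at a1
  change ∀ i j : Fin t, i ≠ j → Disjoint (φ i) (φ j) at a2
  change ∀ i j : Fin t, T.Adj i j → ∃ a ∈ φ i, ∃ b ∈ φ j, T'.Adj a b at a3
  have key : ∀ (i : Fin t) (k : Fin n), ((PrismG T' n').induce
      {w : Fin (t' * n') | ∃ b ∈ φ i, w = finProdFinEquiv (b, Fin.castLE hn k)}).Connected := by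
    intro i k
    let F : (T'.induce (φ i)) →g ((PrismG T' n').induce
        {w : Fin (t' * n') | ∃ b ∈ φ i, w = finProdFinEquiv (b, Fin.castLE hn k)}) :=
      { toFun := fun x => ⟨finProdFinEquiv (x.1, Fin.castLE hn k), x.1, x.2, rfl⟩
        map_rel' := by
          intro x y hxy
          rw [SimpleGraph.induce_adj] at hxy ⊢
          rw [prismG_adj]
          simp only [Equiv.symm_apply_apply]
          exact Or.inl ⟨hxy, trivial⟩ }
    have hF : Function.Surjective F := by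
      rintro ⟨w, b, hb, rfl⟩
      exact ⟨⟨b, hb⟩, rfl⟩
    exact SimpleGraph.Connected.map F hF (a1 i)
  refine ⟨fun v => {w : Fin (t' * n') | ∃ b ∈ φ (finProdFinEquiv.symm v).1,
    w = finProdFinEquiv (b, Fin.castLE hn (finProdFinEquiv.symm v).2)}, fun v => key _ _, ?_, ?_⟩
  · intro v v' hvv'
    rw [Set.disjoint_left]
    rintro w ⟨b, hb, rfl⟩ ⟨b', hb', hw'⟩
    have h1 := finProdFinEquiv.injective hw'
    rw [Prod.mk.injEq] at h1
    obtain ⟨rfl, h2⟩ := h1
    have h3 := Fin.castLE_injective hn h2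
    apply hvv'
    apply finProdFinEquiv.symm.injective
    refine Prod.ext ?_ h3
    by_contra hne
    exact Set.disjoint_left.1 (a2 _ _ hne) hb hb'
  · intro v v' hadj
    rcases (prismG_adj T v v').1 hadj with ⟨h1, h2⟩ | ⟨h1, h2⟩
    · obtain ⟨b, hb, b', hb', hbb⟩ := a3 _ _ h1
      refine ⟨_, ⟨b, hb, rfl⟩, _, ⟨b', hb', rfl⟩, ?_⟩
      change (PrismG T' n').Adj _ _
      rw [prismG_adj]
      simp only [Equiv.symm_apply_apply]
      exact Or.inl ⟨hbb, by rw [h2]⟩
    · obtain ⟨b⟩ := (a1 (finProdFinEquiv.symm v).1).nonempty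
      refine ⟨_, ⟨b.1, b.2, rfl⟩, _, ⟨b.1, h2 ▸ b.2, rfl⟩, ?_⟩
      change (PrismG T' n').Adj _ _
      rw [prismG_adj]
      simp only [Equiv.symm_apply_apply]
      exact Or.inr ⟨path_adj_castLE hn _ _ h1, trivial⟩

theorem bqo_paths : BQO (fun T => ∃ m, T = PathG m) := by
  apply crit bqr_nat (fun G => G.1) _ (fun _ _ => trivial)
  rintro A ⟨a, rfl⟩
  refine ⟨0, ?_⟩
  rintro B ⟨b, rfl⟩ _ h
  exact path_minor h

/-- sandwiched classes -/
theorem sandwich (D : FG → Prop) (hD : BQO D) (S : FG → ℕ → FG)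
    (hS : ∀ T T' n n', Minor T T' → n ≤ n' → Minor (S T n) (S T' n')) (F : ℕ → ℕ) :
    BQO (fun G => ∃ T n, D T ∧ T.1 ≤ n ∧ Minor (S T n) G ∧ Minor G (S T (F n))) := by
  classical
  have hch : ∀ G : FG, ∃ T : FG, (∃ T n, D T ∧ T.1 ≤ n ∧ Minor (S T n) G ∧ Minor G (S T (F n))) →
      ∃ n, D T ∧ T.1 ≤ n ∧ Minor (S T n) G ∧ Minor G (S T (F n)) := by
    intro G
    by_cases h : ∃ T n, D T ∧ T.1 ≤ n ∧ Minor (S T n) G ∧ Minor G (S T (F n))
    · obtain ⟨T, h⟩ := h
      exact ⟨T, fun _ => h⟩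
    · exact ⟨⟨0, ⊥⟩, fun h' => absurd h' h⟩
  choose ρ hρ using hch
  apply crit ((bqo_iff D).1 hD) ρ
  · intro A hA
    obtain ⟨n, h, _⟩ := hρ A hA
    exact h
  · intro A hA
    obtain ⟨n, _, _, _, hA2⟩ := hρ A hA
    -- bound of the sizes
    let M : ℕ := ∑ m ∈ Finset.range (F n), ∑ k ∈ Finset.range (F n),
      ∑ T : SimpleGraph (Fin m), (S ⟨m, T⟩ (F k)).1
    refine ⟨M + 1, fun B hB hBM hr => ?_⟩
    obtain ⟨n', _, hTn, hB1, hB2⟩ := hρ B hB
    have hn' : F n ≤ n' := by
      by_contra hcon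
      push Not at hcon
      have h1 : B.1 ≤ (S (ρ B) (F n')).1 := minor_card hB2
      have h2 : (S (ρ B) (F n')).1 ≤ M := by
        generalize ρ B = R at hTn ⊢
        obtain ⟨m, T⟩ := R
        change m ≤ n' at hTn
        calc (S ⟨m, T⟩ (F n')).1
            ≤ ∑ T : SimpleGraph (Fin m), (S ⟨m, T⟩ (F n')).1 :=
              Finset.single_le_sum (f := fun T : SimpleGraph (Fin m) => (S ⟨m, T⟩ (F n')).1)
                (fun _ _ => Nat.zero_le _) (Finset.mem_univ T)
          _ ≤ ∑ k ∈ Finset.range (F n), ∑ T : SimpleGraph (Fin m), (S ⟨m, T⟩ (F k)).1 :=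
              Finset.single_le_sum
                (f := fun k => ∑ T : SimpleGraph (Fin m), (S ⟨m, T⟩ (F k)).1)
                (fun _ _ => Nat.zero_le _) (Finset.mem_range.2 hcon)
          _ ≤ M :=
              Finset.single_le_sum
                (f := fun m => ∑ k ∈ Finset.range (F n), ∑ T : SimpleGraph (Fin m),
                  (S ⟨m, T⟩ (F k)).1)
                (fun _ _ => Nat.zero_le _) (Finset.mem_range.2 (lt_of_le_of_lt hTn hcon))
      omega
    exact minor_trans (minor_trans hA2 (hS _ _ _ _ hr hn')) hB1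

theorem bqo_mono {C D : FG → Prop} (h : ∀ G, C G → D G) (hD : BQO D) : BQO C :=
  fun f hf hc => hD f (fun X hX => h _ (hf X hX)) hc

theorem union_mono {C D : FG → Prop} (h : ∀ G, C G → D G) (G : FG) (hG : UnionOf C G) :
    UnionOf D G := by
  obtain ⟨r, K, h1, h2⟩ := hG
  exact ⟨r, K, fun i => h _ (h1 i), h2⟩

/-- the union of two bqo classes is bqo -/
theorem or_bqo {C D : FG → Prop} (hC : BQO C) (hD : BQO D) : BQO (fun G => C G ∨ D G) := by
  classical
  apply reduction (fun G => C G ∨ D G) C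
  · exact bqo_mono (fun G hG => hG.2) hC
  · exact bqo_mono (fun G hG => hG.1.resolve_left hG.2) hD

/-- a class each member of which is a minor of almost all members is bqo -/
theorem omega_bqo {D : FG → Prop} (hD : ∀ A, D A → ∃ N, ∀ B, D B → N ≤ B.1 → Minor A B) :
    BQO D := by
  apply crit bqr_nat (fun _ => 0) D (fun _ _ => trivial)
  intro A hA
  obtain ⟨N, hN⟩ := hD A hA
  exact ⟨N, fun B hB h _ => hN B hB h⟩

end Pool.Agent.Bqp
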