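import Mathlib

set_option autoImplicit false

namespace Pool.Agent.Bqp

/-- `c` is locally constant on infinite sets of naturals. -/
def LocConst {α : Type*} (c : Set ℕ → α) : Prop :=
  ∀ X : Set ℕ, X.Infinite → ∃ N : ℕ, ∀ Y : Set ℕ, Y.Infinite →
    (∀ k < N, (k ∈ X ↔ k ∈ Y)) → c Y = c X

/-- `s` is an initial segment of `Y`. -/
def Agree (Y : Set ℕ) (s : Finset ℕ) : Prop := ∀ k, (∃ m ∈ s, k ≤ m) → (k ∈ Y ↔ k ∈ s)

inductive Lim {α : Type*} (c : Set ℕ → α) (U : Filter ℕ) : Finset ℕ → α → Prop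
  | det (s : Finset ℕ) (v : α) (h : ∀ Y : Set ℕ, Y.Infinite → Agree Y s → c Y = v) : Lim c U s v
  | lim (s : Finset ℕ) (v : α) (A : Set ℕ) (hA : A ∈ U) (h : ∀ n ∈ A, Lim c U (insert n s) v) :
      Lim c U s v

theorem agree_insert {Y : Set ℕ} {s : Finset ℕ} {n : ℕ} (hn : ∀ m ∈ s, m < n)
    (h : Agree Y (insert n s)) : Agree Y s := by
  intro k hk
  obtain ⟨m, hm, hkm⟩ := hk
  have h1 := h k ⟨m, Finset.mem_insert_of_mem hm, hkm⟩
  rw [h1, Finset.mem_insert]
  constructor
  · rintro (rfl | h2)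
    · exact absurd (hn m hm) (by omega)
    · exact h2
  · intro h2; exact Or.inr h2

theorem large_gt (s : Finset ℕ) : {n : ℕ | ∀ m ∈ s, m < n} ∈ (Filter.hyperfilter ℕ : Filter ℕ) := by
  apply Filter.mem_hyperfilter_of_finite_compl
  apply (Set.finite_Iic (s.sup id)).subset
  intro n hn
  simp only [Set.mem_compl_iff, Set.mem_ofPred_eq, not_forall, not_lt] at hn
  obtain ⟨m, hm, hnm⟩ := hn
  exact hnm.trans (Finset.le_sup (f := id) hm)

theorem lim_step {α : Type*} {c : Set ℕ → α} {s : Finset ℕ} {v : α}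
    (h : Lim c (Filter.hyperfilter ℕ : Filter ℕ) s v) :
    ∃ A ∈ (Filter.hyperfilter ℕ : Filter ℕ), ∀ n ∈ A, Lim c (Filter.hyperfilter ℕ : Filter ℕ) (insert n s) v := by
  cases h with
  | det _ _ h =>
    refine ⟨{n | ∀ m ∈ s, m < n}, large_gt s, fun n hn => ?_⟩
    exact Lim.det _ _ (fun Y hY hA => h Y hY (agree_insert hn hA))
  | lim _ _ A hA h => exact ⟨A, hA, h⟩

theorem exists_agree (s : Finset ℕ) : ∃ Y : Set ℕ, Y.Infinite ∧ Agree Y s := by
  refine ⟨(s : Set ℕ) ∪ Set.Ioi (s.sup id), (Set.Ioi_infinite _).mono Set.subset_union_right, ?_⟩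
  intro k hk
  obtain ⟨m, hm, hkm⟩ := hk
  have : m ≤ s.sup id := Finset.le_sup (f := id) hm
  simp only [Set.mem_union, Finset.mem_coe, Set.mem_Ioi]
  constructor
  · rintro (h | h)
    · exact h
    · omega
  · intro h; exact Or.inl h

theorem lim_det {α : Type*} {c : Set ℕ → α} {s : Finset ℕ} {v : α}
    (h : Lim c (Filter.hyperfilter ℕ : Filter ℕ) s v) :
    ∀ w, (∀ Y : Set ℕ, Y.Infinite → Agree Y s → c Y = w) → v = w := by
  induction h with
  | det s v h =>
    intro w hw
    obtain ⟨Y, hY, hA⟩ := exists_agree s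
    rw [← h Y hY hA, hw Y hY hA]
  | lim s v A hA h ih =>
    intro w hw
    obtain ⟨n, hn⟩ := Filter.nonempty_of_mem (Filter.inter_mem hA (large_gt s))
    exact ih n hn.1 w (fun Y hY hAg => hw Y hY (agree_insert hn.2 hAg))

/-- union of an increasing chain obtained by adding larger and larger elements -/
theorem chain {P : Finset ℕ → Prop} (h0 : P ∅)
    (hs : ∀ s, P s → ∃ n, (∀ m ∈ s, m < n) ∧ P (insert n s)) :
    ∃ F : ℕ → Finset ℕ, (∀ i, P (F i)) ∧ F 0 = ∅ ∧
      ∀ i, ∃ n, (∀ m ∈ F i, m < n) ∧ F (i + 1) = insert n (F i) := by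
  classical
  choose! g hg using hs
  let G : ℕ → {s : Finset ℕ // P s} := fun i =>
    Nat.rec ⟨∅, h0⟩ (fun _ s => ⟨insert (g s.1) s.1, (hg s.1 s.2).2⟩) i
  refine ⟨fun i => (G i).1, fun i => (G i).2, rfl, fun i => ⟨g (G i).1, (hg _ (G i).2).1, rfl⟩⟩

section chainfacts
variable {F : ℕ → Finset ℕ} (hF0 : F 0 = ∅)
  (hF : ∀ i, ∃ n, (∀ m ∈ F i, m < n) ∧ F (i + 1) = insert n (F i))
include hF

theorem chain_mono : Monotone F := by
  apply monotone_nat_of_le_succ
  intro i
  obtain ⟨n, _, h⟩ := hF i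
  rw [h]; exact Finset.subset_insert _ _

/-- elements of the union which are below some element of `F i` are in `F i` -/
theorem chain_initial (i j : ℕ) (hij : i ≤ j) (k m : ℕ) (hk : k ∈ F j) (hm : m ∈ F i) (hkm : k ≤ m) :
    k ∈ F i := by
  induction j, hij using Nat.le_induction with
  | base => exact hk
  | succ j hij ih =>
    obtain ⟨n, hn, h⟩ := hF j
    rw [h, Finset.mem_insert] at hk
    rcases hk with rfl | hk
    · have := hn m (chain_mono hF hij hm)
      omega
    · exact ih hk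

theorem chain_union_infinite : (⋃ i, (F i : Set ℕ)).Infinite := by
  rw [Set.infinite_iff_exists_gt]
  intro a
  -- cards grow
  have hcard : ∀ i, i ≤ (F i).card := by
    intro i
    induction i with
    | zero => exact Nat.zero_le _
    | succ i ih =>
      obtain ⟨n, hn, h⟩ := hF i
      rw [h, Finset.card_insert_of_notMem (fun hmem => absurd (hn n hmem) (lt_irrefl _))]
      omega
  by_contra hcon
  push Not at hcon
  have hsub : F (a + 2) ⊆ Finset.range (a + 1) := by
    intro x hx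
    rw [Finset.mem_range]
    have := hcon x (Set.mem_iUnion.2 ⟨_, hx⟩)
    omega
  have := Finset.card_le_card hsub
  have h2 := hcard (a + 2)
  rw [Finset.card_range] at this
  omega

end chainfacts

theorem exists_lim {α : Type*} [Finite α] {c : Set ℕ → α} (hc : LocConst c) :
    ∃ v, Lim c (Filter.hyperfilter ℕ : Filter ℕ) ∅ v := by
  classical
  by_contra h0
  have hs : ∀ s, (¬ ∃ v, Lim c (Filter.hyperfilter ℕ : Filter ℕ) s v) →
      ∃ n, (∀ m ∈ s, m < n) ∧ (¬ ∃ v, Lim c (Filter.hyperfilter ℕ : Filter ℕ) (insert n s) v) := by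
    intro s hs
    by_contra hcon
    push Not at hcon
    -- for all n > s there is v
    have h1 : (⋃ v : α, {n : ℕ | Lim c (Filter.hyperfilter ℕ : Filter ℕ) (insert n s) v}) ∈
        (Filter.hyperfilter ℕ : Filter ℕ) := by
      apply Filter.mem_of_superset (large_gt s)
      intro n hn
      obtain ⟨v, hv⟩ := hcon n hn
      exact Set.mem_iUnion.2 ⟨v, hv⟩
    have h2 : ∃ v : α, {n : ℕ | Lim c (Filter.hyperfilter ℕ : Filter ℕ) (insert n s) v} ∈
        (Filter.hyperfilter ℕ : Filter ℕ) := by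
      have := (Ultrafilter.finite_biUnion_mem_iff (f := Filter.hyperfilter ℕ) (Set.finite_univ (α := α))
        (s := fun v => {n : ℕ | Lim c (Filter.hyperfilter ℕ : Filter ℕ) (insert n s) v})).1 (by
          simpa using h1)
      obtain ⟨v, _, hv⟩ := this
      exact ⟨v, hv⟩
    obtain ⟨v, hv⟩ := h2
    exact hs ⟨v, Lim.lim s v _ hv (fun n hn => hn)⟩
  obtain ⟨F, hP, hF0, hF⟩ := chain h0 hs
  have hinf := chain_union_infinite hF
  obtain ⟨N, hN⟩ := hc _ hinf
  obtain ⟨a, ha, haN⟩ := (Set.infinite_iff_exists_gt.1 hinf) N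
  obtain ⟨i, hi⟩ := Set.mem_iUnion.1 ha
  apply hP i
  refine ⟨c (⋃ i, (F i : Set ℕ)), Lim.det _ _ (fun Y hY hA => hN Y hY (fun k hk => ?_))⟩
  rw [hA k ⟨a, hi, by omega⟩]
  constructor
  · intro h
    obtain ⟨j, hj⟩ := Set.mem_iUnion.1 h
    rcases le_total i j with hij | hij
    · exact chain_initial hF i j hij k a hj hi (by omega)
    · exact chain_mono hF hij hj
  · intro h; exact Set.mem_iUnion.2 ⟨i, h⟩

/-- Nash-Williams: a locally constant finite colouring of the infinite sets is constant on the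
infinite subsets of some infinite set inside a given one. -/
theorem ramsey {α : Type*} [Finite α] {c : Set ℕ → α} (hc : LocConst c) :
    ∃ Y : Set ℕ, Y.Infinite ∧ ∃ v, ∀ X : Set ℕ, X ⊆ Y → X.Infinite → c X = v := by
  classical
  obtain ⟨v, hv⟩ := exists_lim hc
  have hstep : ∀ F : Finset ℕ, (∀ s ⊆ F, Lim c (Filter.hyperfilter ℕ : Filter ℕ) s v) →
      ∃ n, (∀ m ∈ F, m < n) ∧ (∀ s ⊆ insert n F, Lim c (Filter.hyperfilter ℕ : Filter ℕ) s v) := by
    intro F hF
    have h1 : ∀ s : Finset ℕ, ∃ A ∈ (Filter.hyperfilter ℕ : Filter ℕ), s ⊆ F →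
        ∀ n ∈ A, Lim c (Filter.hyperfilter ℕ : Filter ℕ) (insert n s) v := by
      intro s
      by_cases hs : s ⊆ F
      · obtain ⟨A, hA, h⟩ := lim_step (hF s hs)
        exact ⟨A, hA, fun _ => h⟩
      · exact ⟨Set.univ, Filter.univ_mem, fun h => absurd h hs⟩
    choose A hA h using h1
    have h2 : (⋂ s ∈ F.powerset, A s) ∈ (Filter.hyperfilter ℕ : Filter ℕ) :=
      (Filter.biInter_finset_mem _).2 (fun s _ => hA s)
    obtain ⟨n, hn1, hn2⟩ := Filter.nonempty_of_mem (Filter.inter_mem h2 (large_gt F))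
    refine ⟨n, hn2, fun s hs => ?_⟩
    by_cases hns : n ∈ s
    · have h3 : s.erase n ⊆ F := by
        intro x hx
        rw [Finset.mem_erase] at hx
        have := hs hx.2
        rw [Finset.mem_insert] at this
        exact this.resolve_left hx.1
      have h4 := h (s.erase n) h3 n (by
        have := Set.mem_iInter₂.1 hn1 (s.erase n) (Finset.mem_powerset.2 h3)
        exact this)
      rwa [Finset.insert_erase hns] at h4
    · apply hF s
      intro x hx
      have := hs hx
      rw [Finset.mem_insert] at this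
      rcases this with rfl | h5
      · exact absurd hx hns
      · exact h5
  obtain ⟨F, hP, hF0, hF⟩ := chain (P := fun F => ∀ s ⊆ F, Lim c (Filter.hyperfilter ℕ : Filter ℕ) s v)
    (by intro s hs; rw [Finset.subset_empty.1 hs]; exact hv) hstep
  refine ⟨⋃ i, (F i : Set ℕ), chain_union_infinite hF, v, fun X hX hXi => ?_⟩
  obtain ⟨N, hN⟩ := hc X hXi
  obtain ⟨a, ha, haN⟩ := (Set.infinite_iff_exists_gt.1 hXi) N
  -- s = elements of X up to a
  obtain ⟨i, hi⟩ := Set.mem_iUnion.1 (hX ha)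
  let s : Finset ℕ := (F i).filter (fun k => k ∈ X ∧ k ≤ a)
  have hs : Lim c (Filter.hyperfilter ℕ : Filter ℕ) s v := hP i s (Finset.filter_subset _ _)
  have hsX : ∀ k, k ≤ a → (k ∈ X ↔ k ∈ s) := by
    intro k hk
    simp only [s, Finset.mem_filter]
    constructor
    · intro hkX
      refine ⟨?_, hkX, hk⟩
      obtain ⟨j, hj⟩ := Set.mem_iUnion.1 (hX hkX)
      rcases le_total i j with hij | hij
      · exact chain_initial hF i j hij k a hj hi hk
      · exact chain_mono hF hij hj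
    · intro h; exact h.2.1
  have := lim_det hs (c X) (fun Y hY hA => hN Y hY (fun k hk => by
    rw [hA k ⟨a, (hsX a le_rfl).1 ha, by omega⟩]
    exact hsX k (by omega)))
  exact this.symm

end Pool.Agent.Bqp
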