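import Pool.Agent.Bqp.Closure
import Pool.Agent.Bqp.GDefs

set_option autoImplicit false

namespace Pool.Agent.Bqp.Sky

open Pool.Agent.Bqp

/-- finite graphs with attachments to the external vertices `l : ι` and with a root -/
abbrev RG (ι : Type) : Type := Σ T : LG ι, Fin T.1.1

/-- the vertices of `S` -/
abbrev RV {ι : Type} (S : RG ι) : Type := Fin S.1.1.1

/-- adjacency in `S` -/
abbrev RAdj {ι : Type} (S : RG ι) (u v : RV S) : Prop := S.1.1.2.Adj u v

/-- `v` is joined to the external vertex `l` -/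
abbrev RAtt {ι : Type} (S : RG ι) (v : RV S) (l : ι) : Prop := S.1.2 v l = true

/-- rooted minors respecting the attachments: the branch set of the root contains the root -/
def RMinor {ι : Type} (S T : RG ι) : Prop :=
  ∃ φ : RV S → Set (RV T),
    (∀ v, (T.1.1.2.induce (φ v)).Connected) ∧
    (∀ v w, v ≠ w → Disjoint (φ v) (φ w)) ∧
    (∀ v w, RAdj S v w → ∃ a ∈ φ v, ∃ b ∈ φ w, RAdj T a b) ∧
    (∀ v l, RAtt S v l → ∃ a ∈ φ v, RAtt T a l) ∧
    T.2 ∈ φ S.2

/-- the vertices of a skyline with columns `0, ..., n`; column `i` has the rows `0, ..., w i` -/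
abbrev SV (n : ℕ) (w : ℕ → ℕ) : Type := Σ i : Fin (n + 1), Fin (w i + 1)

/-- edges between row `j` of a column and row `j'` of the next one: horizontal in the rows
`j < c`, and diagonal ones (of the two kinds, as `e` says) between these rows -/
def Joined (c : ℕ) (e : Bool → Bool) (j j' : ℕ) : Prop :=
  j < c ∧ j' < c ∧ (j' = j ∨ (j' = j + 1 ∧ e false = true) ∨ (j = j' + 1 ∧ e true = true))

/-- The skyline graph: each column is a path, column `i` and the next one `i'` (the next one of the
last column is the first one) are joined in the rows `j < c i`, with diagonals as `e i'` says. -/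
def SkyG (n : ℕ) (w c : ℕ → ℕ) (e : ℕ → Bool → Bool) : SimpleGraph (SV n w) :=
  SimpleGraph.fromRel (fun x y =>
    (x.1 = y.1 ∧ (y.2 : ℕ) = x.2 + 1) ∨
    (((y.1 : ℕ) = x.1 + 1 ∨ ((x.1 : ℕ) = n ∧ (y.1 : ℕ) = 0)) ∧ Joined (c x.1) (e y.1) x.2 y.2))

/-- At least one and at most all rows of neighbouring columns are joined; the last and the first
column are joined in at most as many rows as any two neighbouring columns (perhaps in none). -/
def ValidSky (n : ℕ) (w c : ℕ → ℕ) : Prop :=
  ∀ i, i < n → 1 ≤ c i ∧ c i ≤ w i + 1 ∧ c i ≤ w (i + 1) + 1 ∧ c n ≤ c i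

/-- the place `t` of column `i`: the vertex in row `t` (the top if there is no such row) for
`t ≤ p`, and the top for `t = p + 1` -/
def place {n p : ℕ} (w : ℕ → ℕ) (i : Fin (n + 1)) (t : Fin (p + 2)) : SV n w :=
  ⟨i, if (t : ℕ) = p + 1 then Fin.last _ else ⟨min t (w i), by omega⟩⟩

/-- Pieces: `D i t` is the list of rooted graphs glued to the place `t` of column `i`. -/
abbrev Decor (p : ℕ) (ι : Type) : Type := ℕ → Fin (p + 2) → (Σ m : ℕ, (Fin m → RG ι))

/-- the index set of the pieces -/
abbrev PIdx {p : ℕ} {ι : Type} (n : ℕ) (D : Decor p ι) : Type :=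
  Σ q : Fin (n + 1) × Fin (p + 2), Fin (D q.1 q.2).1

/-- the piece with index `q` -/
abbrev piece {p : ℕ} {ι : Type} {n : ℕ} (D : Decor p ι) (q : PIdx n D) : RG ι :=
  (D q.1.1 q.1.2).2 q.2

/-- attachments of a skyline: `U i none` to all vertices of column `i`, `U i (some t)` to the place
`t` of column `i` -/
def SkyA {p : ℕ} {ι : Type} (n : ℕ) (w : ℕ → ℕ) (U : ℕ → Option (Fin (p + 2)) → ι → Bool)
    (x : SV n w) (l : ι) : Prop :=
  U x.1 none l = true ∨ ∃ t, U x.1 (some t) l = true ∧ x = place w x.1 t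

/-- `G` is obtained from the graph `C` with the attachments `A` by gluing the rooted graphs `K s`
with their roots to the vertices `a s` of `C`; `α` and `β s` are the inclusions in `G`. The root of
`G` is `α r`. -/
structure GluedAt {ι V P : Type} (C : SimpleGraph V) (A : V → ι → Prop) (r : V) (K : P → RG ι)
    (a : P → V) (G : RG ι) (α : V → RV G) (β : ∀ s, RV (K s) → RV G) : Prop where
  inj : Function.Injective α
  injb : ∀ s, Function.Injective (β s)
  root : ∀ s, β s (K s).2 = α (a s)
  off : ∀ s v, v ≠ (K s).2 → ∀ x, β s v ≠ α x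
  disj : ∀ s s' v v', v ≠ (K s).2 → β s v = β s' v' → s = s'
  cover : ∀ x, (∃ y, x = α y) ∨ ∃ s v, x = β s v
  adj : ∀ x y, RAdj G x y ↔ (∃ u v, x = α u ∧ y = α v ∧ C.Adj u v) ∨
    ∃ s u v, x = β s u ∧ y = β s v ∧ RAdj (K s) u v
  att : ∀ x l, RAtt G x l ↔ (∃ u, x = α u ∧ A u l) ∨ ∃ s u, x = β s u ∧ RAtt (K s) u l
  groot : G.2 = α r

/-- The least class of rooted finite graphs with attachments which contains `B` and all skylines
decorated with pieces of the class. The root of a skyline is a place of any column. -/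
inductive SkyTree {ι : Type} (p : ℕ) (B : RG ι → Prop) : RG ι → Prop
  | base (G : RG ι) (hG : B G) : SkyTree p B G
  | sky (G : RG ι) (n : ℕ) (w c : ℕ → ℕ) (e : ℕ → Bool → Bool)
      (U : ℕ → Option (Fin (p + 2)) → ι → Bool) (r : Fin (n + 1)) (t : Fin (p + 2))
      (D : Decor p ι) (α : SV n w → RV G) (β : ∀ q : PIdx n D, RV (piece D q) → RV G)
      (hv : ValidSky n w c) (hD : ∀ q : PIdx n D, SkyTree p B (piece D q))
      (hG : GluedAt (SkyG n w c e) (SkyA n w U) (place w r t) (piece D)
        (fun q => place w q.1.1 q.1.2) G α β) : SkyTree p B G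

/-- `T` is the disjoint union of the graphs `K j` -/
def UnionL {ι : Type} {m : ℕ} (K : Fin m → RG ι) (T : LG ι) : Prop :=
  LIso T (DU (fun j => (K j).1.1)) (fun x l => RAtt (K x.1) x.2 l)

/-- the graph obtained from `T` by making all external vertices internal; `M` is the graph which
they induce -/
def AllG {k : ℕ} (M : SimpleGraph (Fin k)) (T : LG (Fin k)) : SimpleGraph (Fin k ⊕ Fin T.1.1) :=
  SimpleGraph.fromRel (fun x y => match x, y with
    | Sum.inl a, Sum.inl b => M.Adj a b
    | Sum.inl a, Sum.inr v => T.2 v a = true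
    | Sum.inr u, Sum.inr v => T.1.2.Adj u v
    | Sum.inr _, Sum.inl _ => False)

/-- `G` has `k` vertices whose deletion leaves a disjoint union of members of `SkyTree p B` -/
def SkyGraph {k : ℕ} (p : ℕ) (B : RG (Fin k) → Prop) (G : FG) : Prop :=
  ∃ (M : SimpleGraph (Fin k)) (T : LG (Fin k)) (m : ℕ) (K : Fin m → RG (Fin k)),
    (∀ j, SkyTree p B (K j)) ∧ UnionL K T ∧ Nonempty (G.2 ≃g AllG M T)

end Pool.Agent.Bqp.Sky
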