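import Pool.Agent.Bqp.SkyDefs
import Pool.Agent.Bqp.GTools

set_option autoImplicit false

namespace Pool.Agent.Bqp.Sky

open Pool.Agent.Bqp

theorem reach_walk {V : Type} (H : SimpleGraph V) (S : Set V) (p : ℕ → V) :
    ∀ (m : ℕ) (hp : ∀ s, s ≤ m → p s ∈ S) (_ : ∀ s, s < m → H.Adj (p s) (p (s + 1))),
      (H.induce S).Reachable ⟨p 0, hp 0 (Nat.zero_le _)⟩ ⟨p m, hp m le_rfl⟩ := by
  intro m
  induction m with
  | zero => intro hp _; exact SimpleGraph.Reachable.refl _
  | succ m ih =>
    intro hp h
    refine (ih (fun s hs => hp s (by omega)) (fun s hs => h s (by omega))).trans ?_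
    apply SimpleGraph.Adj.reachable
    rw [SimpleGraph.induce_adj]
    exact h m (by omega)

section

variable {n : ℕ} {w c : ℕ → ℕ} {e : ℕ → Bool → Bool}

/-- the column of a vertex -/
def col (x : SV n w) : ℕ := x.1

/-- the row of a vertex -/
def row (x : SV n w) : ℕ := x.2

theorem col_le (x : SV n w) : col x ≤ n := Nat.le_of_lt_succ x.1.2

theorem row_le (x : SV n w) : row x ≤ w (col x) :=
  Nat.le_of_lt_succ x.2.2

/-- the vertex in row `s` of column `t` -/
def vx (n : ℕ) (w : ℕ → ℕ) (t s : ℕ) : SV n w :=
  if h : t ≤ n ∧ s ≤ w t then ⟨⟨t, Nat.lt_succ_of_le h.1⟩, ⟨s, Nat.lt_succ_of_le h.2⟩⟩ else ⟨0, 0⟩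

theorem vx_eq {t s : ℕ} (ht : t ≤ n) (hs : s ≤ w t) :
    vx n w t s = ⟨⟨t, Nat.lt_succ_of_le ht⟩, ⟨s, Nat.lt_succ_of_le hs⟩⟩ := dif_pos ⟨ht, hs⟩

theorem vx_surj (x : SV n w) : x = vx n w (col x) (row x) := by
  rw [vx_eq (col_le x) (row_le x)]
  rfl

theorem vx_ext {x y : SV n w} (h1 : col x = col y)
    (h2 : row x = row y) : x = y := by
  rw [vx_surj x, vx_surj y, h1, h2]

theorem col_vx {t s : ℕ} (ht : t ≤ n) (hs : s ≤ w t) : col (vx n w t s) = t := by
  rw [vx_eq ht hs]; rfl

theorem row_vx {t s : ℕ} (ht : t ≤ n) (hs : s ≤ w t) : row (vx n w t s) = s := by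
  rw [vx_eq ht hs]; rfl

theorem vx_inj {t s t' s' : ℕ} (ht : t ≤ n) (hs : s ≤ w t) (ht' : t' ≤ n) (hs' : s' ≤ w t')
    (h : vx n w t s = vx n w t' s') : t = t' ∧ s = s' := by
  constructor
  · have := congrArg col h
    rw [col_vx ht hs, col_vx ht' hs'] at this
    exact this
  · have := congrArg row h
    rw [row_vx ht hs, row_vx ht' hs'] at this
    exact this

theorem adj_up {t s : ℕ} (ht : t ≤ n) (hs : s + 1 ≤ w t) :
    (SkyG n w c e).Adj (vx n w t s) (vx n w t (s + 1)) := by
  refine ⟨fun h => ?_, Or.inl (Or.inl ?_)⟩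
  · have := (vx_inj ht (by omega) ht hs h).2
    omega
  · rw [vx_eq ht hs, vx_eq ht (by omega : s ≤ w t)]
    exact ⟨rfl, rfl⟩

theorem adj_next {t t' s s' : ℕ} (ht : t ≤ n) (ht' : t' ≤ n) (hs : s ≤ w t) (hs' : s' ≤ w t')
    (hne : t ≠ t' ∨ s ≠ s') (hn : t' = t + 1 ∨ (t = n ∧ t' = 0)) (hj : Joined (c t) (e t') s s') :
    (SkyG n w c e).Adj (vx n w t s) (vx n w t' s') := by
  refine ⟨fun h => ?_, Or.inl (Or.inr ?_)⟩
  · have := vx_inj ht hs ht' hs' h
    omega
  · rw [vx_eq ht hs, vx_eq ht' hs']
    exact ⟨hn, hj⟩

theorem adj_right {t s : ℕ} (ht : t + 1 ≤ n) (hs : s ≤ w t) (hs' : s ≤ w (t + 1)) (hc : s < c t) :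
    (SkyG n w c e).Adj (vx n w t s) (vx n w (t + 1) s) :=
  adj_next (by omega) ht hs hs' (Or.inl (by omega)) (Or.inl rfl) ⟨hc, hc, Or.inl rfl⟩

theorem adj_close {s : ℕ} (hn : 0 < n) (hs : s ≤ w n) (hs' : s ≤ w 0) (hc : s < c n) :
    (SkyG n w c e).Adj (vx n w n s) (vx n w 0 s) :=
  adj_next le_rfl (by omega) hs hs' (Or.inl (by omega)) (Or.inr ⟨rfl, rfl⟩) ⟨hc, hc, Or.inl rfl⟩

theorem sky_conn (hv : ValidSky n w c) : (SkyG n w c e).Connected := by
  rw [SimpleGraph.connected_iff_exists_forall_reachable]
  refine ⟨vx n w 0 0, fun x => ?_⟩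
  rw [vx_surj x]
  have ht := col_le x
  have hs := row_le x
  generalize col x = t at ht hs
  generalize row x = s at hs
  have h1 : ∀ t, t ≤ n → (SkyG n w c e).Reachable (vx n w 0 0) (vx n w t 0) := by
    intro t
    induction t with
    | zero => intro _; exact SimpleGraph.Reachable.refl _
    | succ t ih =>
      intro ht
      refine (ih (by omega)).trans (SimpleGraph.Adj.reachable ?_)
      exact adj_right ht (Nat.zero_le _) (Nat.zero_le _) (hv t (by omega)).1
  have h2 : ∀ s, s ≤ w t → (SkyG n w c e).Reachable (vx n w t 0) (vx n w t s) := by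
    intro s
    induction s with
    | zero => intro _; exact SimpleGraph.Reachable.refl _
    | succ s ih =>
      intro hs
      exact (ih (by omega)).trans (SimpleGraph.Adj.reachable (adj_up ht hs))
  exact (h1 t ht).trans (h2 s hs)

end

/-- `t` lies in the gap after `f i` -/
def Gap (n : ℕ) (f : ℕ → ℕ) (i t : ℕ) : Prop :=
  (f i < t ∧ (i < n → t < f (i + 1))) ∨ (i = n ∧ t < f 0)

/-- the branch sets of the embedding of skylines -/
def InB (n : ℕ) (w c f : ℕ → ℕ) (i j t s : ℕ) : Prop :=
  (t = f i ∧ (s = j ∨ (j = w i ∧ j ≤ s))) ∨ (Gap n f i t ∧ s = j ∧ j < c i)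

/-- monotonicity of skylines -/
theorem sky_core {n n' p : ℕ} {ι : Type} {w c w' c' f : ℕ → ℕ} {e e' : ℕ → Bool → Bool}
    {U U' : ℕ → Option (Fin (p + 2)) → ι → Bool} (hv : ValidSky n w c) (hv' : ValidSky n' w' c')
    (h1 : ∀ i, i ≤ n → f i ≤ n') (h2 : ∀ i j, i < j → j ≤ n → f i < f j)
    (h3 : ∀ i, i ≤ n → w i ≤ w' (f i))
    (h4 : ∀ i, i < n → ∀ t, f i ≤ t → t < f (i + 1) → c i ≤ c' t) (h5 : c n ≤ c' n')
    (h6 : ∀ i, i ≤ n → e i = e' (f i)) (h7 : ∀ i, i ≤ n → U i = U' (f i)) :
    ∃ φ : (SV n w) → Set (SV n' w'),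
      (∀ v, ((SkyG n' w' c' e').induce (φ v)).Connected) ∧
      (∀ u v, u ≠ v → Disjoint (φ u) (φ v)) ∧
      (∀ u v, (SkyG n w c e).Adj u v → ∃ a ∈ φ u, ∃ b ∈ φ v, (SkyG n' w' c' e').Adj a b) ∧
      (∀ x l, SkyA n w U x l → ∃ z ∈ φ x, SkyA n' w' U' z l) ∧
      (∀ (i : Fin (n + 1)) (i' : Fin (n' + 1)) (t : Fin (p + 2)), (i' : ℕ) = f i →
        place w' i' t ∈ φ (place w i t)) := by
  classical
  have hmono : ∀ i j, i ≤ j → j ≤ n → f i ≤ f j := by
    intro i j hij hj
    rcases Nat.lt_or_ge i j with h | h
    · exact (h2 i j h hj).le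
    · have : i = j := by omega
      rw [this]
  -- the closing connection is the least one
  have hcl : ∀ t, t ≤ n' → c n ≤ c' t := by
    intro t ht
    rcases Nat.lt_or_ge t n' with h | h
    · exact h5.trans (hv' t h).2.2.2
    · have : t = n' := by omega
      rw [this]; exact h5
  -- rows used in gaps exist
  have hrow : ∀ i, i ≤ n → ∀ t, t ≤ n' → ∀ j, j ≤ w i → j < c i → Gap n f i t → j ≤ w' t := by
    intro i hi t ht j hj hjc hg
    rcases hg with ⟨g1, g2⟩ | ⟨g1, g2⟩
    · rcases Nat.lt_or_ge i n with hin | hin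
      · have e1 := h4 i hin t (by omega) (g2 hin)
        have e2 := h1 (i + 1) (by omega)
        have e3 := g2 hin
        have e4 := (hv' t (by omega)).2.1
        omega
      · have hin' : i = n := by omega
        subst hin'
        have e1 := hcl (t - 1) (by omega)
        have e2 := (hv' (t - 1) (by omega)).2.2.1
        have e3 : t - 1 + 1 = t := by omega
        rw [e3] at e2
        omega
    · subst g1
      have e0 := h1 0 (Nat.zero_le _)
      have e1 := hcl t ht
      have e2 := (hv' t (by omega)).2.1
      omega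
  have hvx : ∀ i j t s, t ≤ n' → s ≤ w' t → InB n w c f i j t s →
      vx n' w' t s ∈ {z : SV n' w' | InB n w c f i j (col z) (row z)} := by
    intro i j t s ht hs h
    change InB n w c f i j (col (vx n' w' t s)) (row (vx n' w' t s))
    rw [col_vx ht hs, row_vx ht hs]
    exact h
  -- uniqueness
  have huniq : ∀ i j i' j' t s, i ≤ n → i' ≤ n → j ≤ w i → j' ≤ w i' →
      InB n w c f i j t s → InB n w c f i' j' t s → i = i' ∧ j = j' := by
    intro i j i' j' t s hi hi' hj hj' hb hb'
    have m1 := hmono 0 i (Nat.zero_le _) hi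
    have m2 := hmono 0 i' (Nat.zero_le _) hi'
    have m5 := hmono i n hi le_rfl
    have m6 := hmono i' n hi' le_rfl
    have key : i = i' := by
      rcases Nat.lt_trichotomy i i' with h | h | h
      · exfalso
        have m3 := h2 i i' h hi'
        have m4 := hmono (i + 1) i' (by omega) hi'
        rcases hb with ⟨hb, _⟩ | ⟨hb, _⟩ <;> rcases hb' with ⟨hb', _⟩ | ⟨hb', _⟩ <;>
          (try simp only [Gap] at hb) <;> (try simp only [Gap] at hb') <;> omega
      · exact h
      · exfalso
        have m3 := h2 i' i h hi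
        have m4 := hmono (i' + 1) i (by omega) hi
        rcases hb with ⟨hb, _⟩ | ⟨hb, _⟩ <;> rcases hb' with ⟨hb', _⟩ | ⟨hb', _⟩ <;>
          (try simp only [Gap] at hb) <;> (try simp only [Gap] at hb') <;> omega
    subst key
    refine ⟨rfl, ?_⟩
    rcases hb with ⟨hb, hb2⟩ | ⟨hb, hb2, hb3⟩ <;> rcases hb' with ⟨hb', hb2'⟩ | ⟨hb', hb2', hb3'⟩
    · omega
    · exfalso
      simp only [Gap] at hb'
      rcases Nat.lt_or_ge i n with h | h
      · have := h2 i (i + 1) (by omega) (by omega)
        omega
      · omega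
    · exfalso
      simp only [Gap] at hb
      rcases Nat.lt_or_ge i n with h | h
      · have := h2 i (i + 1) (by omega) (by omega)
        omega
      · omega
    · omega
  have hplace : ∀ (i : Fin (n + 1)) (i' : Fin (n' + 1)) (t : Fin (p + 2)), (i' : ℕ) = f i →
      InB n w c f (col (place w i t)) (row (place w i t)) (col (place w' i' t))
        (row (place w' i' t)) := by
    intro i i' t hii
    have e1 : col (place w i t) = i := rfl
    have e2 : col (place w' i' t) = i' := rfl
    have e3 : row (place w i t) = if (t : ℕ) = p + 1 then w i else min t (w i) := by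
      unfold place row
      by_cases h : (t : ℕ) = p + 1
      · simp only [if_pos h]
        rfl
      · simp only [if_neg h]
    have e4 : row (place w' i' t) = if (t : ℕ) = p + 1 then w' i' else min t (w' i') := by
      unfold place row
      by_cases h : (t : ℕ) = p + 1
      · simp only [if_pos h]
        rfl
      · simp only [if_neg h]
    have e5 : w i ≤ w' i' := by rw [hii]; exact h3 i (by omega)
    rw [e1, e2, e3, e4]
    refine Or.inl ⟨hii, ?_⟩
    split_ifs <;> omega
  refine ⟨fun x => {z | InB n w c f (col x) (row x) (col z) (row z)}, ?_, ?_, ?_, ?_, hplace⟩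
  · intro x
    have hi := col_le x
    have hj := row_le x
    change ((SkyG n' w' c' e').induce {z : SV n' w' |
      InB n w c f (col x) (row x) (col z) (row z)}).Connected
    generalize col x = i at hi hj ⊢
    generalize row x = j at hj ⊢
    have hfi := h1 i hi
    have hwi := h3 i hi
    rw [SimpleGraph.connected_iff_exists_forall_reachable]
    have hu : vx n' w' (f i) j ∈
        {z : SV n' w' | InB n w c f i j (col z) (row z)} :=
      hvx i j (f i) j hfi (by omega) (Or.inl ⟨rfl, Or.inl rfl⟩)
    refine ⟨⟨vx n' w' (f i) j, hu⟩, ?_⟩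
    rintro ⟨z, hz⟩
    have hzt := col_le z
    have hzs := row_le z
    have hzz := vx_surj z
    have hz' : InB n w c f i j (col z) (row z) := hz
    generalize col z = t at hzt hzs hzz hz'
    generalize row z = s at hzs hzz hz'
    subst hzz
    rcases hz' with ⟨g1, g2⟩ | ⟨g1, g2, g3⟩
    · subst g1
      have hjs : j ≤ s := by omega
      have := reach_walk (SkyG n' w' c' e')
        {z : SV n' w' | InB n w c f i j (col z) (row z)}
        (fun k => vx n' w' (f i) (j + k)) (s - j)
        (fun k hk => hvx i j (f i) (j + k) hfi (by omega) (Or.inl ⟨rfl, by omega⟩))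
        (fun k hk => adj_up hfi (by omega))
      have e1 : j + (s - j) = s := by omega
      simp only [e1, Nat.add_zero] at this
      exact this
    · subst g2
      rcases Nat.lt_or_ge (f i) t with hlt | hge
      · -- to the right
        have hgap : ∀ k, k ≤ t - f i → k ≠ 0 → Gap n f i (f i + k) := by
          intro k hk hk0
          rcases g1 with ⟨g1, g4⟩ | ⟨g1, g4⟩
          · exact Or.inl ⟨by omega, fun h => by have := g4 h; omega⟩
          · exfalso
            have := hmono 0 i (Nat.zero_le _) hi
            omega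
        have hin : ∀ k, k ≤ t - f i → s ≤ w' (f i + k) := by
          intro k hk
          by_cases hk0 : k = 0
          · subst hk0
            simp only [Nat.add_zero]
            omega
          · exact hrow i hi (f i + k) (by omega) s hj g3 (hgap k hk hk0)
        have hcc : ∀ k, k < t - f i → s < c' (f i + k) := by
          intro k hk
          rcases Nat.lt_or_ge i n with hin' | hin'
          · have e1 : f i + k < f (i + 1) := by
              rcases hgap (k + 1) (by omega) (by omega) with ⟨_, g4⟩ | ⟨g4, _⟩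
              · have := g4 hin'
                omega
              · omega
            have := h4 i hin' (f i + k) (by omega) e1
            omega
          · have hin'' : i = n := by omega
            subst hin''
            have := hcl (f i + k) (by omega)
            omega
        have := reach_walk (SkyG n' w' c' e')
          {z : SV n' w' | InB n w c f i s (col z) (row z)}
          (fun k => vx n' w' (f i + k) s) (t - f i)
          (fun k hk => hvx i s (f i + k) s (by omega) (hin k hk) (by
            by_cases hk0 : k = 0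
            · subst hk0
              exact Or.inl ⟨rfl, Or.inl rfl⟩
            · exact Or.inr ⟨hgap k hk hk0, rfl, g3⟩))
          (fun k hk => by
            exact adj_right (n := n') (w := w') (c := c') (t := f i + k) (s := s) (by omega)
              (hin k (by omega)) (hin (k + 1) (by omega)) (hcc k hk))
        have e1 : f i + (t - f i) = t := by omega
        simp only [e1, Nat.add_zero] at this
        exact this
      · -- around the end
        have hin'' : i = n ∧ t < f 0 := by
          rcases g1 with ⟨g1, g4⟩ | g1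
          · omega
          · exact g1
        obtain ⟨hin'', htf⟩ := hin''
        subst hin''
        have hf0 := h1 0 (Nat.zero_le _)
        have hgapR : ∀ k, f i < k → Gap i f i k := fun k hk =>
          Or.inl ⟨hk, fun h => absurd h (lt_irrefl _)⟩
        have hgapL : ∀ k, k < f 0 → Gap i f i k := fun k hk => Or.inr ⟨rfl, hk⟩
        have hinR : ∀ k, f i ≤ k → k ≤ n' → s ≤ w' k := by
          intro k hk hkn
          rcases Nat.lt_or_ge (f i) k with h | h
          · exact hrow i hi k hkn s hj g3 (hgapR k h)
          · have : k = f i := by omega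
            rw [this]
            omega
        have hinL : ∀ k, k < f 0 → s ≤ w' k := fun k hk =>
          hrow i hi k (by omega) s hj g3 (hgapL k hk)
        have hR := reach_walk (SkyG n' w' c' e')
          {z : SV n' w' | InB i w c f i s (col z) (row z)}
          (fun k => vx n' w' (f i + k) s) (n' - f i)
          (fun k hk => hvx i s (f i + k) s (by omega) (hinR _ (by omega) (by omega)) (by
            by_cases hk0 : k = 0
            · subst hk0
              exact Or.inl ⟨rfl, Or.inl rfl⟩
            · exact Or.inr ⟨hgapR _ (by omega), rfl, g3⟩))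
          (fun k hk => by
            have h6 := hcl (f i + k) (by omega)
            exact adj_right (n := n') (w := w') (c := c') (t := f i + k) (s := s) (by omega)
              (hinR _ (by omega) (by omega)) (hinR _ (by omega) (by omega)) (by omega))
        have hL := reach_walk (SkyG n' w' c' e')
          {z : SV n' w' | InB i w c f i s (col z) (row z)}
          (fun k => vx n' w' k s) t
          (fun k hk => hvx i s k s (by omega) (hinL _ (by omega))
            (Or.inr ⟨hgapL _ (by omega), rfl, g3⟩))
          (fun k hk => by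
            have h6 := hcl k (by omega)
            exact adj_right (n := n') (w := w') (c := c') (t := k) (s := s) (by omega)
              (hinL _ (by omega)) (hinL _ (by omega)) (by omega))
        have e1 : f i + (n' - f i) = n' := by omega
        simp only [e1, Nat.add_zero] at hR
        refine hR.trans (SimpleGraph.Reachable.trans (SimpleGraph.Adj.reachable ?_) hL)
        rw [SimpleGraph.induce_adj]
        exact adj_close (by omega) (hinR _ (by omega) (by omega)) (hinL 0 (by omega))
          (by have := hcl n' le_rfl; omega)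
  · intro x y hxy
    rw [Set.disjoint_left]
    intro z hz hz'
    apply hxy
    have := huniq (col x) (row x) (col y) (row y) (col z) (row z) (col_le x) (col_le y)
      (row_le x) (row_le y) hz hz'
    exact vx_ext this.1 this.2
  · have key : ∀ x y : SV n w, x ≠ y →
        ((x.1 = y.1 ∧ (y.2 : ℕ) = x.2 + 1) ∨
        (((y.1 : ℕ) = x.1 + 1 ∨ ((x.1 : ℕ) = n ∧ (y.1 : ℕ) = 0)) ∧
          Joined (c x.1) (e y.1) x.2 y.2)) →
        ∃ a ∈ {z : SV n' w' | InB n w c f (col x) (row x) (col z) (row z)},
          ∃ b ∈ {z : SV n' w' | InB n w c f (col y) (row y) (col z) (row z)},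
          (SkyG n' w' c' e').Adj a b := by
      intro x y hne hR
      have hi := col_le x
      have hj := row_le x
      have hi' := col_le y
      have hj' := row_le y
      have hR' : (col x = col y ∧ row y = row x + 1) ∨
        ((col y = col x + 1 ∨ (col x = n ∧ col y = 0)) ∧
          Joined (c (col x)) (e (col y)) (row x) (row y)) := by
        rcases hR with ⟨h, h'⟩ | h
        · exact Or.inl ⟨congrArg Fin.val h, h'⟩
        · exact Or.inr h
      have hne' : col x ≠ col y ∨ row x ≠ row y := by
        by_contra hcon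
        push Not at hcon
        exact hne (vx_ext hcon.1 hcon.2)
      clear hne hR
      generalize col x = i at hi hj hR' hne' ⊢
      generalize row x = j at hj hR' hne' ⊢
      generalize col y = i' at hi' hj' hR' hne' ⊢
      generalize row y = j' at hj' hR' hne' ⊢
      have wi := h3 i hi
      have fi := h1 i hi
      have wi' := h3 i' hi'
      have fi' := h1 i' hi'
      rcases hR' with ⟨e1, e2⟩ | ⟨e1 | ⟨e1, e2⟩, e3⟩
      · subst e1 e2
        refine ⟨vx n' w' (f i) j, hvx i j _ _ fi (by omega) (Or.inl ⟨rfl, Or.inl rfl⟩),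
          vx n' w' (f i) (j + 1), hvx i (j + 1) _ _ fi (by omega) (Or.inl ⟨rfl, Or.inl rfl⟩),
          adj_up fi (by omega)⟩
      · subst e1
        have hjc := e3.1
        have hjc' := e3.2.1
        have m := h2 i (i + 1) (by omega) hi'
        have cc := h4 i (by omega) (f (i + 1) - 1) (by omega) (by omega)
        have e5 : f (i + 1) - 1 + 1 = f (i + 1) := by omega
        have hrow' : j ≤ w' (f (i + 1) - 1) := by
          rcases Nat.lt_or_ge (f i) (f (i + 1) - 1) with h | h
          · exact hrow i hi _ (by omega) j hj hjc (Or.inl ⟨h, fun _ => by omega⟩)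
          · have : f (i + 1) - 1 = f i := by omega
            rw [this]; omega
        refine ⟨vx n' w' (f (i + 1) - 1) j, hvx i j _ _ (by omega) hrow' ?_,
          vx n' w' (f (i + 1)) j', hvx (i + 1) j' _ _ fi' (by omega) (Or.inl ⟨rfl, Or.inl rfl⟩),
          ?_⟩
        · rcases Nat.lt_or_ge (f i) (f (i + 1) - 1) with h | h
          · exact Or.inr ⟨Or.inl ⟨h, fun _ => by omega⟩, rfl, hjc⟩
          · exact Or.inl ⟨by omega, Or.inl rfl⟩
        · apply adj_next (by omega) fi' hrow' (by omega) (Or.inl (by omega)) (Or.inl e5.symm)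
          rw [← h6 (i + 1) hi']
          exact ⟨by omega, by omega, e3.2.2⟩
      · subst e1 e2
        have hjc := e3.1
        have hjc' := e3.2.1
        rcases Nat.eq_zero_or_pos i with hn0 | hn0
        · -- one column
          subst hn0
          rcases e3.2.2 with e4 | ⟨e4, _⟩ | ⟨e4, _⟩
          · exact absurd hne' (by simp [e4])
          · subst e4
            exact ⟨vx n' w' (f 0) j, hvx 0 j _ _ fi (by omega) (Or.inl ⟨rfl, Or.inl rfl⟩),
              vx n' w' (f 0) (j + 1), hvx 0 (j + 1) _ _ fi (by omega)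
                (Or.inl ⟨rfl, Or.inl rfl⟩), adj_up fi (by omega)⟩
          · subst e4
            exact ⟨vx n' w' (f 0) (j' + 1), hvx 0 (j' + 1) _ _ fi (by omega)
                (Or.inl ⟨rfl, Or.inl rfl⟩),
              vx n' w' (f 0) j', hvx 0 j' _ _ fi (by omega) (Or.inl ⟨rfl, Or.inl rfl⟩),
              (adj_up fi (by omega)).symm⟩
        · have m := h2 0 i hn0 le_rfl
          rcases Nat.eq_zero_or_pos (f 0) with h0 | h0
          · -- the last column closes
            have hlast : j ≤ w' n' := by
              rcases Nat.lt_or_ge (f i) n' with h | h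
              · exact hrow i hi n' le_rfl j hj hjc (Or.inl ⟨h, fun h => absurd h (lt_irrefl _)⟩)
              · have : f i = n' := by omega
                rw [← this]; omega
            have hw0 : j' ≤ w' 0 := by rw [h0] at wi'; omega
            refine ⟨vx n' w' n' j, hvx i j _ _ le_rfl hlast ?_, vx n' w' 0 j',
              hvx 0 j' _ _ (Nat.zero_le _) hw0 (Or.inl ⟨h0.symm, Or.inl rfl⟩), ?_⟩
            · rcases Nat.lt_or_ge (f i) n' with h | h
              · exact Or.inr ⟨Or.inl ⟨h, fun h => absurd h (lt_irrefl _)⟩, rfl, hjc⟩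
              · exact Or.inl ⟨by omega, Or.inl rfl⟩
            · apply adj_next le_rfl (Nat.zero_le _) hlast hw0 (Or.inl (by omega))
                (Or.inr ⟨rfl, rfl⟩)
              have h8 := h6 0 (Nat.zero_le _)
              rw [h0] at h8
              rw [← h8]
              exact ⟨by omega, by omega, e3.2.2⟩
          · have e5 : f 0 - 1 + 1 = f 0 := by omega
            have hrow' : j ≤ w' (f 0 - 1) :=
              hrow i hi _ (by omega) j hj hjc (Or.inr ⟨rfl, by omega⟩)
            have cc := hcl (f 0 - 1) (by omega)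
            refine ⟨vx n' w' (f 0 - 1) j, hvx i j _ _ (by omega) hrow'
              (Or.inr ⟨Or.inr ⟨rfl, by omega⟩, rfl, hjc⟩),
              vx n' w' (f 0) j', hvx 0 j' _ _ fi' (by omega) (Or.inl ⟨rfl, Or.inl rfl⟩), ?_⟩
            apply adj_next (by omega) fi' hrow' (by omega) (Or.inl (by omega)) (Or.inl e5.symm)
            rw [← h6 0 (Nat.zero_le _)]
            exact ⟨by omega, by omega, e3.2.2⟩
    rintro x y ⟨hne, h | h⟩
    · exact key x y hne h
    · obtain ⟨a, ha, b, hb, hab⟩ := key y x hne.symm h
      exact ⟨b, hb, a, ha, hab.symm⟩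
  · intro x l hx
    have hi := col_le x
    have hj := row_le x
    rcases hx with hx | ⟨t, hx, hxt⟩
    · refine ⟨vx n' w' (f (col x)) (row x), hvx _ _ _ _ (h1 _ hi) (hj.trans (h3 _ hi))
        (Or.inl ⟨rfl, Or.inl rfl⟩), Or.inl ?_⟩
      rw [vx_eq (h1 _ hi) (hj.trans (h3 _ hi))]
      change U' (f (col x)) none l = true
      rw [← h7 _ hi]
      exact hx
    · have hfi : f x.1 < n' + 1 := Nat.lt_succ_of_le (h1 _ hi)
      refine ⟨place w' ⟨f x.1, hfi⟩ t, ?_, Or.inr ⟨t, ?_, rfl⟩⟩
      · have h8 := hplace x.1 ⟨f x.1, hfi⟩ t rfl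
        rw [← hxt] at h8
        exact h8
      · have h8 : U x.1 = U' (f x.1) := h7 _ hi
        change U' (f x.1) (some t) l = true
        rw [← h8]
        exact hx

end Pool.Agent.Bqp.Sky
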