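import Pool.Agent.Bqp.Strip

set_option autoImplicit false

namespace Pool.Agent.Bqp.Strip

open Pool.Agent.Bqp Pool.Agent.Bqp.Sky

/-- the set of the names of the places of array tiles -/
abbrev Pl (p : ℕ) : Type := Fin (p + 2) × Fin (p + 2)

/-- the position `t` in `0, ..., a - 1`: `t` (the last position if there is no position `t`) for
`t ≤ p`, and the last position for `t = p + 1` -/
def pos {p : ℕ} (a : ℕ) (t : Fin (p + 2)) : ℕ := if (t : ℕ) = p + 1 then a - 1 else min t (a - 1)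

/-- `S` is an `a × b` array with the vertices `α x y` for `x < a`, `y < b`, with horizontal and
vertical edges and with diagonal edges as `D` says. The left ports are the vertices of side `s`,
the right ports those of side `s'`, in order. The places are the vertices `(x, y)` where `x` and `y`
are among the first `p + 1` positions or the last one. The attachments are constant on the array,
on the sides and on the places. -/
structure IsArr {ι : Type} {p : ℕ} (a b : ℕ) (s s' : Fin 4) (D : Fin 4 → Bool)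
    (U : Option (Fin 4 ⊕ Pl p) → ι → Bool)
    (S : Tile ι (Pl p)) (α : ℕ → ℕ → S.V) : Prop where
  hv : D 0 = true ∧ D 1 = true
  inj : ∀ x y x' y', x < a → y < b → x' < a → y' < b → α x y = α x' y' → x = x' ∧ y = y'
  cover : ∀ v, ∃ x y, x < a ∧ y < b ∧ v = α x y
  adj : ∀ x y x' y', x < a → y < b → x' < a → y' < b →
    (S.G.1.2.Adj (α x y) (α x' y') ↔ Step D x y x' y' ∨ Step D x' y' x y)
  att : ∀ x y l, x < a → y < b → (S.G.2 (α x y) l = true ↔ U none l = true ∨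
    (∃ u i, U (some (Sum.inl u)) l = true ∧ OnSide a b u x y i) ∨
    ∃ t, U (some (Sum.inr t)) l = true ∧ x = pos a t.1 ∧ y = pos b t.2)
  pl : ∀ t, S.pl t = α (pos a t.1) (pos b t.2)
  wl : S.wl = sideLen a b s
  wr : S.wr = sideLen a b s'
  L : ∀ x y i, x < a → y < b → OnSide a b s x y i → S.L i = α x y
  R : ∀ x y i, x < a → y < b → OnSide a b s' x y i → S.R i = α x y

/-- the array tiles -/
def ArrTile {ι : Type} {p : ℕ} (S : Tile ι (Pl p)) : Prop :=
  ∃ (q : Fin 4 × Fin 4 × (Fin 4 → Bool) ×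
    (Option (Fin 4 ⊕ Pl p) → ι → Bool)) (a b : ℕ) (α : ℕ → ℕ → S.V),
    IsArr a b q.1 q.2.1 q.2.2.1 q.2.2.2 S α

/-- the fibre of `x` -/
def blk (a a' x c : ℕ) : Prop := c < a' ∧ (c = x ∨ (x + 1 = a ∧ x ≤ c))

theorem blk_self {a a' x : ℕ} (h : a ≤ a') (hx : x < a) : blk a a' x x := ⟨by omega, Or.inl rfl⟩

theorem blk_unique {a a' x x' c : ℕ} (hx : x < a) (hx' : x' < a) (h : blk a a' x c)
    (h' : blk a a' x' c) : x = x' := by
  obtain ⟨_, h⟩ := h
  obtain ⟨_, h'⟩ := h'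
  omega

theorem blk_last {a a' : ℕ} (h : a ≤ a') (ha : 1 ≤ a) : blk a a' (a - 1) (a' - 1) :=
  ⟨by omega, Or.inr ⟨by omega, by omega⟩⟩

theorem pos_lt {p a : ℕ} (ha : 1 ≤ a) (t : Fin (p + 2)) : pos a t < a := by
  unfold pos
  split_ifs <;> omega

theorem blk_pos {p a a' : ℕ} (h : a ≤ a') (ha : 1 ≤ a) (t : Fin (p + 2)) :
    blk a a' (pos a t) (pos a' t) := by
  unfold pos blk
  split_ifs <;> omega

theorem blk_side {a b a' b' x y i : ℕ} {s : Fin 4} (ha : a ≤ a') (hb : b ≤ b') (hx : x < a)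
    (hy : y < b) (h : OnSide a b s x y i) :
    ∃ c d, blk a a' x c ∧ blk b b' y d ∧ OnSide a' b' s c d i := by
  rcases h with ⟨rfl, h1, h2⟩ | ⟨rfl, h1, h2⟩ | ⟨rfl, h1, h2⟩ | ⟨rfl, h1, h2⟩
  · exact ⟨x, y, blk_self ha hx, blk_self hb hy, Or.inl ⟨rfl, h1, h2⟩⟩
  · refine ⟨a' - 1, y, ?_, blk_self hb hy, Or.inr (Or.inl ⟨rfl, by omega, h2⟩)⟩
    have := blk_last ha (by omega)
    have h3 : x = a - 1 := by omega
    rwa [h3]
  · exact ⟨x, y, blk_self ha hx, blk_self hb hy, Or.inr (Or.inr (Or.inl ⟨rfl, h1, h2⟩))⟩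
  · refine ⟨x, b' - 1, blk_self ha hx, ?_, Or.inr (Or.inr (Or.inr ⟨rfl, by omega, h2⟩))⟩
    have := blk_last hb (by omega)
    have h3 : y = b - 1 := by omega
    rwa [h3]

/-- every index below the length is realized on a side -/
theorem side_ex {a b i : ℕ} {s : Fin 4} (ha : 1 ≤ a) (hb : 1 ≤ b) (h : i < sideLen a b s) :
    ∃ x y, x < a ∧ y < b ∧ OnSide a b s x y i := by
  unfold sideLen at h
  have hs : s = 0 ∨ s = 1 ∨ s = 2 ∨ s = 3 := by
    revert s
    intro s _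
    fin_cases s <;> simp
  rcases hs with rfl | rfl | rfl | rfl
  · rw [if_pos (by decide)] at h
    exact ⟨0, i, by omega, h, Or.inl ⟨rfl, rfl, rfl⟩⟩
  · rw [if_pos (by decide)] at h
    exact ⟨a - 1, i, by omega, h, Or.inr (Or.inl ⟨rfl, by omega, rfl⟩)⟩
  · rw [if_neg (by decide)] at h
    exact ⟨i, 0, h, by omega, Or.inr (Or.inr (Or.inl ⟨rfl, rfl, rfl⟩))⟩
  · rw [if_neg (by decide)] at h
    exact ⟨i, b - 1, h, by omega, Or.inr (Or.inr (Or.inr ⟨rfl, by omega, rfl⟩))⟩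

theorem side_unique {a b x y x' y' i : ℕ} {s : Fin 4} (h : OnSide a b s x y i)
    (h' : OnSide a b s x' y' i) : x = x' ∧ y = y' := by
  rcases h with ⟨rfl, h1, h2⟩ | ⟨rfl, h1, h2⟩ | ⟨rfl, h1, h2⟩ | ⟨rfl, h1, h2⟩ <;>
  rcases h' with ⟨e, h3, h4⟩ | ⟨e, h3, h4⟩ | ⟨e, h3, h4⟩ | ⟨e, h3, h4⟩ <;>
  first
  | exact absurd e (by decide)
  | exact ⟨by omega, by omega⟩

/-- arrays are connected, and so are the products of two fibres -/
theorem box_conn {W : Type} {H : SimpleGraph W} {a b x y : ℕ} {α : ℕ → ℕ → W} {A B : ℕ → Prop}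
    (hA : ∀ c, A c → x ≤ c ∧ c < a) (hB : ∀ c, B c → y ≤ c ∧ c < b)
    (hA' : ∀ c, A (c + 1) → x < c + 1 → A c) (hB' : ∀ c, B (c + 1) → y < c + 1 → B c)
    (hAx : A x) (hBy : B y)
    (hh : ∀ c d, c + 1 < a → d < b → H.Adj (α c d) (α (c + 1) d))
    (hv : ∀ c d, c < a → d + 1 < b → H.Adj (α c d) (α c (d + 1))) :
    (H.induce {w | ∃ c d, A c ∧ B d ∧ w = α c d}).Connected := by
  rw [SimpleGraph.connected_iff_exists_forall_reachable]
  refine ⟨⟨α x y, x, y, hAx, hBy, rfl⟩, ?_⟩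
  have key : ∀ n c d, c + d = n → ∀ (hc : A c) (hd : B d),
      (H.induce {w | ∃ c d, A c ∧ B d ∧ w = α c d}).Reachable ⟨α x y, x, y, hAx, hBy, rfl⟩
        ⟨α c d, c, d, hc, hd, rfl⟩ := by
    intro n
    induction n with
    | zero =>
      intro c d hn hc hd
      have h1 := hA c hc
      have h2 := hB d hd
      have e1 : x = c := by omega
      have e2 : y = d := by omega
      subst e1 e2
      rfl
    | succ n ih =>
      intro c d hn hc hd
      have h1 := hA c hc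
      have h2 := hB d hd
      by_cases hxc : x < c
      · obtain ⟨c, rfl⟩ : ∃ m, c = m + 1 := ⟨c - 1, by omega⟩
        have hc' := hA' c hc hxc
        refine (ih c d (by omega) hc' hd).trans (SimpleGraph.Adj.reachable ?_)
        rw [SimpleGraph.induce_adj]
        exact hh c d (by omega) (by omega)
      · by_cases hyd : y < d
        · obtain ⟨d, rfl⟩ : ∃ m, d = m + 1 := ⟨d - 1, by omega⟩
          have hd' := hB' d hd hyd
          refine (ih c d (by omega) hc hd').trans (SimpleGraph.Adj.reachable ?_)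
          rw [SimpleGraph.induce_adj]
          exact hv c d (by omega) (by omega)
        · have e1 : x = c := by omega
          have e2 : y = d := by omega
          subst e1 e2
          rfl
  rintro ⟨_, c, d, hc, hd, rfl⟩
  exact key _ c d rfl hc hd

/-- monotonicity of array tiles -/
theorem arr_mono {ι : Type} {p : ℕ} {a b a' b' : ℕ} {s s' : Fin 4} {D : Fin 4 → Bool}
    {U : Option (Fin 4 ⊕ Pl p) → ι → Bool}
    {S T : Tile ι (Pl p)} {α : ℕ → ℕ → S.V} {α' : ℕ → ℕ → T.V}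
    (h : IsArr a b s s' D U S α) (h' : IsArr a' b' s s' D U T α') (ha : a ≤ a') (hb : b ≤ b') :
    TileMinor S T := by
  have hlen : ∀ u : Fin 4, sideLen a b u ≤ sideLen a' b' u := by
    intro u
    unfold sideLen
    split_ifs <;> omega
  obtain ⟨x0, y0, hx0, hy0, -⟩ := h.cover (S.L 0)
  refine ⟨?_, ?_, fun v => {w | ∃ x y, x < a ∧ y < b ∧ v = α x y ∧
    ∃ c d, blk a a' x c ∧ blk b b' y d ∧ w = α' c d}, ?_, ?_, ?_, ?_, ?_, ?_, ?_⟩
  · rw [h.wl, h'.wl]; exact hlen s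
  · rw [h.wr, h'.wr]; exact hlen s'
  · intro v
    obtain ⟨x, y, hx, hy, rfl⟩ := h.cover v
    have hset : {w | ∃ x_1 y_1, x_1 < a ∧ y_1 < b ∧ α x y = α x_1 y_1 ∧
        ∃ c d, blk a a' x_1 c ∧ blk b b' y_1 d ∧ w = α' c d} =
        {w | ∃ c d, blk a a' x c ∧ blk b b' y d ∧ w = α' c d} := by
      ext w
      constructor
      · rintro ⟨x1, y1, hx1, hy1, e, hw⟩
        obtain ⟨rfl, rfl⟩ := h.inj x y x1 y1 hx hy hx1 hy1 e
        exact hw
      · intro hw
        exact ⟨x, y, hx, hy, rfl, hw⟩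
    beta_reduce
    rw [hset]
    apply box_conn (a := a') (b := b') (x := x) (y := y)
    · intro c hc; exact ⟨by rcases hc.2 with h | h <;> omega, hc.1⟩
    · intro c hc; exact ⟨by rcases hc.2 with h | h <;> omega, hc.1⟩
    · intro c hc hxc; exact ⟨by have := hc.1; omega, by rcases hc.2 with h | h <;> omega⟩
    · intro c hc hxc; exact ⟨by have := hc.1; omega, by rcases hc.2 with h | h <;> omega⟩
    · exact blk_self ha hx
    · exact blk_self hb hy
    · intro c d hc hd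
      rw [h'.adj c d (c + 1) d (by omega) hd hc hd]
      exact Or.inl (Or.inl ⟨h'.hv.1, rfl, rfl⟩)
    · intro c d hc hd
      rw [h'.adj c d c (d + 1) hc (by omega) hc hd]
      exact Or.inl (Or.inr (Or.inl ⟨h'.hv.2, rfl, rfl⟩))
  · intro v v' hvv
    rw [Set.disjoint_left]
    rintro w ⟨x, y, hx, hy, rfl, c, d, hc, hd, e⟩ ⟨x', y', hx', hy', rfl, c', d', hc', hd', e'⟩
    obtain ⟨rfl, rfl⟩ := h'.inj c d c' d' hc.1 hd.1 hc'.1 hd'.1 (e.symm.trans e')
    have e1 := blk_unique hx hx' hc hc'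
    have e2 := blk_unique hy hy' hd hd'
    subst e1 e2
    exact hvv rfl
  · intro v v' hadj
    obtain ⟨x, y, hx, hy, rfl⟩ := h.cover v
    obtain ⟨x', y', hx', hy', rfl⟩ := h.cover v'
    rw [h.adj x y x' y' hx hy hx' hy'] at hadj
    refine ⟨α' x y, ⟨x, y, hx, hy, rfl, x, y, blk_self ha hx, blk_self hb hy, rfl⟩,
      α' x' y', ⟨x', y', hx', hy', rfl, x', y', blk_self ha hx', blk_self hb hy', rfl⟩, ?_⟩
    rw [h'.adj x y x' y' (by omega) (by omega) (by omega) (by omega)]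
    exact hadj
  · intro v l hl
    obtain ⟨x, y, hx, hy, rfl⟩ := h.cover v
    rw [h.att x y l hx hy] at hl
    rcases hl with hl | ⟨u, i, hl, hi⟩ | ⟨t, hl, e1, e2⟩
    · refine ⟨α' x y, ⟨x, y, hx, hy, rfl, x, y, blk_self ha hx, blk_self hb hy, rfl⟩, ?_⟩
      rw [h'.att x y l (by omega) (by omega)]
      exact Or.inl hl
    · obtain ⟨c, d, hc, hd, hi'⟩ := blk_side ha hb hx hy hi
      refine ⟨α' c d, ⟨x, y, hx, hy, rfl, c, d, hc, hd, rfl⟩, ?_⟩
      rw [h'.att c d l hc.1 hd.1]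
      exact Or.inr (Or.inl ⟨u, i, hl, hi'⟩)
    · have hc := blk_pos (p := p) ha (by omega) t.1
      have hd := blk_pos (p := p) hb (by omega) t.2
      rw [← e1] at hc
      rw [← e2] at hd
      refine ⟨α' (pos a' t.1) (pos b' t.2), ⟨x, y, hx, hy, rfl, _, _, hc, hd, rfl⟩, ?_⟩
      rw [h'.att _ _ l hc.1 hd.1]
      exact Or.inr (Or.inr ⟨t, hl, rfl, rfl⟩)
  · intro t
    rw [h.pl, h'.pl]
    exact ⟨_, _, pos_lt (by omega) _, pos_lt (by omega) _, rfl, _, _,
      blk_pos ha (by omega) t.1, blk_pos hb (by omega) t.2, rfl⟩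
  · intro j hj
    rw [h.wl] at hj
    obtain ⟨x, y, hx, hy, hi⟩ := side_ex (by omega) (by omega) hj
    obtain ⟨c, d, hc, hd, hi'⟩ := blk_side ha hb hx hy hi
    rw [h.L x y j hx hy hi, h'.L c d j hc.1 hd.1 hi']
    exact ⟨x, y, hx, hy, rfl, c, d, hc, hd, rfl⟩
  · intro j hj
    rw [h.wr] at hj
    obtain ⟨x, y, hx, hy, hi⟩ := side_ex (by omega) (by omega) hj
    obtain ⟨c, d, hc, hd, hi'⟩ := blk_side ha hb hx hy hi
    rw [h.R x y j hx hy hi, h'.R c d j hc.1 hd.1 hi']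
    exact ⟨x, y, hx, hy, rfl, c, d, hc, hd, rfl⟩

/-- the array tiles are better-quasi-ordered -/
theorem arr_bqr {ι : Type} [Finite ι] (p : ℕ) : Bqr TileMinor (ArrTile (ι := ι) (p := p)) := by
  classical
  apply bqr_exists
  intro q
  have hch : ∀ S : Tile ι (Pl p), ∃ x : ℕ × ℕ,
      (∃ (a b : ℕ) (α : ℕ → ℕ → S.V), IsArr a b q.1 q.2.1 q.2.2.1 q.2.2.2 S α) →
      ∃ α : ℕ → ℕ → S.V, IsArr x.1 x.2 q.1 q.2.1 q.2.2.1 q.2.2.2 S α := by
    intro S
    by_cases h : ∃ (a b : ℕ) (α : ℕ → ℕ → S.V), IsArr a b q.1 q.2.1 q.2.2.1 q.2.2.2 S α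
    · obtain ⟨a, b, h⟩ := h
      exact ⟨(a, b), fun _ => h⟩
    · exact ⟨(0, 0), fun h' => absurd h' h⟩
  choose ρ hρ using hch
  apply bqr_map (bqr_prod bqr_nat bqr_nat) ρ (fun _ _ => ⟨trivial, trivial⟩)
  intro S T hS hT hr
  obtain ⟨α, h⟩ := hρ S hS
  obtain ⟨α', h'⟩ := hρ T hT
  exact arr_mono h h' hr.1 hr.2

/-- trees of strips of array tiles and of tiles of any bqo class -/
theorem arr_bqo {k p : ℕ} {T : Tile (Fin k) (Pl p) → Prop}
    {B : RG (Fin k) → Prop} (hT : Bqr TileMinor T) (hB : Bqr RMinor B) :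
    BQO (UnionOf (StripGraph (fun S => T S ∨ ArrTile S) B)) :=
  strip_bqo (bqr_or hT (arr_bqr p)) hB

end Pool.Agent.Bqp.Strip
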