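import Pool.Agent.Bqp.SkyDefs

set_option autoImplicit false

namespace Pool.Agent.Bqp.Strip

open Pool.Agent.Bqp Pool.Agent.Bqp.Sky

/-- A tile: a finite graph with attachments to the external vertices `l : ι`, with places
`pl t`, with `wl` left ports `L 0, ..., L (wl - 1)` and with `wr` right ports
`R 0, ..., R (wr - 1)`. -/
structure Tile (ι Q : Type) where
  G : LG ι
  pl : Q → Fin G.1.1
  wl : ℕ
  wr : ℕ
  L : ℕ → Fin G.1.1
  R : ℕ → Fin G.1.1

/-- the vertices of a tile -/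
abbrev Tile.V {ι Q : Type} (S : Tile ι Q) : Type := Fin S.G.1.1

/-- minors of tiles: attachments, places and ports are respected -/
def TileMinor {ι Q : Type} (S T : Tile ι Q) : Prop :=
  S.wl ≤ T.wl ∧ S.wr ≤ T.wr ∧ ∃ φ : S.V → Set T.V,
    (∀ v, (T.G.1.2.induce (φ v)).Connected) ∧
    (∀ v w, v ≠ w → Disjoint (φ v) (φ w)) ∧
    (∀ v w, S.G.1.2.Adj v w → ∃ a ∈ φ v, ∃ b ∈ φ w, T.G.1.2.Adj a b) ∧
    (∀ v l, S.G.2 v l = true → ∃ a ∈ φ v, T.G.2 a l = true) ∧
    (∀ t, T.pl t ∈ φ (S.pl t)) ∧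
    (∀ j, j < S.wl → T.L j ∈ φ (S.L j)) ∧ (∀ j, j < S.wr → T.R j ∈ φ (S.R j))

/-- the tile is connected and disjoint connected sets join `L j` to `R j`, for all `j` for which
both are defined -/
def LinkedTile {ι Q : Type} (S : Tile ι Q) : Prop :=
  S.G.1.2.Connected ∧ ∃ B : ℕ → Set S.V,
    (∀ j, j < S.wl → j < S.wr → (S.G.1.2.induce (B j)).Connected ∧ S.L j ∈ B j ∧ S.R j ∈ B j) ∧
    ∀ j j', j < j' → j' < S.wl → j' < S.wr → Disjoint (B j) (B j')

/-- The strip of the tiles `K 0, ..., K n`: the right ports `j < c i` of each tile are joined to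
the left ports `j` of the next one `i'` (the next one of the last tile is the first one), with
diagonals as `e i'` says. -/
def StripG {ι Q : Type} (n : ℕ) (K : ℕ → Tile ι Q) (c : ℕ → ℕ) (e : ℕ → Bool → Bool) :
    SimpleGraph (Σ i : Fin (n + 1), (K i).V) :=
  SimpleGraph.fromRel (fun x y =>
    (∃ (i : Fin (n + 1)) (u v : (K i).V), x = ⟨i, u⟩ ∧ y = ⟨i, v⟩ ∧ (K i).G.1.2.Adj u v) ∨
    (∃ (i i' : Fin (n + 1)) (j j' : ℕ), ((i' : ℕ) = i + 1 ∨ ((i : ℕ) = n ∧ (i' : ℕ) = 0)) ∧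
      Joined (c i) (e i') j j' ∧ x = ⟨i, (K i).R j⟩ ∧ y = ⟨i', (K i').L j'⟩))

/-- neighbouring tiles are joined in at least one port; the last and the first tile are joined in
at most as many ports as any two neighbouring tiles (perhaps in none) -/
def ValidStrip {ι Q : Type} (n : ℕ) (K : ℕ → Tile ι Q) (c : ℕ → ℕ) : Prop :=
  (∀ i, i < n → 1 ≤ c i ∧ c i ≤ (K i).wr ∧ c i ≤ (K (i + 1)).wl ∧ c n ≤ c i) ∧
    c n ≤ (K n).wr ∧ c n ≤ (K 0).wl

/-- Pieces: `D i t` is the list of rooted graphs glued to the place `t` of tile `i`. -/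
abbrev Deco (ι Q : Type) : Type := ℕ → Q → (Σ m : ℕ, (Fin m → RG ι))

/-- the index set of the pieces -/
abbrev DIdx {ι Q : Type} (n : ℕ) (D : Deco ι Q) : Type :=
  Σ q : Fin (n + 1) × Q, Fin (D q.1 q.2).1

/-- the piece with index `q` -/
abbrev dpiece {ι Q : Type} {n : ℕ} (D : Deco ι Q) (q : DIdx n D) : RG ι :=
  (D q.1.1 q.1.2).2 q.2

/-- the place `t` of tile `i` -/
def spot {ι Q : Type} {n : ℕ} (K : ℕ → Tile ι Q) (i : Fin (n + 1)) (t : Q) :
    Σ i : Fin (n + 1), (K i).V := ⟨i, (K i).pl t⟩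

/-- The least class of rooted finite graphs with attachments which contains `B` and all strips of
linked tiles of the class `T` decorated with pieces of the class. The root of a strip is a place of
any tile. -/
inductive StripTree {ι Q : Type} (T : Tile ι Q → Prop) (B : RG ι → Prop) : RG ι → Prop
  | base (G : RG ι) (hG : B G) : StripTree T B G
  | strip (G : RG ι) (n : ℕ) (K : ℕ → Tile ι Q) (c : ℕ → ℕ) (e : ℕ → Bool → Bool)
      (r : Fin (n + 1)) (t : Q) (D : Deco ι Q) (α : (Σ i : Fin (n + 1), (K i).V) → RV G)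
      (β : ∀ q : DIdx n D, RV (dpiece D q) → RV G)
      (hT : ∀ i, i ≤ n → T (K i) ∧ LinkedTile (K i)) (hv : ValidStrip n K c)
      (hD : ∀ q : DIdx n D, StripTree T B (dpiece D q))
      (hG : GluedAt (StripG n K c e) (fun x l => (K x.1).G.2 x.2 l = true) (spot K r t)
        (dpiece D) (fun q => spot K q.1.1 q.1.2) G α β) : StripTree T B G

/-- `G` has `k` vertices whose deletion leaves a disjoint union of members of `StripTree T B` -/
def StripGraph {k : ℕ} {Q : Type} (T : Tile (Fin k) Q → Prop) (B : RG (Fin k) → Prop) (G : FG) :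
    Prop :=
  ∃ (M : SimpleGraph (Fin k)) (S : LG (Fin k)) (m : ℕ) (K : Fin m → RG (Fin k)),
    (∀ j, StripTree T B (K j)) ∧ UnionL K S ∧ Nonempty (G.2 ≃g AllG M S)

end Pool.Agent.Bqp.Strip
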