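import Pool.Agent.Bqp.StripDefs
import Pool.Agent.Bqp.SkyMinor

set_option autoImplicit false

namespace Pool.Agent.Bqp.Strip

open Pool.Agent.Bqp Pool.Agent.Bqp.Sky

theorem reach_sub {V : Type} {H : SimpleGraph V} {S T : Set V} (hS : (H.induce S).Connected)
    (hST : S ⊆ T) {a b : V} (ha : a ∈ S) (hb : b ∈ S) :
    (H.induce T).Reachable ⟨a, hST ha⟩ ⟨b, hST hb⟩ := by
  have h := hS.preconnected ⟨a, ha⟩ ⟨b, hb⟩
  exact h.map (SimpleGraph.induceHomOfLE H hST).toHom

section

variable {ι Q : Type} {n : ℕ} {K : ℕ → Tile ι Q} {c : ℕ → ℕ} {e : ℕ → Bool → Bool}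

theorem adj_in {i : Fin (n + 1)} {u v : (K i).V} (h : (K i).G.1.2.Adj u v) :
    (StripG n K c e).Adj ⟨i, u⟩ ⟨i, v⟩ := by
  refine ⟨fun h' => ?_, Or.inl (Or.inl ⟨i, u, v, rfl, rfl, h⟩)⟩
  simp only [Sigma.mk.injEq, heq_eq_eq, true_and] at h'
  rw [h'] at h
  exact (K i).G.1.2.ne_of_adj h rfl

theorem adj_port {i i' : Fin (n + 1)} {j j' : ℕ}
    (hn : (i' : ℕ) = i + 1 ∨ ((i : ℕ) = n ∧ (i' : ℕ) = 0)) (hj : Joined (c i) (e i') j j')
    (hne : (⟨i, (K i).R j⟩ : Σ i : Fin (n + 1), (K i).V) ≠ ⟨i', (K i').L j'⟩) :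
    (StripG n K c e).Adj ⟨i, (K i).R j⟩ ⟨i', (K i').L j'⟩ :=
  ⟨hne, Or.inl (Or.inr ⟨i, i', j, j', hn, hj, rfl, rfl⟩)⟩

theorem strip_conn (hT : ∀ i, i ≤ n → LinkedTile (K i)) (hv : ValidStrip n K c) :
    (StripG n K c e).Connected := by
  have htile : ∀ (i : Fin (n + 1)) (u v : (K i).V), (StripG n K c e).Reachable ⟨i, u⟩ ⟨i, v⟩ := by
    intro i u v
    have h1 := (hT i (Nat.le_of_lt_succ i.2)).1.preconnected u v
    let F : (K i).G.1.2 →g StripG n K c e :=
      { toFun := fun u => ⟨i, u⟩
        map_rel' := fun h => adj_in h }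
    exact h1.map F
  have hne : ∀ i : Fin (n + 1), Nonempty (K i).V := fun i =>
    (hT i (Nat.le_of_lt_succ i.2)).1.nonempty
  obtain ⟨u0⟩ := hne 0
  rw [SimpleGraph.connected_iff_exists_forall_reachable]
  refine ⟨⟨0, u0⟩, ?_⟩
  have h1 : ∀ t (ht : t < n + 1) (v : (K t).V), (StripG n K c e).Reachable ⟨0, u0⟩ ⟨⟨t, ht⟩, v⟩ := by
    intro t
    induction t with
    | zero => intro ht v; exact htile 0 u0 v
    | succ t ih =>
      intro ht v
      have h2 := ih (by omega) ((K t).R 0)
      refine h2.trans (SimpleGraph.Reachable.trans ?_ (htile ⟨t + 1, ht⟩ ((K (t + 1)).L 0) v))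
      apply SimpleGraph.Adj.reachable
      apply adj_port (i := ⟨t, by omega⟩) (i' := ⟨t + 1, ht⟩) (Or.inl rfl)
      · have := (hv.1 t (by omega)).1
        exact ⟨by change 0 < c t; omega, by change 0 < c t; omega, Or.inl rfl⟩
      · intro h'
        have := congrArg (fun z : (Σ i : Fin (n + 1), (K i).V) => (z.1 : ℕ)) h'
        simp only at this
        omega
  rintro ⟨i, v⟩
  exact h1 i i.2 v

end

/-- monotonicity of strips -/
theorem strip_core {ι Q : Type} {n n' : ℕ} {K K' : ℕ → Tile ι Q} {c c' f : ℕ → ℕ}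
    {e e' : ℕ → Bool → Bool} (hT' : ∀ i, i ≤ n' → LinkedTile (K' i))
    (hvs : ValidStrip n K c) (hv' : ValidStrip n' K' c')
    (h1 : ∀ i, i ≤ n → f i ≤ n') (h2 : ∀ i j, i < j → j ≤ n → f i < f j)
    (h3 : ∀ i, i ≤ n → TileMinor (K i) (K' (f i)))
    (h4 : ∀ i, i < n → ∀ t, f i ≤ t → t < f (i + 1) → c i ≤ c' t) (h5 : c n ≤ c' n')
    (h6 : ∀ i, i ≤ n → e i = e' (f i)) :
    ∃ φ : (Σ i : Fin (n + 1), (K i).V) → Set (Σ i : Fin (n' + 1), (K' i).V),
      (∀ v, ((StripG n' K' c' e').induce (φ v)).Connected) ∧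
      (∀ u v, u ≠ v → Disjoint (φ u) (φ v)) ∧
      (∀ u v, (StripG n K c e).Adj u v → ∃ a ∈ φ u, ∃ b ∈ φ v, (StripG n' K' c' e').Adj a b) ∧
      (∀ x l, (K x.1).G.2 x.2 l = true → ∃ z ∈ φ x, (K' z.1).G.2 z.2 l = true) ∧
      (∀ (i : Fin (n + 1)) (i' : Fin (n' + 1)) (t : Q), (i' : ℕ) = f i →
        spot K' i' t ∈ φ (spot K i t)) := by
  classical
  have hmono : ∀ i j, i ≤ j → j ≤ n → f i ≤ f j := by
    intro i j hij hj
    rcases Nat.lt_or_ge i j with h | h
    · exact (h2 i j h hj).le
    · have : i = j := by omega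
      rw [this]
  have hcl : ∀ t, t ≤ n' → c n ≤ c' t := by
    intro t ht
    rcases Nat.lt_or_ge t n' with h | h
    · exact h5.trans (hv'.1 t h).2.2.2
    · have : t = n' := by omega
      rw [this]; exact h5
  -- ports used in gaps exist
  have hrow : ∀ i, i ≤ n → ∀ t, t ≤ n' → Gap n f i t → c i ≤ (K' t).wl ∧ c i ≤ (K' t).wr := by
    intro i hi t ht hg
    have hpred : ∀ s, s + 1 = t → c i ≤ c' s → c i ≤ (K' t).wl := by
      rintro s rfl hs
      exact hs.trans (hv'.1 s (by omega)).2.2.1
    have hsucc : t < n' → c i ≤ c' t → c i ≤ (K' t).wr := fun h hs =>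
      hs.trans (hv'.1 t h).2.1
    rcases hg with ⟨g1, g2⟩ | ⟨g1, g2⟩
    · rcases Nat.lt_or_ge i n with hin | hin
      · have e2 := h1 (i + 1) (by omega)
        have e3 := g2 hin
        exact ⟨hpred (t - 1) (by omega) (h4 i hin (t - 1) (by omega) (by omega)),
          hsucc (by omega) (h4 i hin t (by omega) e3)⟩
      · have hin' : i = n := by omega
        subst hin'
        refine ⟨hpred (t - 1) (by omega) (hcl (t - 1) (by omega)), ?_⟩
        rcases Nat.lt_or_ge t n' with h | h
        · exact hsucc h (hcl t ht)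
        · have : t = n' := by omega
          rw [this]
          exact h5.trans hv'.2.1
    · subst g1
      have e0 := h1 0 (Nat.zero_le _)
      refine ⟨?_, hsucc (by omega) (hcl t ht)⟩
      rcases Nat.eq_zero_or_pos t with h | h
      · rw [h]
        exact h5.trans hv'.2.2
      · exact hpred (t - 1) (by omega) (hcl (t - 1) (by omega))
  have hgne : ∀ i i', i ≤ n → i' ≤ n → ¬ Gap n f i' (f i) := by
    intro i i' hi hi' hg
    have m1 := hmono 0 i (Nat.zero_le _) hi
    rcases hg with ⟨g1, g2⟩ | ⟨g1, g2⟩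
    · rcases Nat.lt_or_ge i' i with h | h
      · have := g2 (by omega)
        have := hmono (i' + 1) i (by omega) hi
        omega
      · have := hmono i i' h hi'
        omega
    · omega
  have hguniq : ∀ i i' t, i ≤ n → i' ≤ n → Gap n f i t → Gap n f i' t → i = i' := by
    intro i i' t hi hi' hg hg'
    have m1 := hmono 0 i (Nat.zero_le _) hi
    have m2 := hmono 0 i' (Nat.zero_le _) hi'
    rcases Nat.lt_trichotomy i i' with h | h | h
    · exfalso
      have m4 := hmono (i + 1) i' (by omega) hi'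
      simp only [Gap] at hg hg'
      omega
    · exact h
    · exfalso
      have m4 := hmono (i' + 1) i (by omega) hi
      simp only [Gap] at hg hg'
      omega
  -- the data
  let F : Fin (n + 1) → Fin (n' + 1) := fun i => ⟨f i, Nat.lt_succ_of_le (h1 i (by omega))⟩
  have hm : ∀ i : Fin (n + 1), TileMinor (K i) (K' (F i)) := fun i => h3 i (by omega)
  have hm3 : ∀ i : Fin (n + 1), _ := fun i => (hm i).2.2
  choose ψ p1 p2 p3 p4 p5 p6 p7 using hm3
  have hB : ∀ t : Fin (n' + 1), _ := fun t => (hT' t (by omega)).2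
  choose B' q1 q2 using hB
  have hq : ∀ (i : Fin (n + 1)) (t : Fin (n' + 1)) (j : ℕ), Gap n f i t → j < c i →
      ((K' t).G.1.2.induce (B' t j)).Connected ∧ (K' t).L j ∈ B' t j ∧ (K' t).R j ∈ B' t j := by
    intro i t j hg hj
    have := hrow i (by omega) t (by omega) hg
    exact q1 t j (by omega) (by omega)
  let Φ : (Σ i : Fin (n + 1), (K i).V) → Set (Σ i : Fin (n' + 1), (K' i).V) := fun x =>
    {z | (∃ v ∈ ψ x.1 x.2, z = ⟨F x.1, v⟩) ∨
      ∃ (t : Fin (n' + 1)) (j : ℕ), Gap n f x.1 t ∧ j < c x.1 ∧ (K x.1).R j = x.2 ∧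
        ∃ v ∈ B' t j, z = ⟨t, v⟩}
  have hFinj : ∀ i i' : Fin (n + 1), F i = F i' → i = i' := by
    intro i i' h
    have h' : f i = f i' := congrArg Fin.val h
    rcases Nat.lt_trichotomy i i' with h0 | h0 | h0
    · have := h2 i i' h0 (by omega)
      omega
    · exact Fin.ext h0
    · have := h2 i' i h0 (by omega)
      omega
  have hdis : ∀ x y, x ≠ y → Disjoint (Φ x) (Φ y) := by
    rintro ⟨i, u⟩ ⟨i', u'⟩ hxy
    rw [Set.disjoint_left]
    rintro z hz hz'
    apply hxy
    rcases hz with ⟨v, hv1, rfl⟩ | ⟨t, j, g1, g2, g3, v, hv1, rfl⟩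
    · rcases hz' with ⟨v', hv1', h⟩ | ⟨t', j', g1', g2', g3', v', hv1', h⟩
      · simp only [Sigma.mk.injEq] at h
        have h0 := hFinj _ _ h.1
        subst h0
        have h00 := eq_of_heq h.2
        subst h00
        by_contra hcon
        exact Set.disjoint_left.1 (p2 i u u' (fun h => hcon (by rw [h]))) hv1 hv1'
      · simp only [Sigma.mk.injEq] at h
        obtain ⟨h0, _⟩ := h
        subst h0
        exact absurd g1' (hgne i i' (by omega) (by omega))
    · rcases hz' with ⟨v', hv1', h⟩ | ⟨t', j', g1', g2', g3', v', hv1', h⟩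
      · simp only [Sigma.mk.injEq] at h
        obtain ⟨h0, _⟩ := h
        subst h0
        exact absurd g1 (hgne i' i (by omega) (by omega))
      · simp only [Sigma.mk.injEq] at h
        obtain ⟨h0, h00⟩ := h
        subst h0
        have h00 := eq_of_heq h00
        subst h00
        have h01 : i = i' := Fin.ext (hguniq i i' t (by omega) (by omega) g1 g1')
        subst h01
        have hr := hrow i (by omega) t (by omega) g1
        change j < c i at g2
        change j' < c i at g2'
        have hjj : j = j' := by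
          rcases Nat.lt_trichotomy j j' with h | h | h
          · exact absurd hv1' (Set.disjoint_left.1 (q2 t j j' h (by omega) (by omega)) hv1)
          · exact h
          · exact absurd hv1 (Set.disjoint_left.1 (q2 t j' j h (by omega) (by omega)) hv1')
        subst hjj
        change (K i).R j = u at g3
        change (K i).R j = u' at g3'
        rw [← g3, ← g3']
  refine ⟨Φ, ?_, hdis, ?_, ?_, ?_⟩
  · rintro ⟨i, u⟩
    have hin : (i : ℕ) ≤ n := by omega
    obtain ⟨⟨v0, hv0⟩⟩ := (p1 i u).nonempty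
    -- the part in the tile
    have hS0 : ((StripG n' K' c' e').induce ((fun v => (⟨F i, v⟩ : Σ i : Fin (n' + 1), (K' i).V)) ''
        ψ i u)).Connected := conn_image (p1 i u) _ (fun x y h => adj_in h)
    have hS0sub : ((fun v => (⟨F i, v⟩ : Σ i : Fin (n' + 1), (K' i).V)) '' ψ i u) ⊆ Φ ⟨i, u⟩ := by
      rintro _ ⟨v, hv, rfl⟩
      exact Or.inl ⟨v, hv, rfl⟩
    rw [SimpleGraph.connected_iff_exists_forall_reachable]
    refine ⟨⟨⟨F i, v0⟩, hS0sub ⟨v0, hv0, rfl⟩⟩, ?_⟩
    rintro ⟨z, hz⟩
    rcases hz with ⟨v, hv, rfl⟩ | ⟨t, j, g1, g2, g3, v, hv, rfl⟩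
    · exact reach_sub hS0 hS0sub ⟨v0, hv0, rfl⟩ ⟨v, hv, rfl⟩
    · change Gap n f i t at g1
      change j < c i at g2
      change (K i).R j = u at g3
      -- reachability of the right port of a tile
      let E : Fin (n' + 1) → Prop := fun s => ∃ hz : (⟨s, (K' s).R j⟩ : Σ i : Fin (n' + 1), (K' i).V) ∈
        Φ ⟨i, u⟩, ((StripG n' K' c' e').induce (Φ ⟨i, u⟩)).Reachable
          ⟨⟨F i, v0⟩, hS0sub ⟨v0, hv0, rfl⟩⟩ ⟨⟨s, (K' s).R j⟩, hz⟩
      have hwr : j < (K i).wr := by
        rcases Nat.lt_or_ge i n with h | h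
        · have := (hvs.1 i h).2.1
          omega
        · have h' : (i : ℕ) = n := by omega
          have := hvs.2.1
          rw [h'] at g2 ⊢
          omega
      have hE0 : E (F i) := by
        have h7 : (K' (F i)).R j ∈ ψ i u := by
          have := p7 i j hwr
          rw [g3] at this
          exact this
        exact ⟨hS0sub ⟨_, h7, rfl⟩, reach_sub hS0 hS0sub ⟨v0, hv0, rfl⟩ ⟨_, h7, rfl⟩⟩
      -- a gap tile is reached from the previous one
      have hstep : ∀ s s' : Fin (n' + 1), ((s' : ℕ) = s + 1 ∨ ((s : ℕ) = n' ∧ (s' : ℕ) = 0)) →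
          (hg : Gap n f i s') → j < c' s → E s → ∀ v (hv : v ∈ B' s' j),
          ((StripG n' K' c' e').induce (Φ ⟨i, u⟩)).Reachable
            ⟨⟨F i, v0⟩, hS0sub ⟨v0, hv0, rfl⟩⟩ ⟨⟨s', v⟩, Or.inr ⟨s', j, hg, g2, g3, v, hv, rfl⟩⟩ := by
        rintro s s' hss hg hjc ⟨hz, hr⟩ v hv
        obtain ⟨b1, b2, b3⟩ := hq i s' j hg g2
        have hSs : ((StripG n' K' c' e').induce
            ((fun v => (⟨s', v⟩ : Σ i : Fin (n' + 1), (K' i).V)) '' B' s' j)).Connected :=
          conn_image b1 _ (fun x y h => adj_in h)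
        have hSssub : ((fun v => (⟨s', v⟩ : Σ i : Fin (n' + 1), (K' i).V)) '' B' s' j) ⊆
            Φ ⟨i, u⟩ := by
          rintro _ ⟨v, hv, rfl⟩
          exact Or.inr ⟨s', j, hg, g2, g3, v, hv, rfl⟩
        refine hr.trans (SimpleGraph.Reachable.trans ?_
          (reach_sub hSs hSssub ⟨(K' s').L j, b2, rfl⟩ ⟨v, hv, rfl⟩))
        by_cases hne : (⟨s, (K' s).R j⟩ : Σ i : Fin (n' + 1), (K' i).V) = ⟨s', (K' s').L j⟩
        · have : (⟨⟨s, (K' s).R j⟩, hz⟩ : Φ ⟨i, u⟩) = ⟨⟨s', (K' s').L j⟩,
              hSssub ⟨(K' s').L j, b2, rfl⟩⟩ := Subtype.ext hne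
          rw [this]
        · apply SimpleGraph.Adj.reachable
          rw [SimpleGraph.induce_adj]
          exact adj_port hss ⟨hjc, hjc, Or.inl rfl⟩ hne
      have hstepE : ∀ s s' : Fin (n' + 1), ((s' : ℕ) = s + 1 ∨ ((s : ℕ) = n' ∧ (s' : ℕ) = 0)) →
          Gap n f i s' → j < c' s → E s → E s' := by
        intro s s' hss hg hjc hE
        obtain ⟨b1, b2, b3⟩ := hq i s' j hg g2
        exact ⟨_, hstep s s' hss hg hjc hE _ b3⟩
      -- to the right
      have hright : ∀ k (hk : f i + k < n' + 1), (k ≠ 0 → Gap n f i (f i + k)) →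
          E ⟨f i + k, hk⟩ := by
        intro k
        induction k with
        | zero => intro hk _; exact hE0
        | succ k ih =>
          intro hk hg
          have hg' := hg (by omega)
          have hprev : k ≠ 0 → Gap n f i (f i + k) := by
            intro hk0
            rcases hg' with ⟨g4, g5⟩ | ⟨g4, g5⟩
            · exact Or.inl ⟨by omega, fun h => by have := g5 h; omega⟩
            · exfalso
              have := hmono 0 i (Nat.zero_le _) hin
              omega
          have hcc : j < c' (f i + k) := by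
            rcases Nat.lt_or_ge i n with h | h
            · have hlt : f i + k < f (i + 1) := by
                rcases hg' with ⟨_, g5⟩ | ⟨g4, _⟩
                · have := g5 h
                  omega
                · omega
              have := h4 i h (f i + k) (by omega) hlt
              omega
            · have h' : (i : ℕ) = n := by omega
              have := hcl (f i + k) (by omega)
              rw [h'] at g2
              omega
          exact hstepE ⟨f i + k, by omega⟩ ⟨f i + (k + 1), hk⟩ (Or.inl (by simp; omega)) hg' hcc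
            (ih (by omega) hprev)
      rcases Nat.lt_or_ge (f i) t with hlt | hge
      · -- `t` is to the right
        have hg0 : (t : ℕ) - 1 ≠ f i → Gap n f i ((t : ℕ) - 1) := by
          intro hk0
          rcases g1 with ⟨g4, g5⟩ | ⟨g4, g5⟩
          · exact Or.inl ⟨by omega, fun h => by have := g5 h; omega⟩
          · exfalso
            have := hmono 0 i (Nat.zero_le _) hin
            omega
        have hE := hright ((t : ℕ) - 1 - f i) (by omega) (by
          intro h
          have e1 : f i + ((t : ℕ) - 1 - f i) = (t : ℕ) - 1 := by omega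
          rw [e1]
          exact hg0 (by omega))
        have hcc : j < c' ((t : ℕ) - 1) := by
          rcases Nat.lt_or_ge i n with h | h
          · have hlt' : (t : ℕ) - 1 < f (i + 1) := by
              rcases g1 with ⟨_, g5⟩ | ⟨g4, _⟩
              · have := g5 h
                omega
              · omega
            have := h4 i h ((t : ℕ) - 1) (by omega) hlt'
            omega
          · have h' : (i : ℕ) = n := by omega
            have := hcl ((t : ℕ) - 1) (by omega)
            rw [h'] at g2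
            omega
        have e1 : f i + ((t : ℕ) - 1 - f i) = (t : ℕ) - 1 := by omega
        have hE' : E ⟨(t : ℕ) - 1, by omega⟩ := by
          have e2 : (⟨f i + ((t : ℕ) - 1 - f i), by omega⟩ : Fin (n' + 1)) =
              ⟨(t : ℕ) - 1, by omega⟩ := Fin.ext e1
          rw [← e2]
          exact hE
        exact hstep ⟨(t : ℕ) - 1, by omega⟩ t (Or.inl (by simp; omega)) g1 hcc hE' v hv
      · -- around the end
        have hin'' : (i : ℕ) = n ∧ (t : ℕ) < f 0 := by
          rcases g1 with ⟨g4, g5⟩ | g4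
          · omega
          · exact g4
        obtain ⟨hin'', htf⟩ := hin''
        have hf0 := h1 0 (Nat.zero_le _)
        have hfi := h1 i hin
        have hlast : E ⟨n', by omega⟩ := by
          have hE := hright (n' - f i) (by omega) (by
            intro h
            have e1 : f i + (n' - f i) = n' := by omega
            rw [e1]
            exact Or.inl ⟨by omega, fun h => by omega⟩)
          have e2 : (⟨f i + (n' - f i), by omega⟩ : Fin (n' + 1)) = ⟨n', by omega⟩ :=
            Fin.ext (by simp; omega)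
          rw [← e2]
          exact hE
        have hcc : ∀ s, s ≤ n' → j < c' s := by
          intro s hs
          have := hcl s hs
          rw [hin''] at g2
          omega
        have hgl : ∀ s, s < f 0 → Gap n f i s := fun s hs => Or.inr ⟨hin'', hs⟩
        have hleft : ∀ k (hk : k < n' + 1), k < f 0 → E ⟨k, hk⟩ := by
          intro k
          induction k with
          | zero =>
            intro hk hk0
            exact hstepE ⟨n', by omega⟩ ⟨0, hk⟩ (Or.inr ⟨rfl, rfl⟩) (hgl 0 hk0)
              (hcc n' le_rfl) hlast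
          | succ k ih =>
            intro hk hk0
            exact hstepE ⟨k, by omega⟩ ⟨k + 1, hk⟩ (Or.inl rfl) (hgl _ hk0)
              (hcc k (by omega)) (ih (by omega) (by omega))
        rcases Nat.eq_zero_or_pos (t : ℕ) with h0 | h0
        · exact hstep ⟨n', by omega⟩ t (Or.inr ⟨rfl, h0⟩) g1 (hcc n' le_rfl) hlast v hv
        · exact hstep ⟨(t : ℕ) - 1, by omega⟩ t (Or.inl (by simp; omega)) g1
            (hcc _ (by omega)) (hleft _ (by omega) (by omega)) v hv
  · have key : ∀ x y : (Σ i : Fin (n + 1), (K i).V), x ≠ y →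
        ((∃ (i : Fin (n + 1)) (u v : (K i).V), x = ⟨i, u⟩ ∧ y = ⟨i, v⟩ ∧
          (K i).G.1.2.Adj u v) ∨
        (∃ (i i' : Fin (n + 1)) (j j' : ℕ), ((i' : ℕ) = i + 1 ∨ ((i : ℕ) = n ∧ (i' : ℕ) = 0)) ∧
          Joined (c i) (e i') j j' ∧ x = ⟨i, (K i).R j⟩ ∧ y = ⟨i', (K i').L j'⟩)) →
        ∃ a ∈ Φ x, ∃ b ∈ Φ y, (StripG n' K' c' e').Adj a b := by
      rintro x y hne (⟨i, u, v, rfl, rfl, h⟩ | ⟨i, i', j, j', hnx, hj, rfl, rfl⟩)
      · obtain ⟨a, ha, b, hb, hab⟩ := p3 i u v h
        exact ⟨⟨F i, a⟩, Or.inl ⟨a, ha, rfl⟩, ⟨F i, b⟩, Or.inl ⟨b, hb, rfl⟩, adj_in hab⟩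
      · have hjc := hj.1
        have hjc' := hj.2.1
        have hwr : j < (K i).wr := by
          rcases Nat.lt_or_ge i n with h | h
          · have := (hvs.1 i h).2.1
            omega
          · have h' : (i : ℕ) = n := by omega
            have := hvs.2.1
            rw [h'] at hjc ⊢
            omega
        have hwl : j' < (K i').wl := by
          rcases hnx with h | ⟨h, h'⟩
          · have := (hvs.1 i (by omega)).2.2.1
            rw [h]
            omega
          · have := hvs.2.2
            rw [h] at hjc'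
            rw [h']
            omega
        -- the tile before `F i'`
        have hbefore : ∃ t : Fin (n' + 1), ((F i' : ℕ) = t + 1 ∨ ((t : ℕ) = n' ∧ (F i' : ℕ) = 0)) ∧
            (t = F i ∨ Gap n f i t) ∧ c i ≤ c' t := by
          rcases hnx with h | ⟨h, h'⟩
          · have m := h2 i i' (by omega) (by omega)
            have e0 := h1 i' (by omega)
            refine ⟨⟨f i' - 1, by omega⟩, Or.inl (by simp [F]; omega), ?_, ?_⟩
            · rcases Nat.lt_or_ge (f i) (f i' - 1) with h0 | h0
              · exact Or.inr (Or.inl ⟨h0, fun _ => by rw [← h]; simp; omega⟩)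
              · exact Or.inl (Fin.ext (by simp [F]; omega))
            · exact h4 i (by omega) (f i' - 1) (by omega) (by rw [← h]; omega)
          · have e0 := h1 i' (by omega)
            rcases Nat.eq_zero_or_pos (f i') with h0 | h0
            · refine ⟨⟨n', by omega⟩, Or.inr ⟨rfl, h0⟩, ?_, ?_⟩
              · have e1 := h1 i (by omega)
                rcases Nat.lt_or_ge (f i) n' with h3 | h3
                · exact Or.inr (Or.inl ⟨h3, fun h => by omega⟩)
                · exact Or.inl (Fin.ext (by simp [F]; omega))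
              · rw [h]
                exact h5
            · refine ⟨⟨f i' - 1, by omega⟩, Or.inl (by simp [F]; omega), ?_, ?_⟩
              · refine Or.inr (Or.inr ⟨h, ?_⟩)
                rw [← h']
                simp
                omega
              · have := hcl (f i' - 1) (by omega)
                rw [h]
                exact this
        obtain ⟨t, ht1, ht2, ht3⟩ := hbefore
        have ha : (⟨t, (K' t).R j⟩ : Σ i : Fin (n' + 1), (K' i).V) ∈ Φ ⟨i, (K i).R j⟩ := by
          rcases ht2 with h | h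
          · subst h
            exact Or.inl ⟨_, p7 i j hwr, rfl⟩
          · exact Or.inr ⟨t, j, h, hjc, rfl, _, (hq i t j h hjc).2.2, rfl⟩
        have hb : (⟨F i', (K' (F i')).L j'⟩ : Σ i : Fin (n' + 1), (K' i).V) ∈
            Φ ⟨i', (K i').L j'⟩ := Or.inl ⟨_, p6 i' j' hwl, rfl⟩
        refine ⟨_, ha, _, hb, adj_port ht1 ?_ ?_⟩
        · have h8 : e i' = e' (F i') := h6 i' (by omega)
          rw [← h8]
          exact ⟨by omega, by omega, hj.2.2⟩
        · intro h
          rw [h] at ha
          exact Set.disjoint_left.1 (hdis _ _ hne) ha hb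
    rintro x y ⟨hne, h | h⟩
    · exact key x y hne h
    · obtain ⟨a, ha, b, hb, hab⟩ := key y x hne.symm h
      exact ⟨b, hb, a, ha, hab.symm⟩
  · rintro ⟨i, u⟩ l h
    obtain ⟨a, ha, hal⟩ := p4 i u l h
    exact ⟨⟨F i, a⟩, Or.inl ⟨a, ha, rfl⟩, hal⟩
  · intro i i' t hii
    have : i' = F i := Fin.ext hii
    subst this
    exact Or.inl ⟨_, p5 i t, rfl⟩

end Pool.Agent.Bqp.Strip
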