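import Pool.Agent.Bqp.Main

set_option autoImplicit false

namespace Pool.Agent.Bqp

theorem enum_range (Y : Set ℕ) (hY : Y.Infinite) :
    ∃ e : ℕ → ℕ, StrictMono e ∧ Set.range e = Y :=
  ⟨Nat.nth (· ∈ Y), Nat.nth_strictMono hY,
    (Nat.range_nth_of_infinite (p := fun x => x ∈ Y) hY).trans rfl⟩

theorem locConst_image {α : Type*} {c : Set ℕ → α} (hc : LocConst c) {e : ℕ → ℕ}
    (he : StrictMono e) : LocConst (fun X => c (e '' X)) := by
  intro X hX
  obtain ⟨N, hN⟩ := hc (e '' X) (hX.image he.injective.injOn)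
  refine ⟨N, fun Z hZ hXZ => hN _ (hZ.image he.injective.injOn) (fun k hk => ?_)⟩
  constructor
  · rintro ⟨j, hj, rfl⟩
    exact ⟨j, (hXZ j (lt_of_le_of_lt (he.le_apply) hk)).1 hj, rfl⟩
  · rintro ⟨j, hj, rfl⟩
    exact ⟨j, (hXZ j (lt_of_le_of_lt (he.le_apply) hk)).2 hj, rfl⟩

theorem ramsey_rel {α : Type*} [Finite α] {c : Set ℕ → α} (hc : LocConst c) {Y : Set ℕ}
    (hY : Y.Infinite) :
    ∃ Z : Set ℕ, Z ⊆ Y ∧ Z.Infinite ∧ ∃ v, ∀ X : Set ℕ, X ⊆ Z → X.Infinite → c X = v := by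
  obtain ⟨e, he, hr⟩ := enum_range Y hY
  obtain ⟨Y', hY', v, hv⟩ := ramsey (locConst_image hc he)
  refine ⟨e '' Y', ?_, hY'.image he.injective.injOn, v, fun X hX hXi => ?_⟩
  · rw [← hr]; exact Set.image_subset_range _ _
  · obtain ⟨X', hX', rfl⟩ := (Set.subset_image_iff).1 hX
    exact hv X' hX' (Set.Infinite.of_image e hXi)

theorem tl_subset (X : Set ℕ) : tl X ⊆ X := Set.sdiff_subset

theorem locConst_tl {α : Type*} {c : Set ℕ → α} (hc : LocConst c) : LocConst (fun X => c (tl X)) := by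
  intro X hX
  obtain ⟨N, hN⟩ := hc (tl X) (tl_infinite hX)
  refine ⟨max N (sInf X + 1), fun Y hY hXY => hN _ (tl_infinite hY) ?_⟩
  have hmX : sInf X ∈ X := Nat.sInf_mem hX.nonempty
  have hmY : sInf X ∈ Y := (hXY _ (lt_of_lt_of_le (Nat.lt_succ_self _) (le_max_right _ _))).1 hmX
  have h1 : sInf Y = sInf X := by
    apply le_antisymm (Nat.sInf_le hmY)
    by_contra hcon
    push Not at hcon
    have h2 : sInf Y ∈ Y := Nat.sInf_mem hY.nonempty
    have h3 : sInf Y ∈ X := (hXY _ (by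
      apply lt_of_lt_of_le (lt_trans hcon (Nat.lt_succ_self _)) (le_max_right _ _))).2 h2
    exact absurd (Nat.sInf_le h3) (by omega)
  intro k hk
  simp only [tl, h1, Set.mem_sdiff, Set.mem_singleton_iff]
  rw [hXY k (lt_of_lt_of_le hk (le_max_left _ _))]

theorem locConst_comp {α β : Type*} {c : Set ℕ → α} (hc : LocConst c) (F : α → β) :
    LocConst (fun X => F (c X)) := by
  intro X hX
  obtain ⟨N, hN⟩ := hc X hX
  exact ⟨N, fun Y hY hXY => by simp only [hN Y hY hXY]⟩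

theorem locConst_pair {α β : Type*} {c : Set ℕ → α} {d : Set ℕ → β} (hc : LocConst c)
    (hd : LocConst d) : LocConst (fun X => (c X, d X)) := by
  intro X hX
  obtain ⟨N, hN⟩ := hc X hX
  obtain ⟨M, hM⟩ := hd X hX
  exact ⟨max N M, fun Y hY hXY => by
    simp only [hN Y hY (fun k hk => hXY k (lt_of_lt_of_le hk (le_max_left _ _))),
      hM Y hY (fun k hk => hXY k (lt_of_lt_of_le hk (le_max_right _ _)))]⟩

theorem no_desc (c : Set ℕ → ℕ) {Y : Set ℕ} (hY : Y.Infinite)
    (h : ∀ X : Set ℕ, X ⊆ Y → X.Infinite → c (tl X) < c X) : False := by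
  have key : ∀ n : ℕ, ∀ X : Set ℕ, X ⊆ Y → X.Infinite → c X = n → False := by
    intro n
    induction n using Nat.strong_induction_on with
    | _ n ih =>
      intro X hX hXi hn
      exact ih (c (tl X)) (by rw [← hn]; exact h X hX hXi) (tl X) ((tl_subset X).trans hX)
        (tl_infinite hXi) rfl
  exact key _ Y le_rfl hY rfl

theorem bound_rel {a : Set ℕ → ℕ} (ha : LocConst a) (G : ℕ → ℕ) {Y : Set ℕ} (hY : Y.Infinite)
    (h : ∀ X : Set ℕ, X ⊆ Y → X.Infinite → a (tl X) < G (a X)) :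
    ∃ Z : Set ℕ, Z ⊆ Y ∧ Z.Infinite ∧ ∃ B, ∀ X : Set ℕ, X ⊆ Z → X.Infinite → a X ≤ B := by
  classical
  let G' : ℕ → ℕ := fun b => (Finset.range (b + 1)).sup G
  have hG' : ∀ x b, x ≤ b → G x ≤ G' b := fun x b hxb =>
    Finset.le_sup (f := G) (Finset.mem_range.2 (by omega))
  obtain ⟨N, hN⟩ := ha Y hY
  have hZi : (Y ∩ {j | N ≤ j}).Infinite := by
    rw [Set.infinite_iff_exists_gt] at hY ⊢
    intro b
    obtain ⟨x, hx, hbx⟩ := hY (max b N)
    exact ⟨x, ⟨hx, le_trans (le_max_right _ _) hbx.le⟩, lt_of_le_of_lt (le_max_left _ _) hbx⟩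
  refine ⟨Y ∩ {j | N ≤ j}, Set.inter_subset_left, hZi, ?_⟩
  have key : ∀ k, k ≤ N → ∃ B : ℕ, ∀ T : Set ℕ, T ⊆ Y ∩ {j | N ≤ j} → T.Infinite →
      a ((Y ∩ {j | k ≤ j ∧ j < N}) ∪ T) ≤ B := by
    intro k
    induction k with
    | zero =>
      intro _
      refine ⟨a Y, fun T hT hTi => ?_⟩
      rw [hN _ (hTi.mono Set.subset_union_right) (fun k hk => by
        constructor
        · intro hkY; exact Or.inl ⟨hkY, Nat.zero_le _, hk⟩
        · rintro (h1 | h1)
          · exact h1.1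
          · exact (hT h1).1)]
    | succ k ih =>
      intro hk
      obtain ⟨B, hB⟩ := ih (by omega)
      refine ⟨max B (G' B), fun T hT hTi => ?_⟩
      by_cases hkY : k ∈ Y
      · have hsub : (Y ∩ {j | k ≤ j ∧ j < N}) ∪ T ⊆ Y :=
          Set.union_subset Set.inter_subset_left (hT.trans Set.inter_subset_left)
        have hinf : ((Y ∩ {j | k ≤ j ∧ j < N}) ∪ T).Infinite := hTi.mono Set.subset_union_right
        have hmin : sInf ((Y ∩ {j | k ≤ j ∧ j < N}) ∪ T) = k := by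
          apply le_antisymm
          · exact Nat.sInf_le (Or.inl ⟨hkY, le_rfl, by omega⟩)
          · apply le_csInf hinf.nonempty
            rintro b (⟨_, h1, _⟩ | h1)
            · exact h1
            · have := (hT h1).2
              simp only [Set.mem_ofPred_eq] at this
              omega
        have heq : (Y ∩ {j | k + 1 ≤ j ∧ j < N}) ∪ T = tl ((Y ∩ {j | k ≤ j ∧ j < N}) ∪ T) := by
          ext j
          simp only [tl, hmin, Set.mem_sdiff, Set.mem_union, Set.mem_inter_iff, Set.mem_ofPred_eq,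
            Set.mem_singleton_iff]
          constructor
          · rintro (⟨h1, h2, h3⟩ | h1)
            · exact ⟨Or.inl ⟨h1, by omega, h3⟩, by omega⟩
            · have := (hT h1).2
              simp only [Set.mem_ofPred_eq] at this
              exact ⟨Or.inr h1, by omega⟩
          · rintro ⟨⟨h1, h2, h3⟩ | h1, h4⟩
            · exact Or.inl ⟨h1, by omega, h3⟩
            · exact Or.inr h1
        rw [heq]
        exact (h _ hsub hinf).le.trans ((hG' _ _ (hB T hT hTi)).trans (le_max_right _ _))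
      · have heq : (Y ∩ {j | k + 1 ≤ j ∧ j < N}) ∪ T = (Y ∩ {j | k ≤ j ∧ j < N}) ∪ T := by
          ext j
          simp only [Set.mem_union, Set.mem_inter_iff, Set.mem_ofPred_eq]
          constructor
          · rintro (⟨h1, h2, h3⟩ | h1)
            · exact Or.inl ⟨h1, by omega, h3⟩
            · exact Or.inr h1
          · rintro (⟨h1, h2, h3⟩ | h1)
            · refine Or.inl ⟨h1, ?_, h3⟩
              rcases Nat.lt_or_ge k j with h4 | h4
              · exact h4
              · exact absurd ((le_antisymm h4 h2) ▸ h1) hkY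
            · exact Or.inr h1
        rw [heq]
        exact (hB T hT hTi).trans (le_max_left _ _)
  obtain ⟨B, hB⟩ := key N le_rfl
  refine ⟨B, fun T hT hTi => ?_⟩
  have h1 := hB T hT hTi
  have h2 : (Y ∩ {j | N ≤ j ∧ j < N}) ∪ T = T := by
    ext j
    simp only [Set.mem_union, Set.mem_inter_iff, Set.mem_ofPred_eq]
    constructor
    · rintro (⟨_, h3, h4⟩ | h3)
      · omega
      · exact h3
    · intro h3; exact Or.inr h3
  rwa [h2] at h1

/-- disjoint union of a finite family of graphs -/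
def DU {r : ℕ} (K : Fin r → FG) : SimpleGraph (Σ i : Fin r, Fin (K i).1) where
  Adj x y := ∃ (i : Fin r) (a b : Fin (K i).1), x = ⟨i, a⟩ ∧ y = ⟨i, b⟩ ∧ (K i).2.Adj a b
  symm := by
    constructor
    rintro x y ⟨i, a, b, hx, hy, h⟩
    exact ⟨i, b, a, hy, hx, h.symm⟩
  loopless := by
    constructor
    rintro x ⟨i, a, b, hx, hy, h⟩
    rw [hx] at hy
    simp only [Sigma.mk.injEq, heq_eq_eq, true_and] at hy
    subst hy
    exact (K i).2.loopless.irrefl a h

/-- `G` is a finite disjoint union of graphs of the class `C` (up to isomorphism). -/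
def UnionOf (C : FG → Prop) (G : FG) : Prop :=
  ∃ (r : ℕ) (K : Fin r → FG), (∀ i, C (K i)) ∧ Nonempty (G.2 ≃g DU K)

theorem union_minor {G H : FG} {r s : ℕ} {K : Fin r → FG} {L : Fin s → FG}
    (e : G.2 ≃g DU K) (e' : H.2 ≃g DU L) (σ : Fin r → Fin s) (hσ : Function.Injective σ)
    (hm : ∀ i, Minor (K i) (L (σ i))) : Minor G H := by
  classical
  choose φ hφ1 hφ2 hφ3 using hm
  have key : ∀ x : (Σ i : Fin r, Fin (K i).1),
      (H.2.induce {w | ∃ b ∈ φ x.1 x.2, e' w = ⟨σ x.1, b⟩}).Connected := by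
    rintro ⟨i, a⟩
    have hc := hφ1 i a
    let F : ((L (σ i)).2.induce (φ i a)) →g (H.2.induce {w | ∃ b ∈ φ i a, e' w = ⟨σ i, b⟩}) :=
      { toFun := fun x => ⟨e'.symm ⟨σ i, x.1⟩, x.1, x.2, by simp⟩
        map_rel' := by
          intro x y hxy
          rw [SimpleGraph.induce_adj] at hxy ⊢
          rw [e'.symm.map_adj_iff]
          exact ⟨σ i, x.1, y.1, rfl, rfl, hxy⟩ }
    have hF : Function.Surjective F := by
      rintro ⟨w, b, hb, hw⟩
      refine ⟨⟨b, hb⟩, ?_⟩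
      apply Subtype.ext
      change e'.symm ⟨σ i, b⟩ = w
      rw [← hw]; simp
    exact SimpleGraph.Connected.map F hF hc
  refine ⟨fun v => {w | ∃ b ∈ φ (e v).1 (e v).2, e' w = ⟨σ (e v).1, b⟩}, ?_, ?_, ?_⟩
  · intro v
    exact key (e v)
  · intro v v' hvv'
    rw [Set.disjoint_left]
    rintro w ⟨b, hb, hw⟩ ⟨b', hb', hw'⟩
    rw [hw] at hw'
    apply hvv'
    apply e.injective
    generalize hx : e v = x at *
    generalize hy : e v' = y at *
    obtain ⟨i, a⟩ := x
    obtain ⟨j, a'⟩ := y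
    simp only [Sigma.mk.injEq] at hw'
    obtain ⟨h1, h2⟩ := hw'
    have hij := hσ h1
    subst hij
    simp only [heq_eq_eq] at h2
    subst h2
    by_contra hne
    have hne' : a ≠ a' := fun h => hne (by rw [h])
    exact Set.disjoint_left.1 (hφ2 i a a' hne') hb hb'
  · intro v v' hadj
    rw [← e.map_adj_iff] at hadj
    obtain ⟨i, a, b, h1, h2, h3⟩ := hadj
    obtain ⟨x, hx, y, hy, hxy⟩ := hφ3 i a b h3
    refine ⟨e'.symm ⟨σ i, x⟩, ?_, e'.symm ⟨σ i, y⟩, ?_, ?_⟩
    · change ∃ b ∈ φ (e v).1 (e v).2, e' (e'.symm ⟨σ i, x⟩) = ⟨σ (e v).1, b⟩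
      rw [h1]; exact ⟨x, hx, by simp⟩
    · change ∃ b ∈ φ (e v').1 (e v').2, e' (e'.symm ⟨σ i, y⟩) = ⟨σ (e v').1, b⟩
      rw [h2]; exact ⟨y, hy, by simp⟩
    · rw [e'.symm.map_adj_iff]; exact ⟨σ i, x, y, rfl, rfl, hxy⟩

end Pool.Agent.Bqp
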